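import Pool.Agent.H4NC.StmA

set_option autoImplicit false

open MeasureTheory Set Function Filter Topology
open scoped ENNReal ContDiff

namespace Pool.Agent.H4NC.A1

open Pool.Agent.H4NC

theorem sm {κ : ℝ} (hκ : 0 < κ) :
    ContDiffOn ℝ ∞ (fun q : ℝ × ℝ => wk κ q.1 q.2) (Ioi 0 ×ˢ univ) := by
  intro q hq
  have hq1 : 0 < q.1 := hq.1
  apply ContDiffAt.contDiffWithinAt
  unfold wk
  refine ContDiffAt.mul ?_ ?_
  · exact contDiffAt_fst.rpow_const_of_ne hq1.ne'
  · refine ContDiffAt.exp (ContDiffAt.neg (ContDiffAt.div ?_ ?_ ?_))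
    · exact (ContDiffAt.sin (contDiffAt_const.mul contDiffAt_snd)).pow 2
    · exact contDiffAt_const.mul contDiffAt_fst
    · exact (mul_pos hκ hq1).ne'

theorem t : Pool.Agent.H4NC.A1 := by
  intro κ τ hκ hτ
  have hkt : 0 < κ * τ := mul_pos hκ hτ
  have dS : ∀ y : ℝ, HasDerivAt (fun y => Real.sin (Real.pi * y)) (Real.cos (Real.pi * y) * Real.pi) y := by
    intro y
    have h1 : HasDerivAt (fun y : ℝ => Real.pi * y) Real.pi y := by
      simpa using (hasDerivAt_id y).const_mul Real.pi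
    exact h1.sin
  have dwk : ∀ y, HasDerivAt (wk κ τ) (wy κ τ y) y := by
    intro y
    have h2 : HasDerivAt (fun y => -(Real.sin (Real.pi * y) ^ 2 / (κ * τ)))
        (-((2 * Real.sin (Real.pi * y) * (Real.cos (Real.pi * y) * Real.pi)) / (κ * τ))) y := by
      have h0 := (((dS y).pow 2).div_const (κ * τ)).neg
      refine HasDerivAt.congr_deriv h0 ?_
      push_cast
      ring
    have h3 := h2.exp.const_mul (τ ^ (-(1 / 2) : ℝ))
    refine HasDerivAt.congr_deriv (f := wk κ τ) h3 ?_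
    show _ = wy κ τ y
    unfold wy wk
    have : Real.sin (2 * Real.pi * y) = 2 * Real.sin (Real.pi * y) * Real.cos (Real.pi * y) := by
      rw [mul_assoc, Real.sin_two_mul]
    rw [this]
    ring
  refine ⟨?_, ?_, ?_, dwk, ?_, ?_, sm hκ⟩
  · intro y
    unfold wk
    exact mul_pos (Real.rpow_pos_of_pos hτ _) (Real.exp_pos _)
  · intro y
    unfold wk
    have : Real.sin (Real.pi * (y + 1)) = -Real.sin (Real.pi * y) := by
      rw [mul_add, mul_one, Real.sin_add_pi]
    rw [this, neg_sq]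
  · have h1 : ContDiff ℝ ∞ (fun y : ℝ => ((τ, y) : ℝ × ℝ)) := contDiff_const.prodMk contDiff_id
    rw [contDiff_iff_contDiffAt]
    intro y
    have h2 : ContDiffAt ℝ ∞ (fun q : ℝ × ℝ => wk κ q.1 q.2) (τ, y) :=
      (sm hκ).contDiffAt ((isOpen_Ioi.prod isOpen_univ).mem_nhds ⟨hτ, mem_univ _⟩)
    exact h2.comp y h1.contDiffAt
  · intro y
    have h1 : HasDerivAt (fun y : ℝ => 2 * Real.pi * y) (2 * Real.pi) y := by
      simpa using (hasDerivAt_id y).const_mul (2 * Real.pi)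
    have h2 : HasDerivAt (fun y => -(Real.pi * Real.sin (2 * Real.pi * y) / (κ * τ)))
        (-(Real.pi * (Real.cos (2 * Real.pi * y) * (2 * Real.pi)) / (κ * τ))) y :=
      ((h1.sin.const_mul Real.pi).div_const (κ * τ)).neg
    have h3 := h2.mul (dwk y)
    refine HasDerivAt.congr_deriv (f := wy κ τ) h3 ?_
    show _ = wyy κ τ y
    unfold wyy wy
    ring
  · intro y
    have h1 : HasDerivAt (fun τ : ℝ => τ ^ (-(1 / 2) : ℝ)) (-(1 / 2) * τ ^ (-(1 / 2) - 1 : ℝ)) τ :=
      Real.hasDerivAt_rpow_const (Or.inl hτ.ne')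
    have h2 : HasDerivAt (fun τ : ℝ => -(Real.sin (Real.pi * y) ^ 2 / (κ * τ)))
        (Real.sin (Real.pi * y) ^ 2 / (κ * τ ^ 2)) τ := by
      have h4 : HasDerivAt (fun τ : ℝ => κ * τ) κ τ := by
        simpa using (hasDerivAt_id τ).const_mul κ
      have h0 := ((hasDerivAt_const τ (Real.sin (Real.pi * y) ^ 2)).div h4 hkt.ne').neg
      refine HasDerivAt.congr_deriv h0 ?_
      field_simp
      ring
    have h3 := h1.mul h2.exp
    refine HasDerivAt.congr_deriv (f := fun τ => wk κ τ y) h3 ?_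
    show _ = wt κ τ y
    unfold wt wk
    have e1 : τ ^ (-(1 / 2) - 1 : ℝ) = τ ^ (-(1 / 2) : ℝ) / τ := by
      rw [Real.rpow_sub hτ, Real.rpow_one]
    rw [e1]
    field_simp
    ring

end Pool.Agent.H4NC.A1
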