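import Pool.Agent.H4NC.StmA

/-! Stub A10 of project NC: `L^{s'} ⊆ L^{s,1}` on a bounded interval for `s < s'`. -/

set_option autoImplicit false

open MeasureTheory Set Function Filter Topology
open scoped ENNReal ContDiff

namespace Pool.Agent.H4NC.A10

theorem t : A10 := by
  intro s s' g T hs hss hint
  have hs' : 0 < s' := hs.trans hss
  unfold Lz
  set μ : Measure ℝ := volume.restrict (Ioo (0 : ℝ) T) with hμ
  have hA : ∫⁻ t, ENNReal.ofReal (|g t| ^ s') ∂μ < ⊤ := Integrable.lintegral_lt_top hint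
  set A : ℝ≥0∞ := ∫⁻ t, ENNReal.ofReal (|g t| ^ s') ∂μ with hAdef
  have hset : ∀ lam : ℝ, volume {t | t ∈ Ioo 0 T ∧ lam < |g t|} = μ {t | lam < |g t|} := by
    intro lam
    rw [hμ, Measure.restrict_apply' measurableSet_Ioo]
    congr 1
    ext t
    exact and_comm
  have hmeas : AEMeasurable (fun t => ENNReal.ofReal (|g t| ^ s')) μ :=
    (Integrable.aestronglyMeasurable hint).aemeasurable.ennreal_ofReal
  have hcheb : ∀ lam : ℝ, 0 < lam →
      μ {t | lam < |g t|} ≤ A / ENNReal.ofReal (lam ^ s') := by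
    intro lam hlam
    have h1 := mul_meas_ge_le_lintegral₀ hmeas (ENNReal.ofReal (lam ^ s'))
    have h0 : ENNReal.ofReal (lam ^ s') ≠ 0 := by
      rw [Ne, ENNReal.ofReal_eq_zero, not_le]
      exact Real.rpow_pos_of_pos hlam _
    rw [ENNReal.le_div_iff_mul_le (Or.inl h0) (Or.inl ENNReal.ofReal_ne_top), mul_comm]
    refine le_trans ?_ h1
    gcongr
    intro ht
    exact ENNReal.ofReal_le_ofReal (Real.rpow_le_rpow hlam.le (le_of_lt ht) hs'.le)
  have hsplit : Ioi (0 : ℝ) = Ioc 0 1 ∪ Ioi 1 := (Ioc_union_Ioi_eq_Ioi zero_le_one).symm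
  rw [hsplit]
  refine ne_top_of_le_ne_top ?_ (lintegral_union_le _ _ _)
  refine ENNReal.add_ne_top.2 ⟨?_, ?_⟩
  · have h1 : ∫⁻ lam in Ioc (0 : ℝ) 1, (volume {t | t ∈ Ioo 0 T ∧ lam < |g t|}) ^ (1 / s)
        ≤ ∫⁻ _ in Ioc (0 : ℝ) 1, (volume (Ioo 0 T)) ^ (1 / s) := by
      refine lintegral_mono (fun lam => ?_)
      refine ENNReal.rpow_le_rpow (measure_mono (fun t ht => ht.1)) (by positivity)
    refine ne_top_of_le_ne_top ?_ h1
    rw [lintegral_const, Measure.restrict_apply MeasurableSet.univ, univ_inter, Real.volume_Ioc,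
      Real.volume_Ioo]
    refine ENNReal.mul_ne_top ?_ ENNReal.ofReal_ne_top
    exact ENNReal.rpow_ne_top_of_nonneg (by positivity) ENNReal.ofReal_ne_top
  · have h1 : ∫⁻ lam in Ioi (1 : ℝ), (volume {t | t ∈ Ioo 0 T ∧ lam < |g t|}) ^ (1 / s)
        ≤ ∫⁻ lam in Ioi (1 : ℝ), A ^ (1 / s) * ENNReal.ofReal (lam ^ (-(s' / s))) := by
      refine setLIntegral_mono' measurableSet_Ioi (fun lam hlam => ?_)
      have hl : (0 : ℝ) < lam := lt_trans one_pos hlam
      rw [hset]
      refine (ENNReal.rpow_le_rpow (hcheb lam hl) (by positivity)).trans ?_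
      rw [ENNReal.div_rpow_of_nonneg _ _ (by positivity), div_eq_mul_inv]
      gcongr
      rw [ENNReal.ofReal_rpow_of_nonneg (by positivity) (by positivity), ← Real.rpow_mul hl.le,
        ← ENNReal.ofReal_inv_of_pos (Real.rpow_pos_of_pos hl _), ← Real.rpow_neg hl.le]
      refine ENNReal.ofReal_le_ofReal (le_of_eq ?_)
      congr 1
      ring
    refine ne_top_of_le_ne_top ?_ h1
    rw [lintegral_const_mul' _ _ (ENNReal.rpow_ne_top_of_nonneg (by positivity) hA.ne)]
    refine ENNReal.mul_ne_top (ENNReal.rpow_ne_top_of_nonneg (by positivity) hA.ne) ?_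
    have h2 : IntegrableOn (fun lam : ℝ => lam ^ (-(s' / s))) (Ioi 1) := by
      refine integrableOn_Ioi_rpow_of_lt ?_ one_pos
      have : 1 < s' / s := by rw [lt_div_iff₀ hs]; linarith
      linarith
    exact (Integrable.lintegral_lt_top h2).ne

end Pool.Agent.H4NC.A10
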