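import Mathlib

/-!
Project NC (scale-critical criterion): statements which need Mathlib only.
A stub `X` is proved as `theorem Pool.Agent.H4NC.X.t : Pool.Agent.H4NC.X` in
`Pool/Agent/H4NC/X.lean`; hypotheses listed in the docstring as allowed may be added
(`theorem t (h : A4) : B1`).
-/

set_option autoImplicit false

open MeasureTheory Set Function Filter Topology
open scoped ENNReal ContDiff

namespace Pool.Agent.H4NC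

/-- The kernel `τ^{-1/2} exp(-sin²(π y)/(κ τ))`. -/
noncomputable def wk (κ τ y : ℝ) : ℝ :=
  τ ^ (-(1 / 2) : ℝ) * Real.exp (-(Real.sin (Real.pi * y) ^ 2 / (κ * τ)))

/-- Its derivative in `y`. -/
noncomputable def wy (κ τ y : ℝ) : ℝ :=
  -(Real.pi * Real.sin (2 * Real.pi * y) / (κ * τ)) * wk κ τ y

/-- Its second derivative in `y`. -/
noncomputable def wyy (κ τ y : ℝ) : ℝ :=
  ((Real.pi * Real.sin (2 * Real.pi * y) / (κ * τ)) ^ 2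
    - 2 * Real.pi ^ 2 * Real.cos (2 * Real.pi * y) / (κ * τ)) * wk κ τ y

/-- Its derivative in `τ`. -/
noncomputable def wt (κ τ y : ℝ) : ℝ :=
  (Real.sin (Real.pi * y) ^ 2 / (κ * τ ^ 2) - 1 / (2 * τ)) * wk κ τ y

/-- A1. Calculus. -/
def A1 : Prop := ∀ κ τ : ℝ, 0 < κ → 0 < τ →
  (∀ y, 0 < wk κ τ y) ∧ (∀ y, wk κ τ (y + 1) = wk κ τ y) ∧ ContDiff ℝ ∞ (wk κ τ) ∧
  (∀ y, HasDerivAt (wk κ τ) (wy κ τ y) y) ∧ (∀ y, HasDerivAt (wy κ τ) (wyy κ τ y) y) ∧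
  (∀ y, HasDerivAt (fun τ => wk κ τ y) (wt κ τ y) τ) ∧
  ContDiffOn ℝ ∞ (fun q : ℝ × ℝ => wk κ q.1 q.2) (Ioi 0 ×ˢ univ)

/-- A2. The kernel is almost a supersolution. With `S = sin²(π y)`, `κ = 4π²ν` the quotient of the
left side by the kernel is `S/τ - S²/(κτ²) ≤ κ/4` (use `sin(2πy)² = 4 S (1-S)`,
`cos(2πy) = 1 - 2S`). -/
def A2 : Prop := ∀ ν τ y : ℝ, 0 < ν → 0 < τ →
  -wt (4 * Real.pi ^ 2 * ν) τ y + ν * wyy (4 * Real.pi ^ 2 * ν) τ y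
    ≤ Real.pi ^ 2 * ν * wk (4 * Real.pi ^ 2 * ν) τ y

/-- A4. Domination of the derivative. Proof: let `z = |sin πy|/√τ`, `z' = |sin π(y+h)|/√τ ≤ z + π`
(as `|sin(a+b)| ≤ |sin a| + |sin b|`, `|sin πh| ≤ π|h| ≤ π√τ`), so `z'² ≤ 3/2 z² + 3π²`. Now
`|wy| ≤ (2π/κ) τ^{-1/2} z wk` (as `sin 2πy = 2 sin cos`), `wk = τ^{-1/2} e^{-z²/κ}`, and the product
of powers on the right is `τ^{-1/2} exp(-lam z'²/κ - (1-lam) z²/(4κ))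
≥ τ^{-1/2} exp(-(7/8) z²/κ - 3π²/(2κ))` since `(3/2) lam + (1-lam)/4 ≤ 7/8` for `lam ≤ 1/2`.
Finally `z ≤ 1 + z² ≤ (1 + 8κ) exp(z²/(8κ))`. -/
def A4 : Prop := ∀ κ : ℝ, 0 < κ → ∃ C : ℝ, 0 ≤ C ∧ ∀ τ h lam y : ℝ, 0 < τ → τ ≤ 1 → |h| ≤ √τ →
  0 ≤ lam → lam ≤ 1 / 2 →
  |wy κ τ y| ≤ C * (τ ^ (-(1 / 2) : ℝ) * (wk κ τ (y + h) ^ lam * wk (4 * κ) τ y ^ (1 - lam)))

/-- A5. Integrals of powers. `∫_0^1 = ∫_{-1/2}^{1/2}` (periodicity, shift), `|sin πy| ≥ 2|y|` there,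
and a Gaussian integral over ℝ. -/
def A5 : Prop := ∀ κ P : ℝ, 0 < κ → 1 ≤ P → ∃ C : ℝ, 0 ≤ C ∧ ∀ τ z : ℝ, 0 < τ → τ ≤ 1 →
  ∫ y in Icc (0 : ℝ) 1, wk κ τ (y - z) ^ P ≤ C * τ ^ ((1 - P) / 2)

/-- The Lorentz functional `‖N‖_{L^{s,1}(t0,T)}` (up to a constant). -/
noncomputable def Lz (s : ℝ) (N : ℝ → ℝ) (t0 T : ℝ) : ℝ≥0∞ :=
  ∫⁻ lam in Ioi (0 : ℝ), (volume {t | t ∈ Ioo t0 T ∧ lam < N t}) ^ (1 / s)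

/-- A7. The time integral. Layer cake: `N^p = ∫_0^∞ p lam^{p-1} 1_{lam < N} dlam`, Tonelli, for a
measurable set `E ⊆ (-∞, t1)` of measure `m`: `∫_E (t1-t)^{-α} dt ≤ ∫_0^m σ^{-α} dσ = m^{1-α}/(1-α)`
with `α = 1 - p/s ∈ (0,1)` (split `E` at `t1 - m`), and with `φ(lam) = m(lam)^{1/s}` nonincreasing
`lam φ(lam) ≤ ∫_0^∞ φ`, so `∫ lam^{p-1} φ^p ≤ (∫ φ)^p`. -/
def A7 : Prop := ∀ s p : ℝ, 1 ≤ p → p < s → ∃ C : ℝ, 0 ≤ C ∧ ∀ (N : ℝ → ℝ) (t0 T t1 : ℝ),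
  T ≤ t1 → (∀ t ∈ Ioo t0 T, 0 ≤ N t) → AEMeasurable N (volume.restrict (Ioo t0 T)) →
  ∫⁻ t in Ioo t0 T, ENNReal.ofReal ((t1 - t) ^ (p / s - 1) * N t ^ p)
    ≤ ENNReal.ofReal C * Lz s N t0 T ^ p

/-- A8. Smallness of the tail (dominated convergence for `lintegral`, the measure of
`{t ∈ (t0,T) : lam < N}` is at most `T - t0`). -/
def A8 : Prop := ∀ (s : ℝ) (N : ℝ → ℝ) (T : ℝ), 0 < s → 0 < T →
  AEMeasurable N (volume.restrict (Ioo 0 T)) → Lz s N 0 T ≠ ⊤ →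
  ∀ ε : ℝ≥0∞, 0 < ε → ∀ tm < T, ∃ t0 : ℝ, tm < t0 ∧ 0 < t0 ∧ t0 < T ∧ Lz s N t0 T ≤ ε

/-- A9. `L^{s,1} ⊆ L^s` (layer cake as in A7 with `p = s`, without the kernel). -/
def A9 : Prop := ∀ (s : ℝ) (N : ℝ → ℝ) (T : ℝ), 1 ≤ s → (∀ t ∈ Ioo 0 T, 0 ≤ N t) →
  AEMeasurable N (volume.restrict (Ioo 0 T)) → Lz s N 0 T ≠ ⊤ →
  IntegrableOn (fun t => N t ^ s) (Ioo 0 T)

/-- A10. `L^{s'} ⊆ L^{s,1}` for `s < s'` (Chebyshev for `lam ≥ 1`). -/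
def A10 : Prop := ∀ (s s' : ℝ) (g : ℝ → ℝ) (T : ℝ), 0 < s → s < s' →
  IntegrableOn (fun t => |g t| ^ s') (Ioo 0 T) → Lz s (fun t => |g t|) 0 T ≠ ⊤

/-- A11. `K (1 + |g|)` is in the Lorentz space if `g` is, and null sets do not matter. -/
def A11 : Prop := ∀ (s : ℝ) (g N : ℝ → ℝ) (T K : ℝ), 0 < s → 0 < K →
  Lz s (fun t => |g t|) 0 T ≠ ⊤ → (∀ᵐ t ∂(volume.restrict (Ioo 0 T)), N t = K * (1 + |g t|)) →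
  Lz s N 0 T ≠ ⊤

/-- A12. Young's inequality for all the terms. Here `1/s = (1 - 1/a - 2/r)/2`,
`P = 2r/(r-2)`, `β = q/(q-1) (1/2 + 1/(2a'))`. Each product is absorbed with Young's inequality:
the first with exponents `r, r/(r-1)`: `(M τ^{-(1/2+1/(2a))})^{r'} = M^{r'} τ^{r'/s-1}`; the second
with `2, 2`: `M² τ^{2/s-1}`; the third is `M τ^{1/s-1} D`; the fourth with `q, q/(q-1)`: `τ^{-β}`;
the fifth with exponents `r`, `2` and `P`: `(M τ^{-1/(2a)})^P = M^P τ^{P/s-1}`; the sixth with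
`1/(1/2+1/r)` and `P`; and for `ξ = M τ^{1/s}` and `1 ≤ p ≤ P`: `ξ^p ≤ ξ + ξ^P`
(`r' ≤ 2 ≤ P`). -/
def A12 : Prop := ∀ a r q a' ε C0 : ℝ, 2 < a → 2 < r → 1 / a + 2 / r < 1 → 2 < q → 2 < a' →
  0 < ε → 0 ≤ C0 → ∃ C : ℝ, 0 ≤ C ∧ ∀ M τ D J Y : ℝ, 1 ≤ M → 0 < τ → τ ≤ 1 → 1 ≤ D → 0 ≤ J → 0 ≤ Y →
  C0 * (M * τ ^ (-(1 / 2 + 1 / (2 * a))) * (D ^ (1 - 1 / r) * J ^ (1 / r))
      + M * τ ^ (-(1 / (2 * a) + 1 / r)) * (√D * √J)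
      + M * τ ^ (-(1 / 2 + 1 / (2 * a) + 1 / r)) * D
      + τ ^ (-(1 / 2 + 1 / (2 * a'))) * (D ^ (1 - 1 / q) * J ^ (1 / q))
      + M * τ ^ (-(1 / (2 * a))) * (D ^ (1 / 2 - 1 / r) * (J ^ (1 / r) * √Y))
      + M * τ ^ (-(1 / (2 * a))) * (D ^ (1 / 2 - 1 / r) * Y ^ (1 / 2 + 1 / r)))
    ≤ ε * J + C * (Y + D * (1 + τ ^ (-(q / (q - 1) * (1 / 2 + 1 / (2 * a'))))
      + M * τ ^ ((1 - 1 / a - 2 / r) / 2 - 1)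
      + M ^ (2 * r / (r - 2)) * τ ^ (2 * r / (r - 2) * ((1 - 1 / a - 2 / r) / 2) - 1)))

end Pool.Agent.H4NC
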