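import Mathlib
import Pool.Agent.H4NC.StmA

set_option autoImplicit false

open MeasureTheory Set Function Filter Topology
open scoped ENNReal

namespace Pool.Agent.H4NC.A11

/-- the layer function -/
noncomputable def lay (s : ℝ) (N : ℝ → ℝ) (t0 T lam : ℝ) : ℝ≥0∞ :=
  (volume {t | t ∈ Ioo t0 T ∧ lam < N t}) ^ (1 / s)

lemma lay_meas (s : ℝ) (hs : 0 < s) (N : ℝ → ℝ) (t0 T : ℝ) : Measurable (lay s N t0 T) := by
  apply Antitone.measurable
  intro a b hab
  unfold lay
  apply ENNReal.rpow_le_rpow _ (by positivity)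
  apply measure_mono
  intro t ht
  exact ⟨ht.1, lt_of_le_of_lt hab ht.2⟩

lemma lay_len (s : ℝ) (hs : 0 < s) (N : ℝ → ℝ) (t0 T lam : ℝ) :
    lay s N t0 T lam ≤ (ENNReal.ofReal (T - t0)) ^ (1 / s) := by
  unfold lay
  apply ENNReal.rpow_le_rpow _ (by positivity)
  calc volume {t | t ∈ Ioo t0 T ∧ lam < N t} ≤ volume (Ioo t0 T) :=
        measure_mono fun t ht => ht.1
    _ = ENNReal.ofReal (T - t0) := Real.volume_Ioo

/-- scaling of an integral over the half line -/
lemma scale (f : ℝ → ℝ≥0∞) (hf : Measurable f) (c : ℝ) (hc : 0 < c) :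
    ∫⁻ x in Ioi (0 : ℝ), f (c * x) = ENNReal.ofReal c⁻¹ * ∫⁻ x in Ioi (0 : ℝ), f x := by
  have h1 : ∫⁻ x in Ioi (0 : ℝ), f (c * x) = ∫⁻ x, (Ioi (0 : ℝ)).indicator f (c * x) := by
    rw [← lintegral_indicator measurableSet_Ioi]
    apply lintegral_congr
    intro x
    by_cases hx : 0 < x
    · have : 0 < c * x := mul_pos hc hx
      simp [indicator, hx, this]
    · have : ¬ 0 < c * x := by
        intro h
        exact hx (pos_of_mul_pos_right h hc.le)
      simp [indicator, hx, this]
  have h2 : ∫⁻ x, (Ioi (0 : ℝ)).indicator f (c * x)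
      = ∫⁻ x, (Ioi (0 : ℝ)).indicator f x ∂(Measure.map (c * ·) volume) := by
    rw [lintegral_map (hf.indicator measurableSet_Ioi) (measurable_const_mul c)]
  rw [h1, h2, Real.map_volume_mul_left hc.ne', lintegral_smul_measure,
    lintegral_indicator measurableSet_Ioi, abs_of_pos (inv_pos.mpr hc), smul_eq_mul]

theorem t : Pool.Agent.H4NC.A11 := by
  intro s g N T K hs hK hfin hN
  have hle : ∀ lam : ℝ, lay s N 0 T lam
      ≤ (Iic (2 * K)).indicator (fun _ => (ENNReal.ofReal (T - 0)) ^ (1 / s)) lam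
        + lay s (fun t => |g t|) 0 T ((2 * K)⁻¹ * lam) := by
    intro lam
    by_cases hl : lam ≤ 2 * K
    · calc lay s N 0 T lam ≤ (ENNReal.ofReal (T - 0)) ^ (1 / s) := lay_len s hs N 0 T lam
        _ ≤ _ := by
            rw [indicator_of_mem (show lam ∈ Iic (2 * K) from hl)]
            exact le_self_add
    · rw [indicator_of_notMem (show lam ∉ Iic (2 * K) from hl), zero_add]
      push Not at hl
      unfold lay
      apply ENNReal.rpow_le_rpow _ (by positivity)
      apply measure_mono_ae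
      have h3 := ae_restrict_iff' (measurableSet_Ioo : MeasurableSet (Ioo (0 : ℝ) T)) |>.mp hN
      filter_upwards [h3] with t ht hmem
      have hmem' : t ∈ Ioo 0 T ∧ lam < N t := hmem
      refine ⟨hmem'.1, ?_⟩
      have h4 := hmem'.2
      rw [ht hmem'.1] at h4
      show (2 * K)⁻¹ * lam < |g t|
      have h5 : lam / K < 1 + |g t| := by
        rw [div_lt_iff₀ hK]
        linarith
      have h6 : (2 * K)⁻¹ * lam = lam / K - lam / K / 2 := by
        field_simp
        ring
      have h7 : 2 < lam / K := by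
        rw [lt_div_iff₀ hK]
        linarith
      rw [h6]
      linarith
  have hK2 : 0 < (2 * K)⁻¹ := by positivity
  have hbound : Lz s N 0 T ≤ (∫⁻ lam in Ioi (0 : ℝ),
      (Iic (2 * K)).indicator (fun _ => (ENNReal.ofReal (T - 0)) ^ (1 / s)) lam)
        + ENNReal.ofReal ((2 * K)⁻¹)⁻¹ * Lz s (fun t => |g t|) 0 T := by
    calc Lz s N 0 T = ∫⁻ lam in Ioi (0 : ℝ), lay s N 0 T lam := rfl
      _ ≤ ∫⁻ lam in Ioi (0 : ℝ), ((Iic (2 * K)).indicator
            (fun _ => (ENNReal.ofReal (T - 0)) ^ (1 / s)) lam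
            + lay s (fun t => |g t|) 0 T ((2 * K)⁻¹ * lam)) := lintegral_mono hle
      _ = (∫⁻ lam in Ioi (0 : ℝ),
            (Iic (2 * K)).indicator (fun _ => (ENNReal.ofReal (T - 0)) ^ (1 / s)) lam)
          + ∫⁻ lam in Ioi (0 : ℝ), lay s (fun t => |g t|) 0 T ((2 * K)⁻¹ * lam) := by
            rw [lintegral_add_left (measurable_const.indicator measurableSet_Iic)]
      _ = _ := by
            rw [scale _ (lay_meas s hs _ 0 T) _ hK2]
            rfl
  refine ne_top_of_le_ne_top ?_ hbound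
  apply ENNReal.add_ne_top.mpr
  constructor
  · rw [lintegral_indicator measurableSet_Iic, setLIntegral_const]
    apply ENNReal.mul_ne_top
    · exact ENNReal.rpow_ne_top_of_nonneg (by positivity) ENNReal.ofReal_ne_top
    · rw [Measure.restrict_apply measurableSet_Iic]
      have : Iic (2 * K) ∩ Ioi (0 : ℝ) = Ioc 0 (2 * K) := by
        ext x
        simp only [mem_inter_iff, mem_Iic, mem_Ioi, mem_Ioc]
        tauto
      rw [this, Real.volume_Ioc]
      exact ENNReal.ofReal_ne_top
  · exact ENNReal.mul_ne_top ENNReal.ofReal_ne_top hfin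

end Pool.Agent.H4NC.A11
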