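import Pool.Agent.H4NC.StmA

set_option autoImplicit false

open MeasureTheory Set Function Filter Topology
open scoped ENNReal ContDiff

namespace Pool.Agent.H4NC.A12

/-- Young's inequality for two factors. -/
theorem y2 {θ X D J δ c : ℝ} (h0 : 0 < θ) (h1 : θ < 1) (hX : 0 ≤ X) (hD : 0 ≤ D) (hJ : 0 ≤ J)
    (hδ : 0 < δ) (hc : 0 ≤ c) :
    c * (X * (D ^ (1 - θ) * J ^ θ))
      ≤ δ * J + (c * δ ^ (-θ)) ^ (1 / (1 - θ)) * (X ^ (1 / (1 - θ)) * D) := by
  have hθ : 0 < 1 - θ := by linarith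
  have hne : 1 / (1 - θ) * (1 - θ) = 1 := by field_simp
  set L : ℝ := (c * δ ^ (-θ)) ^ (1 / (1 - θ)) * (X ^ (1 / (1 - θ)) * D) with hL
  have hL0 : 0 ≤ L := by positivity
  have k1 := Real.geom_mean_le_arith_mean2_weighted (w₁ := 1 - θ) (w₂ := θ) (p₁ := L)
    (p₂ := δ * J) hθ.le h0.le hL0 (by positivity) (by ring)
  have e : L ^ (1 - θ) * (δ * J) ^ θ = c * (X * (D ^ (1 - θ) * J ^ θ)) := by
    rw [hL, Real.mul_rpow (by positivity) (by positivity), Real.mul_rpow (by positivity) hD,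
      ← Real.rpow_mul (by positivity), ← Real.rpow_mul hX, hne, Real.rpow_one, Real.rpow_one,
      Real.mul_rpow hδ.le hJ, Real.rpow_neg hδ.le]
    have : δ ^ θ ≠ 0 := (Real.rpow_pos_of_pos hδ _).ne'
    field_simp
  rw [e] at k1
  have l1 : (1 - θ) * L ≤ 1 * L := mul_le_mul_of_nonneg_right (by linarith) hL0
  have l2 : θ * (δ * J) ≤ 1 * (δ * J) := mul_le_mul_of_nonneg_right h1.le (by positivity)
  linarith

/-- Young's inequality for three factors. -/
theorem y3 {α θ γ X D J Y δ c : ℝ} (ha : 0 < α) (h0 : 0 < θ) (hγ : 0 < γ)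
    (hs : α + θ + γ = 1) (hX : 0 ≤ X) (hD : 0 ≤ D) (hJ : 0 ≤ J) (hY : 0 ≤ Y)
    (hδ : 0 < δ) (hc : 0 ≤ c) :
    c * (X * (D ^ α * (J ^ θ * Y ^ γ)))
      ≤ δ * J + Y + (c * δ ^ (-θ)) ^ (1 / α) * (X ^ (1 / α) * D) := by
  have hne : 1 / α * α = 1 := by field_simp
  set L : ℝ := (c * δ ^ (-θ)) ^ (1 / α) * (X ^ (1 / α) * D) with hL
  have hL0 : 0 ≤ L := by positivity
  have k1 := Real.geom_mean_le_arith_mean3_weighted (w₁ := α) (w₂ := θ) (w₃ := γ) (p₁ := L)
    (p₂ := δ * J) (p₃ := Y) ha.le h0.le hγ.le hL0 (by positivity) hY hs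
  have e : L ^ α * (δ * J) ^ θ * Y ^ γ = c * (X * (D ^ α * (J ^ θ * Y ^ γ))) := by
    rw [hL, Real.mul_rpow (by positivity) (by positivity), Real.mul_rpow (by positivity) hD,
      ← Real.rpow_mul (by positivity), ← Real.rpow_mul hX, hne, Real.rpow_one, Real.rpow_one,
      Real.mul_rpow hδ.le hJ, Real.rpow_neg hδ.le]
    have : δ ^ θ ≠ 0 := (Real.rpow_pos_of_pos hδ _).ne'
    field_simp
  rw [e] at k1
  have l1 : α * L ≤ 1 * L := mul_le_mul_of_nonneg_right (by linarith) hL0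
  have l2 : θ * (δ * J) ≤ 1 * (δ * J) := mul_le_mul_of_nonneg_right (by linarith) (by positivity)
  have l3 : γ * Y ≤ 1 * Y := mul_le_mul_of_nonneg_right (by linarith) hY
  linarith

theorem rpow_between {ξ p P : ℝ} (hξ : 0 ≤ ξ) (h1 : 1 ≤ p) (h2 : p ≤ P) : ξ ^ p ≤ ξ + ξ ^ P := by
  rcases le_or_gt ξ 1 with h | h
  · rcases eq_or_lt_of_le hξ with h0 | h0
    · rw [← h0, Real.zero_rpow (by linarith), Real.zero_rpow (by linarith)]
      simp
    · have l1 := Real.rpow_le_rpow_of_exponent_ge h0 h h1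
      rw [Real.rpow_one] at l1
      have l2 := Real.rpow_nonneg hξ P
      linarith
  · have l1 := Real.rpow_le_rpow_of_exponent_le h.le h2
    linarith

theorem t : A12 := by
  intro a r q a' ε C0 ha hr hs hq ha' hε hC0
  have ha0 : 0 < a := by linarith
  have hr0 : 0 < r := by linarith
  have hq0 : 0 < q := by linarith
  have ha'0 : 0 < a' := by linarith
  have hr2 : 0 < r - 2 := by linarith
  have hr1 : 0 < r - 1 := by linarith
  have hq1 : 0 < q - 1 := by linarith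
  obtain ⟨σ, hσ⟩ : ∃ σ, σ = (1 - 1 / a - 2 / r) / 2 := ⟨_, rfl⟩
  obtain ⟨P, hP⟩ : ∃ P, P = 2 * r / (r - 2) := ⟨_, rfl⟩
  have hσ0 : 0 < σ := by rw [hσ]; linarith
  have hP2 : 2 < P := by
    rw [hP, lt_div_iff₀ hr2]
    linarith
  have hr_lt : 1 / r < 1 / 2 := one_div_lt_one_div_of_lt (by norm_num) hr
  have hr_pos : 0 < 1 / r := by positivity
  have hq_lt : 1 / q < 1 / 2 := one_div_lt_one_div_of_lt (by norm_num) hq
  have hq_pos : 0 < 1 / q := by positivity
  set δ : ℝ := ε / 4 with hδ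
  have hδ0 : 0 < δ := by positivity
  set K1 : ℝ := (C0 * δ ^ (-(1 / r))) ^ (1 / (1 - 1 / r)) with hK1
  set K2 : ℝ := (C0 * δ ^ (-(1 / 2 : ℝ))) ^ (1 / (1 - 1 / 2 : ℝ)) with hK2
  set K4 : ℝ := (C0 * δ ^ (-(1 / q))) ^ (1 / (1 - 1 / q)) with hK4
  set K5 : ℝ := (C0 * δ ^ (-(1 / r))) ^ (1 / (1 / 2 - 1 / r)) with hK5
  set K6 : ℝ := (C0 * (1 : ℝ) ^ (-(1 / 2 + 1 / r))) ^ (1 / (1 - (1 / 2 + 1 / r))) with hK6
  have h10 : 0 ≤ K1 := by positivity
  have h20 : 0 ≤ K2 := by positivity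
  have h40 : 0 ≤ K4 := by positivity
  have h50 : 0 ≤ K5 := by positivity
  have h60 : 0 ≤ K6 := by positivity
  refine ⟨K1 + K2 + C0 + K4 + K5 + K6 + 2, by positivity, ?_⟩
  intro M τ D J Y hM hτ hτ1 hD hJ hY
  have hM0 : 0 < M := by linarith
  have hD0 : 0 < D := by linarith
  rw [← hσ, ← hP]
  -- the common quantities
  set ξ : ℝ := M * τ ^ σ with hξ
  have hξ0 : 0 < ξ := by positivity
  set F : ℝ := M * τ ^ (σ - 1) with hF
  set G : ℝ := M ^ P * τ ^ (P * σ - 1) with hG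
  set B : ℝ := τ ^ (-(q / (q - 1) * (1 / 2 + 1 / (2 * a')))) with hB
  have hF0 : 0 < F := by positivity
  have hG0 : 0 < G := by positivity
  have hB0 : 0 < B := by positivity
  have hpow : ∀ p : ℝ, M ^ p * τ ^ (p * σ - 1) = ξ ^ p * τ ^ (-1 : ℝ) := by
    intro p
    rw [hξ, Real.mul_rpow hM0.le (by positivity), ← Real.rpow_mul hτ.le, mul_assoc,
      ← Real.rpow_add hτ]
    congr 2
    ring
  have hF' : F = ξ * τ ^ (-1 : ℝ) := by
    have := hpow 1
    rw [Real.rpow_one, Real.rpow_one, one_mul] at this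
    rw [hF, this]
  have hG' : G = ξ ^ P * τ ^ (-1 : ℝ) := hpow P
  have hbet : ∀ p : ℝ, 1 ≤ p → p ≤ P → M ^ p * τ ^ (p * σ - 1) ≤ F + G := by
    intro p h1 h2
    rw [hpow, hF', hG', ← add_mul]
    exact mul_le_mul_of_nonneg_right (rpow_between hξ0.le h1 h2) (by positivity)
  -- the first term
  have t1 : C0 * (M * τ ^ (-(1 / 2 + 1 / (2 * a))) * (D ^ (1 - 1 / r) * J ^ (1 / r)))
      ≤ δ * J + K1 * ((F + G) * D) := by
    have k := y2 (θ := 1 / r) (X := M * τ ^ (-(1 / 2 + 1 / (2 * a)))) (D := D) (J := J) (δ := δ)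
      (c := C0) hr_pos (by linarith) (by positivity) hD0.le hJ hδ0 hC0
    refine k.trans ?_
    have e : (M * τ ^ (-(1 / 2 + 1 / (2 * a)))) ^ (1 / (1 - 1 / r))
        = M ^ (1 / (1 - 1 / r)) * τ ^ (1 / (1 - 1 / r) * σ - 1) := by
      rw [Real.mul_rpow hM0.le (by positivity), ← Real.rpow_mul hτ.le]
      congr 2
      have : 1 - 1 / r ≠ 0 := by
        have : 0 < 1 - 1 / r := by linarith
        exact this.ne'
      rw [hσ]
      have h3 : 1 / (1 - 1 / r) = r / (r - 1) := by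
        field_simp
      rw [h3]
      field_simp
      ring
    rw [e]
    have l1 : 1 ≤ 1 / (1 - 1 / r) := by
      rw [le_div_iff₀ (by linarith)]
      linarith
    have l2 : 1 / (1 - 1 / r) ≤ P := by
      refine le_trans ?_ hP2.le
      rw [div_le_iff₀ (by linarith)]
      linarith
    have l3 := hbet _ l1 l2
    have l4 := mul_le_mul_of_nonneg_left (mul_le_mul_of_nonneg_right l3 hD0.le) h10
    linarith
  -- the second term
  have t2 : C0 * (M * τ ^ (-(1 / (2 * a) + 1 / r)) * (√D * √J))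
      ≤ δ * J + K2 * ((F + G) * D) := by
    have k := y2 (θ := (1 / 2 : ℝ)) (X := M * τ ^ (-(1 / (2 * a) + 1 / r))) (D := D) (J := J)
      (δ := δ) (c := C0) (by norm_num) (by norm_num) (by positivity) hD0.le hJ hδ0 hC0
    have e1 : (1 - 1 / 2 : ℝ) = 1 / 2 := by norm_num
    rw [Real.sqrt_eq_rpow, Real.sqrt_eq_rpow]
    rw [e1] at k
    rw [hK2, e1]
    refine k.trans ?_
    have e : (M * τ ^ (-(1 / (2 * a) + 1 / r))) ^ (1 / (1 / 2 : ℝ))
        = M ^ (2 : ℝ) * τ ^ (2 * σ - 1) := by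
      have e2 : (1 / (1 / 2 : ℝ)) = 2 := by norm_num
      rw [e2, Real.mul_rpow hM0.le (by positivity), ← Real.rpow_mul hτ.le]
      congr 2
      rw [hσ]
      field_simp
      ring
    rw [e]
    have l3 := hbet 2 (by norm_num) hP2.le
    have l5 : 0 ≤ (C0 * δ ^ (-(1 / 2 : ℝ))) ^ (1 / (1 / 2 : ℝ)) := by positivity
    have l4 := mul_le_mul_of_nonneg_left (mul_le_mul_of_nonneg_right l3 hD0.le) l5
    linarith
  -- the third term
  have t3 : C0 * (M * τ ^ (-(1 / 2 + 1 / (2 * a) + 1 / r)) * D) ≤ C0 * ((F + G) * D) := by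
    refine mul_le_mul_of_nonneg_left (mul_le_mul_of_nonneg_right ?_ hD0.le) hC0
    have e : M * τ ^ (-(1 / 2 + 1 / (2 * a) + 1 / r)) = F := by
      rw [hF]
      congr 2
      rw [hσ]
      field_simp
      ring
    rw [e]
    linarith
  -- the fourth term
  have t4 : C0 * (τ ^ (-(1 / 2 + 1 / (2 * a'))) * (D ^ (1 - 1 / q) * J ^ (1 / q)))
      ≤ δ * J + K4 * (B * D) := by
    have k := y2 (θ := 1 / q) (X := τ ^ (-(1 / 2 + 1 / (2 * a')))) (D := D) (J := J) (δ := δ)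
      (c := C0) hq_pos (by linarith) (by positivity) hD0.le hJ hδ0 hC0
    refine k.trans ?_
    have e : (τ ^ (-(1 / 2 + 1 / (2 * a')))) ^ (1 / (1 - 1 / q)) = B := by
      rw [← Real.rpow_mul hτ.le, hB]
      congr 1
      have h3 : 1 / (1 - 1 / q) = q / (q - 1) := by
        field_simp
      rw [h3]
      ring
    rw [e]
  -- the fifth term
  have t5 : C0 * (M * τ ^ (-(1 / (2 * a))) * (D ^ (1 / 2 - 1 / r) * (J ^ (1 / r) * √Y)))
      ≤ δ * J + Y + K5 * (G * D) := by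
    have k := y3 (α := 1 / 2 - 1 / r) (θ := 1 / r) (γ := (1 / 2 : ℝ))
      (X := M * τ ^ (-(1 / (2 * a)))) (D := D) (J := J) (Y := Y) (δ := δ)
      (c := C0) (by linarith) hr_pos (by norm_num) (by ring) (by positivity) hD0.le hJ hY hδ0 hC0
    rw [Real.sqrt_eq_rpow]
    refine k.trans ?_
    have e : (M * τ ^ (-(1 / (2 * a)))) ^ (1 / (1 / 2 - 1 / r)) = G := by
      have h3 : 1 / (1 / 2 - 1 / r) = P := by
        rw [hP]
        have : 1 / 2 - 1 / r = (r - 2) / (2 * r) := by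
          field_simp
        rw [this, one_div_div]
      rw [h3, Real.mul_rpow hM0.le (by positivity), ← Real.rpow_mul hτ.le, hG]
      congr 2
      rw [hσ, hP]
      field_simp
      ring
    rw [e]
  -- the sixth term
  have t6 : C0 * (M * τ ^ (-(1 / (2 * a))) * (D ^ (1 / 2 - 1 / r) * Y ^ (1 / 2 + 1 / r)))
      ≤ 1 * Y + K6 * (G * D) := by
    have k := y2 (θ := 1 / 2 + 1 / r) (X := M * τ ^ (-(1 / (2 * a)))) (D := D) (J := Y)
      (δ := 1) (c := C0) (by linarith) (by linarith) (by positivity) hD0.le hY one_pos hC0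
    have e1 : 1 - (1 / 2 + 1 / r) = 1 / 2 - 1 / r := by ring
    rw [e1] at k
    rw [hK6, e1]
    refine k.trans ?_
    have e : (M * τ ^ (-(1 / (2 * a)))) ^ (1 / (1 / 2 - 1 / r)) = G := by
      have h3 : 1 / (1 / 2 - 1 / r) = P := by
        rw [hP]
        have : 1 / 2 - 1 / r = (r - 2) / (2 * r) := by
          field_simp
        rw [this, one_div_div]
      rw [h3, Real.mul_rpow hM0.le (by positivity), ← Real.rpow_mul hτ.le, hG]
      congr 2
      rw [hσ, hP]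
      field_simp
      ring
    rw [e]
  have e4 : 4 * δ = ε := by rw [hδ]; ring
  have n1 : 0 ≤ F * D := by positivity
  have n2 : 0 ≤ G * D := by positivity
  have n3 : 0 ≤ B * D := by positivity
  have n4 : 0 ≤ K1 * (B * D) := by positivity
  have n5 : 0 ≤ K2 * (B * D) := by positivity
  have n6 : 0 ≤ C0 * (B * D) := by positivity
  have n7 : 0 ≤ K4 * (F * D) := by positivity
  have n8 : 0 ≤ K4 * (G * D) := by positivity
  have n9 : 0 ≤ K5 * (F * D) := by positivity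
  have n10 : 0 ≤ K5 * (B * D) := by positivity
  have n11 : 0 ≤ K6 * (F * D) := by positivity
  have n12 : 0 ≤ K6 * (B * D) := by positivity
  have n13 : 0 ≤ (K1 + K2 + C0 + K4 + K5 + K6) * Y := by positivity
  have n14 : 0 ≤ (K1 + K2 + C0 + K4 + K5 + K6) * D := by positivity
  have e5 : (K1 + K2 + C0 + K4 + K5 + K6 + 2) * (Y + D * (1 + B + F + G))
      = 2 * Y + (K1 + K2 + C0 + K4 + K5 + K6) * Y + (K1 + K2 + C0 + K4 + K5 + K6) * D + 2 * D
        + 2 * (F * D) + 2 * (G * D) + 2 * (B * D)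
        + (K1 * ((F + G) * D) + K2 * ((F + G) * D) + C0 * ((F + G) * D))
        + (K1 * (B * D) + K2 * (B * D) + C0 * (B * D))
        + (K4 * (B * D) + K4 * (F * D) + K4 * (G * D))
        + (K5 * (G * D) + K5 * (F * D) + K5 * (B * D))
        + (K6 * (G * D) + K6 * (F * D) + K6 * (B * D)) := by ring
  rw [e5]
  have e6 : ε * J = 4 * (δ * J) := by rw [← e4]; ring
  rw [e6, mul_add, mul_add, mul_add, mul_add, mul_add]
  linarith

end Pool.Agent.H4NC.A12
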