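import Pool.Agent.H4NC.StmA

/-!
Stub A2 of project NC: the kernel is almost a supersolution.
-/

set_option autoImplicit false

namespace Pool.Agent.H4NC.A2

open Real

theorem t : Pool.Agent.H4NC.A2 := by
  intro ν τ y hν hτ
  set κ : ℝ := 4 * Real.pi ^ 2 * ν with hκ
  have hpi : 0 < Real.pi := Real.pi_pos
  have hκ0 : 0 < κ := by positivity
  have hw : 0 < wk κ τ y := by
    unfold wk
    positivity
  set S : ℝ := Real.sin (Real.pi * y) ^ 2 with hS
  have hc : Real.cos (Real.pi * y) ^ 2 = 1 - S := by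
    have := Real.sin_sq_add_cos_sq (Real.pi * y)
    linarith
  have hs2 : Real.sin (2 * Real.pi * y) ^ 2 = 4 * S * (1 - S) := by
    have : 2 * Real.pi * y = 2 * (Real.pi * y) := by ring
    rw [this, Real.sin_two_mul, ← hc, hS]
    ring
  have hc2 : Real.cos (2 * Real.pi * y) = 1 - 2 * S := by
    have : 2 * Real.pi * y = 2 * (Real.pi * y) := by ring
    rw [this, Real.cos_two_mul, hc]
    ring
  have e : -wt κ τ y + ν * wyy κ τ y = (S / τ - S ^ 2 / (κ * τ ^ 2)) * wk κ τ y := by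
    unfold wt wyy
    rw [← hS, hc2, div_pow, mul_pow, hs2]
    have hν' : ν = κ / (4 * Real.pi ^ 2) := by
      rw [hκ]
      field_simp
    rw [hν']
    field_simp
    ring
  rw [e]
  refine mul_le_mul_of_nonneg_right ?_ hw.le
  have h : κ / 4 - (S / τ - S ^ 2 / (κ * τ ^ 2)) = κ * (1 / 2 - S / (κ * τ)) ^ 2 := by
    field_simp
    ring
  have h2 : 0 ≤ κ * (1 / 2 - S / (κ * τ)) ^ 2 := by positivity
  have h3 : κ / 4 = Real.pi ^ 2 * ν := by
    rw [hκ]
    ring
  linarith

end Pool.Agent.H4NC.A2
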