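import Pool.Agent.H4NC.StmA

set_option autoImplicit false

open MeasureTheory Set Function Filter Topology

namespace Pool.Agent.H4NC.A4

theorem t : Pool.Agent.H4NC.A4 := by
  intro κ hκ
  refine ⟨(2 * Real.pi / κ) * (1 + 8 * κ) * Real.exp ((3 / 2) * Real.pi ^ 2 / κ), by positivity, ?_⟩
  intro τ h lam y hτ hτ1 hh hl0 hl1
  have hpi := Real.pi_pos
  set s : ℝ := |Real.sin (Real.pi * y)| with hs
  set s' : ℝ := |Real.sin (Real.pi * (y + h))| with hs'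
  have hsq : √τ > 0 := Real.sqrt_pos.2 hτ
  have hsq2 : √τ ^ 2 = τ := Real.sq_sqrt hτ.le
  set z : ℝ := s / √τ with hz
  set z' : ℝ := s' / √τ with hz'
  have hs0 : 0 ≤ s := abs_nonneg _
  have hs'0 : 0 ≤ s' := abs_nonneg _
  have hz0 : 0 ≤ z := by positivity
  have hz'0 : 0 ≤ z' := by positivity
  have hz2 : z ^ 2 = s ^ 2 / τ := by rw [hz, div_pow, hsq2]
  have hz'2 : z' ^ 2 = s' ^ 2 / τ := by rw [hz', div_pow, hsq2]
  have hss : s' ≤ s + Real.pi * √τ := by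
    have e : Real.sin (Real.pi * (y + h))
        = Real.sin (Real.pi * y) * Real.cos (Real.pi * h) + Real.cos (Real.pi * y) * Real.sin (Real.pi * h) := by
      rw [mul_add, Real.sin_add]
    have a1 : |Real.sin (Real.pi * y) * Real.cos (Real.pi * h)| ≤ s := by
      rw [abs_mul]
      calc |Real.sin (Real.pi * y)| * |Real.cos (Real.pi * h)|
          ≤ |Real.sin (Real.pi * y)| * 1 := by
            gcongr
            exact Real.abs_cos_le_one _
        _ = s := by rw [mul_one]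
    have a2 : |Real.cos (Real.pi * y) * Real.sin (Real.pi * h)| ≤ Real.pi * √τ := by
      rw [abs_mul]
      have b1 : |Real.sin (Real.pi * h)| ≤ |Real.pi * h| := Real.abs_sin_le_abs
      have b2 : |Real.pi * h| ≤ Real.pi * √τ := by
        rw [abs_mul, abs_of_pos hpi]
        gcongr
      calc |Real.cos (Real.pi * y)| * |Real.sin (Real.pi * h)|
          ≤ 1 * (Real.pi * √τ) := by
            gcongr
            · exact Real.abs_cos_le_one _
            · exact b1.trans b2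
        _ = Real.pi * √τ := one_mul _
    calc s' = |Real.sin (Real.pi * y) * Real.cos (Real.pi * h)
          + Real.cos (Real.pi * y) * Real.sin (Real.pi * h)| := by rw [hs', e]
      _ ≤ _ := (abs_add_le _ _).trans (add_le_add a1 a2)
  have hzz : z' ≤ z + Real.pi := by
    rw [hz', hz, div_add' _ _ _ hsq.ne']
    gcongr
  have hzz2 : z' ^ 2 ≤ 3 / 2 * z ^ 2 + 3 * Real.pi ^ 2 := by
    have h1 : z' ^ 2 ≤ (z + Real.pi) ^ 2 := by gcongr
    nlinarith [sq_nonneg (z - 2 * Real.pi)]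
  -- the kernel
  have hk : wk κ τ y = τ ^ (-(1 / 2) : ℝ) * Real.exp (-(z ^ 2 / κ)) := by
    unfold wk
    rw [hz2, hs, sq_abs]
    congr 2
    field_simp
  have hk4 : wk (4 * κ) τ y = τ ^ (-(1 / 2) : ℝ) * Real.exp (-(z ^ 2 / (4 * κ))) := by
    unfold wk
    rw [hz2, hs, sq_abs]
    congr 2
    field_simp
  have hk' : wk κ τ (y + h) = τ ^ (-(1 / 2) : ℝ) * Real.exp (-(z' ^ 2 / κ)) := by
    unfold wk
    rw [hz'2, hs', sq_abs]
    congr 2
    field_simp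
  have hT : (0 : ℝ) < τ ^ (-(1 / 2) : ℝ) := Real.rpow_pos_of_pos hτ _
  have hprod : wk κ τ (y + h) ^ lam * wk (4 * κ) τ y ^ (1 - lam)
      = τ ^ (-(1 / 2) : ℝ) * Real.exp (-(lam * (z' ^ 2 / κ) + (1 - lam) * (z ^ 2 / (4 * κ)))) := by
    rw [hk', hk4, Real.mul_rpow hT.le (Real.exp_pos _).le, Real.mul_rpow hT.le (Real.exp_pos _).le,
      ← Real.exp_mul, ← Real.exp_mul]
    have e1 : (τ ^ (-(1 / 2) : ℝ)) ^ lam * (τ ^ (-(1 / 2) : ℝ)) ^ (1 - lam) = τ ^ (-(1 / 2) : ℝ) := by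
      rw [← Real.rpow_add hT]
      simp
    have e2 : Real.exp (-(lam * (z' ^ 2 / κ) + (1 - lam) * (z ^ 2 / (4 * κ))))
        = Real.exp (-(z' ^ 2 / κ) * lam) * Real.exp (-(z ^ 2 / (4 * κ)) * (1 - lam)) := by
      rw [← Real.exp_add]
      congr 1
      ring
    rw [e2]
    calc _ = ((τ ^ (-(1 / 2) : ℝ)) ^ lam * (τ ^ (-(1 / 2) : ℝ)) ^ (1 - lam))
          * (Real.exp (-(z' ^ 2 / κ) * lam) * Real.exp (-(z ^ 2 / (4 * κ)) * (1 - lam))) := by ring
      _ = _ := by rw [e1]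
  -- the left side
  have hTs : τ ^ (-(1 / 2) : ℝ) = (√τ)⁻¹ := by
    rw [Real.rpow_neg hτ.le, Real.sqrt_eq_rpow]
  have hL : |wy κ τ y| ≤ (2 * Real.pi / κ) * (τ ^ (-(1 / 2) : ℝ) * (z * wk κ τ y)) := by
    have hkpos : 0 ≤ wk κ τ y := by
      rw [hk]; positivity
    unfold wy
    rw [abs_mul, abs_of_nonneg hkpos, abs_neg, abs_div, abs_mul, abs_of_pos hpi,
      abs_of_pos (mul_pos hκ hτ)]
    have e3 : |Real.sin (2 * Real.pi * y)| ≤ 2 * s := by
      rw [mul_assoc, Real.sin_two_mul, abs_mul, abs_mul, abs_of_pos (by norm_num : (0:ℝ) < 2)]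
      calc 2 * |Real.sin (Real.pi * y)| * |Real.cos (Real.pi * y)|
          ≤ 2 * |Real.sin (Real.pi * y)| * 1 := by
            gcongr
            exact Real.abs_cos_le_one _
        _ = 2 * s := by rw [mul_one]
    calc Real.pi * |Real.sin (2 * Real.pi * y)| / (κ * τ) * wk κ τ y
        ≤ Real.pi * (2 * s) / (κ * τ) * wk κ τ y := by gcongr
      _ = (2 * Real.pi / κ) * ((√τ)⁻¹ * (s / √τ * wk κ τ y)) := by
          have : (√τ)⁻¹ * (s / √τ * wk κ τ y) = s / τ * wk κ τ y := by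
            rw [div_eq_mul_inv, div_eq_mul_inv]
            have : τ⁻¹ = (√τ)⁻¹ * (√τ)⁻¹ := by
              rw [← mul_inv, ← sq, hsq2]
            rw [this]
            ring
          rw [this]
          field_simp
      _ = _ := by rw [hTs]
  have hu : z ≤ (1 + 8 * κ) * Real.exp (z ^ 2 / (8 * κ)) := by
    have h1 : z ^ 2 / (8 * κ) + 1 ≤ Real.exp (z ^ 2 / (8 * κ)) := Real.add_one_le_exp _
    have h2 : z ≤ 1 + z ^ 2 := by nlinarith [sq_nonneg (z - 1), sq_nonneg (z + 1)]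
    calc z ≤ 1 + z ^ 2 := h2
      _ ≤ (1 + 8 * κ) * (z ^ 2 / (8 * κ) + 1) := by
          have : (8 * κ) * (z ^ 2 / (8 * κ)) = z ^ 2 := by field_simp
          have h3 : 0 ≤ z ^ 2 / (8 * κ) := by positivity
          nlinarith
      _ ≤ _ := by gcongr
  have hexp : Real.exp (z ^ 2 / (8 * κ)) * Real.exp (-(z ^ 2 / κ))
      ≤ Real.exp ((3 / 2) * Real.pi ^ 2 / κ)
        * Real.exp (-(lam * (z' ^ 2 / κ) + (1 - lam) * (z ^ 2 / (4 * κ)))) := by
    rw [← Real.exp_add, ← Real.exp_add]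
    apply Real.exp_le_exp.2
    have key : lam * z' ^ 2 + (1 - lam) * (z ^ 2 / 4) ≤ 7 / 8 * z ^ 2 + 3 / 2 * Real.pi ^ 2 := by
      have h1 : lam * z' ^ 2 ≤ lam * (3 / 2 * z ^ 2 + 3 * Real.pi ^ 2) := by gcongr
      nlinarith [sq_nonneg z, sq_nonneg Real.pi, mul_nonneg (sub_nonneg.2 hl1) (sq_nonneg z),
        mul_nonneg (sub_nonneg.2 hl1) (sq_nonneg Real.pi)]
    have e5 : z ^ 2 / (8 * κ) + -(z ^ 2 / κ) = -(7 / 8 * z ^ 2) / κ := by
      field_simp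
      ring
    have e6 : (3 / 2) * Real.pi ^ 2 / κ + -(lam * (z' ^ 2 / κ) + (1 - lam) * (z ^ 2 / (4 * κ)))
        = (3 / 2 * Real.pi ^ 2 - (lam * z' ^ 2 + (1 - lam) * (z ^ 2 / 4))) / κ := by
      field_simp
      ring
    rw [e5, e6]
    gcongr
    linarith
  calc |wy κ τ y| ≤ (2 * Real.pi / κ) * (τ ^ (-(1 / 2) : ℝ) * (z * wk κ τ y)) := hL
    _ = (2 * Real.pi / κ) * (τ ^ (-(1 / 2) : ℝ) * (τ ^ (-(1 / 2) : ℝ) * (z * Real.exp (-(z ^ 2 / κ))))) := by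
        rw [hk]; ring
    _ ≤ (2 * Real.pi / κ) * (τ ^ (-(1 / 2) : ℝ) * (τ ^ (-(1 / 2) : ℝ)
          * (((1 + 8 * κ) * Real.exp (z ^ 2 / (8 * κ))) * Real.exp (-(z ^ 2 / κ))))) := by
        gcongr
    _ = (2 * Real.pi / κ) * (1 + 8 * κ) * (τ ^ (-(1 / 2) : ℝ) * (τ ^ (-(1 / 2) : ℝ)
          * (Real.exp (z ^ 2 / (8 * κ)) * Real.exp (-(z ^ 2 / κ))))) := by ring
    _ ≤ (2 * Real.pi / κ) * (1 + 8 * κ) * (τ ^ (-(1 / 2) : ℝ) * (τ ^ (-(1 / 2) : ℝ)
          * (Real.exp ((3 / 2) * Real.pi ^ 2 / κ)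
        * Real.exp (-(lam * (z' ^ 2 / κ) + (1 - lam) * (z ^ 2 / (4 * κ))))))) := by
        gcongr
    _ = _ := by rw [hprod]; ring

end Pool.Agent.H4NC.A4
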