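import Pool.Agent.H4NC.StmA

/-!
Project NC: stub A5 (integrals of powers of the kernel)
-/

set_option autoImplicit false

open MeasureTheory Set Function Filter Topology
open scoped ENNReal ContDiff

namespace Pool.Agent.H4NC.A5

theorem sin_bd (y : ℝ) (hy : |y| ≤ 1 / 2) : 4 * y ^ 2 ≤ Real.sin (Real.pi * y) ^ 2 := by
  have h1 : |Real.pi * y| ≤ Real.pi / 2 := by
    rw [abs_mul, abs_of_pos Real.pi_pos]
    nlinarith [Real.pi_pos]
  have h2 := Real.mul_abs_le_abs_sin h1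
  have h3 : 2 / Real.pi * |Real.pi * y| = 2 * |y| := by
    rw [abs_mul, abs_of_pos Real.pi_pos]
    field_simp
  rw [h3] at h2
  have h4 : (2 * |y|) ^ 2 ≤ |Real.sin (Real.pi * y)| ^ 2 := pow_le_pow_left₀ (by positivity) h2 2
  rw [sq_abs, mul_pow, sq_abs] at h4
  linarith

theorem t : A5 := by
  intro κ P hκ hP
  refine ⟨√(Real.pi * κ / (4 * P)), Real.sqrt_nonneg _, ?_⟩
  intro τ z hτ hτ1
  have hP0 : 0 < P := by linarith
  set F : ℝ → ℝ := fun y => wk κ τ y ^ P with hF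
  have hFeq : ∀ y, F y = τ ^ (-(P / 2)) * Real.exp (-(P * Real.sin (Real.pi * y) ^ 2 / (κ * τ))) := by
    intro y
    simp only [hF, wk]
    rw [Real.mul_rpow (Real.rpow_nonneg hτ.le _) (Real.exp_pos _).le, ← Real.rpow_mul hτ.le,
      ← Real.exp_mul]
    congr 2 <;> ring
  have hper : Function.Periodic F 1 := by
    intro y
    rw [hFeq, hFeq]
    have : Real.sin (Real.pi * (y + 1)) = - Real.sin (Real.pi * y) := by
      rw [mul_add, mul_one, Real.sin_add_pi]
    rw [this, neg_sq]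
  have hcont : Continuous F := by
    have : F = fun y => τ ^ (-(P / 2)) * Real.exp (-(P * Real.sin (Real.pi * y) ^ 2 / (κ * τ))) :=
      funext hFeq
    rw [this]
    fun_prop
  have e1 : ∫ y in Icc (0 : ℝ) 1, wk κ τ (y - z) ^ P = ∫ y in (-(1 / 2 : ℝ))..(1 / 2), F y := by
    have h1 : ∫ y in Icc (0 : ℝ) 1, wk κ τ (y - z) ^ P = ∫ y in (0 : ℝ)..1, F (y - z) := by
      rw [integral_Icc_eq_integral_Ioc, intervalIntegral.integral_of_le zero_le_one]
    have h2 := hper.intervalIntegral_add_eq (0 - z) (-(1 / 2 : ℝ))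
    rw [h1, intervalIntegral.integral_comp_sub_right F z, show (1 : ℝ) - z = (0 - z) + 1 by ring, h2]
    norm_num
  set b : ℝ := 4 * P / (κ * τ) with hb
  have hb0 : 0 < b := by rw [hb]; positivity
  have hle : ∀ y ∈ Icc (-(1 / 2 : ℝ)) (1 / 2), F y ≤ τ ^ (-(P / 2)) * Real.exp (-b * y ^ 2) := by
    intro y hy
    rw [hFeq]
    apply mul_le_mul_of_nonneg_left _ (Real.rpow_nonneg hτ.le _)
    apply Real.exp_le_exp.2
    have h1 := sin_bd y (abs_le.2 ⟨hy.1, hy.2⟩)
    have h2 : b * y ^ 2 = P * (4 * y ^ 2) / (κ * τ) := by rw [hb]; ring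
    rw [neg_mul, h2, neg_le_neg_iff]
    gcongr
  have hgi : Integrable (fun y : ℝ => τ ^ (-(P / 2)) * Real.exp (-b * y ^ 2)) :=
    (integrable_exp_neg_mul_sq hb0).const_mul _
  have e2 : ∫ y in (-(1 / 2 : ℝ))..(1 / 2), F y ≤
      ∫ y in (-(1 / 2 : ℝ))..(1 / 2), τ ^ (-(P / 2)) * Real.exp (-b * y ^ 2) := by
    apply intervalIntegral.integral_mono_on (by norm_num) (hcont.intervalIntegrable _ _)
      (hgi.intervalIntegrable) hle
  have e3 : ∫ y in (-(1 / 2 : ℝ))..(1 / 2), τ ^ (-(P / 2)) * Real.exp (-b * y ^ 2) ≤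
      ∫ y : ℝ, τ ^ (-(P / 2)) * Real.exp (-b * y ^ 2) := by
    rw [intervalIntegral.integral_of_le (by norm_num)]
    exact setIntegral_le_integral hgi (ae_of_all _ fun y => by positivity)
  have e4 : ∫ y : ℝ, τ ^ (-(P / 2)) * Real.exp (-b * y ^ 2) =
      √(Real.pi * κ / (4 * P)) * τ ^ ((1 - P) / 2) := by
    rw [integral_const_mul, integral_gaussian]
    have h1 : Real.pi / b = (Real.pi * κ / (4 * P)) * τ := by
      rw [hb]; field_simp
    rw [h1, Real.sqrt_mul (by positivity), Real.sqrt_eq_rpow τ, mul_left_comm, ← Real.rpow_add hτ]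
    congr 2
    ring
  rw [e1]
  exact (e2.trans e3).trans (le_of_eq e4)

end Pool.Agent.H4NC.A5
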