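import Pool.Agent.H4NC.StmA

/-!
Project NC: stub A7 (helper19).
-/

set_option autoImplicit false

open MeasureTheory Set Function Filter Topology
open scoped ENNReal ContDiff

namespace Pool.Agent.H4NC.A7

/-- the integral of the kernel near `t1` -/
theorem int_near {α t1 m : ℝ} (hα0 : 0 < α) (hα1 : α < 1) (hm : 0 < m) :
    ∫⁻ t in Ioo (t1 - m) t1, ENNReal.ofReal ((t1 - t) ^ (-α)) =
      ENNReal.ofReal (m ^ (1 - α) / (1 - α)) := by
  have h1 : ∫⁻ t in Ioo (t1 - m) t1, ENNReal.ofReal ((t1 - t) ^ (-α)) =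
      ∫⁻ t in Ioo 0 m, ENNReal.ofReal (t ^ (-α)) := by
    have hmp : MeasurePreserving (fun t : ℝ => t1 - t) volume volume :=
      Measure.measurePreserving_sub_left volume t1
    have hme : MeasurableEmbedding (fun t : ℝ => t1 - t) :=
      (MeasurableEquiv.subLeft t1).measurableEmbedding
    have h2 := hmp.setLIntegral_comp_preimage_emb hme (fun t => ENNReal.ofReal (t ^ (-α))) (Ioo 0 m)
    rw [← h2]
    congr 1
    congr 1
    ext t
    simp only [mem_Ioo, mem_preimage]
    constructor <;> rintro ⟨h3, h4⟩ <;> constructor <;> linarith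
  rw [h1]
  have hint : IntegrableOn (fun t : ℝ => t ^ (-α)) (Ioo 0 m) := by
    have := (intervalIntegral.intervalIntegrable_rpow' (a := 0) (b := m) (r := -α) (by linarith))
    rw [intervalIntegrable_iff_integrableOn_Ioo_of_le hm.le] at this
    exact this
  rw [← ofReal_integral_eq_lintegral_ofReal hint]
  · congr 1
    rw [← integral_Ioc_eq_integral_Ioo, ← intervalIntegral.integral_of_le hm.le]
    rw [integral_rpow (Or.inl (by linarith))]
    rw [Real.zero_rpow (by linarith), sub_zero]
    rw [show -α + 1 = 1 - α by ring]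
  · filter_upwards [ae_restrict_mem measurableSet_Ioo] with t ht
    exact Real.rpow_nonneg ht.1.le _

/-- the integral of the kernel over a set of given measure -/
theorem int_set {α t1 : ℝ} (hα0 : 0 < α) (hα1 : α < 1) (E : Set ℝ) (hE : E ⊆ Iio t1)
    (hfin : volume E ≠ ⊤) :
    ∫⁻ t in E, ENNReal.ofReal ((t1 - t) ^ (-α)) ≤
      ENNReal.ofReal (1 / (1 - α) + 1) * volume E ^ (1 - α) := by
  by_cases h0 : volume E = 0
  · rw [setLIntegral_measure_zero _ _ h0]
    exact bot_le
  set m := (volume E).toReal with hm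
  have hm0 : 0 < m := ENNReal.toReal_pos h0 hfin
  have hE' : volume E = ENNReal.ofReal m := (ENNReal.ofReal_toReal hfin).symm
  rw [← lintegral_inter_add_sdiff (μ := volume) _ E (measurableSet_Ioo (a := t1 - m) (b := t1))]
  have h1 : ∫⁻ t in E ∩ Ioo (t1 - m) t1, ENNReal.ofReal ((t1 - t) ^ (-α)) ≤
      ENNReal.ofReal (m ^ (1 - α) / (1 - α)) := by
    rw [← int_near (t1 := t1) hα0 hα1 hm0]
    exact lintegral_mono_set inter_subset_right
  have h2 : ∫⁻ t in E \ Ioo (t1 - m) t1, ENNReal.ofReal ((t1 - t) ^ (-α)) ≤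
      ENNReal.ofReal (m ^ (1 - α)) := by
    have h3 : ∀ᵐ t ∂(volume.restrict (E \ Ioo (t1 - m) t1)),
        ENNReal.ofReal ((t1 - t) ^ (-α)) ≤ ENNReal.ofReal (m ^ (-α)) := by
      refine ae_restrict_of_ae_restrict_of_subset (t := Iic (t1 - m)) ?_ ?_
      · intro t ht
        have h4 := hE ht.1
        have h5 := ht.2
        simp only [mem_Iio] at h4
        simp only [mem_Ioo, not_and, not_lt] at h5
        by_contra hc
        simp only [mem_Iic, not_le] at hc
        have := h5 hc
        linarith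
      · filter_upwards [ae_restrict_mem measurableSet_Iic] with t ht
        apply ENNReal.ofReal_le_ofReal
        have ht' : m ≤ t1 - t := by
          simp only [mem_Iic] at ht
          linarith
        exact Real.rpow_le_rpow_of_nonpos hm0 ht' (by linarith)
    calc ∫⁻ t in E \ Ioo (t1 - m) t1, ENNReal.ofReal ((t1 - t) ^ (-α))
        ≤ ∫⁻ t in E \ Ioo (t1 - m) t1, ENNReal.ofReal (m ^ (-α)) := lintegral_mono_ae h3
      _ = ENNReal.ofReal (m ^ (-α)) * volume (E \ Ioo (t1 - m) t1) := by
          rw [setLIntegral_const]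
      _ ≤ ENNReal.ofReal (m ^ (-α)) * volume E := by gcongr; exact sdiff_subset
      _ = ENNReal.ofReal (m ^ (1 - α)) := by
          rw [hE', ← ENNReal.ofReal_mul (by positivity)]
          congr 1
          rw [sub_eq_neg_add, Real.rpow_add hm0, Real.rpow_one]
  calc _ ≤ ENNReal.ofReal (m ^ (1 - α) / (1 - α)) + ENNReal.ofReal (m ^ (1 - α)) := add_le_add h1 h2
    _ = ENNReal.ofReal (1 / (1 - α) + 1) * volume E ^ (1 - α) := by
        have h5 : 0 < 1 - α := by linarith
        rw [hE', ENNReal.ofReal_rpow_of_pos hm0, ← ENNReal.ofReal_mul (by positivity),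
          ← ENNReal.ofReal_add (by positivity) (by positivity)]
        congr 1
        ring

theorem t : Pool.Agent.H4NC.A7 := by
  intro s p hp hps
  have hs : 0 < s := by linarith
  have hp0 : 0 < p := by linarith
  have hK : 0 < 1 / (1 - (1 - p / s)) + 1 := by
    have : 0 < p / s := by positivity
    have h2 : 1 - (1 - p / s) = p / s := by ring
    rw [h2]
    positivity
  set K : ℝ := 1 / (1 - (1 - p / s)) + 1 with hKd
  refine ⟨p * K, by positivity, ?_⟩
  intro N t0 T t1 hT hN hNm
  set L := Lz s N t0 T with hL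
  by_cases hLt : L = ⊤
  · rw [hLt, ENNReal.top_rpow_of_pos hp0, ENNReal.mul_top]
    · exact le_top
    · simp only [ne_eq, ENNReal.ofReal_eq_zero, not_le]
      positivity
  set w : ℝ → ℝ≥0∞ := fun t => ENNReal.ofReal ((t1 - t) ^ (p / s - 1)) with hw
  have hwm : Measurable w := by
    apply ENNReal.measurable_ofReal.comp
    exact (measurable_const.sub measurable_id).pow_const _
  set μ := (volume.restrict (Ioo t0 T)).withDensity w with hμ
  have h1 : ∫⁻ t in Ioo t0 T, ENNReal.ofReal ((t1 - t) ^ (p / s - 1) * N t ^ p) =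
      ∫⁻ t, ENNReal.ofReal (N t ^ p) ∂μ := by
    rw [hμ, lintegral_withDensity_eq_lintegral_mul₀' hwm.aemeasurable]
    · refine setLIntegral_congr_fun measurableSet_Ioo fun t ht => ?_
      simp only [Pi.mul_apply, hw]
      rw [ENNReal.ofReal_mul]
      have : 0 < t1 - t := by linarith [ht.2]
      positivity
    · apply ENNReal.measurable_ofReal.comp_aemeasurable
      have := hNm.mono_ac (withDensity_absolutelyContinuous (volume.restrict (Ioo t0 T)) w)
      exact this.pow_const _
  rw [h1]
  have hNμ : AEMeasurable N μ := hNm.mono_ac (withDensity_absolutelyContinuous _ _)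
  have hNn : 0 ≤ᵐ[μ] N := by
    apply (withDensity_absolutelyContinuous (volume.restrict (Ioo t0 T)) w).ae_le
    filter_upwards [ae_restrict_mem measurableSet_Ioo] with t ht
    exact hN t ht
  rw [lintegral_rpow_eq_lintegral_meas_lt_mul μ hNn hNμ hp0]
  -- the distribution function
  set m : ℝ → ℝ≥0∞ := fun lam => volume {t | t ∈ Ioo t0 T ∧ lam < N t} with hmd
  have hmfin : ∀ lam, m lam ≠ ⊤ := fun lam =>
    ((measure_mono (fun t ht => ht.1)).trans_lt (measure_Ioo_lt_top (a := t0) (b := T))).ne
  have hmμ : ∀ lam, μ {t | lam < N t} ≤ ENNReal.ofReal K * m lam ^ (p / s) := by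
    intro lam
    rw [hμ, withDensity_apply', Measure.restrict_restrict' measurableSet_Ioo]
    have h2 : {t | lam < N t} ∩ Ioo t0 T = {t | t ∈ Ioo t0 T ∧ lam < N t} := by
      ext t; simp only [mem_inter_iff, Set.mem_ofPred_eq]; tauto
    rw [h2]
    have h3 := int_set (α := 1 - p / s) (t1 := t1) (by
        have : p / s < 1 := by rw [div_lt_one hs]; exact hps
        linarith) (by
        have : 0 < p / s := by positivity
        linarith) {t | t ∈ Ioo t0 T ∧ lam < N t} (fun t ht => by
        have := ht.1.2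
        simp only [mem_Iio]
        linarith) (hmfin lam)
    have h4 : -(1 - p / s) = p / s - 1 := by ring
    have h5 : 1 - (1 - p / s) = p / s := by ring
    rw [h4] at h3
    rw [h5] at h3
    rw [hw, hmd, hKd, h5]
    exact h3
  have hlam : ∀ lam ∈ Ioi (0 : ℝ), ENNReal.ofReal lam * m lam ^ (1 / s) ≤ L := by
    intro lam hlam
    have h2 : ENNReal.ofReal lam * m lam ^ (1 / s) = ∫⁻ _ in Ioo 0 lam, m lam ^ (1 / s) := by
      rw [setLIntegral_const, Real.volume_Ioo, sub_zero, mul_comm]
    rw [h2]
    calc ∫⁻ _ in Ioo 0 lam, m lam ^ (1 / s) ≤ ∫⁻ l in Ioo 0 lam, m l ^ (1 / s) := by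
          refine setLIntegral_mono' measurableSet_Ioo fun l hl => ?_
          apply ENNReal.rpow_le_rpow _ (by positivity)
          exact measure_mono fun t ht => ⟨ht.1, hl.2.trans ht.2⟩
      _ ≤ L := by
          rw [hL, Lz]
          exact lintegral_mono_set Ioo_subset_Ioi_self
  have h6 : ∀ lam ∈ Ioi (0 : ℝ), μ {t | lam < N t} * ENNReal.ofReal (lam ^ (p - 1)) ≤
      (ENNReal.ofReal K * L ^ (p - 1)) * m lam ^ (1 / s) := by
    intro lam hl
    have hl0 : (0 : ℝ) < lam := hl
    calc μ {t | lam < N t} * ENNReal.ofReal (lam ^ (p - 1))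
        ≤ (ENNReal.ofReal K * m lam ^ (p / s)) * ENNReal.ofReal lam ^ (p - 1) := by
          rw [ENNReal.ofReal_rpow_of_pos hl0]
          gcongr
          exact hmμ lam
      _ = ENNReal.ofReal K * (m lam ^ (1 / s) * (ENNReal.ofReal lam * m lam ^ (1 / s)) ^ (p - 1)) := by
          rw [ENNReal.mul_rpow_of_nonneg _ _ (by linarith : (0 : ℝ) ≤ p - 1), mul_assoc]
          congr 1
          have h7 : m lam ^ (p / s) = m lam ^ (1 / s) * (m lam ^ (1 / s)) ^ (p - 1) := by
            rw [← ENNReal.rpow_mul, ← ENNReal.rpow_add_of_nonneg _ _ (by positivity)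
              (mul_nonneg (by positivity) (by linarith))]
            congr 1
            ring
          rw [h7]
          ring
      _ ≤ ENNReal.ofReal K * (m lam ^ (1 / s) * L ^ (p - 1)) := by
          gcongr
          exact hlam lam hl
      _ = _ := by ring
  calc ENNReal.ofReal p * ∫⁻ lam in Ioi 0, μ {t | lam < N t} * ENNReal.ofReal (lam ^ (p - 1))
      ≤ ENNReal.ofReal p * ∫⁻ lam in Ioi 0, (ENNReal.ofReal K * L ^ (p - 1)) * m lam ^ (1 / s) := by
        gcongr ENNReal.ofReal p * ?_
        exact setLIntegral_mono' measurableSet_Ioi h6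
    _ = ENNReal.ofReal p * ((ENNReal.ofReal K * L ^ (p - 1)) * L) := by
        rw [lintegral_const_mul']
        · rw [hL, Lz]
        · exact ENNReal.mul_ne_top ENNReal.ofReal_ne_top
            (ENNReal.rpow_ne_top_of_nonneg (by linarith) hLt)
    _ = ENNReal.ofReal (p * K) * L ^ p := by
        rw [ENNReal.ofReal_mul hp0.le]
        have h8 : L ^ p = L ^ (p - 1) * L := by
          conv_rhs => rw [← ENNReal.rpow_one L, ← ENNReal.rpow_mul, one_mul]
          rw [← ENNReal.rpow_add_of_nonneg _ _ (by linarith) (by norm_num)]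
          congr 1
          ring
        rw [h8]
        ring

end Pool.Agent.H4NC.A7
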