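import Mathlib
import Pool.Agent.H4NC.StmA

set_option autoImplicit false

open MeasureTheory Set Function Filter Topology
open scoped ENNReal

namespace Pool.Agent.H4NC.A8

/-- the layer function -/
noncomputable def lay (s : ℝ) (N : ℝ → ℝ) (t0 T lam : ℝ) : ℝ≥0∞ :=
  (volume {t | t ∈ Ioo t0 T ∧ lam < N t}) ^ (1 / s)

lemma lay_meas (s : ℝ) (hs : 0 < s) (N : ℝ → ℝ) (t0 T : ℝ) : Measurable (lay s N t0 T) := by
  apply Antitone.measurable
  intro a b hab
  unfold lay
  apply ENNReal.rpow_le_rpow _ (by positivity)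
  apply measure_mono
  intro t ht
  exact ⟨ht.1, lt_of_le_of_lt hab ht.2⟩

lemma lay_le (s : ℝ) (hs : 0 < s) (N : ℝ → ℝ) (t0 t1 T lam : ℝ) (h : t0 ≤ t1) :
    lay s N t1 T lam ≤ lay s N t0 T lam := by
  unfold lay
  apply ENNReal.rpow_le_rpow _ (by positivity)
  apply measure_mono
  intro t ht
  exact ⟨⟨lt_of_le_of_lt h ht.1.1, ht.1.2⟩, ht.2⟩

lemma lay_len (s : ℝ) (hs : 0 < s) (N : ℝ → ℝ) (t0 T lam : ℝ) :
    lay s N t0 T lam ≤ (ENNReal.ofReal (T - t0)) ^ (1 / s) := by
  unfold lay
  apply ENNReal.rpow_le_rpow _ (by positivity)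
  calc volume {t | t ∈ Ioo t0 T ∧ lam < N t} ≤ volume (Ioo t0 T) :=
        measure_mono fun t ht => ht.1
    _ = ENNReal.ofReal (T - t0) := Real.volume_Ioo

theorem t : Pool.Agent.H4NC.A8 := by
  intro s N T hs hT _ hfin ε hε tm htm
  set m : ℝ := max tm 0 with hm
  have hmT : m < T := max_lt htm hT
  set u : ℕ → ℝ := fun n => T - (T - m) / ((n : ℝ) + 2) with hu
  have hu1 : ∀ n, m < u n := by
    intro n
    have h2 : (T - m) / ((n : ℝ) + 2) < T - m := by
      rw [div_lt_iff₀ (by positivity)]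
      have : 0 < T - m := by linarith
      nlinarith [this, (Nat.cast_nonneg n : (0 : ℝ) ≤ n)]
    simp only [hu]
    linarith
  have hu2 : ∀ n, u n < T := by
    intro n
    have h2 : 0 < (T - m) / ((n : ℝ) + 2) := by
      apply div_pos (by linarith) (by positivity)
    simp only [hu]
    linarith
  have hlim : Tendsto (fun n => T - u n) atTop (𝓝 0) := by
    have h1 : Tendsto (fun n : ℕ => (T - m) / ((n : ℝ) + 2)) atTop (𝓝 0) := by
      apply Tendsto.div_atTop tendsto_const_nhds
      exact tendsto_atTop_add_const_right _ _ tendsto_natCast_atTop_atTop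
    refine h1.congr fun n => ?_
    simp only [hu]
    ring
  have hlim2 : Tendsto (fun n => (ENNReal.ofReal (T - u n)) ^ (1 / s)) atTop (𝓝 0) := by
    have h1 : Tendsto (fun n => ENNReal.ofReal (T - u n)) atTop (𝓝 0) := by
      have := ENNReal.tendsto_ofReal hlim
      simpa using this
    have h2 := h1.ennrpow_const (1 / s)
    rwa [ENNReal.zero_rpow_of_pos (by positivity)] at h2
  have hmain : Tendsto (fun n => ∫⁻ lam in Ioi (0 : ℝ), lay s N (u n) T lam) atTop
      (𝓝 (∫⁻ lam in Ioi (0 : ℝ), (0 : ℝ≥0∞))) := by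
    apply tendsto_lintegral_of_dominated_convergence (lay s N 0 T)
    · intro n
      exact lay_meas s hs N (u n) T
    · intro n
      refine Eventually.of_forall fun lam => ?_
      exact lay_le s hs N 0 (u n) T lam ((le_max_right tm 0).trans (hu1 n).le)
    · exact hfin
    · refine Eventually.of_forall fun lam => ?_
      exact tendsto_of_tendsto_of_tendsto_of_le_of_le tendsto_const_nhds hlim2
        (fun n => zero_le) (fun n => lay_len s hs N (u n) T lam)
  rw [lintegral_zero] at hmain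
  have hev : ∀ᶠ n in atTop, (∫⁻ lam in Ioi (0 : ℝ), lay s N (u n) T lam) ≤ ε :=
    (hmain.eventually (gt_mem_nhds hε)).mono fun n hn => le_of_lt hn
  obtain ⟨n, hn⟩ := hev.exists
  exact ⟨u n, (le_max_left tm 0).trans_lt (hu1 n), (le_max_right tm 0).trans_lt (hu1 n), hu2 n, hn⟩

end Pool.Agent.H4NC.A8
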