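import Pool.Agent.H4NC.StmA

/-!
Project NC: stub A9 (helper19).
-/

set_option autoImplicit false

open MeasureTheory Set Function Filter Topology
open scoped ENNReal ContDiff

namespace Pool.Agent.H4NC.A9

theorem t : Pool.Agent.H4NC.A9 := by
  intro s N T hs hN hNm hL
  have hs0 : 0 < s := by linarith
  have hNn : 0 ≤ᵐ[volume.restrict (Ioo 0 T)] N := by
    filter_upwards [ae_restrict_mem measurableSet_Ioo] with t ht
    exact hN t ht
  have hfin : ∫⁻ t in Ioo 0 T, ENNReal.ofReal (N t ^ s) < ⊤ := by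
    rw [lintegral_rpow_eq_lintegral_meas_lt_mul _ hNn hNm hs0]
    set L := Lz s N 0 T with hLd
    set m : ℝ → ℝ≥0∞ := fun lam => volume {t | t ∈ Ioo 0 T ∧ lam < N t} with hmd
    have hm : ∀ lam, (volume.restrict (Ioo 0 T)) {t | lam < N t} = m lam := by
      intro lam
      rw [Measure.restrict_apply' measurableSet_Ioo, hmd]
      congr 1
      ext t; simp only [mem_inter_iff, Set.mem_ofPred_eq]; tauto
    have hlam : ∀ lam ∈ Ioi (0 : ℝ), ENNReal.ofReal lam * m lam ^ (1 / s) ≤ L := by
      intro lam hlam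
      have h2 : ENNReal.ofReal lam * m lam ^ (1 / s) = ∫⁻ _ in Ioo 0 lam, m lam ^ (1 / s) := by
        rw [setLIntegral_const, Real.volume_Ioo, sub_zero, mul_comm]
      rw [h2]
      calc ∫⁻ _ in Ioo 0 lam, m lam ^ (1 / s) ≤ ∫⁻ l in Ioo 0 lam, m l ^ (1 / s) := by
            refine setLIntegral_mono' measurableSet_Ioo fun l hl => ?_
            apply ENNReal.rpow_le_rpow _ (by positivity)
            exact measure_mono fun t ht => ⟨ht.1, hl.2.trans ht.2⟩
        _ ≤ L := by
            rw [hLd, Lz]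
            exact lintegral_mono_set Ioo_subset_Ioi_self
    have h6 : ∀ lam ∈ Ioi (0 : ℝ), (volume.restrict (Ioo 0 T)) {t | lam < N t} *
        ENNReal.ofReal (lam ^ (s - 1)) ≤ L ^ (s - 1) * m lam ^ (1 / s) := by
      intro lam hl
      have hl0 : (0 : ℝ) < lam := hl
      rw [hm, ← ENNReal.ofReal_rpow_of_pos hl0]
      calc m lam * ENNReal.ofReal lam ^ (s - 1)
          = m lam ^ (1 / s) * (ENNReal.ofReal lam * m lam ^ (1 / s)) ^ (s - 1) := by
            rw [ENNReal.mul_rpow_of_nonneg _ _ (by linarith : (0 : ℝ) ≤ s - 1)]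
            have h7 : m lam = m lam ^ (1 / s) * (m lam ^ (1 / s)) ^ (s - 1) := by
              rw [← ENNReal.rpow_mul, ← ENNReal.rpow_add_of_nonneg _ _ (by positivity)
                (mul_nonneg (by positivity) (by linarith))]
              rw [show 1 / s + 1 / s * (s - 1) = 1 by field_simp; ring, ENNReal.rpow_one]
            conv_lhs => rw [h7]
            ring
        _ ≤ m lam ^ (1 / s) * L ^ (s - 1) := by
            have := ENNReal.rpow_le_rpow (hlam lam hl) (by linarith : (0 : ℝ) ≤ s - 1)
            gcongr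
        _ = _ := by ring
    calc ENNReal.ofReal s * ∫⁻ lam in Ioi 0, (volume.restrict (Ioo 0 T)) {t | lam < N t} *
          ENNReal.ofReal (lam ^ (s - 1))
        ≤ ENNReal.ofReal s * ∫⁻ lam in Ioi 0, L ^ (s - 1) * m lam ^ (1 / s) := by
          gcongr ENNReal.ofReal s * ?_
          exact setLIntegral_mono' measurableSet_Ioi h6
      _ = ENNReal.ofReal s * (L ^ (s - 1) * L) := by
          rw [lintegral_const_mul']
          · rw [hLd, Lz]
          · exact ENNReal.rpow_ne_top_of_nonneg (by linarith) hL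
      _ < ⊤ := ENNReal.mul_lt_top ENNReal.ofReal_lt_top (ENNReal.mul_lt_top
          (ENNReal.rpow_ne_top_of_nonneg (by linarith) hL).lt_top (lt_top_iff_ne_top.2 hL))
  refine ⟨(hNm.pow_const s).aestronglyMeasurable, ?_⟩
  rw [hasFiniteIntegral_iff_ofReal]
  · exact hfin
  · filter_upwards [ae_restrict_mem measurableSet_Ioo] with t ht
    exact Real.rpow_nonneg (hN t ht) _

end Pool.Agent.H4NC.A9
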