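import Pool.Agent.H4NC.StmB
import Pool.Agent.H4LA.LW

set_option autoImplicit false

open MeasureTheory Set Function Filter Topology
open scoped ENNReal ContDiff

namespace Pool.Agent.H4NC.B0

open H459R3.NS H4LA

theorem hasFD (z : ℝ) (x : V) : HasFDerivAt (fun x : V => x 2 - z)
    (ContinuousLinearMap.proj (R := ℝ) (φ := fun _ : Fin 3 => ℝ) 2) x := by
  have h1 := (ContinuousLinearMap.proj (R := ℝ) (φ := fun _ : Fin 3 => ℝ) 2).hasFDerivAt (x := x)
  exact h1.sub_const z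

theorem pd2_comp {φ : ℝ → ℝ} {φ' : ℝ} {z : ℝ} {x : V} (h : HasDerivAt φ φ' (x 2 - z)) :
    pd 2 (fun x : V => φ (x 2 - z)) x = φ' := by
  have h1 : HasFDerivAt (fun x : V => φ (x 2 - z))
      (φ' • ContinuousLinearMap.proj (R := ℝ) (φ := fun _ : Fin 3 => ℝ) 2) x :=
    h.comp_hasFDerivAt x (hasFD z x)
  unfold pd
  rw [h1.fderiv]
  simp

theorem int_coord' {φ : ℝ → ℝ} (hφ : Continuous φ) (j : Fin 3) :
    ∫ x : V in cube, φ (x j) = ∫ s in Icc (0 : ℝ) 1, φ s := by
  have hm : MeasurePreserving (fun x : V => x j) (Measure.pi fun _ : Fin 3 => m1) m1 :=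
    measurePreserving_eval _ j
  rw [restrict_cube, ← integral_map hm.measurable.aemeasurable hφ.aestronglyMeasurable,
    hm.map_eq]
  rfl

theorem t (hA1 : A1) (hA5 : A5) : B0 := by
  intro κ hκ
  obtain ⟨C, hC, h5⟩ := hA5 κ 1 hκ le_rfl
  refine ⟨C, hC, fun τ z hτ hτ1 => ?_⟩
  obtain ⟨hpos, hper, hsm, hd1, hd2, -, -⟩ := hA1 κ τ hκ hτ
  have hpd : pd 2 (Wt κ τ z) = fun x => wy κ τ (x 2 - z) := by
    funext x
    unfold Wt
    exact pd2_comp (hd1 _)
  have hWt : Wt κ τ z = fun x => wk κ τ (x 2 - z) := by unfold Wt; rfl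
  have hcube : ∫ x in cube, wk κ τ (x 2 - z) ≤ C := by
    have hcont : Continuous fun s : ℝ => wk κ τ (s - z) :=
      hsm.continuous.comp (continuous_id.sub continuous_const)
    have h1 := int_coord' hcont 2
    have h2 := h5 τ z hτ hτ1
    simp only [Real.rpow_one, sub_self, zero_div, Real.rpow_zero, mul_one] at h2
    rw [h1]
    exact h2
  have hsm2 : ContDiff ℝ ∞ (fun x : V => wk κ τ (x 2 - z)) := by
    generalize wk κ τ = φ at hsm
    fun_prop
  have hper2 : Per (fun x : V => wk κ τ (x 2 - z)) := by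
    intro i x
    dsimp only
    by_cases hi : i = 2
    · subst hi
      rw [Pi.add_apply, Pi.single_eq_same, add_sub_right_comm, hper]
    · rw [Pi.add_apply, Pi.single_eq_of_ne (Ne.symm hi), add_zero]
  have hi0 : Ind 0 (fun x : V => wk κ τ (x 2 - z)) := by
    intro x s
    dsimp only
    rw [update_of_ne (by decide)]
  have hi1 : Ind 1 (fun x : V => wk κ τ (x 2 - z)) := by
    intro x s
    dsimp only
    rw [update_of_ne (by decide)]
  have hdd : ∀ x, pd 2 (fun x => wy κ τ (x 2 - z)) x = wyy κ τ (x 2 - z) := fun x => pd2_comp (hd2 _)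
  rw [hpd, hWt]
  exact ⟨⟨hsm2, hper2⟩, ⟨hi0, hi1⟩, fun x => hpos _, fun x => rfl, hdd, hcube⟩

end Pool.Agent.H4NC.B0
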