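import Pool.Agent.H4NC.StmB
import Pool.Agent.H4LA.HldL
import Pool.Agent.H4LA.Mink

set_option autoImplicit false

open MeasureTheory Set Function Filter Topology
open scoped ENNReal ContDiff

namespace Pool.Agent.H4NC.B1

open H459R3.NS H4LA Pool.Agent.H4NC

/-- Integrals over the cube of continuous functions are monotone. -/
theorem imono {f g : V → ℝ} (hf : Continuous f) (hg : Continuous g) (h : ∀ x, f x ≤ g x) :
    ∫ x in cube, f x ≤ ∫ x in cube, g x :=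
  integral_mono (integrableOn_cube hf) (integrableOn_cube hg) h

theorem Wt_cp {κ τ : ℝ} (wc : Continuous (wk κ τ)) (wper : ∀ y, wk κ τ (y + 1) = wk κ τ y)
    (z : ℝ) : CP (Wt κ τ z) := by
  refine ⟨wc.comp (by fun_prop), ?_⟩
  intro i x
  unfold Wt
  by_cases hi : i = 2
  · subst hi
    have : (x + Pi.single (2 : Fin 3) (1 : ℝ) : V) 2 - z = (x 2 - z) + 1 := by
      rw [Pi.add_apply, Pi.single_eq_same]; ring
    rw [this, wper]
  · have : (x + Pi.single i (1 : ℝ) : V) 2 = x 2 := by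
      rw [Pi.add_apply, Pi.single_eq_of_ne (Ne.symm hi), add_zero]
    rw [this]

theorem gc {W H k w4 : V → ℝ} (hW : CP W) (hH : CP H) (hk : CP k) (c4 : Continuous w4)
    (p4 : ∀ x, 0 < w4 x) (s : V) {lam ia P p3 : ℝ} (hl : 0 ≤ lam) (hia : 0 ≤ ia) (hp3 : 0 ≤ p3) :
    Continuous (fun x => (W (x + s) * H (x + s)) ^ lam * k x ^ ia * (w4 x ^ P) ^ p3 *
      (1 : ℝ) ^ (0 : ℝ)) := by
  have c1 : Continuous (fun x => W (x + s) * H (x + s)) := (hW.shift s).cont.mul (hH.shift s).cont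
  refine Continuous.mul (Continuous.mul (Continuous.mul (c1.rpow_const fun x => Or.inr hl)
    (hk.cont.rpow_const fun x => Or.inr hia)) ?_) continuous_const
  refine Continuous.rpow_const (Continuous.rpow_const c4 ?_) ?_
  · intro x; exact Or.inl (p4 _).ne'
  · intro x; exact Or.inr hp3

theorem gen {W H k w4 : V → ℝ} (hW : CP W) (W0 : ∀ x, 0 ≤ W x) (hH : CP H) (H0 : ∀ x, 0 ≤ H x)
    (hk : CP k) (k0 : ∀ x, 0 ≤ k x) (c4 : Continuous w4) (p4 : ∀ x, 0 < w4 x) (s : V)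
    {lam a P p3 M D : ℝ} (hl : 0 ≤ lam) (ha : 0 < a) (hp3 : 0 ≤ p3) (hs : lam + 1 / a + p3 = 1)
    (hM : 0 ≤ M) (hkM : ∫ x in cube, k x ≤ M ^ a) (hD : ∫ x in cube, w4 x ^ P ≤ D) :
    ∫ x in cube, (W (x + s) * H (x + s)) ^ lam * k x ^ (1 / a) * (w4 x ^ P) ^ p3 *
      (1 : ℝ) ^ (0 : ℝ) ≤ (∫ x in cube, W x * H x) ^ lam * M * D ^ p3 := by
  have hia : 0 < 1 / a := by positivity
  have hWH : CP (fun x => W x * H x) := hW.mul hH
  have hWH0 : ∀ x, 0 ≤ W x * H x := fun x => mul_nonneg (W0 x) (H0 x)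
  have cs : Continuous (fun x => W (x + s) * H (x + s)) := (hWH.shift s).cont
  have c3 : Continuous (fun x => w4 x ^ P) :=
    Continuous.rpow_const c4 fun x => Or.inl (p4 _).ne'
  have hh := hold4 (p1 := lam) (p2 := 1 / a) (p3 := p3) (p4 := 0) cs hk.cont c3
    (continuous_const (y := (1 : ℝ))) (fun x => hWH0 _) k0
    (fun x => Real.rpow_nonneg (p4 _).le _) (fun _ => zero_le_one) hl hia.le hp3 le_rfl
    (by rw [add_zero]; exact hs)
  refine hh.trans ?_
  have i1 : ∫ x in cube, W (x + s) * H (x + s) = ∫ x in cube, W x * H x := int_shift hWH s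
  have i2 : (∫ x in cube, k x) ^ (1 / a) ≤ M := by
    have := Real.rpow_le_rpow (integral_nonneg k0) hkM hia.le
    rwa [← Real.rpow_mul hM, mul_one_div_cancel ha.ne', Real.rpow_one] at this
  have i4 : 0 ≤ ∫ x in cube, w4 x ^ P := integral_nonneg fun y => Real.rpow_nonneg (p4 _).le _
  have i3 : (∫ x in cube, w4 x ^ P) ^ p3 ≤ D ^ p3 := Real.rpow_le_rpow i4 hD hp3
  rw [i1, Real.rpow_zero, mul_one]
  have hI0 : 0 ≤ ∫ x in cube, W x * H x := integral_nonneg hWH0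
  refine mul_le_mul (mul_le_mul_of_nonneg_left i2 (Real.rpow_nonneg hI0 _)) i3
    (Real.rpow_nonneg i4 _) ?_
  exact mul_nonneg (Real.rpow_nonneg hI0 _) hM

theorem Wt_shift (κ τ z h : ℝ) (x : V) :
    Wt κ τ z (x + Pi.single 2 h) = wk κ τ (x 2 - z + h) := by
  unfold Wt
  have : (x + Pi.single (2 : Fin 3) h : V) 2 - z = x 2 - z + h := by
    rw [Pi.add_apply, Pi.single_eq_same]; ring
  rw [this]

/-- the common bound -/
theorem bound {a lam C5 P p3 τ M I : ℝ} (ha0 : 0 < a) (hτ : 0 < τ) (hC5 : 0 ≤ C5)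
    (hPp : P * p3 = 1 - lam) (hp3 : p3 = 1 - lam - 1 / a) :
    I ^ lam * M * (C5 * τ ^ ((1 - P) / 2)) ^ p3 =
      I ^ lam * M * (C5 ^ p3 * τ ^ (-(1 / (2 * a)))) := by
  rw [Real.mul_rpow hC5 (Real.rpow_nonneg hτ.le _), ← Real.rpow_mul hτ.le]
  have : (1 - P) / 2 * p3 = -(1 / (2 * a)) := by
    have : (1 - P) / 2 * p3 = (p3 - P * p3) / 2 := by ring
    rw [this, hPp, hp3]
    field_simp
    ring
  rw [this]

theorem t (hA1 : A1) (hA4 : A4) (hA5 : A5) : B1 := by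
  intro κ a lam hκ ha hl0 hl1
  have ha0 : 0 < a := by linarith
  have hia : 0 < 1 / a := by positivity
  have hia2 : 1 / a < 1 / 2 := one_div_lt_one_div_of_lt (by norm_num) ha
  obtain ⟨p3, hp3⟩ : ∃ p3 : ℝ, p3 = 1 - lam - 1 / a := ⟨_, rfl⟩
  have hp3pos : 0 < p3 := by rw [hp3]; linarith
  obtain ⟨P, hP⟩ : ∃ P : ℝ, P = (1 - lam) / p3 := ⟨_, rfl⟩
  have hP1 : 1 ≤ P := by rw [hP, le_div_iff₀ hp3pos, hp3]; linarith
  have hPp : P * p3 = 1 - lam := by rw [hP]; exact div_mul_cancel₀ _ hp3pos.ne'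
  obtain ⟨C4, hC4, h4⟩ := hA4 κ hκ
  have hκ4 : 0 < 4 * κ := by linarith
  obtain ⟨C5, hC5, h5⟩ := hA5 (4 * κ) P hκ4 hP1
  refine ⟨(C4 + 1) * C5 ^ p3, by positivity, ?_⟩
  intro τ z hτ hτ1 k H hk k0 hH H0 M hM hkM
  obtain ⟨wpos, wper, wsm, dwk, dwy, -, -⟩ := hA1 κ τ hκ hτ
  obtain ⟨w4pos, w4per, w4sm, -, -, -, -⟩ := hA1 (4 * κ) τ hκ4 hτ
  have hyc : Continuous (wy κ τ) :=
    continuous_iff_continuousAt.2 fun y => (dwy y).continuousAt
  have wc : Continuous (wk κ τ) := wsm.continuous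
  have w4c : Continuous (wk (4 * κ) τ) := w4sm.continuous
  have cx : Continuous (fun x : V => x 2 - z) := by fun_prop
  have cy : Continuous (fun x : V => |wy κ τ (x 2 - z)|) := (hyc.comp cx).abs
  have hW := Wt_cp wc wper z
  have hW4 := Wt_cp w4c w4per z
  have hW0 : ∀ x, 0 ≤ Wt κ τ z x := fun x => (wpos _).le
  have hW4p : ∀ x, 0 < Wt (4 * κ) τ z x := fun x => w4pos _
  have hI0 : 0 ≤ ∫ x in cube, Wt κ τ z x * H x :=
    integral_nonneg fun x => mul_nonneg (hW0 x) (H0 x)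
  have hD : ∫ x in cube, Wt (4 * κ) τ z x ^ P ≤ C5 * τ ^ ((1 - P) / 2) := by
    have cφ : Continuous (fun y => wk (4 * κ) τ (y - z) ^ P) :=
      Continuous.rpow_const (w4c.comp (continuous_id.sub continuous_const))
        fun x => Or.inl (w4pos _).ne'
    have e3 := int_coord (φ := fun y => wk (4 * κ) τ (y - z) ^ P) cφ 2
    have h6 := h5 τ z hτ hτ1
    rw [← e3] at h6
    exact h6
  have hs : lam + 1 / a + p3 = 1 := by rw [hp3]; ring
  have main : ∀ s : V, _ := fun s =>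
    gen hW hW0 hH H0 hk k0 hW4.cont hW4p s hl0 ha0 hp3pos.le hs hM hkM hD
  have mc : ∀ s : V, _ := fun s =>
    gc hW hH hk hW4.cont hW4p s (P := P) (p3 := p3) hl0 hia.le hp3pos.le
  have bd := bound (M := M) (I := ∫ x in cube, Wt κ τ z x * H x) ha0 hτ hC5 hPp hp3
  rw [bd] at main
  have e4 : ∀ x : V, (Wt (4 * κ) τ z x ^ P) ^ p3 = Wt (4 * κ) τ z x ^ (1 - lam) := by
    intro x
    rw [← Real.rpow_mul (hW4p x).le, hPp]
  obtain ⟨I, hI⟩ : ∃ I : ℝ, I = ∫ x in cube, Wt κ τ z x * H x := ⟨_, rfl⟩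
  rw [← hI] at main hI0 ⊢
  have hIl := Real.rpow_nonneg hI0 lam
  have ck : Continuous (fun x => k x ^ (1 / a)) := hk.cont.rpow_const fun x => Or.inr hia.le
  constructor
  · intro h hh
    have e5 : τ ^ (-(1 / 2 + 1 / (2 * a))) = τ ^ (-(1 / 2) : ℝ) * τ ^ (-(1 / (2 * a))) := by
      rw [← Real.rpow_add hτ]; congr 1; ring
    have cf : Continuous (fun x : V => |wy κ τ (x 2 - z)| *
        (k x ^ (1 / a) * H (x + Pi.single 2 h) ^ lam)) :=
      cy.mul (ck.mul ((hH.shift _).cont.rpow_const fun x => Or.inr hl0))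
    have cg : Continuous (fun x : V => C4 * τ ^ (-(1 / 2) : ℝ) *
        ((Wt κ τ z (x + Pi.single 2 h) * H (x + Pi.single 2 h)) ^ lam * k x ^ (1 / a) *
          (Wt (4 * κ) τ z x ^ P) ^ p3 * (1 : ℝ) ^ (0 : ℝ))) :=
      Continuous.mul continuous_const (mc (Pi.single 2 h))
    have step := imono cf cg (by
      intro x
      have h8 := h4 τ h lam (x 2 - z) hτ hτ1 hh hl0 hl1
      have h9 : 0 ≤ k x ^ (1 / a) * H (x + Pi.single 2 h) ^ lam :=
        mul_nonneg (Real.rpow_nonneg (k0 x) _) (Real.rpow_nonneg (H0 _) _)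
      have h10 := mul_le_mul_of_nonneg_right h8 h9
      refine h10.trans (le_of_eq ?_)
      rw [e4, Wt_shift, Real.mul_rpow (wpos _).le (H0 _), Real.rpow_zero]
      have : Wt (4 * κ) τ z x = wk (4 * κ) τ (x 2 - z) := rfl
      rw [this]
      ring)
    rw [integral_const_mul] at step
    refine step.trans ?_
    have hpos : 0 ≤ C4 * τ ^ (-(1 / 2) : ℝ) := mul_nonneg hC4 (Real.rpow_nonneg hτ.le _)
    refine (mul_le_mul_of_nonneg_left (main _) hpos).trans ?_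
    rw [e5]
    have h10 : C4 * τ ^ (-(1 / 2) : ℝ) * (I ^ lam * M * (C5 ^ p3 * τ ^ (-(1 / (2 * a))))) =
      C4 * (C5 ^ p3 * (M * (τ ^ (-(1 / 2) : ℝ) * τ ^ (-(1 / (2 * a)))) * I ^ lam)) := by ring
    have h11 : (C4 + 1) * C5 ^ p3 * (M * (τ ^ (-(1 / 2) : ℝ) * τ ^ (-(1 / (2 * a)))) * I ^ lam) =
      (C4 + 1) * (C5 ^ p3 * (M * (τ ^ (-(1 / 2) : ℝ) * τ ^ (-(1 / (2 * a)))) * I ^ lam)) := by ring
    rw [h10, h11]
    refine mul_le_mul_of_nonneg_right (by linarith) ?_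
    positivity
  · have cf : Continuous (fun x : V => Wt κ τ z x * (k x ^ (1 / a) * H x ^ lam)) :=
      hW.cont.mul (ck.mul (hH.cont.rpow_const fun x => Or.inr hl0))
    have step := imono cf (mc (Pi.single 2 0)) (by
      intro x
      have e6 : (x + Pi.single (2 : Fin 3) (0 : ℝ) : V) = x := by
        rw [Pi.single_zero, add_zero]
      rw [e4, e6, Real.mul_rpow (hW0 x) (H0 _), Real.rpow_zero, mul_one]
      have h12 : Wt κ τ z x ≤ Wt (4 * κ) τ z x := by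
        unfold Wt wk
        refine mul_le_mul_of_nonneg_left (Real.exp_le_exp.2 (neg_le_neg ?_))
          (Real.rpow_nonneg hτ.le _)
        refine div_le_div_of_nonneg_left (sq_nonneg _) (by positivity) ?_
        have := mul_pos hκ hτ
        linarith
      have h13 : Wt κ τ z x ≤ Wt κ τ z x ^ lam * Wt (4 * κ) τ z x ^ (1 - lam) := by
        have hp : 0 < Wt κ τ z x := wpos _
        have e7 : Wt κ τ z x ^ lam * Wt κ τ z x ^ (1 - lam) = Wt κ τ z x := by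
          rw [← Real.rpow_add hp]
          have : lam + (1 - lam) = 1 := by ring
          rw [this, Real.rpow_one]
        have h14 : Wt κ τ z x ^ (1 - lam) ≤ Wt (4 * κ) τ z x ^ (1 - lam) :=
          Real.rpow_le_rpow hp.le h12 (by linarith)
        calc Wt κ τ z x = Wt κ τ z x ^ lam * Wt κ τ z x ^ (1 - lam) := e7.symm
          _ ≤ _ := mul_le_mul_of_nonneg_left h14 (Real.rpow_nonneg hp.le _)
      have h14 : 0 ≤ k x ^ (1 / a) * H x ^ lam :=
        mul_nonneg (Real.rpow_nonneg (k0 x) _) (Real.rpow_nonneg (H0 _) _)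
      refine (mul_le_mul_of_nonneg_right h13 h14).trans (le_of_eq ?_)
      ring)
    refine (step.trans (main _)).trans ?_
    have h11 : (C4 + 1) * C5 ^ p3 * (M * τ ^ (-(1 / (2 * a))) * I ^ lam) =
      (C4 + 1) * (I ^ lam * M * (C5 ^ p3 * τ ^ (-(1 / (2 * a))))) := by ring
    rw [h11]
    have h15 : 0 ≤ I ^ lam * M * (C5 ^ p3 * τ ^ (-(1 / (2 * a)))) := by positivity
    nlinarith

end Pool.Agent.H4NC.B1
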