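import Pool.Agent.H4NC.StmB
import Pool.Agent.H4LA.Mlt

/-!
Stub B2 of project NC: multiplication on a slice, in product form. The proof of `mlt` (Mlt.lean)
without the restriction `δ ≤ 1`, and the best choice of `δ`.
-/

set_option autoImplicit false
set_option linter.unusedVariables false

open MeasureTheory Set Function Filter Topology
open scoped ENNReal ContDiff

namespace Pool.Agent.H4NC.B2

open H459R3.NS H4LA

theorem mlt1 {r : ℝ} (hr : 2 < r) : ∃ C : ℝ, 1 ≤ C ∧ ∀ G : V → ℝ, CP G → Ind 2 G →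
    (∀ x, 0 ≤ G x) → ∀ N : ℝ, 1 ≤ N → (∫ x in cube, G x ^ r) ≤ N ^ r →
    ∀ δ : ℝ, 0 < δ → ∀ f, SP f → ∀ x A B, Hz (fun y => f y ^ 2) x ≤ A →
    Hz (fun y => pd 0 f y ^ 2) x ≤ B → Hz (fun y => pd 1 f y ^ 2) x ≤ B →
    Hz (fun y => G y ^ 2 * f y ^ 2) x
      ≤ C * (δ * (A + B) + (N ^ r / δ) ^ (2 / (r - 2)) * A) := by
  have hr2 : 0 < r - 2 := by linarith
  obtain ⟨n0, hn0⟩ := exists_nat_gt (r / (r - 2))
  set m : ℕ := n0 + 1 with hm
  set n : ℕ := m + 1 with hn
  have hm0 : (0 : ℝ) < m := by rw [hm]; positivity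
  have hn' : (n : ℝ) = m + 1 := by rw [hn]; push_cast; ring
  have hnr : r / (r - 2) ≤ n := by
    rw [hn', hm]
    push_cast
    linarith
  have hn1 : (1 : ℝ) ≤ n := by rw [hn']; linarith
  have hn2 : (1 : ℝ) ≤ (n : ℝ) ^ 2 := one_le_pow₀ hn1
  refine ⟨4 * (n : ℝ) ^ 2, by linarith only [hn2], ?_⟩
  intro G cG iG G0 N hN hGN δ hδ f sf x A B hA hB0 hB1
  have hA0 : 0 ≤ A := (Hz_nonneg (fun y => sq_nonneg _) x).trans hA
  have hB : 0 ≤ B := (Hz_nonneg (fun y => sq_nonneg _) x).trans hB0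
  have hNr : 1 ≤ N ^ r := Real.one_le_rpow hN (by linarith)
  set Λ : ℝ := N ^ r / δ with hΛ
  have hΛ0 : 0 < Λ := by
    rw [hΛ]
    positivity
  set lam : ℝ := Λ ^ (1 / (r - 2)) with hlam
  have hl0 : 0 < lam := Real.rpow_pos_of_pos hΛ0 _
  have hlΛ : lam ^ (r - 2) = Λ := by
    rw [hlam, ← Real.rpow_mul hΛ0.le, one_div, inv_mul_cancel₀ hr2.ne', Real.rpow_one]
  have hl2 : lam ^ 2 = Λ ^ (2 / (r - 2)) := by
    rw [hlam, ← Real.rpow_natCast, ← Real.rpow_mul hΛ0.le]
    congr 1
    push_cast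
    ring
  rw [← hl2]
  -- the exponents
  set q : ℝ := n / m with hq
  have hq1 : 1 < q := by
    rw [hq, lt_div_iff₀ hm0, hn']
    linarith
  have hpq : (n : ℝ).HolderConjugate q := by
    rw [Real.holderConjugate_iff]
    constructor
    · rw [hn']; linarith
    · rw [hq, hn']
      field_simp
      ring
  have h2q : 2 * q ≤ r := by
    rw [div_le_iff₀ hr2] at hnr
    rw [hq, mul_div_assoc', div_le_iff₀ hm0]
    rw [hn'] at hnr ⊢
    linarith
  -- the functions
  set F : V → ℝ := fun z => f (update z 2 (x 2)) with hF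
  have cF : CP F := (cp_of sf).frz (x 2)
  set g : V → ℝ := fun z => max (G z - lam) 0 with hg
  have cg : Continuous g := (cG.cont.sub continuous_const).max continuous_const
  have g0 : ∀ z, 0 ≤ g z := fun z => le_max_right _ _
  have e0 : Hz (fun y => G y ^ 2 * f y ^ 2) x = ∫ z in cube, G z ^ 2 * F z ^ 2 := by
    rw [Hz_cube ((cG.pow 2).mul ((cp_of sf).pow 2))]
    congr 1
    funext z
    simp only [hF, iG z]
  have eA : ∫ z in cube, F z ^ 2 ≤ A := by
    rw [Hz_cube ((cp_of sf).pow 2)] at hA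
    exact hA
  have h1 : ∫ z in cube, G z ^ 2 * F z ^ 2
      ≤ ∫ z in cube, (2 * lam ^ 2 * F z ^ 2 + 2 * (g z ^ 2 * F z ^ 2)) := by
    refine integral_mono ((cG.pow 2).mul (cF.pow 2)).int (integrableOn_cube ?_) fun z => ?_
    · exact (continuous_const.mul (cF.cont.pow 2)).add
        (continuous_const.mul ((cg.pow 2).mul (cF.cont.pow 2)))
    · have k1 : G z ≤ lam + g z := by
        have := le_max_left (G z - lam) 0
        simp only [hg]
        linarith
      have k2 : G z ^ 2 ≤ 2 * lam ^ 2 + 2 * g z ^ 2 := by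
        have k3 := pow_le_pow_left₀ (G0 z) k1 2
        linarith only [k3, sq_nonneg (lam - g z)]
      have := mul_le_mul_of_nonneg_right k2 (sq_nonneg (F z))
      simp only
      linarith
  have i1 : IntegrableOn (fun z => 2 * lam ^ 2 * F z ^ 2) cube :=
    integrableOn_cube (continuous_const.mul (cF.cont.pow 2))
  have i2 : IntegrableOn (fun z => 2 * (g z ^ 2 * F z ^ 2)) cube :=
    integrableOn_cube (continuous_const.mul ((cg.pow 2).mul (cF.cont.pow 2)))
  rw [integral_add i1 i2, integral_const_mul, integral_const_mul] at h1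
  -- Hoelder
  have hfin := cube_finite
  have memc : ∀ {h : V → ℝ} {p : ℝ≥0∞}, Continuous h → MemLp h p (volume.restrict cube) := by
    intro h p hh
    have hK : IsCompact (cube : Set V) := isCompact_Icc
    obtain ⟨C, hC⟩ := hK.exists_bound_of_continuousOn hh.continuousOn
    refine MemLp.of_bound hh.aestronglyMeasurable C ?_
    exact (ae_restrict_iff' measurableSet_Icc).2 (Filter.Eventually.of_forall hC)
  have h2 : ∫ z in cube, g z ^ 2 * F z ^ 2
      ≤ (∫ z in cube, (g z ^ 2) ^ q) ^ (1 / q) * (∫ z in cube, (F z ^ 2) ^ (n : ℝ)) ^ (1 / (n : ℝ)) :=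
    integral_mul_le_Lp_mul_Lq_of_nonneg hpq.symm
      (Filter.Eventually.of_forall fun z => sq_nonneg _)
      (Filter.Eventually.of_forall fun z => sq_nonneg _)
      (memc (cg.pow 2)) (memc (cF.cont.pow 2))
  set Q : ℝ := (√A + n * √B) ^ 2 with hQ
  have hQ0 : 0 ≤ Q := sq_nonneg _
  have h3 : ∫ z in cube, (F z ^ 2) ^ (n : ℝ) ≤ A * Q ^ m := by
    have k1 := gn sf hA hB0 hB1 m
    rw [Hz_cube ((cp_of sf).pow _)] at k1
    have e1 : ∀ z : V, (F z ^ 2) ^ (n : ℝ) = f (update z 2 (x 2)) ^ (2 * (m + 1)) := by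
      intro z
      rw [Real.rpow_natCast, ← pow_mul]
    simp_rw [e1]
    refine k1.trans (le_of_eq ?_)
    rw [hQ, ← pow_mul, hn']
  set c : ℝ := lam ^ (2 * q - r) * N ^ r with hc
  have hc0 : 0 ≤ c := by positivity
  have h4 : ∫ z in cube, (g z ^ 2) ^ q ≤ c := by
    have k1 : ∫ z in cube, (g z ^ 2) ^ q ≤ ∫ z in cube, lam ^ (2 * q - r) * G z ^ r := by
      refine integral_mono (integrableOn_cube ?_) (integrableOn_cube ?_) fun z => ?_
      · exact (cg.pow 2).rpow_const fun z => Or.inr (by linarith)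
      · exact continuous_const.mul (cG.cont.rpow_const fun z => Or.inr (by linarith))
      · simp only
        have e1 : (g z ^ 2) ^ q = g z ^ (2 * q) := by
          rw [← Real.rpow_natCast, ← Real.rpow_mul (g0 z)]
          norm_num
        rw [e1]
        rcases le_or_gt (G z) lam with h | h
        · have : g z = 0 := max_eq_right (by linarith)
          rw [this, Real.zero_rpow (by linarith)]
          have := G0 z
          positivity
        · have hG : 0 < G z := hl0.trans h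
          have k2 : g z ≤ G z := max_le (by linarith) hG.le
          have k3 : g z ^ (2 * q) ≤ G z ^ (2 * q) := Real.rpow_le_rpow (g0 z) k2 (by linarith)
          have k4 : G z ^ (2 * q) = G z ^ (2 * q - r) * G z ^ r := by
            rw [← Real.rpow_add hG]
            congr 1
            ring
          have k5 : G z ^ (2 * q - r) ≤ lam ^ (2 * q - r) :=
            Real.rpow_le_rpow_of_nonpos hl0 h.le (by linarith)
          rw [k4] at k3
          exact k3.trans (mul_le_mul_of_nonneg_right k5 (by positivity))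
    rw [integral_const_mul] at k1
    exact k1.trans (mul_le_mul_of_nonneg_left hGN (by positivity))
  have hq0 : 0 < q := by linarith
  have hn0' : (0 : ℝ) < n := by linarith
  have iq : 1 / q = m / n := by
    rw [hq, one_div_div]
  have h5 : ∫ z in cube, g z ^ 2 * F z ^ 2 ≤ c ^ ((m : ℝ) / n) * (A * Q ^ m) ^ (1 / (n : ℝ)) := by
    refine h2.trans ?_
    rw [iq]
    refine mul_le_mul ?_ ?_ ?_ ?_
    · refine Real.rpow_le_rpow (integral_nonneg fun z => ?_) h4 (by positivity)
      exact Real.rpow_nonneg (sq_nonneg _) _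
    · refine Real.rpow_le_rpow (integral_nonneg fun z => ?_) h3 (by positivity)
      exact Real.rpow_nonneg (sq_nonneg _) _
    · refine Real.rpow_nonneg (integral_nonneg fun z => ?_) _
      exact Real.rpow_nonneg (sq_nonneg _) _
    · exact Real.rpow_nonneg hc0 _
  -- Young
  have hcδ : (c / δ) ^ (m : ℝ) = lam ^ 2 := by
    have e1 : c / δ = lam ^ (2 / (m : ℝ)) := by
      have e2 : N ^ r = Λ * δ := by
        rw [hΛ]
        field_simp
      rw [hc, e2, ← hlΛ]
      have e3 : lam ^ (2 * q - r) * (lam ^ (r - 2) * δ) / δ = lam ^ (2 * q - r) * lam ^ (r - 2) := by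
        field_simp
      rw [e3, ← Real.rpow_add hl0]
      congr 1
      rw [hq, hn']
      field_simp
      ring
    rw [e1, ← Real.rpow_mul hl0.le, div_mul_cancel₀ _ hm0.ne']
    exact Real.rpow_ofNat lam 2
  have h6 : c ^ ((m : ℝ) / n) * (A * Q ^ m) ^ (1 / (n : ℝ)) ≤ lam ^ 2 * A + δ * Q := by
    have hw : 1 / (n : ℝ) + m / n = 1 := by
      rw [hn']
      field_simp
      ring
    have k1 := Real.geom_mean_le_arith_mean2_weighted (w₁ := 1 / (n : ℝ)) (w₂ := m / n)
      (p₁ := lam ^ 2 * A) (p₂ := δ * Q) (by positivity) (by positivity) (by positivity)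
      (by positivity) hw
    have k2 : (lam ^ 2 * A) ^ (1 / (n : ℝ)) * (δ * Q) ^ ((m : ℝ) / n)
        = c ^ ((m : ℝ) / n) * (A * Q ^ m) ^ (1 / (n : ℝ)) := by
      rw [← hcδ, Real.mul_rpow (Real.rpow_nonneg (by positivity) _) hA0,
        Real.mul_rpow hA0 (by positivity), Real.mul_rpow hδ.le hQ0, ← Real.rpow_mul (by positivity),
        ← Real.rpow_natCast Q m, ← Real.rpow_mul hQ0, Real.div_rpow hc0 hδ.le]
      have e1 : (m : ℝ) * (1 / (n : ℝ)) = m / n := by ring
      rw [e1]
      have e2 : 0 < δ ^ ((m : ℝ) / n) := Real.rpow_pos_of_pos hδ _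
      field_simp
    rw [k2] at k1
    refine k1.trans ?_
    have w1 : 1 / (n : ℝ) ≤ 1 := by
      have : 0 ≤ (m : ℝ) / n := by positivity
      linarith
    have w2 : (m : ℝ) / n ≤ 1 := by
      have : 0 ≤ 1 / (n : ℝ) := by positivity
      linarith
    have k3 : 1 / (n : ℝ) * (lam ^ 2 * A) ≤ 1 * (lam ^ 2 * A) :=
      mul_le_mul_of_nonneg_right w1 (by positivity)
    have k4 : (m : ℝ) / n * (δ * Q) ≤ 1 * (δ * Q) :=
      mul_le_mul_of_nonneg_right w2 (by positivity)
    linarith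
  -- the end
  have hQ2 : Q ≤ 2 * (A + n ^ 2 * B) := by
    have k1 : Q ≤ 2 * (√A ^ 2 + (n * √B) ^ 2) := by
      rw [hQ]
      linarith only [sq_nonneg (√A - n * √B)]
    have k2 : √A ^ 2 = A := Real.sq_sqrt hA0
    have k3 : (n * √B) ^ 2 = n ^ 2 * B := by rw [mul_pow, Real.sq_sqrt hB]
    rw [k2, k3] at k1
    exact k1
  rw [e0]
  have k1 : 2 * lam ^ 2 * ∫ z in cube, F z ^ 2 ≤ 2 * lam ^ 2 * A :=
    mul_le_mul_of_nonneg_left eA (by positivity)
  have k2 := mul_le_mul_of_nonneg_left hQ2 hδ.le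
  have k3 : 4 * (lam ^ 2 * A) ≤ 4 * (n : ℝ) ^ 2 * (lam ^ 2 * A) := by
    have q0 : 0 ≤ lam ^ 2 * A := by positivity
    have q1 := mul_le_mul_of_nonneg_right hn2 q0
    linarith only [q1]
  have k4 : 4 * (δ * A) ≤ 4 * (n : ℝ) ^ 2 * (δ * A) := by
    have q0 : 0 ≤ δ * A := by positivity
    have q1 := mul_le_mul_of_nonneg_right hn2 q0
    linarith only [q1]
  linarith

theorem t : Pool.Agent.H4NC.B2 := by
  intro r hr
  obtain ⟨C, hC, h⟩ := mlt1 hr
  refine ⟨2 * C, by linarith, ?_⟩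
  intro G cG iG G0 f sf x A B hA hB0 hB1
  have hr0 : 0 < r := by linarith
  have hr2 : 0 < r - 2 := by linarith
  have hA0 : 0 ≤ A := (Hz_nonneg (fun y => sq_nonneg _) x).trans hA
  have hB : 0 ≤ B := (Hz_nonneg (fun y => sq_nonneg _) x).trans hB0
  set I : ℝ := ∫ z in cube, G z ^ r with hI
  have hI0 : 0 ≤ I := by
    rw [hI]
    exact integral_nonneg fun z => Real.rpow_nonneg (G0 z) _
  set R : ℝ := 1 + I with hR
  have hR1 : 1 ≤ R := by linarith
  have hR0 : 0 < R := by linarith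
  have hNr : (R ^ (1 / r)) ^ r = R := by
    rw [← Real.rpow_mul hR0.le, one_div, inv_mul_cancel₀ hr0.ne', Real.rpow_one]
  have hN1 : 1 ≤ R ^ (1 / r) := Real.one_le_rpow hR1 (by positivity)
  have h' : ∀ δ : ℝ, 0 < δ → Hz (fun y => G y ^ 2 * f y ^ 2) x
      ≤ C * (δ * (A + B) + (R / δ) ^ (2 / (r - 2)) * A) := by
    intro δ hδ
    have k := h G cG iG G0 (R ^ (1 / r)) hN1 (by rw [hNr]; linarith) δ hδ f sf x A B hA hB0 hB1
    rw [hNr] at k
    exact k
  rcases hA0.eq_or_lt with hAz | hApos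
  · rw [← hAz]
    have e0 : (0 : ℝ) ^ (1 - 2 / r) = 0 := by
      apply Real.zero_rpow
      have : 2 / r < 1 := by
        rw [div_lt_one hr0]
        exact hr
      linarith
    rw [e0, zero_mul, mul_zero, mul_zero]
    by_contra hcon
    push Not at hcon
    set L : ℝ := Hz (fun y => G y ^ 2 * f y ^ 2) x with hL
    have hC0 : 0 < C := by linarith
    have hδ : 0 < L / (2 * C * (B + 1)) := by positivity
    have k := h' _ hδ
    rw [← hAz] at k
    have e1 : C * (L / (2 * C * (B + 1)) * (0 + B)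
        + (R / (L / (2 * C * (B + 1)))) ^ (2 / (r - 2)) * 0) = L / 2 * (B / (B + 1)) := by
      field_simp
      ring
    rw [e1] at k
    have e2 : B / (B + 1) ≤ 1 := by
      rw [div_le_one (by linarith)]
      linarith
    have e3 : L / 2 * (B / (B + 1)) ≤ L / 2 * 1 := mul_le_mul_of_nonneg_left e2 (by linarith)
    linarith
  · have hAB : 0 < A + B := by linarith
    set S : ℝ := A / (A + B) with hS
    have hS0 : 0 < S := by positivity
    have eA : A = S * (A + B) := by
      rw [hS]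
      field_simp
    set δ : ℝ := R ^ (2 / r) * S ^ (1 - 2 / r) with hδ
    have hδ0 : 0 < δ := by positivity
    have k := h' δ hδ0
    have e1 : δ * (A + B) = R ^ (2 / r) * (A ^ (1 - 2 / r) * (A + B) ^ (2 / r)) := by
      have e2 : A ^ (1 - 2 / r) = S ^ (1 - 2 / r) * (A + B) ^ (1 - 2 / r) := by
        rw [← Real.mul_rpow hS0.le hAB.le, ← eA]
      have e3 : (A + B) ^ (1 - 2 / r) * (A + B) ^ (2 / r) = A + B := by
        rw [← Real.rpow_add hAB]
        norm_num
      rw [e2, hδ]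
      calc R ^ (2 / r) * S ^ (1 - 2 / r) * (A + B)
          = R ^ (2 / r) * S ^ (1 - 2 / r) * ((A + B) ^ (1 - 2 / r) * (A + B) ^ (2 / r)) := by
            rw [e3]
        _ = _ := by ring
    have e4 : (R / δ) ^ (2 / (r - 2)) * A
        = R ^ (2 / r) * (A ^ (1 - 2 / r) * (A + B) ^ (2 / r)) := by
      have e5 : R / δ = (R / S) ^ (1 - 2 / r) := by
        rw [Real.div_rpow hR0.le hS0.le, hδ, ← div_div]
        congr 1
        rw [Real.rpow_sub hR0, Real.rpow_one]
      have e6 : (1 - 2 / r) * (2 / (r - 2)) = 2 / r := by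
        field_simp
      rw [e5, ← Real.rpow_mul (by positivity), e6, Real.div_rpow hR0.le hS0.le]
      have e7 : S ^ (2 / r) = A ^ (2 / r) / (A + B) ^ (2 / r) := by
        rw [hS, Real.div_rpow hA0 hAB.le]
      have e8 : A ^ (2 / r) * A ^ (1 - 2 / r) = A := by
        rw [← Real.rpow_add hApos]
        norm_num
      have p1 : 0 < A ^ (2 / r) := Real.rpow_pos_of_pos hApos _
      have p2 : 0 < (A + B) ^ (2 / r) := Real.rpow_pos_of_pos hAB _
      rw [e7]
      rw [div_mul_eq_mul_div, div_eq_iff (by positivity)]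
      have e9 : R ^ (2 / r) * (A ^ (1 - 2 / r) * (A + B) ^ (2 / r)) * (A ^ (2 / r) / (A + B) ^ (2 / r))
          = R ^ (2 / r) * (A ^ (2 / r) * A ^ (1 - 2 / r)) := by
        field_simp
      rw [e9, e8]
    rw [e1, e4] at k
    refine k.trans (le_of_eq ?_)
    ring

end Pool.Agent.H4NC.B2
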