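import Pool.Agent.H4NC.StmB

set_option autoImplicit false

open MeasureTheory Set Function Filter Topology
open scoped ENNReal ContDiff

namespace Pool.Agent.H4NC.B2v

open H459R3.NS H4LA

theorem key {r C : ℝ} (hC : ∀ G : V → ℝ, CP G → Ind 2 G → (∀ x, 0 ≤ G x) →
    ∀ f : V → ℝ, SP f → ∀ (x : V) (A B : ℝ), Hz (fun y => f y ^ 2) x ≤ A →
    Hz (fun y => pd 0 f y ^ 2) x ≤ B → Hz (fun y => pd 1 f y ^ 2) x ≤ B →
    Hz (fun y => G y ^ 2 * f y ^ 2) x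
      ≤ C * ((1 + ∫ z in cube, G z ^ r) ^ (2 / r) * (A ^ (1 - 2 / r) * (A + B) ^ (2 / r))))
    {G : V → ℝ} (cG : CP G) (iG : Ind 2 G) (G0 : ∀ x, 0 ≤ G x) {v : Fin 3 → V → ℝ}
    (hv : ∀ i, SP (v i)) (x : V) :
    Hz (fun y => G y ^ 2 * vsq v y) x
      ≤ 3 * C * ((1 + ∫ z in cube, G z ^ r) ^ (2 / r)
        * (Hz (vsq v) x ^ (1 - 2 / r) * (Hz (vsq v) x + Hz (ga v) x) ^ (2 / r))) := by
  have e : Hz (fun y => G y ^ 2 * vsq v y) x
      = ∑ i : Fin 3, Hz (fun y => G y ^ 2 * v i y ^ 2) x := by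
    rw [← Hz_sum (s := Finset.univ) (f := fun (i : Fin 3) y => G y ^ 2 * v i y ^ 2)
      (fun i _ => (cG.pow 2).mul ((cp_of (hv i)).pow 2)) x]
    apply Hz_congr
    intro z _
    unfold vsq
    rw [Finset.mul_sum]
  rw [e]
  have h1 : ∀ i : Fin 3, Hz (fun y => G y ^ 2 * v i y ^ 2) x
      ≤ C * ((1 + ∫ z in cube, G z ^ r) ^ (2 / r)
        * (Hz (vsq v) x ^ (1 - 2 / r) * (Hz (vsq v) x + Hz (ga v) x) ^ (2 / r))) := fun i =>
    hC G cG iG G0 (v i) (hv i) x _ _ (Hz_le_vsq hv i x) (Hz_le_ga hv i 0 x) (Hz_le_ga hv i 1 x)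
  calc ∑ i : Fin 3, Hz (fun y => G y ^ 2 * v i y ^ 2) x
      ≤ ∑ _i : Fin 3, C * ((1 + ∫ z in cube, G z ^ r) ^ (2 / r)
        * (Hz (vsq v) x ^ (1 - 2 / r) * (Hz (vsq v) x + Hz (ga v) x) ^ (2 / r))) :=
        Finset.sum_le_sum fun i _ => h1 i
    _ = 3 * C * ((1 + ∫ z in cube, G z ^ r) ^ (2 / r)
        * (Hz (vsq v) x ^ (1 - 2 / r) * (Hz (vsq v) x + Hz (ga v) x) ^ (2 / r))) := by
        rw [Finset.sum_const, Finset.card_univ, Fintype.card_fin, nsmul_eq_mul]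
        push_cast
        ring

theorem t (h2 : B2) : Pool.Agent.H4NC.B2v := by
  intro r hr
  obtain ⟨C, hC1, hC⟩ := h2 r hr
  refine ⟨3 * C, by linarith, fun G cG G0 v hv x => ⟨fun iG => key hC cG iG G0 hv x, ?_⟩⟩
  have h := key hC (fz_cp cG x) (fz_ind G x) (fz_nonneg G0 x) hv x
  have e1 : 1 + ∫ z in cube, fz G x z ^ r = NR r G x := by
    have h3 := Hz_cube (cprp cG (by linarith : 0 ≤ r)) x
    have e : ∫ z in cube, fz G x z ^ r = Hz (fun y => G y ^ r) x := by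
      rw [h3]
      rfl
    rw [e]
    rfl
  have e2 : Hz (fun y => fz G x y ^ 2 * vsq v y) x = Hz (fun y => G y ^ 2 * vsq v y) x := by
    apply Hz_congr
    intro z hz
    rw [fz_eq hz]
  rwa [e1, e2] at h

end Pool.Agent.H4NC.B2v
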