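import Pool.Agent.H4NC.StmB
import Pool.Agent.H4LA.PrsK

/-!
Project NC (helper4), stub B3 (helper33): the averages over cubes of side `2ρ`.
-/

set_option autoImplicit false

open MeasureTheory Set Function Filter Topology
open scoped ENNReal ContDiff

namespace Pool.Agent.H4NC.B3

open H459R3.NS H4LA

theorem t : B3 := by
  intro r hr
  have hr0 : 0 < r := by linarith
  refine ⟨8, by norm_num, fun G φ cG G0 cφ φ0 ρ hρ x => ?_⟩
  have hΦ2 : ∀ z, Hz (fun z => fz G x z * AH ρ φ z) z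
      ≤ (8 * Nx r G x * ρ ^ (-(2 / r))) * Hz φ z := fun z =>
    smooth_le (by linarith) (fz_cp cG x) (fz_ind G x) (fz_nonneg G0 x)
      (by linarith [Nx_one hr0 G0 x]) (int_fz hr0 cG G0 x) cφ φ0 hρ z
  have k1 : QG G φ ρ x ≤ (8 * Nx r G x * ρ ^ (-(2 / r))) * BB 2 ρ (Hz φ) x := by
    rw [QG_fz cG cφ φ0, ← BB_cmul]
    exact BB_mono (((fz_cp cG x).mul (AH_cp cφ ρ)).hz).cont (cφ.hz.cmul _).cont hΦ2 2 ρ x
  refine k1.trans (le_of_eq ?_)
  unfold Nx
  ring

end Pool.Agent.H4NC.B3
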