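import Pool.Agent.H4NC.StmB

/-!
Project NC: the pressure term (stub B5).
-/

set_option autoImplicit false
set_option linter.unusedVariables false

open MeasureTheory Set Function Filter Topology
open scoped ENNReal ContDiff

namespace Pool.Agent.H4NC.B5

open H459R3.NS H4LA

theorem cont_wy (κ τ z : ℝ) : Continuous fun x : V => |wy κ τ (x 2 - z)| := by
  unfold wy wk
  fun_prop

/-- Exchange of the integral over the cube and over an interval of parameters. -/
theorem par_eq {W : V → ℝ} (cW : Continuous W) {w : ℝ → ℝ} (cw : Continuous w) {Q : V × ℝ → ℝ}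
    (cQ : Continuous Q) (α β : ℝ) :
    ∫ x in cube, W x * (∫ ρ in Icc α β, w ρ * Q (x, ρ))
      = ∫ ρ in Icc α β, w ρ * ∫ x in cube, W x * Q (x, ρ) := by
  have hF : Continuous fun q : V × ℝ => w q.2 * (W q.1 * Q q) :=
    (cw.comp continuous_snd).mul ((cW.comp continuous_fst).mul cQ)
  have hK : IsCompact (cube : Set V) := isCompact_Icc
  have k := swap (μ := (volume : Measure V)) (ν := (volume : Measure ℝ)) hK
    (isCompact_Icc (a := α) (b := β)) hF
  simp only at k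
  have e1 : ∀ x, W x * (∫ ρ in Icc α β, w ρ * Q (x, ρ))
      = ∫ ρ in Icc α β, w ρ * (W x * Q (x, ρ)) := by
    intro x
    rw [← integral_const_mul]
    congr 1
    funext ρ
    ring
  simp_rw [e1]
  rw [k]
  congr 1
  funext ρ
  rw [integral_const_mul]

theorem par_cont {W : V → ℝ} (cW : Continuous W) {Q : V × ℝ → ℝ} (cQ : Continuous Q) :
    Continuous fun ρ : ℝ => ∫ x in cube, W x * Q (x, ρ) := by
  have hK : IsCompact (cube : Set V) := isCompact_Icc
  have hF : Continuous fun q : ℝ × V => W q.2 * Q (q.2, q.1) :=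
    (cW.comp continuous_snd).mul
      (cQ.comp (by fun_prop : Continuous fun q : ℝ × V => (q.2, q.1)))
  exact continuous_parametric_integral_of_continuous hF hK

theorem int_pow {ε θ : ℝ} (hε : 0 < ε) (hθ1 : θ < 1) :
    IntegrableOn (fun ρ : ℝ => ρ ^ (-θ)) (Ioc 0 ε) ∧
      ∫ ρ in Ioc 0 ε, ρ ^ (-θ) = ε ^ (1 - θ) / (1 - θ) := by
  constructor
  · have := intervalIntegral.intervalIntegrable_rpow' (a := 0) (b := ε) (r := -θ) (by linarith)
    rwa [intervalIntegrable_iff_integrableOn_Ioc_of_le hε.le] at this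
  · rw [← intervalIntegral.integral_of_le hε.le, integral_rpow (Or.inl (by linarith))]
    have e : -θ + 1 = 1 - θ := by ring
    rw [e, Real.zero_rpow (by linarith), sub_zero]

theorem int_pow2 {ε r : ℝ} (hε : 0 < ε) (hε1 : ε ≤ 1) (hr : 0 < r) :
    ∫ ρ in Icc ε 1, ρ ^ (-(1 + 2 / r)) ≤ r / 2 * ε ^ (-(2 / r)) := by
  have h2 : 0 < 2 / r := by positivity
  rw [integral_Icc_eq_integral_Ioc, ← intervalIntegral.integral_of_le hε1,
    integral_rpow (Or.inr ⟨by linarith, by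
      rw [uIcc_of_le hε1]
      exact fun h => absurd h.1 (not_le.2 hε)⟩)]
  have e : -(1 + 2 / r) + 1 = -(2 / r) := by ring
  rw [e, Real.one_rpow]
  have e2 : (1 - ε ^ (-(2 / r))) / -(2 / r) = r / 2 * (ε ^ (-(2 / r)) - 1) := by
    field_simp
    ring
  rw [e2]
  have : 0 < r / 2 := by positivity
  nlinarith

theorem rad_near {Φ : ℝ → ℝ} (cΦ : Continuous Φ) {ε θ K : ℝ} (hε : 0 < ε) (hθ1 : θ < 1)
    (h : ∀ ρ ∈ Ioc (0 : ℝ) ε, Φ ρ ≤ K * ρ ^ (-θ)) :
    ∫ ρ in Icc 0 ε, Φ ρ ≤ K * (ε ^ (1 - θ) / (1 - θ)) := by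
  rw [integral_Icc_eq_integral_Ioc]
  obtain ⟨i1, i2⟩ := int_pow hε hθ1
  have i3 : IntegrableOn (fun ρ : ℝ => K * ρ ^ (-θ)) (Ioc 0 ε) := i1.const_mul K
  have i4 : IntegrableOn Φ (Ioc 0 ε) :=
    (cΦ.continuousOn.integrableOn_Icc (μ := volume) (a := 0) (b := ε)).mono_set
      Ioc_subset_Icc_self
  have k := setIntegral_mono_on i4 i3 measurableSet_Ioc h
  rwa [integral_const_mul, i2] at k

theorem rad_far {Φ : ℝ → ℝ} (cΦ : Continuous Φ) {ε r K : ℝ} (hε : 0 < ε) (hε1 : ε ≤ 1)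
    (hr : 0 < r) (hK : 0 ≤ K) (h : ∀ ρ ∈ Icc ε 1, Φ ρ ≤ K * ρ ^ (-(2 / r))) :
    ∫ ρ in Icc ε 1, (max ρ ε)⁻¹ * Φ ρ ≤ K * (r / 2 * ε ^ (-(2 / r))) := by
  have hmax : ∀ ρ : ℝ, 0 < max ρ ε := fun ρ => lt_of_lt_of_le hε (le_max_right _ _)
  have cinv : Continuous fun ρ : ℝ => (max ρ ε)⁻¹ :=
    (continuous_id.max continuous_const).inv₀ fun ρ => (hmax ρ).ne'
  have cp : ContinuousOn (fun ρ : ℝ => K * ρ ^ (-(1 + 2 / r))) (Icc ε 1) := by
    refine continuousOn_const.mul (ContinuousOn.rpow_const continuousOn_id fun ρ hρ => ?_)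
    exact Or.inl (hε.trans_le hρ.1).ne'
  have k1 : ∫ ρ in Icc ε 1, (max ρ ε)⁻¹ * Φ ρ ≤ ∫ ρ in Icc ε 1, K * ρ ^ (-(1 + 2 / r)) := by
    refine setIntegral_mono_on (cinv.mul cΦ).continuousOn.integrableOn_Icc
      cp.integrableOn_Icc measurableSet_Icc fun ρ hρ => ?_
    have hρ0 : 0 < ρ := hε.trans_le hρ.1
    rw [max_eq_left hρ.1]
    have l := mul_le_mul_of_nonneg_left (h ρ hρ) (inv_nonneg.2 hρ0.le)
    refine l.trans (le_of_eq ?_)
    have e2 : ρ ^ (-(1 + 2 / r)) = ρ⁻¹ * ρ ^ (-(2 / r)) := by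
      rw [← Real.rpow_neg_one ρ, ← Real.rpow_add hρ0]
      congr 1
      ring
    rw [e2]
    ring
  rw [integral_const_mul] at k1
  exact k1.trans (mul_le_mul_of_nonneg_left (int_pow2 hε hε1 hr) hK)

theorem near_int {W Nf : V → ℝ} (cW : Continuous W) (cN : Continuous Nf) {H : V → ℝ}
    (cH : Continuous H) {ρ K : ℝ} (hK : ∀ s ∈ Icc (-1 : ℝ) 1,
      ∫ x in cube, W x * (Nf x * H (x + Pi.single 2 (ρ * s))) ≤ K) :
    ∫ x in cube, W x * (Nf x * BB 2 ρ H x) ≤ 2 * K := by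
  have hcube : IsCompact (cube : Set V) := isCompact_Icc
  have hF : Continuous fun q : V × ℝ => W q.1 * (Nf q.1 * H (q.1 + Pi.single 2 (ρ * q.2))) := by
    refine (cW.comp continuous_fst).mul ((cN.comp continuous_fst).mul (cH.comp ?_))
    exact continuous_fst.add ((cont_single 2).comp (continuous_const.mul continuous_snd))
  have k := swap (μ := (volume : Measure V)) (ν := (volume : Measure ℝ)) hcube
    (isCompact_Icc (a := (-1 : ℝ)) (b := 1)) hF
  simp only at k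
  have e1 : ∀ x, W x * (Nf x * BB 2 ρ H x)
      = ∫ s in Icc (-1 : ℝ) 1, W x * (Nf x * H (x + Pi.single 2 (ρ * s))) := by
    intro x
    unfold BB
    rw [← integral_const_mul, ← integral_const_mul]
  simp_rw [e1]
  rw [k]
  have hc2 : Continuous fun s : ℝ =>
      ∫ x in cube, W x * (Nf x * H (x + Pi.single 2 (ρ * s))) := by
    have hF2 : Continuous fun q : ℝ × V => W q.2 * (Nf q.2 * H (q.2 + Pi.single 2 (ρ * q.1))) :=
      hF.comp (by fun_prop : Continuous fun q : ℝ × V => (q.2, q.1))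
    exact continuous_parametric_integral_of_continuous hF2 hcube
  have h1 : ∫ s in Icc (-1 : ℝ) 1, ∫ x in cube, W x * (Nf x * H (x + Pi.single 2 (ρ * s)))
      ≤ ∫ s in Icc (-1 : ℝ) 1, K :=
    setIntegral_mono_on hc2.continuousOn.integrableOn_Icc
      continuous_const.continuousOn.integrableOn_Icc measurableSet_Icc hK
  refine h1.trans (le_of_eq ?_)
  rw [setIntegral_const, Measure.real, Real.volume_Icc]
  norm_num

theorem Hz_le_N {r : ℝ} (hr : 2 < r) {G : V → ℝ} (cG : CP G) (G0 : ∀ x, 0 ≤ G x) (x : V) :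
    Hz G x ≤ 2 * NR r G x ^ (1 / r) := by
  have h := Hz_G_le hr (fz_cp cG x) (fz_ind G x) (fz_nonneg G0 x) (Nx_one (by linarith) G0 x)
    (int_fz (by linarith) cG G0 x) x
  have e : Hz (fz G x) x = Hz G x := Hz_congr fun z hz => fz_eq hz
  rwa [e] at h

theorem t (h1 : B1) (h3 : B3) : B5 := by
  intro κ a r hκ ha hr
  obtain ⟨C1, hC1, hP⟩ := press_slice_G
  obtain ⟨C2, hC2, hL⟩ := h1 κ a 0 hκ ha le_rfl (by norm_num)
  obtain ⟨C3, hC3, hM⟩ := h1 κ a (1 / 2) hκ ha (by norm_num) le_rfl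
  obtain ⟨C4, hC4, hQ⟩ := h3 r hr
  have ha0 : 0 < a := by linarith
  have hr0 : 0 < r := by linarith
  have h2r : 0 < 1 - 2 / r := by
    rw [sub_pos, div_lt_one hr0]
    exact hr
  refine ⟨C1 * (2 * C2 + 2 * √3 * C4 * C3 / (1 - 2 / r) + r * C4 * C2), by positivity, ?_⟩
  intro τ z M D hτ hτ1 hM1 hD0 G cG G0 hG v p hv hdiv hp hl h0 hU
  set W : V → ℝ := fun x => |wy κ τ (x 2 - z)| with hW
  have cW : Continuous W := cont_wy κ τ z
  have W0 : ∀ x, 0 ≤ W x := fun x => abs_nonneg _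
  set ε : ℝ := √τ with hε
  have hε0 : 0 < ε := Real.sqrt_pos.2 hτ
  have hε1 : ε ≤ 1 := by
    rw [hε]
    exact Real.sqrt_le_one.2 hτ1
  set N0 : ℝ := M * τ ^ (-(1 / 2 + 1 / (2 * a))) with hN0
  have hN00 : 0 ≤ N0 := by positivity
  have NR1 : ∀ x, 1 ≤ NR r G x := NR_one G0
  have NR0 : ∀ x, 0 ≤ NR r G x := fun x => by linarith [NR1 x]
  have cNR : CP (NR r G) := NR_cp hr0.le cG
  have ck : CP fun x => NR r G x ^ (a / r) := cprp cNR (by positivity)
  have k0 : ∀ x, 0 ≤ NR r G x ^ (a / r) := fun x => Real.rpow_nonneg (NR0 x) _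
  have ek : ∀ x, (NR r G x ^ (a / r)) ^ (1 / a) = NR r G x ^ (1 / r) := by
    intro x
    rw [← Real.rpow_mul (NR0 x)]
    congr 1
    field_simp
  have cN : CP fun x => NR r G x ^ (1 / r) := cprp cNR (by positivity)
  have N0' : ∀ x, 0 ≤ NR r G x ^ (1 / r) := fun x => Real.rpow_nonneg (NR0 x) _
  have cH : CP (Hz (ga v)) := (cp_of (ga_sp hv)).hz
  have H0 : ∀ x, 0 ≤ Hz (ga v) x := Hz_nonneg (ga_nonneg (v := v))
  set J : ℝ := ∫ x in cube, Wt κ τ z x * Hz (ga v) x with hJ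
  -- the integral with `NR ^ (1/r)` alone
  have hN : ∫ x in cube, W x * NR r G x ^ (1 / r) ≤ C2 * N0 := by
    have k := (hL τ z hτ hτ1 _ (fun _ => 1) ck k0 (CP.const 1) (fun _ => zero_le_one) M
      (by linarith) hG).1 0 (by simp [Real.sqrt_nonneg])
    simp only [ek, Real.rpow_zero, mul_one] at k
    exact k
  have hH : ∀ h : ℝ, |h| ≤ √τ →
      ∫ x in cube, W x * (NR r G x ^ (1 / r) * √(Hz (ga v) (x + Pi.single 2 h)))
        ≤ C3 * (N0 * √J) := by
    intro h hh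
    have k := (hM τ z hτ hτ1 _ (Hz (ga v)) ck k0 cH H0 M (by linarith) hG).1 h hh
    simp only [ek, ← Real.sqrt_eq_rpow] at k
    exact k
  -- the first term
  have t1 : ∫ x in cube, W x * Hz G x ≤ 2 * (C2 * N0) := by
    have k : ∫ x in cube, W x * Hz G x ≤ ∫ x in cube, 2 * (W x * NR r G x ^ (1 / r)) := by
      refine integral_mono (integrableOn_cube (cW.mul cG.hz.cont))
        (integrableOn_cube (continuous_const.mul (cW.mul cN.cont))) fun x => ?_
      have l := mul_le_mul_of_nonneg_left (Hz_le_N hr cG G0 x) (W0 x)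
      refine l.trans (le_of_eq ?_)
      ring
    rw [integral_const_mul] at k
    linarith
  -- the near part
  have hnear : ∀ ρ ∈ Ioc (0 : ℝ) ε, ∫ x in cube, W x * QG G (hh v) ρ x
      ≤ C4 * (√3 * √D) * (2 * (C3 * (N0 * √J))) * ρ ^ (-(2 / r)) := by
    intro ρ hρ
    have hρ1 : ρ ∈ Ioc (0 : ℝ) 1 := ⟨hρ.1, hρ.2.trans hε1⟩
    have ch : CP (hh v) := hh_cp hv
    have kB := near_int cW cN.cont cH.sqrt.cont (ρ := ρ) (K := C3 * (N0 * √J)) (fun s hs => by
      refine hH (ρ * s) ?_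
      rw [abs_mul, abs_of_pos hρ.1]
      have l1 : |s| ≤ 1 := abs_le.2 hs
      calc ρ * |s| ≤ ρ * 1 := mul_le_mul_of_nonneg_left l1 hρ.1.le
        _ ≤ √τ := by rw [mul_one]; exact hρ.2)
    have pt : ∀ x, QG G (hh v) ρ x ≤ (C4 * (√3 * √D) * ρ ^ (-(2 / r)))
        * (NR r G x ^ (1 / r) * BB 2 ρ (fun y => √(Hz (ga v) y)) x) := by
      intro x
      have l1 := hQ G (hh v) cG G0 ch hh_nonneg ρ hρ1 x
      have l2 : BB 2 ρ (Hz (hh v)) x ≤ BB 2 ρ (fun y => (√3 * √D) * √(Hz (ga v) y)) x := by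
        refine BB_mono ch.hz.cont (cH.sqrt.cmul _).cont (fun y => ?_) 2 ρ x
        have m1 := near_slice hv y
        have m2 : Hz (hh v) y ^ 2 ≤ 3 * (D * Hz (ga v) y) := by
          have := mul_le_mul_of_nonneg_right (hU y) (H0 y)
          linarith
        rw [mul_assoc, ← Real.sqrt_mul hD0, ← Real.sqrt_mul (by norm_num : (0 : ℝ) ≤ 3)]
        exact Real.le_sqrt_of_sq_le m2
      rw [BB_cmul] at l2
      have hρp : 0 ≤ ρ ^ (-(2 / r)) := Real.rpow_nonneg hρ.1.le _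
      have l3 : C4 * (ρ ^ (-(2 / r)) * (NR r G x ^ (1 / r) * BB 2 ρ (Hz (hh v)) x))
          ≤ C4 * (ρ ^ (-(2 / r)) * (NR r G x ^ (1 / r)
            * (√3 * √D * BB 2 ρ (fun y => √(Hz (ga v) y)) x))) := by
        have := N0' x
        gcongr
      refine (l1.trans l3).trans (le_of_eq ?_)
      ring
    have k1 : ∫ x in cube, W x * QG G (hh v) ρ x
        ≤ ∫ x in cube, (C4 * (√3 * √D) * ρ ^ (-(2 / r)))
          * (W x * (NR r G x ^ (1 / r) * BB 2 ρ (fun y => √(Hz (ga v) y)) x)) := by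
      refine integral_mono (integrableOn_cube (cW.mul (QG_cp cG ch ρ).cont))
        (integrableOn_cube (continuous_const.mul (cW.mul (cN.cont.mul
          (BB_cp cH.sqrt 2 ρ).cont)))) fun x => ?_
      have l := mul_le_mul_of_nonneg_left (pt x) (W0 x)
      refine l.trans (le_of_eq ?_)
      ring
    rw [integral_const_mul] at k1
    have hρp : 0 ≤ ρ ^ (-(2 / r)) := Real.rpow_nonneg hρ.1.le _
    have k2 := mul_le_mul_of_nonneg_left kB
      (by positivity : 0 ≤ C4 * (√3 * √D) * ρ ^ (-(2 / r)))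
    refine (k1.trans k2).trans (le_of_eq ?_)
    ring
  -- the far part
  have hfar : ∀ ρ ∈ Icc ε 1, ∫ x in cube, W x * QG G (vsq v) ρ x
      ≤ C4 * (2 * D) * (C2 * N0) * ρ ^ (-(2 / r)) := by
    intro ρ hρ
    have hρ0 : 0 < ρ := hε0.trans_le hρ.1
    have hρ1 : ρ ∈ Ioc (0 : ℝ) 1 := ⟨hρ0, hρ.2⟩
    have cv : CP (vsq v) := cp_of (vsq_sp hv)
    have hρp : 0 ≤ ρ ^ (-(2 / r)) := Real.rpow_nonneg hρ0.le _
    have pt : ∀ x, QG G (vsq v) ρ x
        ≤ (C4 * (2 * D) * ρ ^ (-(2 / r))) * NR r G x ^ (1 / r) := by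
      intro x
      have l1 := hQ G (vsq v) cG G0 cv (vsq_nonneg v) ρ hρ1 x
      have l2 : BB 2 ρ (Hz (vsq v)) x ≤ 2 * D := by
        have := BB_mono cv.hz.cont continuous_const (fun y => hU y) 2 ρ x
        rwa [BB_const] at this
      have l3 : C4 * (ρ ^ (-(2 / r)) * (NR r G x ^ (1 / r) * BB 2 ρ (Hz (vsq v)) x))
          ≤ C4 * (ρ ^ (-(2 / r)) * (NR r G x ^ (1 / r) * (2 * D))) := by
        have := N0' x
        gcongr
      refine (l1.trans l3).trans (le_of_eq ?_)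
      ring
    have k1 : ∫ x in cube, W x * QG G (vsq v) ρ x
        ≤ ∫ x in cube, (C4 * (2 * D) * ρ ^ (-(2 / r))) * (W x * NR r G x ^ (1 / r)) := by
      refine integral_mono (integrableOn_cube (cW.mul (QG_cp cG cv ρ).cont))
        (integrableOn_cube (continuous_const.mul (cW.mul cN.cont))) fun x => ?_
      have l := mul_le_mul_of_nonneg_left (pt x) (W0 x)
      refine l.trans (le_of_eq ?_)
      ring
    rw [integral_const_mul] at k1
    have k2 := mul_le_mul_of_nonneg_left hN (by positivity : 0 ≤ C4 * (2 * D) * ρ ^ (-(2 / r)))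
    refine (k1.trans k2).trans (le_of_eq ?_)
    ring
  have hcube : IsCompact (cube : Set V) := isCompact_Icc
  -- integration over the radii
  have cQ1 : Continuous fun q : V × ℝ => QG G (hh v) q.2 q.1 := QG_cont2 cG (hh_cp hv)
  have cQ2 : Continuous fun q : V × ℝ => QG G (vsq v) q.2 q.1 :=
    QG_cont2 cG (cp_of (vsq_sp hv))
  have hc2 : Continuous fun ρ : ℝ => ∫ x in cube, W x * QG G (hh v) ρ x := par_cont cW cQ1
  have hc3 : Continuous fun ρ : ℝ => ∫ x in cube, W x * QG G (vsq v) ρ x := par_cont cW cQ2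
  have hmax : ∀ ρ : ℝ, 0 < max ρ ε := fun ρ => lt_of_lt_of_le hε0 (le_max_right _ _)
  have cinv : Continuous fun ρ : ℝ => (max ρ ε)⁻¹ :=
    (continuous_id.max continuous_const).inv₀ fun ρ => (hmax ρ).ne'
  have t2 : ∫ x in cube, W x * (∫ ρ in Icc 0 ε, QG G (hh v) ρ x)
      ≤ C4 * (√3 * √D) * (2 * (C3 * (N0 * √J))) * (ε ^ (1 - 2 / r) / (1 - 2 / r)) := by
    have e := par_eq cW (w := fun _ => 1) continuous_const cQ1 0 ε
    simp only [one_mul] at e
    rw [e]
    have hθ : 2 / r < 1 := by linarith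
    have k := rad_near (Φ := fun ρ => ∫ x in cube, W x * QG G (hh v) ρ x)
      (K := C4 * (√3 * √D) * (2 * (C3 * (N0 * √J)))) hc2 hε0 hθ hnear
    exact k
  have t3 : ∫ x in cube, W x * (∫ ρ in Icc ε 1, (max ρ ε)⁻¹ * QG G (vsq v) ρ x)
      ≤ C4 * (2 * D) * (C2 * N0) * (r / 2 * ε ^ (-(2 / r))) := by
    have e := par_eq cW cinv cQ2 ε 1
    simp only at e
    rw [e]
    have hKK : 0 ≤ C4 * (2 * D) * (C2 * N0) := by positivity
    have k := rad_far (Φ := fun ρ => ∫ x in cube, W x * QG G (vsq v) ρ x)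
      (K := C4 * (2 * D) * (C2 * N0)) hc3 hε0 hε1 hr0 hKK hfar
    exact k
  -- assembly
  have cI1 : Continuous fun x => ∫ ρ in Icc 0 ε, QG G (hh v) ρ x :=
    continuous_parametric_integral_of_continuous cQ1 isCompact_Icc
  have cI2 : Continuous fun x => ∫ ρ in Icc ε 1, (max ρ ε)⁻¹ * QG G (vsq v) ρ x := by
    have hF : Continuous fun q : V × ℝ => (max q.2 ε)⁻¹ * QG G (vsq v) q.2 q.1 :=
      (cinv.comp continuous_snd).mul cQ2
    exact continuous_parametric_integral_of_continuous hF isCompact_Icc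
  have cp' : CP fun y => G y * |p y| := cG.mul (cp_of hp).abs
  have main : ∫ x in cube, W x * Hz (fun y => G y * |p y|) x
      ≤ C1 * (esq v * (∫ x in cube, W x * Hz G x)
        + (∫ x in cube, W x * (∫ ρ in Icc 0 ε, QG G (hh v) ρ x))
        + ∫ x in cube, W x * (∫ ρ in Icc ε 1, (max ρ ε)⁻¹ * QG G (vsq v) ρ x)) := by
    have k1 : ∫ x in cube, W x * Hz (fun y => G y * |p y|) x
        ≤ ∫ x in cube, C1 * ((esq v * (W x * Hz G x)
          + W x * (∫ ρ in Icc 0 ε, QG G (hh v) ρ x))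
          + W x * (∫ ρ in Icc ε 1, (max ρ ε)⁻¹ * QG G (vsq v) ρ x)) := by
      refine integral_mono (integrableOn_cube (cW.mul cp'.hz.cont))
        (integrableOn_cube (continuous_const.mul (((continuous_const.mul
          (cW.mul cG.hz.cont)).add (cW.mul cI1)).add (cW.mul cI2)))) fun x => ?_
      have l := mul_le_mul_of_nonneg_left (hP G cG G0 v p hv hdiv hp hl h0 ε ⟨hε0, hε1⟩ x) (W0 x)
      refine l.trans (le_of_eq ?_)
      ring
    rw [integral_const_mul, integral_add, integral_add, integral_const_mul] at k1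
    · exact k1
    · exact integrableOn_cube (continuous_const.mul (cW.mul cG.hz.cont))
    · exact integrableOn_cube (cW.mul cI1)
    · exact integrableOn_cube ((continuous_const.mul (cW.mul cG.hz.cont)).add (cW.mul cI1))
    · exact integrableOn_cube (cW.mul cI2)
  have hE0 : 0 ≤ esq v := esq_nonneg v
  have eε1 : N0 * ε ^ (1 - 2 / r) = M * τ ^ (-(1 / (2 * a) + 1 / r)) := by
    rw [hN0, hε, Real.sqrt_eq_rpow, ← Real.rpow_mul hτ.le, mul_assoc, ← Real.rpow_add hτ]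
    congr 2
    field_simp
    ring
  have eε2 : N0 * ε ^ (-(2 / r)) = M * τ ^ (-(1 / 2 + 1 / (2 * a) + 1 / r)) := by
    rw [hN0, hε, Real.sqrt_eq_rpow, ← Real.rpow_mul hτ.le, mul_assoc, ← Real.rpow_add hτ]
    congr 2
    field_simp
    ring
  have s1 : esq v * (∫ x in cube, W x * Hz G x) ≤ esq v * (2 * (C2 * N0)) :=
    mul_le_mul_of_nonneg_left t1 hE0
  set A2 : ℝ := M * τ ^ (-(1 / (2 * a) + 1 / r)) with hA2
  set A3 : ℝ := M * τ ^ (-(1 / 2 + 1 / (2 * a) + 1 / r)) with hA3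
  have hA20 : 0 ≤ A2 := by positivity
  have hA30 : 0 ≤ A3 := by positivity
  have s2 : C4 * (√3 * √D) * (2 * (C3 * (N0 * √J))) * (ε ^ (1 - 2 / r) / (1 - 2 / r))
      = (2 * √3 * C4 * C3 / (1 - 2 / r)) * (A2 * (√D * √J)) := by
    rw [← eε1]
    ring
  have s3 : C4 * (2 * D) * (C2 * N0) * (r / 2 * ε ^ (-(2 / r))) = (r * C4 * C2) * (A3 * D) := by
    rw [← eε2]
    ring
  rw [s2] at t2
  rw [s3] at t3
  refine main.trans ?_
  rw [mul_assoc]
  refine mul_le_mul_of_nonneg_left ?_ hC1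
  have u1 : 0 ≤ A2 * (√D * √J) := by positivity
  have u2 : 0 ≤ A3 * D := by positivity
  have u3 : 0 ≤ N0 * esq v := by positivity
  have c1 : 0 ≤ 2 * √3 * C4 * C3 / (1 - 2 / r) := by positivity
  have c2 : 0 ≤ r * C4 * C2 := by positivity
  have c3 : 0 ≤ 2 * C2 := by positivity
  have p1 := mul_nonneg c1 u2
  have p2 := mul_nonneg c1 u3
  have p3 := mul_nonneg c2 u1
  have p4 := mul_nonneg c2 u3
  have p5 := mul_nonneg c3 u1
  have p6 := mul_nonneg c3 u2
  nlinarith [s1, t2, t3, p1, p2, p3, p4, p5, p6]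

end Pool.Agent.H4NC.B5
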