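import Pool.Agent.H4NC.StmB

/-!
Project NC (helper4), stub B6 (helper39): the flux with the factor `G`.
-/

set_option autoImplicit false

open MeasureTheory Set Function Filter Topology
open scoped ENNReal ContDiff

namespace Pool.Agent.H4NC.B6

open H459R3.NS H4LA

/-- algebra of the powers -/
lemma alg {r C N D U W A : ℝ} (hr : 2 < r) (hC : 0 ≤ C) (hN : 0 ≤ N) (hU : 0 ≤ U) (hUD : U ≤ D) (hW : 0 ≤ W)
    (hA : A ≤ C * (N ^ (2 / r) * (U ^ (1 - 2 / r) * W ^ (2 / r)))) :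
    √A * √U ≤ √C * (N ^ (1 / r) * (D ^ (1 - 1 / r) * W ^ (1 / r))) := by
  have hr0 : 0 < r := by linarith
  have h2r : 2 / r < 1 := by rw [div_lt_one hr0]; exact hr
  have e2 : 2 / r = 2 * (1 / r) := by ring
  have half : ∀ {x : ℝ} (p : ℝ), 0 ≤ x → √(x ^ (2 * p)) = x ^ p := by
    intro x p hx
    have h1 : x ^ (2 * p) = (x ^ p) ^ 2 := by
      rw [← Real.rpow_natCast, ← Real.rpow_mul hx]
      congr 1
      push_cast
      ring
    rw [h1, Real.sqrt_sq (Real.rpow_nonneg hx _)]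
  have h1 : √A ≤ √C * (N ^ (1 / r) * (U ^ (1 / 2 - 1 / r) * W ^ (1 / r))) := by
    refine (Real.sqrt_le_sqrt hA).trans (le_of_eq ?_)
    have e3 : 1 - 2 / r = 2 * (1 / 2 - 1 / r) := by ring
    rw [Real.sqrt_mul hC, Real.sqrt_mul (Real.rpow_nonneg hN _), Real.sqrt_mul (Real.rpow_nonneg hU _), e3, e2,
      half _ hN, half _ hU, half _ hW]
  have h2 : U ^ (1 / 2 - 1 / r) * √U ≤ D ^ (1 - 1 / r) := by
    rw [Real.sqrt_eq_rpow, ← Real.rpow_add' hU]
    · have e4 : 1 / 2 - 1 / r + 1 / 2 = 1 - 1 / r := by ring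
      rw [e4]
      apply Real.rpow_le_rpow hU hUD
      linarith
    · have e4 : 1 / 2 - 1 / r + 1 / 2 = 1 - 1 / r := by ring
      rw [e4]
      have : 0 < 1 - 1 / r := by linarith
      exact this.ne'
  calc √A * √U ≤ √C * (N ^ (1 / r) * (U ^ (1 / 2 - 1 / r) * W ^ (1 / r))) * √U :=
        mul_le_mul_of_nonneg_right h1 (Real.sqrt_nonneg _)
    _ = √C * (N ^ (1 / r) * ((U ^ (1 / 2 - 1 / r) * √U) * W ^ (1 / r))) := by ring
    _ ≤ √C * (N ^ (1 / r) * (D ^ (1 - 1 / r) * W ^ (1 / r))) := by gcongr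

/-- Cauchy-Schwarz on the slice -/
lemma cs {G : V → ℝ} (cG : CP G) (G0 : ∀ x, 0 ≤ G x) {w : Fin 3 → V → ℝ} (hw : ∀ i, SP (w i)) (x : V) :
    Hz (fun y => G y * vsq w y) x ≤ √(Hz (fun y => G y ^ 2 * vsq w y) x) * √(Hz (vsq w) x) := by
  have cv : CP (vsq w) := cp_of (vsq_sp hw)
  have h := Hz_cs_abs (cG.mul cv.sqrt) cv.sqrt x
  have e1 : (fun y => |G y * √(vsq w y)| * |√(vsq w y)|) = fun y => G y * vsq w y := by
    funext y
    rw [abs_of_nonneg (mul_nonneg (G0 y) (Real.sqrt_nonneg _)), abs_of_nonneg (Real.sqrt_nonneg _), mul_assoc,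
      Real.mul_self_sqrt (vsq_nonneg w y)]
  have e2 : (fun y => (G y * √(vsq w y)) ^ 2) = fun y => G y ^ 2 * vsq w y := by
    funext y
    rw [mul_pow, Real.sq_sqrt (vsq_nonneg w y)]
  have e3 : (fun y => √(vsq w y) ^ 2) = vsq w := by
    funext y
    rw [Real.sq_sqrt (vsq_nonneg w y)]
  rw [e1, e2, e3] at h
  exact h

/-- **B6** -/
theorem t (hB0 : B0) (hB1 : B1) (hB2 : B2v) : Pool.Agent.H4NC.B6 := by
  intro κ a r hκ ha hr
  have hr0 : 0 < r := by linarith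
  have ha0 : 0 < a := by linarith
  obtain ⟨C0, hC0, hB0⟩ := hB0 κ hκ
  obtain ⟨C1, hC1, hB1⟩ := hB1 κ a (1 / r) hκ ha (by positivity) (by
    rw [div_le_div_iff₀ hr0 (by norm_num)]
    linarith)
  obtain ⟨C2, hC2, hB2⟩ := hB2 r hr
  have hC20 : 0 ≤ C2 := by linarith
  refine ⟨√C2 * C1, by positivity, ?_⟩
  intro τ z M D hτ hτ1 hM hD G cG G0 w hw hwD
  obtain ⟨sW, iW, W0, dW, -, -⟩ := hB0 τ z hτ hτ1
  have cwy : CP (fun x : V => |wy κ τ (x 2 - z)|) := by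
    have h := (cp_of (sW.pd 2)).abs
    have e : (fun x : V => |pd 2 (Wt κ τ z) x|) = fun x : V => |wy κ τ (x 2 - z)| := by
      funext x
      rw [dW]
    rwa [e] at h
  have cv : CP (vsq w) := cp_of (vsq_sp hw)
  have cga : CP (ga w) := cp_of (ga_sp hw)
  have cH : CP (fun x => Hz (vsq w) x + Hz (ga w) x) := cv.hz.add cga.hz
  have U0 : ∀ x, 0 ≤ Hz (vsq w) x := Hz_nonneg (vsq_nonneg w)
  have g0 : ∀ x, 0 ≤ Hz (ga w) x := Hz_nonneg (ga_nonneg)
  have H0 : ∀ x, 0 ≤ Hz (vsq w) x + Hz (ga w) x := fun x => add_nonneg (U0 x) (g0 x)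
  have s0 : (Pi.single 2 0 : V) = 0 := Pi.single_zero 2
  have hD1 : 0 ≤ D ^ (1 - 1 / r) := Real.rpow_nonneg hD _
  have cGv : CP (fun y => G y * vsq w y) := cG.mul cv
  constructor
  · intro hNR
    have N1 := fun x => NR_one (r := r) G0 x
    have ck : CP (fun x => NR r G x ^ (a / r)) := cprp (NR_cp hr0.le cG) (by positivity)
    have h1 := (hB1 τ z hτ hτ1 (fun x => NR r G x ^ (a / r)) (fun x => Hz (vsq w) x + Hz (ga w) x) ck
      (fun x => Real.rpow_nonneg (by linarith [N1 x]) _) cH H0 M (by linarith) hNR).1 0 (by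
        rw [abs_zero]; exact Real.sqrt_nonneg _)
    simp only [s0, add_zero] at h1
    have hpt : ∀ x, |wy κ τ (x 2 - z)| * Hz (fun y => G y * vsq w y) x ≤
        (√C2 * D ^ (1 - 1 / r)) * (|wy κ τ (x 2 - z)| * ((NR r G x ^ (a / r)) ^ (1 / a) *
          (Hz (vsq w) x + Hz (ga w) x) ^ (1 / r))) := by
      intro x
      have h2 := alg hr hC20 (by linarith [N1 x] : 0 ≤ NR r G x) (U0 x) (hwD x) (H0 x) (hB2 G cG G0 w hw x).2
      have h3 := (cs cG G0 hw x).trans h2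
      have e1 : (NR r G x ^ (a / r)) ^ (1 / a) = NR r G x ^ (1 / r) := by
        rw [← Real.rpow_mul (by linarith [N1 x])]
        congr 1
        field_simp
      rw [e1]
      calc |wy κ τ (x 2 - z)| * Hz (fun y => G y * vsq w y) x
          ≤ |wy κ τ (x 2 - z)| * (√C2 * (NR r G x ^ (1 / r) * (D ^ (1 - 1 / r) *
            (Hz (vsq w) x + Hz (ga w) x) ^ (1 / r)))) := mul_le_mul_of_nonneg_left h3 (abs_nonneg _)
        _ = _ := by ring
    have cR : CP (fun x => |wy κ τ (x 2 - z)| * ((NR r G x ^ (a / r)) ^ (1 / a) *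
          (Hz (vsq w) x + Hz (ga w) x) ^ (1 / r))) :=
      cwy.mul ((cprp ck (by positivity)).mul (cprp cH (by positivity)))
    calc ∫ x in cube, |wy κ τ (x 2 - z)| * Hz (fun y => G y * vsq w y) x
        ≤ ∫ x in cube, (√C2 * D ^ (1 - 1 / r)) * (|wy κ τ (x 2 - z)| * ((NR r G x ^ (a / r)) ^ (1 / a) *
          (Hz (vsq w) x + Hz (ga w) x) ^ (1 / r))) := integral_mono (cwy.mul cGv.hz).int (cR.cmul _).int hpt
      _ = (√C2 * D ^ (1 - 1 / r)) * ∫ x in cube, |wy κ τ (x 2 - z)| * ((NR r G x ^ (a / r)) ^ (1 / a) *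
          (Hz (vsq w) x + Hz (ga w) x) ^ (1 / r)) := integral_const_mul _ _
      _ ≤ (√C2 * D ^ (1 - 1 / r)) * (C1 * (M * τ ^ (-(1 / 2 + 1 / (2 * a))) *
          (∫ x in cube, Wt κ τ z x * (Hz (vsq w) x + Hz (ga w) x)) ^ (1 / r))) :=
        mul_le_mul_of_nonneg_left h1 (by positivity)
      _ = _ := by ring
  · intro iG Q hQ
    have hG0 : 0 ≤ ∫ x in cube, G x ^ r := integral_nonneg fun x => Real.rpow_nonneg (G0 x) _
    have h1 := (hB1 τ z hτ hτ1 (fun _ => 1) (fun x => Hz (vsq w) x + Hz (ga w) x) (CP.const 1)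
      (fun x => zero_le_one) cH H0 1 zero_le_one (by
        rw [Real.one_rpow, setIntegral_const, measureReal_def, volume_cube]
        simp)).1 0 (by
        rw [abs_zero]; exact Real.sqrt_nonneg _)
    simp only [s0, add_zero, Real.one_rpow, one_mul] at h1
    have hpt : ∀ x, |wy κ τ (x 2 - z)| * Hz (fun y => G y * vsq w y) x ≤
        (√C2 * (Q ^ (1 / r) * D ^ (1 - 1 / r))) * (|wy κ τ (x 2 - z)| *
          (Hz (vsq w) x + Hz (ga w) x) ^ (1 / r)) := by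
      intro x
      have h2 := alg hr hC20 (by linarith : 0 ≤ 1 + ∫ x in cube, G x ^ r) (U0 x) (hwD x) (H0 x)
        ((hB2 G cG G0 w hw x).1 iG)
      have h3 := (cs cG G0 hw x).trans h2
      have h4 : (1 + ∫ x in cube, G x ^ r) ^ (1 / r) ≤ Q ^ (1 / r) :=
        Real.rpow_le_rpow (by linarith) hQ (by positivity)
      have h5 : 0 ≤ (Hz (vsq w) x + Hz (ga w) x) ^ (1 / r) := Real.rpow_nonneg (H0 x) _
      calc |wy κ τ (x 2 - z)| * Hz (fun y => G y * vsq w y) x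
          ≤ |wy κ τ (x 2 - z)| * (√C2 * ((1 + ∫ x in cube, G x ^ r) ^ (1 / r) * (D ^ (1 - 1 / r) *
            (Hz (vsq w) x + Hz (ga w) x) ^ (1 / r)))) := mul_le_mul_of_nonneg_left h3 (abs_nonneg _)
        _ ≤ |wy κ τ (x 2 - z)| * (√C2 * (Q ^ (1 / r) * (D ^ (1 - 1 / r) *
            (Hz (vsq w) x + Hz (ga w) x) ^ (1 / r)))) := by gcongr
        _ = _ := by ring
    have cR : CP (fun x => |wy κ τ (x 2 - z)| * (Hz (vsq w) x + Hz (ga w) x) ^ (1 / r)) :=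
      cwy.mul (cprp cH (by positivity))
    have hQ0 : 0 ≤ Q := by linarith
    calc ∫ x in cube, |wy κ τ (x 2 - z)| * Hz (fun y => G y * vsq w y) x
        ≤ ∫ x in cube, (√C2 * (Q ^ (1 / r) * D ^ (1 - 1 / r))) * (|wy κ τ (x 2 - z)| *
          (Hz (vsq w) x + Hz (ga w) x) ^ (1 / r)) := integral_mono (cwy.mul cGv.hz).int (cR.cmul _).int hpt
      _ = (√C2 * (Q ^ (1 / r) * D ^ (1 - 1 / r))) * ∫ x in cube, |wy κ τ (x 2 - z)| *
          (Hz (vsq w) x + Hz (ga w) x) ^ (1 / r) := integral_const_mul _ _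
      _ ≤ (√C2 * (Q ^ (1 / r) * D ^ (1 - 1 / r))) * (C1 * (τ ^ (-(1 / 2 + 1 / (2 * a))) *
          (∫ x in cube, Wt κ τ z x * (Hz (vsq w) x + Hz (ga w) x)) ^ (1 / r))) :=
        mul_le_mul_of_nonneg_left h1 (mul_nonneg (Real.sqrt_nonneg _) (mul_nonneg (Real.rpow_nonneg hQ0 _) hD1))
      _ = _ := by ring

end Pool.Agent.H4NC.B6
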