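import Pool.Agent.H4NC.StmB

/-!
Project NC, stub B9: the balance of the slice energies with the kernel.
-/

set_option autoImplicit false
set_option linter.unusedVariables false

open MeasureTheory Set Function Filter Topology
open scoped ENNReal ContDiff

namespace Pool.Agent.H4NC

open H459R3.NS H4LA

theorem B9.t (h2 : A2) (h0 : B0) : B9 := by
  intro ν hν κ hκ τ z hτ hτ1 v p F hv hdiv hp hF
  have hκ0 : 0 < κ := by rw [hκ]; positivity
  obtain ⟨C, -, hB0⟩ := h0 κ hκ0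
  obtain ⟨sΨ, iΨ, Ψ0, dΨ, ddΨ, -⟩ := hB0 τ z hτ hτ1
  set Ψ : V → ℝ := Wt κ τ z with hΨ
  have hw := ww_sp hv
  have sW : SP (vsq (ww v)) := vsq_sp hw
  have cW := cp_of sW
  have W0 : ∀ x, 0 ≤ vsq (ww v) x := vsq_nonneg _
  have sga : SP (ga (ww v)) := ga_sp hw
  have cga := cp_of sga
  have cΨ : CP Ψ := cp_of sΨ
  have iaΨ : I01 (pd 2 Ψ) := I01.pd2 sΨ iΨ
  have cdΨ : CP (pd 2 Ψ) := cp_of (sΨ.pd 2)
  have sm := mm_sp hv
  have sb' := bb_sp hv
  have hid := slice_ident hv hw hdiv (ww_div hv hdiv) hp sΨ iΨ (rr_sp hv) (w' := sb F)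
    (fun i x => sb_eq hv hp hF i x)
  have eabs : ∀ x : V, |wy κ τ (x 2 - z)| = |pd 2 Ψ x| := fun x => by rw [dΨ]
  simp_rw [eabs]
  -- the slices
  have cG : CP (Gb v) := Gb_cp hv
  have cV : CP (fun y => Gb v y * vsq (ww v) y) := cG.mul cW
  have cM : CP (fun y => |mm v y| * vsq (ww v) y) := (cp_of sm).abs.mul cW
  have cB : CP (fun y => Gb v y * |p y|) := cG.mul (cp_of hp).abs
  have cR : CP (fun y => Gb v y * |rr v 2 y|) := cG.mul (cp_of (rr_sp hv 2)).abs
  rw [int_mul_Hz cga cΨ iΨ, int_mul_Hz cW cΨ iΨ, int_mul_Hz cV cdΨ.abs iaΨ.abs,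
    int_mul_Hz cM cdΨ.abs iaΨ.abs, int_mul_Hz cB cdΨ.abs iaΨ.abs, int_mul_Hz cR cΨ iΨ]
  -- the flux
  have k1 : ∫ x in cube, pd 2 Ψ x * (v 2 x * vsq (ww v) x)
      ≤ (∫ x in cube, |pd 2 Ψ x| * (Gb v x * vsq (ww v) x))
        + ∫ x in cube, |pd 2 Ψ x| * (|mm v x| * vsq (ww v) x) := by
    rw [← integral_add (cdΨ.abs.mul cV).int (cdΨ.abs.mul cM).int]
    refine integral_mono ((sΨ.pd 2).mul ((hv 2).mul sW)).int
      ((cdΨ.abs.mul cV).add (cdΨ.abs.mul cM)).int fun x => ?_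
    have l3 : |v 2 x| ≤ Gb v x + |mm v x| := by
      have : v 2 x = bb v x + mm v x := by
        unfold bb
        ring
      rw [this]
      exact abs_add_le _ _
    have l4 : pd 2 Ψ x * (v 2 x * vsq (ww v) x) ≤ |pd 2 Ψ x| * (|v 2 x| * vsq (ww v) x) := by
      refine (le_abs_self _).trans (le_of_eq ?_)
      rw [abs_mul, abs_mul, abs_of_nonneg (W0 x)]
    have l5 := mul_le_mul_of_nonneg_left (mul_le_mul_of_nonneg_right l3 (W0 x))
      (abs_nonneg (pd 2 Ψ x))
    simp only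
    linarith
  have k2 : ∫ x in cube, pd 2 Ψ x * (ww v 2 x * p x)
      ≤ ∫ x in cube, |pd 2 Ψ x| * (Gb v x * |p x|) := by
    refine integral_mono ((sΨ.pd 2).mul ((hw 2).mul hp)).int (cdΨ.abs.mul cB).int fun x => ?_
    refine (le_abs_self _).trans (le_of_eq ?_)
    rw [abs_mul, abs_mul]
    rfl
  have k3 : ∫ x in cube, Ψ x * ∑ i, ww v i x * rr v i x
      ≤ ∫ x in cube, Ψ x * (Gb v x * |rr v 2 x|) := by
    refine integral_mono (sΨ.mul (SP.sum fun i _ => (hw i).mul (rr_sp hv i))).int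
      (cΨ.mul cR).int fun x => ?_
    have k0' : ∑ i, ww v i x * rr v i x = bb v x * rr v 2 x := by
      rw [Fin.sum_univ_three]
      show v 0 x * 0 + v 1 x * 0 + bb v x * rr v 2 x = _
      ring
    simp only
    rw [k0']
    refine mul_le_mul_of_nonneg_left ?_ (Ψ0 x).le
    refine (le_abs_self _).trans (le_of_eq ?_)
    rw [abs_mul]
    rfl
  -- the second derivative of the kernel
  have k4 : ∫ x in cube, pd 2 Ψ x * pd 2 (vsq (ww v)) x
      = -∫ x in cube, pd 2 (pd 2 Ψ) x * vsq (ww v) x := by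
    have := ibp (sΨ.pd 2) sW 2
    linarith
  -- the kernel is almost a supersolution
  have cS : CP (fun x : V => Real.sin (Real.pi * (x 2 - z)) ^ 2) := by
    refine ⟨by fun_prop, fun i x => ?_⟩
    by_cases hi : i = 2
    · subst hi
      have e : Real.pi * ((x + Pi.single (2 : Fin 3) (1 : ℝ) : V) 2 - z)
          = Real.pi * (x 2 - z) + Real.pi := by
        simp only [Pi.add_apply, Pi.single_eq_same]
        ring
      rw [e, Real.sin_add_pi, neg_sq]
    · have e : (x + Pi.single i (1 : ℝ) : V) 2 = x 2 := by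
        simp only [Pi.add_apply]
        rw [Pi.single_eq_of_ne (Ne.symm hi), add_zero]
      simp only [e]
  have cwt : CP (fun x : V => wt κ τ (x 2 - z)) := by
    have e : (fun x : V => wt κ τ (x 2 - z)) = fun x => ((1 / (κ * τ ^ 2))
        * Real.sin (Real.pi * (x 2 - z)) ^ 2 - 1 / (2 * τ)) * Ψ x := by
      funext x
      simp only [hΨ, Wt, wt]
      ring
    rw [e]
    exact ((cS.cmul _).sub (CP.const _)).mul cΨ
  have k5 : -(∫ x in cube, wt κ τ (x 2 - z) * vsq (ww v) x)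
      + ν * (∫ x in cube, pd 2 (pd 2 Ψ) x * vsq (ww v) x)
      ≤ Real.pi ^ 2 * ν * ∫ x in cube, Ψ x * vsq (ww v) x := by
    have c1 : CP (fun x : V => wt κ τ (x 2 - z) * vsq (ww v) x) := cwt.mul cW
    have c2 : CP (fun x : V => pd 2 (pd 2 Ψ) x * vsq (ww v) x) :=
      (cp_of ((sΨ.pd 2).pd 2)).mul cW
    have c3 : CP (fun x : V => Ψ x * vsq (ww v) x) := cΨ.mul cW
    have k : ∫ x in cube, ((-1) * (wt κ τ (x 2 - z) * vsq (ww v) x)
        + ν * (pd 2 (pd 2 Ψ) x * vsq (ww v) x))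
        ≤ ∫ x in cube, Real.pi ^ 2 * ν * (Ψ x * vsq (ww v) x) := by
      refine integral_mono ((c1.cmul _).add (c2.cmul _)).int (c3.cmul _).int fun x => ?_
      have a2 := h2 ν τ (x 2 - z) hν hτ
      rw [← hκ] at a2
      have a3 := mul_le_mul_of_nonneg_right a2 (W0 x)
      have e4 : Ψ x = wk κ τ (x 2 - z) := rfl
      simp only
      rw [ddΨ, e4]
      linarith
    rw [integral_add (c1.cmul _).int (c2.cmul _).int, integral_const_mul, integral_const_mul,
      integral_const_mul] at k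
    linarith
  rw [hid, k4]
  linarith

end Pool.Agent.H4NC
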