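import Pool.Agent.H4NC.StmB

/-!
Project NC, stub E1.
-/

set_option autoImplicit false
set_option linter.unusedVariables false

open MeasureTheory Set Function Filter Topology
open scoped ENNReal ContDiff

namespace Pool.Agent.H4NC.E1

open H459R3.NS H4LA

theorem t (a1 : A1) : Pool.Agent.H4NC.E1 := by
  intro ν T u p h κ t1 z s hκ hs hst
  set T' : ℝ := min T t1 with hT'
  have hs' : s ∈ Ioo 0 T' := ⟨hs.1, lt_min hs.2 hst⟩
  have hsub : Ioo 0 T' ×ˢ (univ : Set V) ⊆ Ioo 0 T ×ˢ univ :=
    prod_mono (Ioo_subset_Ioo_right (min_le_left _ _)) subset_rfl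
  have hW : JS T (fun t => vsq (ww (fun i y => u t y i))) := js_W h
  have hW' : JS T' (fun t => vsq (ww (fun i y => u t y i))) := ContDiffOn.mono hW hsub
  have hk : JS T' (fun t x => wk κ (t1 - t) (x 2 - z)) := by
    unfold JS
    have h1 := (a1 κ 1 hκ one_pos).2.2.2.2.2.2
    have h2 : ContDiffOn ℝ ∞ (fun w : ℝ × V => ((t1 - w.1, w.2 2 - z) : ℝ × ℝ))
        (Ioo 0 T' ×ˢ univ) := by
      refine ContDiff.contDiffOn ?_
      refine ContDiff.prodMk (contDiff_const.sub contDiff_fst) (ContDiff.sub ?_ contDiff_const)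
      exact (contDiff_apply ℝ ℝ (2 : Fin 3)).comp contDiff_snd
    refine h1.comp h2 ?_
    rintro ⟨t, x⟩ ht
    refine ⟨?_, mem_univ _⟩
    have h3 : t < t1 := ht.1.2.trans_le (min_le_right _ _)
    show 0 < t1 - t
    linarith
  have hJ : JS T' (fun t x => wk κ (t1 - t) (x 2 - z) * vsq (ww (fun i y => u t y i)) x) :=
    ContDiffOn.mul hk hW'
  have key := hasDerivAt_int
    (F := fun t x => wk κ (t1 - t) (x 2 - z) * vsq (ww (fun i y => u t y i)) x)
    (hJ.of_le (by norm_cast)) hs'
  refine key.congr_deriv ?_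
  have hτ : 0 < t1 - s := by linarith
  have hI : s ∈ Ico 0 T := ⟨hs.1.le, hs.2⟩
  have hsp : ∀ i, SP (fun y => u s y i) := fun i => h.sp hI i
  have hF : ∀ i, SP (dt (fun s y => u s y i) s) := fun i => h.sp_dt hs i
  have hw := ww_sp (v := fun i y => u s y i) hsp
  have hsb := sb_sp hF
  have sS : SP (fun x => ∑ i, ww (fun i y => u s y i) i x
      * sb (fun i => dt (fun s y => u s y i) s) i x) :=
    SP.sum fun i _ => (hw i).mul (hsb i)
  have hc2 : Continuous fun x : V => x 2 - z := (continuous_apply 2).sub continuous_const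
  have hwk : Continuous (wk κ (t1 - s)) := (a1 κ (t1 - s) hκ hτ).2.2.1.continuous
  have hwt : Continuous (wt κ (t1 - s)) := by
    unfold wt
    refine Continuous.mul ?_ hwk
    fun_prop
  have i1 : IntegrableOn (fun x => wt κ (t1 - s) (x 2 - z)
      * vsq (ww (fun i y => u s y i)) x) cube :=
    integrableOn_cube ((hwt.comp hc2).mul (vsq_sp hw).cont)
  have i2 : IntegrableOn (fun x => wk κ (t1 - s) (x 2 - z) * ∑ i, ww (fun i y => u s y i) i x
      * sb (fun i => dt (fun s y => u s y i) s) i x) cube :=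
    integrableOn_cube ((hwk.comp hc2).mul sS.cont)
  rw [← integral_neg, ← integral_const_mul]
  refine Eq.trans ?_ (integral_add i1.neg (i2.const_mul 2))
  congr 1
  funext x
  have h1 : HasDerivAt (fun s => wk κ (t1 - s) (x 2 - z)) (-wt κ (t1 - s) (x 2 - z)) s := by
    have h2 := (a1 κ (t1 - s) hκ hτ).2.2.2.2.2.1 (x 2 - z)
    have h3 : HasDerivAt (fun s => t1 - s) (-1) s := by
      simpa using (hasDerivAt_id s).const_sub t1
    have h4 := h2.comp s h3
    rw [mul_neg, mul_one] at h4
    exact h4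
  have h5 := hW.hasDerivAt hs x
  rw [dt_W h hs] at h5
  refine (h1.mul h5).deriv.trans ?_
  ring

end Pool.Agent.H4NC.E1
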