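import Pool.Agent.H4LA.Ing
import Pool.Agent.H4LA.Nea
import Pool.Agent.H4LA.Ev
import Pool.Agent.H4LA.Kx
import Pool.Agent.H4NC.StmA

/-!
Project NC: statements about vector fields on the torus, with the definitions of `Pool.Agent.H4LA`
(`CP` continuous periodic, `SP` smooth periodic, `Hz f x` = integral of `f` over the horizontal unit
square at the height `x 2`, `BB 2 ρ f x = ∫_{-1}^1 f (x + ρ s e₂) ds`,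
`QG G φ ρ x = Hz (G · BA φ ρ) x` with `BA φ ρ x = ∫_{[-1,1]³} φ (x + ρ y) dy`,
`NR r G x = 1 + Hz (G ^ r) x`, `mm v = Av 2 (v 2)` the vertical average of the last component,
`bb v = v 2 - mm v`, `Gb v = |bb v|`, `ww v = ![v 0, v 1, bb v]`, `vsq v = ∑ (v i)²`,
`ga v = ∑ (∂ₖ vᵢ)²`, `esq v, ysq v` = integrals of `vsq`, `ga`, `hsq v` = integral of the squares of
the horizontal derivatives, `psq` the same for their gradients, `qsq` = integral of the squares of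
the Laplacians). `fz G x` is the extension of the values of `G` on the slice through `x`
(`fz_cp, fz_ind, fz_eq, int_fz` in `Kx.lean`).
-/

set_option autoImplicit false

open MeasureTheory Set Function Filter Topology
open scoped ENNReal ContDiff

namespace Pool.Agent.H4NC

open H459R3.NS H4LA

/-- B0. The kernel as a function on the space (use A1, A5 with `P = 1`; `int_coord` in Mink.lean;
the same `Wt` is smooth, periodic, independent of the horizontal variables). Allowed hypotheses: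
A1, A5. -/
noncomputable def Wt (κ τ z : ℝ) : V → ℝ := fun x => wk κ τ (x 2 - z)

def B0 : Prop := ∀ κ : ℝ, 0 < κ → ∃ C : ℝ, 0 ≤ C ∧ ∀ τ z : ℝ, 0 < τ → τ ≤ 1 →
  SP (Wt κ τ z) ∧ I01 (Wt κ τ z) ∧ (∀ x, 0 < Wt κ τ z x) ∧
  (∀ x, pd 2 (Wt κ τ z) x = wy κ τ (x 2 - z)) ∧
  (∀ x, pd 2 (pd 2 (Wt κ τ z)) x = wyy κ τ (x 2 - z)) ∧
  ∫ x in cube, Wt κ τ z x ≤ C

/-- B1. Hoelder's inequality with the kernel. First part: by A4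
`|wy κ τ (x 2 - z)| ≤ C τ^{-1/2} wk κ τ (x 2 - z + h)^lam wk (4κ) τ (x 2 - z)^{1-lam}`, then `hold4`
(HldL.lean) with the functions `(wk · H)(x + h e₂)`, `k`, `wk (4κ) τ (x 2 - z)^{P}`,
`P = (1-lam)/(1-lam-1/a)`, `1`, and the exponents `lam`, `1/a`, `1-lam-1/a`, `0`; `int_shift`
(Pre.lean) for the first integral, A5 (with `int_coord`, Mink.lean) for the third one:
`(τ^{(1-P)/2})^{1-lam-1/a} = τ^{-1/(2a)}`. Second part: the same with `h = 0` and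
`wk κ ≤ (wk κ)^lam (wk (4κ))^{1-lam}`. Allowed hypotheses: A1, A4, A5. -/
def B1 : Prop := ∀ κ a lam : ℝ, 0 < κ → 2 < a → 0 ≤ lam → lam ≤ 1 / 2 → ∃ C : ℝ, 0 ≤ C ∧
  ∀ τ z : ℝ, 0 < τ → τ ≤ 1 → ∀ k H : V → ℝ, CP k → (∀ x, 0 ≤ k x) → CP H → (∀ x, 0 ≤ H x) →
  ∀ M : ℝ, 0 ≤ M → ∫ x in cube, k x ≤ M ^ a →
  (∀ h : ℝ, |h| ≤ √τ →
    ∫ x in cube, |wy κ τ (x 2 - z)| * (k x ^ (1 / a) * H (x + Pi.single 2 h) ^ lam)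
      ≤ C * (M * τ ^ (-(1 / 2 + 1 / (2 * a))) * (∫ x in cube, Wt κ τ z x * H x) ^ lam)) ∧
  ∫ x in cube, Wt κ τ z x * (k x ^ (1 / a) * H x ^ lam)
      ≤ C * (M * τ ^ (-(1 / (2 * a))) * (∫ x in cube, Wt κ τ z x * H x) ^ lam)

/-- B2. Multiplication on a slice. With `P' = 2r/(r-2)`:
`Hz(G²f²) ≤ (∫G^r)^{2/r} (Hz|f|^{P'})^{1-2/r}`, `gn` (Mlt.lean) gives
`Hz(f^{2(n+1)}) ≤ A(√A+(n+1)√B)^{2n} ≤ C A (A+B)^n`, and with `n ≥ P'` and `ϑ = 2/(n(r-2)) ≤ 1`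
(so `P' = 2 + 2nϑ`) `Hz|f|^{P'} ≤ (Hz f²)^{1-ϑ} (Hz f^{2(n+1)})^ϑ ≤ C A (A+B)^{2/(r-2)}`.
(See the proof of `mlt` in Mlt.lean, which does almost this.) -/
def B2 : Prop := ∀ r : ℝ, 2 < r → ∃ C : ℝ, 1 ≤ C ∧ ∀ G : V → ℝ, CP G → Ind 2 G → (∀ x, 0 ≤ G x) →
  ∀ f : V → ℝ, SP f → ∀ (x : V) (A B : ℝ), Hz (fun y => f y ^ 2) x ≤ A →
  Hz (fun y => pd 0 f y ^ 2) x ≤ B → Hz (fun y => pd 1 f y ^ 2) x ≤ B →
  Hz (fun y => G y ^ 2 * f y ^ 2) x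
    ≤ C * ((1 + ∫ z in cube, G z ^ r) ^ (2 / r) * (A ^ (1 - 2 / r) * (A + B) ^ (2 / r)))

/-- B2v. The same for vector fields, in two forms (from B2 applied to the components with
`A = Hz (vsq v) x`, `B = Hz (ga v) x`; for the second form use `fz G x`, `fz_ind`, `Hz_congr` and
`1 + ∫ (fz G x)^r = NR r G x`, `int_fz`, `Hz_cube`). Allowed hypothesis: B2. -/
def B2v : Prop := ∀ r : ℝ, 2 < r → ∃ C : ℝ, 1 ≤ C ∧ ∀ G : V → ℝ, CP G → (∀ x, 0 ≤ G x) →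
  ∀ v : Fin 3 → V → ℝ, (∀ i, SP (v i)) → ∀ x,
  (Ind 2 G → Hz (fun y => G y ^ 2 * vsq v y) x
    ≤ C * ((1 + ∫ z in cube, G z ^ r) ^ (2 / r)
      * (Hz (vsq v) x ^ (1 - 2 / r) * (Hz (vsq v) x + Hz (ga v) x) ^ (2 / r)))) ∧
  Hz (fun y => G y ^ 2 * vsq v y) x
    ≤ C * (NR r G x ^ (2 / r)
      * (Hz (vsq v) x ^ (1 - 2 / r) * (Hz (vsq v) x + Hz (ga v) x) ^ (2 / r)))

/-- B3. The averages over cubes of side `2ρ`. `QG_fz` (FarK.lean) and the bound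
`Hz (fz G x · AH ρ φ) ≤ 8 Nx ρ^{-2/r} Hz φ` which is used in the proof of `near_K` (PrsK.lean);
`Nx r G x = NR r G x ^ (1/r)`. -/
def B3 : Prop := ∀ r : ℝ, 2 < r → ∃ C : ℝ, 0 ≤ C ∧ ∀ G φ : V → ℝ, CP G → (∀ x, 0 ≤ G x) → CP φ →
  (∀ x, 0 ≤ φ x) → ∀ ρ ∈ Ioc (0 : ℝ) 1, ∀ x,
  QG G φ ρ x ≤ C * (ρ ^ (-(2 / r)) * (NR r G x ^ (1 / r) * BB 2 ρ (Hz φ) x))

/-- B5. The pressure term. `press_slice_G` (Nea.lean) with `ε = √τ`, integrated against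
`|wy κ τ (x 2 - z)|`; B3 for the two families of averages; `Hz (hh v) ≤ √3 √(U H)` (`near_slice`,
Psl.lean) with `U = Hz (vsq v) ≤ D`, `H = Hz (ga v)`; exchange of the integrals (`swap`, Pre.lean);
for `ρ ≤ √τ` B1 with `lam = 1/2`, `h = ρ s`, `k = NR^{a/r}`, and `∫_0^{√τ} ρ^{-2/r} dρ
= τ^{1/2-1/r}/(1-2/r)`; for `ρ ≥ √τ` the bound `BB 2 ρ U ≤ 2D`, B1 with `lam = 0`, and
`∫_{√τ}^1 ρ^{-1-2/r} dρ ≤ (r/2) τ^{-1/r}`; for the first term `Hz_le_Nx` (PrsK.lean) and `lam = 0`.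
Allowed hypotheses: A1, A4, A5, B0, B1, B3. -/
def B5 : Prop := ∀ κ a r : ℝ, 0 < κ → 2 < a → 2 < r → ∃ C : ℝ, 0 ≤ C ∧
  ∀ τ z M D : ℝ, 0 < τ → τ ≤ 1 → 1 ≤ M → 0 ≤ D → ∀ G : V → ℝ, CP G → (∀ x, 0 ≤ G x) →
  ∫ x in cube, NR r G x ^ (a / r) ≤ M ^ a →
  ∀ (v : Fin 3 → V → ℝ) (p : V → ℝ), (∀ i, SP (v i)) → (∀ x, ∑ i, pd i (v i) x = 0) → SP p →
  (∀ x, -lap p x = ∑ i, pd i (conv v i) x) → ∫ x in cube, p x = 0 →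
  (∀ x, Hz (vsq v) x ≤ D) →
  ∫ x in cube, |wy κ τ (x 2 - z)| * Hz (fun y => G y * |p y|) x
    ≤ C * (M * τ ^ (-(1 / 2 + 1 / (2 * a))) * esq v
      + M * τ ^ (-(1 / (2 * a) + 1 / r)) * (√D * √(∫ x in cube, Wt κ τ z x * Hz (ga v) x))
      + M * τ ^ (-(1 / 2 + 1 / (2 * a) + 1 / r)) * D)

/-- B6. The flux with the factor `G`. `Hz(G vsq w) ≤ (Hz(G² vsq w))^{1/2} (Hz vsq w)^{1/2}`
(`Hz_cs_abs`), B2v, `Hz (vsq w) ≤ D`, and B1 with `lam = 1/r`, `h = 0`, `k = NR^{a/r}`,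
`H = Hz (vsq w) + Hz (ga w)`. The second part (used for `|mm|`): `G` independent of `x₂` with
`1 + ∫ G^q ≤ Q`, B1 with `k = 1`, `M = 1`. Allowed hypotheses: A1, A4, A5, B0, B1, B2v. -/
def B6 : Prop := ∀ κ a r : ℝ, 0 < κ → 2 < a → 2 < r → ∃ C : ℝ, 0 ≤ C ∧
  ∀ τ z M D : ℝ, 0 < τ → τ ≤ 1 → 1 ≤ M → 0 ≤ D → ∀ G : V → ℝ, CP G → (∀ x, 0 ≤ G x) →
  ∀ w : Fin 3 → V → ℝ, (∀ i, SP (w i)) → (∀ x, Hz (vsq w) x ≤ D) →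
  (∫ x in cube, NR r G x ^ (a / r) ≤ M ^ a →
    ∫ x in cube, |wy κ τ (x 2 - z)| * Hz (fun y => G y * vsq w y) x
      ≤ C * (M * τ ^ (-(1 / 2 + 1 / (2 * a))) * (D ^ (1 - 1 / r)
        * (∫ x in cube, Wt κ τ z x * (Hz (vsq w) x + Hz (ga w) x)) ^ (1 / r)))) ∧
  (Ind 2 G → ∀ Q : ℝ, 1 + ∫ x in cube, G x ^ r ≤ Q →
    ∫ x in cube, |wy κ τ (x 2 - z)| * Hz (fun y => G y * vsq w y) x
      ≤ C * (Q ^ (1 / r) * (τ ^ (-(1 / 2 + 1 / (2 * a))) * (D ^ (1 - 1 / r)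
        * (∫ x in cube, Wt κ τ z x * (Hz (vsq w) x + Hz (ga w) x)) ^ (1 / r)))))

/-- B8. The sources. `rr v 2 = Av 2 (conv v 2) - ∑ j, v j ∂ⱼ(mm v)` (`∂₂ mm = 0`).
(a) `Hz(G |v| |∇mm|) ≤ (Hz(G² vsq v))^{1/2} (2 hsq v)^{1/2}` (`Hz_pd_mm_le`), B2v, `U ≤ D`, B1
(second part) with `lam = 1/r`.
(b) `Hz(G |Av 2 (conv v 2)|) x ≤ ∫_cube |fz G x| |conv v 2|` (see `src_gen` in IngL.lean, `Hz_ind2`,
`int_mul_Av`), `|conv v 2| ≤ √(vsq v) √(ga v)`; slice by slice (`tri`/`int_Hz`, Cauchy-Schwarz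
`Hz_cs_abs`, B2v for `fz G x`)
`≤ ∫_cube (C NR^{2/r} U^{1-2/r} (U+H)^{2/r})^{1/2} H^{1/2} ≤ C NR r G x^{1/r} D^{1/2-1/r}
∫_cube (U+H)^{1/2+1/r} ≤ C NR^{1/r} D^{1/2-1/r} (esq+ysq)^{1/2+1/r}` (Jensen/`hold4`), then B1
(second part) with `lam = 0`. Allowed hypotheses: A1, A4, A5, B0, B1, B2v. -/
def B8 : Prop := ∀ κ a r : ℝ, 0 < κ → 2 < a → 2 < r → ∃ C : ℝ, 0 ≤ C ∧
  ∀ τ z M D : ℝ, 0 < τ → τ ≤ 1 → 1 ≤ M → 0 ≤ D → ∀ G : V → ℝ, CP G → (∀ x, 0 ≤ G x) →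
  ∫ x in cube, NR r G x ^ (a / r) ≤ M ^ a →
  ∀ v : Fin 3 → V → ℝ, (∀ i, SP (v i)) → (∀ x, Hz (vsq v) x ≤ D) →
  ∫ x in cube, Wt κ τ z x * Hz (fun y => G y * |rr v 2 y|) x
    ≤ C * (M * τ ^ (-(1 / (2 * a))) * (D ^ (1 / 2 - 1 / r)
        * ((∫ x in cube, Wt κ τ z x * (Hz (vsq v) x + Hz (ga v) x)) ^ (1 / r) * √(hsq v)))
      + M * τ ^ (-(1 / (2 * a))) * (D ^ (1 / 2 - 1 / r) * (esq v + ysq v) ^ (1 / 2 + 1 / r)))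

/-- B9. The balance with the kernel. `slice_ident` (En.lean) with `w = ww v`, `R = rr v`,
`w' = sb F` (`sb_eq`), `Ψ = Wt`, as in the proof of `slice_L` (IngL.lean); the term
`-ν ∫ ∂₂Ψ ∂₂(vsq w) = ν ∫ ∂₂∂₂Ψ vsq w` (`ibp`), the time derivative of the kernel and A2 leave
`π²ν ∫ Wt vsq w`; absolute values inside the flux terms, `|v 2| ≤ Gb v + |mm v|`,
`∫ Ψ f = ∫ Ψ Hz f` (`int_mul_Hz`). Allowed hypotheses: A1, A2, A5, B0. -/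
def B9 : Prop := ∀ ν : ℝ, 0 < ν → ∀ κ, κ = 4 * Real.pi ^ 2 * ν → ∀ τ z : ℝ, 0 < τ → τ ≤ 1 →
  ∀ (v : Fin 3 → V → ℝ) (p : V → ℝ) (F : Fin 3 → V → ℝ), (∀ i, SP (v i)) →
  (∀ x, ∑ i, pd i (v i) x = 0) → SP p →
  (∀ i x, F i x = ν * lap (v i) x - conv v i x - pd i p x) →
  -(∫ x in cube, wt κ τ (x 2 - z) * vsq (ww v) x)
      + 2 * ∫ x in cube, Wt κ τ z x * ∑ i, ww v i x * sb F i x
    ≤ -(2 * ν) * (∫ x in cube, Wt κ τ z x * Hz (ga (ww v)) x)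
      + Real.pi ^ 2 * ν * (∫ x in cube, Wt κ τ z x * Hz (vsq (ww v)) x)
      + (∫ x in cube, |wy κ τ (x 2 - z)| * Hz (fun y => Gb v y * vsq (ww v) y) x)
      + (∫ x in cube, |wy κ τ (x 2 - z)| * Hz (fun y => |mm v y| * vsq (ww v) y) x)
      + 2 * (∫ x in cube, |wy κ τ (x 2 - z)| * Hz (fun y => Gb v y * |p y|) x)
      + 2 * ∫ x in cube, Wt κ τ z x * Hz (fun y => Gb v y * |rr v 2 y|) x

/-- LB. The kernel concentrates: `Hz f` is recovered from the kernel integrals.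
`∫_cube wk κ δ (x 2 - z) f = ∫_cube wk κ δ (x 2 - z) Hz f x` (`int_mul_Hz`); with `z = x₀ 2` and
`|y| ≤ √δ` one has `wk κ δ y ≥ δ^{-1/2} e^{-π²/κ}`, and by periodicity the integral in the height
contains an interval of length `2√δ` around `z`; continuity of `Hz f` at `x₀`, `δ → 0`.
Allowed hypotheses: A1, B0. -/
def LB : Prop := ∀ κ : ℝ, 0 < κ → ∃ C : ℝ, 0 ≤ C ∧ ∀ f : V → ℝ, CP f → (∀ x, 0 ≤ f x) →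
  ∀ δ0 B : ℝ, 0 < δ0 → (∀ z δ : ℝ, 0 < δ → δ < δ0 → ∫ x in cube, wk κ δ (x 2 - z) * f x ≤ B) →
  ∀ x, Hz f x ≤ C * B

/-- E1. The derivative in time. As `dt_W`, `Y_hasDerivAt` in Ev.lean: restrict to the interval
`(0, min T t1)`, where `(s, x) ↦ wk κ (t1 - s) (x 2 - z) * vsq (ww u(s)) x` is smooth (`JS`, A1), and
`hasDerivAt_int`. Allowed hypothesis: A1. -/
def E1 : Prop := ∀ (ν T : ℝ) (u : ℝ → V → V) (p : ℝ → V → ℝ), IsSol ν T u p →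
  ∀ κ t1 z s : ℝ, 0 < κ → s ∈ Ioo 0 T → s < t1 →
  HasDerivAt (fun s => ∫ x in cube, wk κ (t1 - s) (x 2 - z) * vsq (ww (fun i y => u s y i)) x)
    (-(∫ x in cube, wt κ (t1 - s) (x 2 - z) * vsq (ww (fun i y => u s y i)) x)
      + 2 * ∫ x in cube, wk κ (t1 - s) (x 2 - z) * ∑ i, ww (fun i y => u s y i) i x
        * sb (fun i => dt (fun s y => u s y i) s) i x) s

/-- MM1. The evolution of an `L^q` norm of the vertical average (`js_mm`, `js_av_aux`,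
`hasDerivAt_int`; `∂ₜ mm = Av 2 (∂ₜ u₂)`). -/
def MM1 : Prop := ∀ (ν T : ℝ) (u : ℝ → V → V) (p : ℝ → V → ℝ), IsSol ν T u p →
  ∀ q s : ℝ, 2 < q → s ∈ Ioo 0 T →
  HasDerivAt (fun s => ∫ x in cube, (1 + mm (fun i y => u s y i) x ^ 2) ^ (q / 2))
    (∫ x in cube, q * (mm (fun i y => u s y i) x * (1 + mm (fun i y => u s y i) x ^ 2) ^ (q / 2 - 1))
      * Av 2 (dt (fun s y => u s y 2) s) x) s

/-- MM2. With `m = mm v`, `θ(m) = q m (1+m²)^{q/2-1}`, `Av 2 (lap v₂) = lap m`,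
`Av 2 (∂₂ p) = 0`, `Av 2 (conv v 2) = ∑_{j<2} ∂ⱼ Av 2 (vⱼ v₂)`
`= V·∇m + ∑_{j<2} ∂ⱼ fⱼ`, `V = Av 2 (v₀, v₁)` (divergence-free), `fⱼ = Av 2 (vⱼ bb)`;
`∫ θ(m) V·∇m = 0`; so the left side is `-ν ∫ θ'(m)|∇m|² + ∑ ∫ θ'(m) ∂ⱼm fⱼ
≤ (1/(4ν)) ∑ ∫ θ'(m) fⱼ²` and `θ' ≤ q² (1+m²)^{q/2-1}`. -/
def MM2 : Prop := ∀ ν q : ℝ, 0 < ν → 2 < q → ∀ (v : Fin 3 → V → ℝ) (p F : V → ℝ),
  (∀ i, SP (v i)) → (∀ x, ∑ i, pd i (v i) x = 0) → SP p →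
  (∀ x, F x = ν * lap (v 2) x - conv v 2 x - pd 2 p x) →
  ∫ x in cube, q * (mm v x * (1 + mm v x ^ 2) ^ (q / 2 - 1)) * Av 2 F x
    ≤ q ^ 2 / (4 * ν) * ∑ j ∈ HH, ∫ x in cube, (1 + mm v x ^ 2) ^ (q / 2 - 1)
      * Av 2 (fun y => v j y * bb v y) x ^ 2

/-- MM3. Let `w = (1+m²)^{q/2-1}` (independent of `x₂`), `f = Av 2 (vⱼ bb)`, `X = ∫ (1+m²)^{q/2} ≥ 1`,
`1/ϱ = e1 = 1/r + 1/2 - 1/q < 1/2`. First (Minkowski by duality)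
`∫ w f² = ∫_cube w f (vⱼ bb) ≤ ∫_cube (Hz (w f²))^{1/2} (Hz (w bb² vⱼ²))^{1/2}`
(`int_mul_Av`, Cauchy-Schwarz on slices) and `Hz (w f²) = ∫ w f²`, so
`(∫ w f²)^{1/2} ≤ ∫_cube (Hz (w bb² vsq v))^{1/2}`. Second, B2v (second form) with `r := ϱ`,
`G = w^{1/2} |bb|`: `Hz (w bb² vsq v) ≤ C NR ϱ G^{2/ϱ} U^{1-2/ϱ} (U+H)^{2/ϱ}` and by Hoelder on the
slice `Hz (G^ϱ) ≤ (Hz |bb|^r)^{ϱ/r} (∫ (1+m²)^{q/2})^{1-ϱ/r}`, so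
`NR ϱ G^{2/ϱ} ≤ 4 NR r (Gb v)^{2/r} X^{1-2/q}`. Third, `hold4` with `NR^{a/r}` (exponent `1/a`),
`U` (`1/2-e1`), `U+H` (`e1`), `1` (`1/2-1/a`). Allowed hypothesis: B2v. -/
def MM3 : Prop := ∀ a r q : ℝ, 2 < a → 2 < r → 2 < q → q < r → ∃ C : ℝ, 0 ≤ C ∧
  ∀ M : ℝ, 1 ≤ M → ∀ v : Fin 3 → V → ℝ, (∀ i, SP (v i)) →
  ∫ x in cube, NR r (Gb v) x ^ (a / r) ≤ M ^ a → ∀ j ∈ HH,
  ∫ x in cube, (1 + mm v x ^ 2) ^ (q / 2 - 1) * Av 2 (fun y => v j y * bb v y) x ^ 2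
    ≤ C * ((∫ x in cube, (1 + mm v x ^ 2) ^ (q / 2)) ^ (1 - 2 / q)
      * (M ^ 2 * (esq v ^ (1 - 2 * (1 / r + 1 / 2 - 1 / q))
        * (esq v + ysq v) ^ (2 * (1 / r + 1 / 2 - 1 / q)))))

/-- MM4. The bound for the `L^q` norm of the average on `[T/2, T)`: Gronwall for
`X(t) = ∫ (1+mm²)^{q/2} ≥ 1` with MM1, MM2, MM3, the energy inequality (`h.energy_le`,
`h.int_enstrophy`, see `Y_boundG` in Gen4.lean for the same argument) and, since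
`2/s + 2(1/r+1/2-1/q) ≤ 1` for `2/s = 1 - 1/a - 2/r`, `1/q ≥ 1/2 - 1/(2a)`, Young:
`M² (1+E+y)^{2 e1} ≤ M^s + (1+E+y)`. So `X' ≤ C X^{1-2/q} (...) ≤ C X (N^s + 1 + y)`.
Allowed hypotheses: MM1, MM2, MM3. -/
def MM4 : Prop := ∀ (ν T : ℝ) (u : ℝ → V → V) (p : ℝ → V → ℝ), IsSol ν T u p → 0 < ν → 0 < T →
  ∀ a r q : ℝ, 2 < a → 2 < r → 1 / a + 2 / r < 1 → 2 < q → q < r → 1 / 2 - 1 / (2 * a) ≤ 1 / q →
  ∀ N : ℝ → ℝ, (∀ t ∈ Ioo 0 T, 1 ≤ N t) →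
  IntegrableOn (fun t => N t ^ (2 / (1 - 1 / a - 2 / r))) (Ioo 0 T) →
  (∀ t ∈ Ioo 0 T, ∫ x in cube, NR r (Gb (fun i y => u t y i)) x ^ (a / r) ≤ N t ^ a) →
  ∃ Q : ℝ, 1 ≤ Q ∧ ∀ t ∈ Ico (T / 2) T,
    ∫ x in cube, (1 + mm (fun i y => u t y i) x ^ 2) ^ (q / 2) ≤ Q

/-- V2. The bound for `∫ (v₂ ∂ⱼvᵢ)²` in the case `2/a + 2/r ≤ 1` (the other case is `v2f_L` in
EtaL.lean, from which the proof is adapted). Replace the use of `mult2` by B2: with `f = ∂ⱼvᵢ`,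
`A = Hz f²`, `B = Hz (∂₀f)² + Hz (∂₁f)²`: `Hz(G²f²) ≤ C NR^{2/r} A^{1-2/r} (A+B)^{2/r}`, and
`A^{1-2/r} = A^{2/a} A^{1-2/a-2/r} ≤ (3√y√(y+Q))^{2/a} A^{1-2/a-2/r}` (`y = ysq v`, `Q = qsq v`),
then `hold4` with `NR^{a/r}` (exponent `2/a`), `A` (`1-2/a-2/r`), `A+B` (`2/r`).
Allowed hypothesis: B2. -/
def V2 : Prop := ∀ a r : ℝ, 2 < a → 2 < r → 2 / a + 2 / r ≤ 1 → ∃ C : ℝ, 0 ≤ C ∧ ∀ M : ℝ, 1 ≤ M →
  ∀ v : Fin 3 → V → ℝ, (∀ i, SP (v i)) →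
  (∫ x in cube, NR r (fun x => |bb v x|) x ^ (a / r)) ≤ M ^ a →
  ∀ i j, ∫ x in cube, (v 2 x * pd j (v i) x) ^ 2
    ≤ 2 * (esq v + 2 * (√(esq v) * √(hsq v))) * (ysq v + 2 * (√(ysq v) * √(2 * psq v)))
      + C * (M ^ 2 * (ysq v ^ (1 - 1 / a - 2 / r) * (ysq v + qsq v) ^ (1 / a)
        * (ysq v + psq v) ^ (2 / r)))

/-- R4. `rate4` of EtaL.lean with `τ = 1` and with `2 < a`, `2 < r`, `1/a + 2/r < 1` instead of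
`Ey a r` (which is used there, and in `y3`, only through these; `th a r = 1/a + 2/r`,
`bL a r = 1/(1 - th a r)`, `sL a r = 2/(1 - th a r)`): adapt the two proofs. -/
def R4 : Prop := ∀ (a r E0 C ε ν : ℝ), 2 < a → 2 < r → 1 / a + 2 / r < 1 → 0 < ν → 0 < ε → 0 ≤ C →
  ∃ K : ℝ, 0 ≤ K ∧ ∀ E η π y cu W N Q : ℝ, 0 ≤ E → E ≤ E0 → 0 ≤ η → 0 ≤ π → 0 ≤ y → 0 ≤ W → 1 ≤ N →
  0 ≤ Q → |cu| ≤ 26 * (√W * √π) →
  W ≤ 2 * (E + 2 * (√E * √η)) * (y + 2 * (√y * √(2 * π)))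
    + C * (N ^ 2 * (y ^ (1 - 1 / a - 2 / r) * (y + Q) ^ (1 / a) * (y + π) ^ (2 / r))) →
  -(2 * ν * π) - 2 * cu ≤ -(ν * π)
    + K * ((1 + η) * y + N ^ (2 / (1 - 1 / a - 2 / r)) * y) + ε * Q

/-- KS. The inequality at a fixed time. Subtract the mean from `p` (as in `key_L`, KeyL.lean), B9, B5
(with `G = Gb v`), B6 first part (with `w = ww v`, `G = Gb v`; `Hz (vsq (ww v)) ≤ 4 D` since
`vsq (ww v) ≤ 2 vsq v + 2 mm²` and `Hz (mm²) ≤ esq v ≤ D`, `Hz_mm_sq_le`), B6 second part (with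
`G = |mm v|`, `r := q`, `a := a'` so large that `β := q/(q-1) (1/2 + 1/(2a')) < 1`, and
`1 + ∫ |mm|^q ≤ 1 + Q`), B8 (with `hsq ≤ ysq`), all the terms are of the form of A12 with
`J = ∫ Wt (Hz (vsq v) + Hz (vsq (ww v)) + Hz (ga v) + Hz (ga (ww v)))`, `Y = 1 + esq v + ysq v`, and
`J ≤ C (D + ysq v) + 3 ∫ Wt Hz (ga (ww v))` (`ga v ≤ 2 ga (ww v) + 2 |∇mm|²`, `Hz_pd_mm_le`, `∫ Wt ≤ C`;
see `int_W` in FarK.lean): take `ε` in A12 with `3 ε ≤ ν`. Allowed hypotheses: A1, A2, A5, A12, B0,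
B5, B6, B8, B9. -/
def KS : Prop := ∀ ν a r q E Q : ℝ, 0 < ν → 2 < a → 2 < r → 1 / a + 2 / r < 1 → 2 < q → 0 ≤ E →
  1 ≤ Q → ∃ C β : ℝ, 0 ≤ C ∧ 0 < β ∧ β < 1 ∧ ∀ κ : ℝ, κ = 4 * Real.pi ^ 2 * ν → ∀ τ z M D : ℝ,
  0 < τ → τ ≤ 1 → 1 ≤ M → 1 ≤ D →
  ∀ (v : Fin 3 → V → ℝ) (p : V → ℝ) (F : Fin 3 → V → ℝ), (∀ i, SP (v i)) →
  (∀ x, ∑ i, pd i (v i) x = 0) → SP p → (∀ x, -lap p x = ∑ i, pd i (conv v i) x) →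
  (∀ i x, F i x = ν * lap (v i) x - conv v i x - pd i p x) → esq v ≤ E →
  ∫ x in cube, NR r (Gb v) x ^ (a / r) ≤ M ^ a → (∀ x, Hz (vsq v) x ≤ D) →
  ∫ x in cube, (1 + mm v x ^ 2) ^ (q / 2) ≤ Q →
  -(∫ x in cube, wt κ τ (x 2 - z) * vsq (ww v) x)
      + 2 * ∫ x in cube, Wt κ τ z x * ∑ i, ww v i x * sb F i x
    ≤ C * (1 + ysq v) + C * (D * (1 + τ ^ (-β) + M * τ ^ ((1 - 1 / a - 2 / r) / 2 - 1)
      + M ^ (2 * r / (r - 2)) * τ ^ (2 * r / (r - 2) * ((1 - 1 / a - 2 / r) / 2) - 1)))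

/-- SUP. The bound for the slice energies near the time `T` (taken by helper4). -/
def SUP : Prop := ∀ (ν T : ℝ) (u : ℝ → V → V) (p : ℝ → V → ℝ), IsSol ν T u p → 0 < ν → 0 < T →
  ∀ a r : ℝ, 2 < a → 2 < r → 1 / a + 2 / r < 1 → ∀ N : ℝ → ℝ, (∀ t ∈ Ioo 0 T, 1 ≤ N t) →
  AEMeasurable N (volume.restrict (Ioo 0 T)) →
  Lz (2 / (1 - 1 / a - 2 / r)) N 0 T ≠ ⊤ →
  (∀ t ∈ Ioo 0 T, ∫ x in cube, NR r (Gb (fun i y => u t y i)) x ^ (a / r) ≤ N t ^ a) →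
  ∃ t0 D : ℝ, t0 ∈ Ioo 0 T ∧ ∀ t ∈ Ico t0 T, ∀ x, Hz (vsq (fun i y => u t y i)) x ≤ D

/-- F3. The end of the proof, when the slice energies are bounded by `D` on `[t0, T)`. With
`y = ysq`, `η = hsq`, `π = psq`, `Q = palin (u t)` (`qsq (fun i y => u t y i) = palin (u t)` is rfl):
(i) `hsq_hasDerivAt`, `abs_cubh_le` with V2 if `2/a + 2/r ≤ 1` and with `v2f_L` (EtaL.lean, `Ey a r`)
if `1 < 2/a + 2/r`, and R4: `η' ≤ -ν π + K((1+η) y + N^s y) + ε Q`;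
(ii) `enstrophy_hasDerivAt`, `abs_cub_le2`, `absorb` (see `near_gen` in Gen4.lean, `hcub`, with the
constant `D` instead of `C (1+y)^θ`): `y' ≤ -ν Q + c5 (η + π)`.
For `Z = A η + y` with `A ν ≥ 2 c5`, `A ε ≤ ν/2`: `Z' ≤ -(ν/2) Q - (Aν/2) π
+ C (1 + y + N^s)(1 + Z)` with `y, N^s` integrable; Gronwall (via the logarithm of `1 + Z`, as in
`Y_boundG`) on `[t0, T)`, `y` is bounded on `[0, t0]` by continuity, and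
`IsSol.bounded_of_int_palin` as at the end of `near_gen`. Allowed hypotheses: V2, R4. -/
def F3 : Prop := ∀ (ν T : ℝ) (u : ℝ → V → V) (p : ℝ → V → ℝ), IsSol ν T u p → 0 < ν → 0 < T →
  ∀ a r : ℝ, 2 < a → 2 < r → 1 / a + 2 / r < 1 → ∀ N : ℝ → ℝ, (∀ t ∈ Ioo 0 T, 1 ≤ N t) →
  IntegrableOn (fun t => N t ^ (2 / (1 - 1 / a - 2 / r))) (Ioo 0 T) →
  (∀ t ∈ Ioo 0 T, ∫ x in cube, NR r (Gb (fun i y => u t y i)) x ^ (a / r) ≤ N t ^ a) →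
  ∀ t0 D : ℝ, t0 ∈ Ioo 0 T → (∀ t ∈ Ico t0 T, ∀ x, Hz (vsq (fun i y => u t y i)) x ≤ D) →
  ∃ M : ℝ, ∀ t ∈ Ico 0 T, ∀ x i, |u t x i| ≤ M

end Pool.Agent.H4NC
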