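import Pool.Agent.H4LA.Fin4
import Pool.Agent.H4NC.StmB

/-!
Project NC: the criterion at almost every time and the choice of the exponents.
-/

set_option autoImplicit false
set_option linter.unusedVariables false

open MeasureTheory Set Function Filter Topology
open scoped ENNReal ContDiff

namespace Pool.Agent.H4NC

open H459R3.NS H4LA

variable {ν T : ℝ} {u : ℝ → V → V} {p : ℝ → V → ℝ}

/-- The critical criterion. -/
theorem near_crit (hSUP : SUP) (hF3 : F3) (hA9 : A9) (h : IsSol ν T u p) (hν : 0 < ν)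
    (hT : 0 < T) {a r : ℝ} (ha : 2 < a) (hr : 2 < r) (har : 1 / a + 2 / r < 1) {N : ℝ → ℝ}
    (N1 : ∀ t ∈ Ioo 0 T, 1 ≤ N t) (mN : AEMeasurable N (volume.restrict (Ioo 0 T)))
    (hL : Lz (2 / (1 - 1 / a - 2 / r)) N 0 T ≠ ⊤)
    (hb : ∀ t ∈ Ioo 0 T, Mix a r (N t) (fun i y => u t y i)) :
    ∃ M, ∀ t ∈ Ico 0 T, ∀ x i, |u t x i| ≤ M := by
  obtain ⟨t0, D, ht0, hD⟩ := hSUP ν T u p h hν hT a r ha hr har N N1 mN hL hb
  have hx0 : 0 < 1 - 1 / a - 2 / r := by linarith
  have ha0 : 0 < a := by linarith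
  have hr0 : 0 < r := by linarith
  have i1a : 0 < 1 / a := by positivity
  have i1r : 0 < 2 / r := by positivity
  have hs1 : 1 ≤ 2 / (1 - 1 / a - 2 / r) := by
    rw [le_div_iff₀ hx0]
    linarith
  have hNs := hA9 (2 / (1 - 1 / a - 2 / r)) N T hs1 (fun t ht => by linarith [N1 t ht]) mN hL
  exact hF3 ν T u p h hν hT a r ha hr har N N1 hNs hb t0 D ht0 hD

/-- The criterion at almost every time, for the last component. -/
theorem crit_ae (hSUP : SUP) (hF3 : F3) (hA9 : A9) (hA11 : A11) (h : IsSol ν T u p) (hν : 0 < ν)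
    {a r : ℝ} (ha : 2 < a) (hr : 2 < r) (har : 1 / a + 2 / r < 1) {g : ℝ → ℝ}
    (mg : AEMeasurable g (volume.restrict (Ioo 0 T)))
    (hg : Lz (2 / (1 - 1 / a - 2 / r)) (fun t => |g t|) 0 T ≠ ⊤) {K : ℝ} (hK : 1 ≤ K)
    (ho : ∀ᵐ t ∂(volume.restrict (Ioo 0 T)),
      Mix a r (K * (1 + |g t|)) (fun i y => u t y i)) :
    ∃ M, ∀ t ∈ Ico 0 T, ∀ x i, |u t x i| ≤ M := by
  rcases le_or_gt T 0 with hT | hT
  · exact ⟨0, fun t ht => absurd (ht.1.trans_lt ht.2) (by linarith)⟩
  classical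
  have ha0 : 0 < a := by linarith
  set N : ℝ → ℝ := fun t => if Mix a r (K * (1 + |g t|)) (fun i y => u t y i)
    then K * (1 + |g t|)
    else 1 + (∫ x in cube, NR r (Gb (fun i y => u t y i)) x ^ (a / r)) ^ (1 / a) with hN
  have I0 : ∀ t, 0 ≤ ∫ x in cube, NR r (Gb (fun i y => u t y i)) x ^ (a / r) := fun t =>
    integral_nonneg fun x => Real.rpow_nonneg (by
      have := NR_one (r := r) (G := Gb (fun i y => u t y i)) (fun x => abs_nonneg _) x
      linarith) _
  have N1 : ∀ t ∈ Ioo 0 T, 1 ≤ N t := by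
    intro t ht
    simp only [hN]
    split_ifs
    · have := abs_nonneg (g t)
      nlinarith
    · have := Real.rpow_nonneg (I0 t) (1 / a)
      linarith
  have hae : ∀ᵐ t ∂(volume.restrict (Ioo 0 T)), N t = K * (1 + |g t|) := by
    filter_upwards [ho] with t ht
    simp only [hN]
    rw [if_pos ht]
  have mN : AEMeasurable N (volume.restrict (Ioo 0 T)) := by
    have m1 : AEMeasurable (fun t => K * (1 + |g t|)) (volume.restrict (Ioo 0 T)) :=
      (aemeasurable_const.add (measurable_norm.comp_aemeasurable mg)).const_mul K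
    exact m1.congr (hae.mono fun t ht => ht.symm)
  have hx0 : 0 < 1 - 1 / a - 2 / r := by linarith
  refine near_crit hSUP hF3 hA9 h hν hT ha hr har N1 mN
    (hA11 _ g N T K (by positivity) (by linarith) hg hae) ?_
  intro t ht
  simp only [hN]
  split_ifs with h1
  · exact h1
  · unfold Mix
    have h2 := I0 t
    have h3 : ((∫ x in cube, NR r (Gb (fun i y => u t y i)) x ^ (a / r)) ^ (1 / a)) ^ a
        = ∫ x in cube, NR r (Gb (fun i y => u t y i)) x ^ (a / r) := by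
      rw [← Real.rpow_mul h2, one_div_mul_cancel ha0.ne', Real.rpow_one]
    calc ∫ x in cube, NR r (Gb (fun i y => u t y i)) x ^ (a / r) = _ := h3.symm
      _ ≤ _ := Real.rpow_le_rpow (Real.rpow_nonneg h2 _) (by linarith) ha0.le

/-- Smaller exponents in time. -/
theorem Lz_exp {s s' T : ℝ} (hs : 0 < s) (hss : s ≤ s') {g : ℝ → ℝ} (h : Lz s' g 0 T ≠ ⊤) :
    Lz s g 0 T ≠ ⊤ := by
  have hs' : 0 < s' := by linarith
  set e : ℝ := 1 / s - 1 / s' with he
  have he0 : 0 ≤ e := by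
    rw [he, sub_nonneg]
    exact one_div_le_one_div_of_le hs hss
  have k : Lz s g 0 T ≤ ENNReal.ofReal T ^ e * Lz s' g 0 T := by
    unfold Lz
    rw [← lintegral_const_mul' _ _ (ENNReal.rpow_ne_top_of_nonneg he0 ENNReal.ofReal_ne_top)]
    refine lintegral_mono fun lam => ?_
    set m : ℝ≥0∞ := volume {t | t ∈ Ioo 0 T ∧ lam < g t} with hm
    have hmT : m ≤ ENNReal.ofReal T := by
      have : m ≤ volume (Ioo 0 T) := measure_mono fun t ht => ht.1
      rwa [Real.volume_Ioo, sub_zero] at this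
    have e1 : 1 / s = e + 1 / s' := by
      rw [he]
      ring
    rw [e1, ENNReal.rpow_add_of_nonneg _ _ he0 (by positivity)]
    exact mul_le_mul_left (ENNReal.rpow_le_rpow hmT he0) _
  exact ne_top_of_le_ne_top (ENNReal.mul_ne_top
    (ENNReal.rpow_ne_top_of_nonneg he0 ENNReal.ofReal_ne_top) h) k

theorem pick_aux {c x y : ℝ} (hc : 0 < c) (hx : 0 ≤ x) (hx2 : x < 1 / 2) (hy : 0 ≤ y)
    (h : c + x + 2 * y < 1) :
    ∃ x0 y0 : ℝ, 0 < x0 ∧ 0 < y0 ∧ (x ≠ 0 → x0 = x) ∧ (y ≠ 0 → y0 = y) ∧ x0 < 1 / 2 ∧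
      c + x0 + 2 * y0 < 1 := by
  set ε : ℝ := min (1 / 4) ((1 - c - x - 2 * y) / 4) with hε
  have hε0 : 0 < ε := lt_min (by norm_num) (by linarith)
  have hε1 : ε ≤ 1 / 4 := min_le_left _ _
  have hε2 : ε ≤ (1 - c - x - 2 * y) / 4 := min_le_right _ _
  rcases eq_or_ne x 0 with hx0 | hx0 <;> rcases eq_or_ne y 0 with hy0 | hy0
  · exact ⟨ε, ε, hε0, hε0, fun h => absurd hx0 h, fun h => absurd hy0 h, by linarith,
      by linarith⟩
  · exact ⟨ε, y, hε0, lt_of_le_of_ne hy (Ne.symm hy0), fun h => absurd hx0 h, fun _ => rfl,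
      by linarith, by linarith⟩
  · exact ⟨x, ε, lt_of_le_of_ne hx (Ne.symm hx0), hε0, fun _ => rfl, fun h => absurd hy0 h,
      hx2, by linarith⟩
  · exact ⟨x, y, lt_of_le_of_ne hx (Ne.symm hx0), lt_of_le_of_ne hy (Ne.symm hy0),
      fun _ => rfl, fun _ => rfl, hx2, h⟩

/-- The exponents below the critical line. -/
theorem pick6 {s : ℝ} {a r : ℝ≥0∞} (ha : 2 < a)
    (h : 2 / ENNReal.ofReal s + 1 / a + 2 / r < 1) :
    ∃ a0 r0 : ℝ, 2 < a0 ∧ 2 < r0 ∧ 1 / a0 + 2 / r0 < 1 ∧ ENNReal.ofReal a0 ≤ a ∧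
      ENNReal.ofReal r0 ≤ r ∧ 2 / (1 - 1 / a0 - 2 / r0) < s := by
  have hs : 0 < s := by
    by_contra h1
    rw [not_lt] at h1
    rw [ENNReal.ofReal_eq_zero.2 h1, ENNReal.div_zero (by norm_num)] at h
    simp at h
  have e1 : 2 / ENNReal.ofReal s = ENNReal.ofReal (2 / s) := by
    rw [ENNReal.ofReal_div_of_pos hs]
    norm_num
  have a0 : a ≠ 0 := by
    rintro rfl
    simp at ha
  have r0 : r ≠ 0 := by
    rintro rfl
    rw [ENNReal.div_zero (by norm_num)] at h
    simp at h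
  set x : ℝ := a⁻¹.toReal with hx
  set y : ℝ := r⁻¹.toReal with hy
  have x0 : 0 ≤ x := ENNReal.toReal_nonneg
  have y0 : 0 ≤ y := ENNReal.toReal_nonneg
  have e3 : 2 / r = ENNReal.ofReal (2 * y) := by
    rw [hy, ← div_ofReal r0 (by norm_num)]
    norm_num
  have e4 : 1 / a = ENNReal.ofReal x := by
    rw [← one_mul x, hx, ← div_ofReal a0 (by norm_num)]
    norm_num
  have e5 : x < 1 / 2 := by
    have h1 : a⁻¹ < 2⁻¹ := ENNReal.inv_lt_inv.2 ha
    have h2 := (ENNReal.toReal_lt_toReal (ENNReal.inv_ne_top.2 a0) (by simp)).2 h1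
    rw [← hx] at h2
    refine h2.trans_le (le_of_eq ?_)
    simp
  rw [e1, e3, e4, ← ENNReal.ofReal_add (by positivity) x0,
    ← ENNReal.ofReal_add (by positivity) (by positivity), ENNReal.ofReal_lt_one] at h
  have h2s : 0 < 2 / s := by positivity
  obtain ⟨x1, y1, q1, q2, q3, q4, q5, q6⟩ := pick_aux h2s x0 e5 y0 h
  refine ⟨1 / x1, 1 / y1, ?_, ?_, ?_, ofReal_inv_le a0 q3, ofReal_inv_le r0 q4, ?_⟩
  · rw [lt_div_iff₀ q1]
    linarith
  · rw [lt_div_iff₀ q2]
    linarith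
  · rw [one_div_one_div, div_div_eq_mul_div]
    linarith
  · rw [one_div_one_div, div_div_eq_mul_div, div_one, div_lt_iff₀ (by linarith)]
    have : 2 / s < 1 - x1 - 2 * y1 := by linarith
    rwa [div_lt_iff₀ hs, mul_comm] at this

/-- The exponents on or below the critical line. -/
theorem pick7 {s : ℝ} {a r : ℝ≥0∞} (ha : 2 < a) (hat : a ≠ ⊤) (hrt : r ≠ ⊤)
    (h : 2 / ENNReal.ofReal s + 1 / a + 2 / r ≤ 1) :
    2 < a.toReal ∧ 2 < r.toReal ∧ 1 / a.toReal + 2 / r.toReal < 1 ∧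
      2 / (1 - 1 / a.toReal - 2 / r.toReal) ≤ s := by
  have hs : 0 < s := by
    by_contra h1
    rw [not_lt] at h1
    rw [ENNReal.ofReal_eq_zero.2 h1, ENNReal.div_zero (by norm_num)] at h
    simp at h
  have e1 : 2 / ENNReal.ofReal s = ENNReal.ofReal (2 / s) := by
    rw [ENNReal.ofReal_div_of_pos hs]
    norm_num
  have a0 : a ≠ 0 := by
    rintro rfl
    simp at ha
  have r0 : r ≠ 0 := by
    rintro rfl
    rw [ENNReal.div_zero (by norm_num)] at h
    simp at h
  have pa : 0 < a.toReal := ENNReal.toReal_pos a0 hat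
  have pr : 0 < r.toReal := ENNReal.toReal_pos r0 hrt
  have h2a : 2 < a.toReal := by
    have := (ENNReal.toReal_lt_toReal (by norm_num) hat).2 ha
    simpa using this
  have ea : 1 / a = ENNReal.ofReal (1 / a.toReal) := by
    rw [ENNReal.ofReal_div_of_pos pa, ENNReal.ofReal_toReal hat, ENNReal.ofReal_one]
  have er : 2 / r = ENNReal.ofReal (2 / r.toReal) := by
    rw [ENNReal.ofReal_div_of_pos pr, ENNReal.ofReal_toReal hrt]
    norm_num
  rw [e1, ea, er, ← ENNReal.ofReal_add (by positivity) (by positivity),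
    ← ENNReal.ofReal_add (by positivity) (by positivity), ENNReal.ofReal_le_one] at h
  have h2s : 0 < 2 / s := by positivity
  have pa' : 0 < 1 / a.toReal := by positivity
  have hlt : 1 / a.toReal + 2 / r.toReal < 1 := by linarith
  refine ⟨h2a, ?_, hlt, ?_⟩
  · have : 2 / r.toReal < 1 := by linarith
    rwa [div_lt_one pr] at this
  · rw [div_le_iff₀ (by linarith)]
    have : 2 / s ≤ 1 - 1 / a.toReal - 2 / r.toReal := by linarith
    rwa [div_le_iff₀ hs, mul_comm] at this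

/-- The integrals of the positive part of the derivative over the lines control the
oscillation. -/
theorem maj_line {f : V → ℝ} (hf : SP f) (j : Fin 3) {r : ℝ≥0∞} {r0 c : ℝ} (h2 : 2 < r0)
    (hr : ENNReal.ofReal r0 ≤ r)
    (h : eLpNorm (fun x => ∫ σ in Icc (0 : ℝ) 1, max (pd j f (update x j σ)) 0) r
      ((volume : Measure V).restrict cube) ≤ ENNReal.ofReal c) :
    ∃ G : V → ℝ, CP G ∧ Ind j G ∧ (∀ x, 0 ≤ G x) ∧
      (∀ x r, f (update x j r) - f x ≤ G x) ∧ ∫ x in cube, G x ^ r0 ≤ |c| ^ r0 := by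
  have h0 : 0 < r0 := by linarith
  have c1 : CP fun x => max (pd j f x) 0 :=
    ⟨(hf.pd j).cont.max continuous_const, fun i x => by simp only [(hf.pd j).per i x]⟩
  have n1 : ∀ x, 0 ≤ max (pd j f x) 0 := fun x => le_max_right _ _
  exact ⟨Av j fun x => max (pd j f x) 0, c1.av j, ind_Av j _, fun x => Av_nonneg n1 j x,
    osc_le_av hf c1 n1 fun x => le_max_left _ _,
    int_rpow_le (c1.av j) (fun x => Av_nonneg n1 j x) h0 hr h⟩

/-- The two conditions bound the mixed norm of the oscillation. -/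
theorem mixav_line {f : V → ℝ} (hf : SP f) {j : Fin 3} {a r : ℝ≥0∞} {a0 r0 k : ℝ}
    (h2a : 2 < a0) (h2r : 2 < r0) (ha : ENNReal.ofReal a0 ≤ a) (hr : ENNReal.ofReal r0 ≤ r)
    (h : (∃ c : V → ℝ, Measurable c ∧ (∀ x σ, c (update x j σ) = c x) ∧
        mixNorm j a r (fun x => f x - c x) ≤ ENNReal.ofReal k) ∨
      eLpNorm (fun x => ∫ σ in Icc (0 : ℝ) 1, max (pd j f (update x j σ)) 0) r
        ((volume : Measure V).restrict cube) ≤ ENNReal.ofReal k) :
    mixNorm j (ENNReal.ofReal a0) (ENNReal.ofReal r0) (fun x => f x - Av j f x)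
      ≤ ENNReal.ofReal (2 * |k|) := by
  have hkk : ENNReal.ofReal k ≤ ENNReal.ofReal |k| := ENNReal.ofReal_le_ofReal (le_abs_self k)
  have ha0 : 0 < a0 := by linarith
  have hr0 : 0 < r0 := by linarith
  rcases h with ⟨c, mc, hi, h⟩ | h
  · have h1 := mix_av (cp_of hf) mc hi (a0 := a0) (r0 := r0) (by linarith) (by linarith)
    have h3 := mixNorm_exp (f := fun x => f x - c x) (hf.cont.measurable.sub mc) j hr0 ha hr
    refine h1.trans ?_
    rw [ENNReal.ofReal_mul (by norm_num)]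
    have e2 : ENNReal.ofReal 2 = 2 := by norm_num
    rw [e2]
    gcongr
    exact h3.trans (h.trans hkk)
  · obtain ⟨G, cG, iG, G0, hG, hGc⟩ := maj_line hf j h2r hr h
    have hb := abs_sub_av_le (cp_of hf) iG hG
    have := prob_unit
    have h1 : ∀ σ, sliceNorm j (ENNReal.ofReal r0) (fun x => f x - Av j f x) σ
        ≤ ENNReal.ofReal |k| := by
      intro σ
      rw [sliceNorm_eq j hr0]
      have h2 : ∫⁻ x in cube, ‖f (update x j σ) - Av j f (update x j σ)‖ₑ ^ r0
          ≤ ENNReal.ofReal (|k| ^ r0) := by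
        calc ∫⁻ x in cube, ‖f (update x j σ) - Av j f (update x j σ)‖ₑ ^ r0
            ≤ ∫⁻ x in cube, ENNReal.ofReal (G x ^ r0) := by
              apply lintegral_mono
              intro x
              simp only
              rw [Real.enorm_eq_ofReal_abs, ENNReal.ofReal_rpow_of_nonneg (abs_nonneg _) hr0.le]
              apply ENNReal.ofReal_le_ofReal
              apply Real.rpow_le_rpow (abs_nonneg _) _ hr0.le
              have := hb (update x j σ)
              rwa [iG x σ] at this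
          _ = ENNReal.ofReal (∫ x in cube, G x ^ r0) :=
              (ofReal_integral_eq_lintegral_ofReal (cp_rpow cG hr0.le).int
                (Filter.Eventually.of_forall fun x => Real.rpow_nonneg (G0 x) _)).symm
          _ ≤ _ := ENNReal.ofReal_le_ofReal hGc
      calc _ ≤ ENNReal.ofReal (|k| ^ r0) ^ (1 / r0) := ENNReal.rpow_le_rpow h2 (by positivity)
        _ = ENNReal.ofReal |k| := by
          rw [ENNReal.ofReal_rpow_of_nonneg (by positivity) (by positivity),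
            ← Real.rpow_mul (abs_nonneg k), mul_one_div_cancel hr0.ne', Real.rpow_one]
    rw [mixNorm_eq j ha0]
    calc _ ≤ (∫⁻ σ in Icc (0 : ℝ) 1, ENNReal.ofReal |k| ^ a0) ^ (1 / a0) := by
          refine ENNReal.rpow_le_rpow ?_ (by positivity)
          apply lintegral_mono
          intro σ
          exact ENNReal.rpow_le_rpow (h1 σ) ha0.le
      _ = ENNReal.ofReal |k| := by
          rw [lintegral_const, measure_univ, mul_one, ← ENNReal.rpow_mul,
            mul_one_div_cancel ha0.ne', ENNReal.rpow_one]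
      _ ≤ _ := ENNReal.ofReal_le_ofReal (by linarith [abs_nonneg k])

/-- The criterion in mixed norms, for all the components. -/
theorem final (hSUP : SUP) (hF3 : F3) (hA9 : A9) (hA10 : A10) (hA11 : A11) (h : IsSol ν T u p)
    (hν : 0 < ν) (j : Fin 3) {s : ℝ} {a r : ℝ≥0∞} (ha : 2 < a) {g : ℝ → ℝ}
    (hg : (2 / ENNReal.ofReal s + 1 / a + 2 / r < 1 ∧
        IntegrableOn (fun t => |g t| ^ s) (Ioo 0 T)) ∨
      (2 / ENNReal.ofReal s + 1 / a + 2 / r ≤ 1 ∧ a ≠ ⊤ ∧ r ≠ ⊤ ∧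
        AEMeasurable g (volume.restrict (Ioo 0 T)) ∧
        ∫⁻ lam in Ioi (0 : ℝ), volume {t | t ∈ Ioo 0 T ∧ lam < |g t|} ^ (1 / s) ≠ ⊤))
    (ho : ∀ᵐ t ∂(volume.restrict (Ioo 0 T)),
      (∃ c : V → ℝ, Measurable c ∧ (∀ x σ, c (update x j σ) = c x) ∧
        mixNorm j a r (fun x => u t x j - c x) ≤ ENNReal.ofReal (g t)) ∨
      eLpNorm (fun x => ∫ σ in Icc (0 : ℝ) 1, max (pd j (fun y => u t y j) (update x j σ)) 0) r
        (volume.restrict cube) ≤ ENNReal.ofReal (g t)) :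
    ∃ M, ∀ t ∈ Ico 0 T, ∀ x i, |u t x i| ≤ M := by
  -- the reduction to finite exponents on the critical line
  obtain ⟨a0, r0, h2a, h2r, har, hla, hlr, mg, hLg⟩ : ∃ a0 r0 : ℝ, 2 < a0 ∧ 2 < r0 ∧
      1 / a0 + 2 / r0 < 1 ∧ ENNReal.ofReal a0 ≤ a ∧ ENNReal.ofReal r0 ≤ r ∧
      AEMeasurable (fun t => |g t|) (volume.restrict (Ioo 0 T)) ∧
      Lz (2 / (1 - 1 / a0 - 2 / r0)) (fun t => |g t|) 0 T ≠ ⊤ := by
    rcases hg with ⟨hsr, hg⟩ | ⟨hsr, hat, hrt, mg, hg⟩
    · obtain ⟨a0, r0, h1, h2, h3, h4, h5, h6⟩ := pick6 ha hsr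
      have hc : 0 < 2 / (1 - 1 / a0 - 2 / r0) := div_pos two_pos (by linarith)
      have hs0 : 0 < s := hc.trans h6
      have hm : AEMeasurable (fun t => |g t|) (volume.restrict (Ioo 0 T)) := by
        have h2 := hg.aestronglyMeasurable.aemeasurable.pow_const (1 / s)
        refine h2.congr (Filter.Eventually.of_forall fun t => ?_)
        simp only
        rw [← Real.rpow_mul (abs_nonneg _), mul_one_div, div_self hs0.ne', Real.rpow_one]
      exact ⟨a0, r0, h1, h2, h3, h4, h5, hm, hA10 _ s g T hc h6 hg⟩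
    · obtain ⟨h1, h2, h3, h4⟩ := pick7 ha hat hrt hsr
      have hc : 0 < 2 / (1 - 1 / a.toReal - 2 / r.toReal) := div_pos two_pos (by linarith)
      exact ⟨a.toReal, r.toReal, h1, h2, h3, (ENNReal.ofReal_toReal hat).le,
        (ENNReal.ofReal_toReal hrt).le, measurable_norm.comp_aemeasurable mg,
        Lz_exp hc h4 hg⟩
  have hsw := Pool.Agent.H4LA.IsSol.swap h j
  have hr1 : 0 < r0 := by linarith
  apply back (j := j)
  have k1 : 1 ≤ (2 : ℝ) ^ (1 / r0) := Real.one_le_rpow (by norm_num) (by positivity)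
  refine crit_ae (g := fun t => |g t|) hSUP hF3 hA9 hA11 hsw hν h2a h2r har mg
    (by simpa only [abs_abs] using hLg) (K := 2 ^ (1 / r0) * 2) (by linarith) ?_
  filter_upwards [ho, ae_restrict_mem measurableSet_Ioo] with t ht htI
  have h1 := mixav_line (h.sp ⟨htI.1.le, htI.2⟩ j) h2a h2r hla hlr ht
  have h2 := mix_of (v := u t) (h.sp ⟨htI.1.le, htI.2⟩) (by linarith) hr1 (by positivity) h1
  refine h2.mono (by linarith) (by positivity) ?_
  rw [mul_assoc, abs_abs]
  refine mul_le_mul_of_nonneg_left ?_ (by positivity)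
  linarith

end Pool.Agent.H4NC
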