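import Pool.Agent.H4NC.StmB
import Pool.Agent.H4LA.En3

/-!
Stub KS of project NC: the inequality at a fixed time.
-/

set_option autoImplicit false
set_option linter.unusedVariables false

open MeasureTheory Set Function Filter Topology
open scoped ENNReal ContDiff

namespace Pool.Agent.H4NC.KS

open H459R3.NS H4LA

theorem rpow4 {D s : ℝ} (hD : 0 ≤ D) (hs : s ≤ 1) : (4 * D) ^ s ≤ 4 * D ^ s := by
  rw [Real.mul_rpow (by norm_num) hD]
  refine mul_le_mul_of_nonneg_right ?_ (Real.rpow_nonneg hD s)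
  calc (4 : ℝ) ^ s ≤ 4 ^ (1 : ℝ) := Real.rpow_le_rpow_of_exponent_le (by norm_num) hs
    _ = 4 := Real.rpow_one 4

/-- The sum of the four terms. -/
theorem arith {C5 C6 C7 C8 E R P1 P2 P3 P4 P5 Dr Dr4 Dq Dq4 Dh Jw Jwq Jv J Jq sD sX sJ es hs sY Z Zy D
    F1 F2 F3 F4 : ℝ}
    (h5 : 0 ≤ C5) (h6 : 0 ≤ C6) (h7 : 0 ≤ C7) (h8 : 0 ≤ C8) (hE : 0 ≤ E) (hR : 0 ≤ R)
    (p1 : 0 ≤ P1) (p2 : 0 ≤ P2) (p3 : 0 ≤ P3) (p4 : 0 ≤ P4) (p5 : 0 ≤ P5)
    (d1 : 0 ≤ Dr) (d2 : 0 ≤ Dq) (d3 : 0 ≤ Dh) (d4 : Dr4 ≤ 4 * Dr) (d5 : Dq4 ≤ 4 * Dq)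
    (j1 : 0 ≤ Jw) (j2 : Jw ≤ J) (j3 : 0 ≤ Jwq) (j4 : Jwq ≤ Jq) (j6 : Jv ≤ J)
    (hsD : 0 ≤ sD) (hsX : sX ≤ sJ) (hsX0 : 0 ≤ sX) (hes : P1 * es ≤ P3 * (E * D)) (hD : 1 ≤ D)
    (hh : hs ≤ sY) (hh0 : 0 ≤ hs) (hZ : Z ≤ Zy) (hZ0 : 0 ≤ Z)
    (f1 : F1 ≤ C6 * (P1 * (Dr4 * Jw)))
    (f2 : F2 ≤ C7 * (R * (P4 * (Dq4 * Jwq))))
    (f3 : F3 ≤ C5 * (P1 * es + P2 * (sD * sX) + P3 * D))
    (f4 : F4 ≤ C8 * (P5 * (Dh * (Jv * hs)) + P5 * (Dh * Z))) :
    F1 + F2 + 2 * F3 + 2 * F4 ≤ (4 * C6 + 4 * (C7 * R) + 2 * (C5 * (1 + E)) + 2 * C8)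
      * (P1 * (Dr * J) + P2 * (sD * sJ) + P3 * D + P4 * (Dq * Jq) + P5 * (Dh * (J * sY))
        + P5 * (Dh * Zy)) := by
  have J0 : 0 ≤ J := j1.trans j2
  have Jq0 : 0 ≤ Jq := j3.trans j4
  have sJ0 : 0 ≤ sJ := hsX0.trans hsX
  have sY0 : 0 ≤ sY := hh0.trans hh
  have Zy0 : 0 ≤ Zy := hZ0.trans hZ
  have D0 : 0 ≤ D := by linarith
  set T1 := P1 * (Dr * J) with hT1
  set T2 := P2 * (sD * sJ) with hT2
  set T3 := P3 * D with hT3
  set T4 := P4 * (Dq * Jq) with hT4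
  set T5 := P5 * (Dh * (J * sY)) with hT5
  set T6 := P5 * (Dh * Zy) with hT6
  have t1 : 0 ≤ T1 := by positivity
  have t2 : 0 ≤ T2 := by positivity
  have t3 : 0 ≤ T3 := by positivity
  have t4 : 0 ≤ T4 := by positivity
  have t5 : 0 ≤ T5 := by positivity
  have t6 : 0 ≤ T6 := by positivity
  have g1 : F1 ≤ 4 * C6 * T1 := by
    have a1 : Dr4 * Jw ≤ 4 * Dr * J :=
      mul_le_mul d4 j2 j1 (by positivity)
    have a2 := mul_le_mul_of_nonneg_left (mul_le_mul_of_nonneg_left a1 p1) h6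
    calc F1 ≤ _ := f1
      _ ≤ C6 * (P1 * (4 * Dr * J)) := a2
      _ = 4 * C6 * T1 := by rw [hT1]; ring
  have g2 : F2 ≤ 4 * (C7 * R) * T4 := by
    have a1 : Dq4 * Jwq ≤ 4 * Dq * Jq :=
      mul_le_mul d5 j4 j3 (by positivity)
    have a2 := mul_le_mul_of_nonneg_left (mul_le_mul_of_nonneg_left
      (mul_le_mul_of_nonneg_left a1 p4) hR) h7
    calc F2 ≤ _ := f2
      _ ≤ C7 * (R * (P4 * (4 * Dq * Jq))) := a2
      _ = 4 * (C7 * R) * T4 := by rw [hT4]; ring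
  have g3 : F3 ≤ C5 * (1 + E) * (T2 + T3) := by
    have a1 : P2 * (sD * sX) ≤ T2 :=
      mul_le_mul_of_nonneg_left (mul_le_mul_of_nonneg_left hsX hsD) p2
    have a2 : P1 * es + P2 * (sD * sX) + P3 * D ≤ (1 + E) * (T2 + T3) := by
      have : P3 * (E * D) = E * T3 := by rw [hT3]; ring
      have b : 0 ≤ E * T2 := mul_nonneg hE t2
      have : (1 + E) * (T2 + T3) = T2 + T3 + E * T2 + E * T3 := by ring
      rw [this]
      linarith
    calc F3 ≤ _ := f3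
      _ ≤ C5 * ((1 + E) * (T2 + T3)) := mul_le_mul_of_nonneg_left a2 h5
      _ = _ := by ring
  have g4 : F4 ≤ C8 * (T5 + T6) := by
    refine f4.trans (mul_le_mul_of_nonneg_left ?_ h8)
    refine add_le_add ?_ ?_
    · exact mul_le_mul_of_nonneg_left (mul_le_mul_of_nonneg_left
        (mul_le_mul j6 hh hh0 J0) d3) p5
    · exact mul_le_mul_of_nonneg_left (mul_le_mul_of_nonneg_left hZ d3) p5
  have q1 : 0 ≤ 4 * C6 := by positivity
  have q2 : 0 ≤ 4 * (C7 * R) := by positivity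
  have q3 : 0 ≤ 2 * (C5 * (1 + E)) := by positivity
  have q4 : 0 ≤ 2 * C8 := by positivity
  set S := T1 + T2 + T3 + T4 + T5 + T6 with hS
  have m1 : 4 * C6 * T1 ≤ 4 * C6 * S := mul_le_mul_of_nonneg_left (by linarith) q1
  have m2 : 4 * (C7 * R) * T4 ≤ 4 * (C7 * R) * S := mul_le_mul_of_nonneg_left (by linarith) q2
  have m3 : 2 * (C5 * (1 + E)) * (T2 + T3) ≤ 2 * (C5 * (1 + E)) * S :=
    mul_le_mul_of_nonneg_left (by linarith) q3
  have m4 : 2 * C8 * (T5 + T6) ≤ 2 * C8 * S := mul_le_mul_of_nonneg_left (by linarith) q4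
  have e : (4 * C6 + 4 * (C7 * R) + 2 * (C5 * (1 + E)) + 2 * C8) * S
    = 4 * C6 * S + 4 * (C7 * R) * S + 2 * (C5 * (1 + E)) * S + 2 * C8 * S := by ring
  rw [e]
  linarith

/-- The last step. -/
theorem fin_arith {ν C0 C12 E D Xh Xu Yh Yu J y es Θ K L1 F : ℝ} (hν : 0 < ν) (hC0 : 0 ≤ C0)
    (hC12 : 0 ≤ C12) (hE : 0 ≤ E) (hD : 1 ≤ D) (hXh : 0 ≤ Xh) (hy : 0 ≤ y) (hes : es ≤ E)
    (hΘ : 1 ≤ Θ)
    (hXu : Xu ≤ 4 * D * C0) (hYu : Yu ≤ D * C0) (hYh : Yh ≤ 2 * Xh + 4 * y * C0)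
    (hJ : J = (Xu + Xh) + (Yu + Yh)) (hF : F ≤ K)
    (hK : K ≤ ν / 3 * J + C12 * (1 + es + y + D * Θ))
    (hL : L1 ≤ -(2 * ν) * Xh + Real.pi ^ 2 * ν * Xu + F) :
    L1 ≤ (Real.pi ^ 2 * ν * (4 * C0) + 3 * ν * C0 + C12 * (1 + E)) * (1 + y)
      + (Real.pi ^ 2 * ν * (4 * C0) + 3 * ν * C0 + C12 * (1 + E)) * (D * Θ) := by
  have hpi : 0 ≤ Real.pi ^ 2 * ν := by positivity
  have a1 : Real.pi ^ 2 * ν * Xu ≤ Real.pi ^ 2 * ν * (4 * D * C0) :=
    mul_le_mul_of_nonneg_left hXu hpi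
  have a2 : J ≤ 5 * D * C0 + 3 * Xh + 4 * y * C0 := by
    rw [hJ]
    linarith
  have a3 : ν / 3 * J ≤ ν / 3 * (5 * D * C0 + 3 * Xh + 4 * y * C0) :=
    mul_le_mul_of_nonneg_left a2 (by positivity)
  have a4 : C12 * (1 + es + y + D * Θ) ≤ C12 * (1 + E + y + D * Θ) :=
    mul_le_mul_of_nonneg_left (by linarith) hC12
  have a5 : 0 ≤ ν * Xh := by positivity
  have hDΘ : D ≤ D * Θ := le_mul_of_one_le_right (by linarith) hΘ
  have hD0 : 0 ≤ D := by linarith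
  have a6 : Real.pi ^ 2 * ν * (4 * D * C0) ≤ Real.pi ^ 2 * ν * (4 * C0) * (D * Θ) := by
    have := mul_le_mul_of_nonneg_left hDΘ (by positivity : 0 ≤ Real.pi ^ 2 * ν * (4 * C0))
    linarith
  have a7 : ν * C0 * D ≤ ν * C0 * (D * Θ) := mul_le_mul_of_nonneg_left hDΘ (by positivity)
  have a8 : 0 ≤ ν * C0 * D := by positivity
  have a9 : 0 ≤ ν * C0 * y := by positivity
  have a10 : 0 ≤ Real.pi ^ 2 * ν * (4 * C0) * (1 + y) := by positivity
  have a11 : 0 ≤ ν * C0 := by positivity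
  have a12 : 0 ≤ C12 * E * y := by positivity
  have a13 : 0 ≤ C12 * E * (D * Θ) := by positivity
  nlinarith

theorem int_cube_const (c : ℝ) : ∫ x in (cube : Set V), c = c := by
  rw [setIntegral_const, Measure.real, volume_cube]
  simp

theorem t (h12 : A12) (h0 : B0) (h5 : B5) (h6 : B6) (h8 : B8) (h9 : B9) : Pool.Agent.H4NC.KS := by
  intro ν a r q E Q hν ha hr har hq hE hQ
  have hq2 : 0 < q - 2 := by linarith
  have hq1 : 0 < q - 1 := by linarith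
  have hq0 : 0 < q := by linarith
  have hr0 : 0 < r := by linarith
  have ha0 : 0 < a := by linarith
  set a' : ℝ := 2 + q / (q - 2) with ha'def
  have hqq : 0 < q / (q - 2) := by positivity
  have ha' : 2 < a' := by linarith
  have ha'0 : 0 < a' := by linarith
  have ha'2 : q / (q - 2) < a' := by linarith
  obtain ⟨κ0, hκ0d⟩ : ∃ κ0 : ℝ, κ0 = 4 * Real.pi ^ 2 * ν := ⟨_, rfl⟩
  have hκ0 : 0 < κ0 := by rw [hκ0d]; positivity
  obtain ⟨C0, hC00, hC0⟩ := h0 κ0 hκ0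
  obtain ⟨C5, hC50, hC5⟩ := h5 κ0 a r hκ0 ha hr
  obtain ⟨C6, hC60, hC6⟩ := h6 κ0 a r hκ0 ha hr
  obtain ⟨C7, hC70, hC7⟩ := h6 κ0 a' q hκ0 ha' hq
  obtain ⟨C8, hC80, hC8⟩ := h8 κ0 a r hκ0 ha hr
  set R : ℝ := (1 + Q) ^ (1 / q) with hR
  have hR0 : 0 ≤ R := Real.rpow_nonneg (by linarith) _
  set K : ℝ := 4 * C6 + 4 * (C7 * R) + 2 * (C5 * (1 + E)) + 2 * C8 with hK
  have hK0 : 0 ≤ K := by positivity
  obtain ⟨C12, hC120, hC12⟩ := h12 a r q a' (ν / 3) K ha hr har hq ha' (by positivity) hK0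
  refine ⟨Real.pi ^ 2 * ν * (4 * C0) + 3 * ν * C0 + C12 * (1 + E),
    q / (q - 1) * (1 / 2 + 1 / (2 * a')), by positivity, by positivity, ?_, ?_⟩
  · -- the exponent
    have h1 : 1 / (2 * a') < (q - 2) / (2 * q) := by
      rw [div_lt_div_iff₀ (by positivity) (by positivity)]
      rw [div_lt_iff₀ hq2] at ha'2
      linarith
    have h2 : 1 / 2 + 1 / (2 * a') < (q - 1) / q := by
      have e : (q - 1) / q = 1 / 2 + (q - 2) / (2 * q) := by field_simp; ring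
      rw [e]
      linarith
    calc q / (q - 1) * (1 / 2 + 1 / (2 * a')) < q / (q - 1) * ((q - 1) / q) :=
          mul_lt_mul_of_pos_left h2 (by positivity)
      _ = 1 := by field_simp
  intro κ hκ τ z M D hτ hτ1 hM hD v p F hv hdiv hp hl hF hesE hNR hUD hmm
  rw [← hκ0d] at hκ
  subst hκ
  have hD0 : 0 ≤ D := by linarith
  -- subtraction of the mean
  set c : ℝ := ∫ x in cube, p x with hc
  set p' : V → ℝ := fun x => p x - c with hp'
  have sp' : SP p' := hp.sub (SP.constf c)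
  have dp' : ∀ i, pd i p' = pd i p := by
    intro i
    funext x
    rw [hp', pd_subf hp (SP.constf c)]
    have : pd i (fun _ : V => c) x = 0 := by
      unfold pd
      simp
    rw [this, sub_zero]
  have lp' : ∀ x, -lap p' x = ∑ i, pd i (conv v i) x := by
    intro x
    rw [← hl x]
    unfold lap
    simp_rw [dp']
  have hfin := cube_finite
  have zp' : ∫ x in cube, p' x = 0 := by
    rw [hp', integral_sub hp.int (integrable_const c), int_cube_const]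
    linarith
  have hF' : ∀ i x, F i x = ν * lap (v i) x - conv v i x - pd i p' x := by
    intro i x
    rw [hF, dp']
  have hw := ww_sp hv
  -- the functions
  obtain ⟨sW, iW, W0, -, -, hWC⟩ := hC0 τ z hτ hτ1
  have cW := cp_of sW
  set W : V → ℝ := Wt κ τ z with hWd
  have cU : CP (Hz (vsq v)) := (cp_of (vsq_sp hv)).hz
  have cH : CP (Hz (ga v)) := (cp_of (ga_sp hv)).hz
  have cUw : CP (Hz (vsq (ww v))) := (cp_of (vsq_sp hw)).hz
  have cHw : CP (Hz (ga (ww v))) := (cp_of (ga_sp hw)).hz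
  have U0 : ∀ x, 0 ≤ Hz (vsq v) x := Hz_nonneg (vsq_nonneg v)
  have H0 : ∀ x, 0 ≤ Hz (ga v) x := Hz_nonneg ga_nonneg
  have Uw0 : ∀ x, 0 ≤ Hz (vsq (ww v)) x := Hz_nonneg (vsq_nonneg _)
  have Hw0 : ∀ x, 0 ≤ Hz (ga (ww v)) x := Hz_nonneg ga_nonneg
  have hes0 := esq_nonneg v
  have hy0 : 0 ≤ ysq v := ysq_nonneg v
  have hη0 : 0 ≤ hsq v := hsq_nonneg v
  have hηy : hsq v ≤ ysq v := hsq_le_ysq v
  have eE : ∫ x in cube, Hz (vsq v) x = esq v := by
    rw [int_Hz (cp_of (vsq_sp hv))]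
    unfold vsq esq
    rw [integral_finsetSum _ fun i _ => (SP.sqr (hv i)).int]
  have hesD : esq v ≤ D := by
    rw [← eE]
    calc ∫ x in cube, Hz (vsq v) x ≤ ∫ x in (cube : Set V), D :=
          integral_mono cU.int (integrable_const D) hUD
      _ = D := int_cube_const D
  have hUw4 : ∀ x, Hz (vsq (ww v)) x ≤ 4 * D := by
    intro x
    have := Hz_ww_le hv x
    have := hUD x
    linarith
  -- the integrals with the kernel
  set Xu : ℝ := ∫ x in cube, W x * Hz (vsq (ww v)) x with hXu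
  set Xh : ℝ := ∫ x in cube, W x * Hz (ga (ww v)) x with hXh
  set Yu : ℝ := ∫ x in cube, W x * Hz (vsq v) x with hYu
  set Yh : ℝ := ∫ x in cube, W x * Hz (ga v) x with hYh
  have Xu0 : 0 ≤ Xu := integral_nonneg fun x => mul_nonneg (W0 x).le (Uw0 x)
  have Xh0 : 0 ≤ Xh := integral_nonneg fun x => mul_nonneg (W0 x).le (Hw0 x)
  have Yu0 : 0 ≤ Yu := integral_nonneg fun x => mul_nonneg (W0 x).le (U0 x)
  have Yh0 : 0 ≤ Yh := integral_nonneg fun x => mul_nonneg (W0 x).le (H0 x)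
  have eXw : ∫ x in cube, W x * (Hz (vsq (ww v)) x + Hz (ga (ww v)) x) = Xu + Xh := by
    have : ∀ x, W x * (Hz (vsq (ww v)) x + Hz (ga (ww v)) x)
        = W x * Hz (vsq (ww v)) x + W x * Hz (ga (ww v)) x := fun x => by ring
    simp_rw [this]
    rw [integral_add (cW.mul cUw).int (cW.mul cHw).int]
  have eXv : ∫ x in cube, W x * (Hz (vsq v) x + Hz (ga v) x) = Yu + Yh := by
    have : ∀ x, W x * (Hz (vsq v) x + Hz (ga v) x)
        = W x * Hz (vsq v) x + W x * Hz (ga v) x := fun x => by ring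
    simp_rw [this]
    rw [integral_add (cW.mul cU).int (cW.mul cH).int]
  have hXuB : Xu ≤ 4 * D * C0 := by
    calc Xu ≤ ∫ x in cube, 4 * D * W x := by
          refine integral_mono (cW.mul cUw).int (cW.cmul _).int fun x => ?_
          have := mul_le_mul_of_nonneg_left (hUw4 x) (W0 x).le
          simp only
          linarith
      _ = 4 * D * ∫ x in cube, W x := integral_const_mul _ _
      _ ≤ 4 * D * C0 := mul_le_mul_of_nonneg_left hWC (by positivity)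
  have hYuB : Yu ≤ D * C0 := by
    calc Yu ≤ ∫ x in cube, D * W x := by
          refine integral_mono (cW.mul cU).int (cW.cmul _).int fun x => ?_
          have := mul_le_mul_of_nonneg_left (hUD x) (W0 x).le
          simp only
          linarith
      _ = D * ∫ x in cube, W x := integral_const_mul _ _
      _ ≤ D * C0 := mul_le_mul_of_nonneg_left hWC (by positivity)
  have hYhB : Yh ≤ 2 * Xh + 4 * ysq v * C0 := by
    have h1 : Yh ≤ ∫ x in cube, (2 * (W x * Hz (ga (ww v)) x) + 4 * ysq v * W x) := by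
      refine integral_mono (cW.mul cH).int (((cW.mul cHw).cmul 2).add (cW.cmul _)).int
        fun x => ?_
      have := mul_le_mul_of_nonneg_left (Hz_ga_le hv x) (W0 x).le
      simp only
      linarith
    rw [integral_add ((cW.mul cHw).cmul 2).int (cW.cmul _).int, integral_const_mul,
      integral_const_mul] at h1
    have h2 := mul_le_mul_of_nonneg_left hWC (by positivity : 0 ≤ 4 * ysq v)
    linarith
  -- the terms
  set J : ℝ := (Xu + Xh) + (Yu + Yh) with hJ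
  have J0 : 0 ≤ J := by positivity
  have cG : CP (Gb v) := Gb_cp hv
  have G0 : ∀ x, 0 ≤ Gb v x := Gb_nonneg v
  have cm : CP (fun x => |mm v x|) := (cp_of (mm_sp hv)).abs
  have m0 : ∀ x, 0 ≤ |mm v x| := fun x => abs_nonneg _
  have im : Ind 2 (fun x => |mm v x|) := fun x s => by simp only [ind2_mm v x s]
  have hmq : 1 + ∫ x in cube, |mm v x| ^ q ≤ 1 + Q := by
    refine add_le_add le_rfl (le_trans ?_ hmm)
    have c1 : CP (fun x => |mm v x| ^ q) := cprp cm hq0.le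
    have c2 : CP (fun x => (1 + mm v x ^ 2) ^ (q / 2)) :=
      cprp ((CP.const 1).add ((cp_of (mm_sp hv)).pow 2)) (by positivity)
    refine integral_mono c1.int c2.int fun x => ?_
    simp only
    have e1 : |mm v x| ^ q = (mm v x ^ 2) ^ (q / 2) := by
      rw [← sq_abs, ← Real.rpow_natCast |mm v x| 2, ← Real.rpow_mul (abs_nonneg _)]
      congr 1
      push_cast
      ring
    rw [e1]
    exact Real.rpow_le_rpow (sq_nonneg _) (by linarith) (by positivity)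
  have b9 := h9 ν hν κ hκ0d τ z hτ hτ1 v p' F hv hdiv sp' hF'
  have b5 := hC5 τ z M D hτ hτ1 hM hD0 (Gb v) cG G0 hNR v p' hv hdiv sp' lp' zp' hUD
  have b6 := (hC6 τ z M (4 * D) hτ hτ1 hM (by positivity) (Gb v) cG G0 (ww v) hw hUw4).1 hNR
  have b7 := (hC7 τ z M (4 * D) hτ hτ1 hM (by positivity) (fun x => |mm v x|) cm m0 (ww v) hw
    hUw4).2 im (1 + Q) hmq
  have b8 := hC8 τ z M D hτ hτ1 hM hD0 (Gb v) cG G0 hNR v hv hUD
  rw [← hWd] at b5 b6 b7 b8 b9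
  rw [eXw] at b6 b7
  rw [eXv] at b8
  have b12 := hC12 M τ D J (1 + esq v + ysq v) hM hτ hτ1 hD J0 (by positivity)
  set Θ : ℝ := 1 + τ ^ (-(q / (q - 1) * (1 / 2 + 1 / (2 * a'))))
      + M * τ ^ ((1 - 1 / a - 2 / r) / 2 - 1)
      + M ^ (2 * r / (r - 2)) * τ ^ (2 * r / (r - 2) * ((1 - 1 / a - 2 / r) / 2) - 1) with hΘ
  have hM0 : 0 < M := by linarith
  have hΘ1 : 1 ≤ Θ := by
    have t1 : 0 ≤ τ ^ (-(q / (q - 1) * (1 / 2 + 1 / (2 * a')))) := Real.rpow_nonneg hτ.le _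
    have t2 : 0 ≤ M * τ ^ ((1 - 1 / a - 2 / r) / 2 - 1) :=
      mul_nonneg hM0.le (Real.rpow_nonneg hτ.le _)
    have t3 : 0 ≤ M ^ (2 * r / (r - 2)) * τ ^ (2 * r / (r - 2) * ((1 - 1 / a - 2 / r) / 2) - 1) :=
      mul_nonneg (Real.rpow_nonneg hM0.le _) (Real.rpow_nonneg hτ.le _)
    rw [hΘ]
    linarith
  have ir : 1 / r < 1 / 2 := one_div_lt_one_div_of_lt (by norm_num) hr
  have ir0 : 0 < 1 / r := by positivity
  have iq : 1 / q < 1 / 2 := one_div_lt_one_div_of_lt (by norm_num) hq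
  have iq0 : 0 < 1 / q := by positivity
  have key := arith (C5 := C5) (C6 := C6) (C7 := C7) (C8 := C8) (E := E) (R := R)
    (P1 := M * τ ^ (-(1 / 2 + 1 / (2 * a)))) (P2 := M * τ ^ (-(1 / (2 * a) + 1 / r)))
    (P3 := M * τ ^ (-(1 / 2 + 1 / (2 * a) + 1 / r))) (P4 := τ ^ (-(1 / 2 + 1 / (2 * a'))))
    (P5 := M * τ ^ (-(1 / (2 * a))))
    (Dr := D ^ (1 - 1 / r)) (Dr4 := (4 * D) ^ (1 - 1 / r)) (Dq := D ^ (1 - 1 / q))
    (Dq4 := (4 * D) ^ (1 - 1 / q)) (Dh := D ^ (1 / 2 - 1 / r)) (Jw := (Xu + Xh) ^ (1 / r))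
    (Jwq := (Xu + Xh) ^ (1 / q)) (Jv := (Yu + Yh) ^ (1 / r)) (J := J ^ (1 / r))
    (Jq := J ^ (1 / q)) (sD := √D) (sX := √Yh) (sJ := √J) (es := esq v) (hs := √(hsq v))
    (sY := √(1 + esq v + ysq v)) (Z := (esq v + ysq v) ^ (1 / 2 + 1 / r))
    (Zy := (1 + esq v + ysq v) ^ (1 / 2 + 1 / r)) (D := D)
    hC50 hC60 hC70 hC80 hE hR0 (by positivity) (by positivity) (by positivity) (by positivity)
    (by positivity) (by positivity) (by positivity) (by positivity)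
    (rpow4 hD0 (by linarith)) (rpow4 hD0 (by linarith)) (by positivity)
    (Real.rpow_le_rpow (by positivity) (by rw [hJ]; linarith) (by positivity)) (by positivity)
    (Real.rpow_le_rpow (by positivity) (by rw [hJ]; linarith) (by positivity))
    (Real.rpow_le_rpow (by positivity) (by rw [hJ]; linarith) (by positivity))
    (by positivity) (Real.sqrt_le_sqrt (by rw [hJ]; linarith)) (by positivity)
    (by
      have l1 : τ ^ (-(1 / 2 + 1 / (2 * a))) ≤ τ ^ (-(1 / 2 + 1 / (2 * a) + 1 / r)) :=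
        Real.rpow_le_rpow_of_exponent_ge hτ hτ1 (by linarith)
      have l2 : esq v ≤ E * D := hesE.trans (le_mul_of_one_le_right hE hD)
      exact mul_le_mul (mul_le_mul_of_nonneg_left l1 hM0.le) l2 hes0 (by positivity))
    hD (Real.sqrt_le_sqrt (by linarith)) (by positivity)
    (Real.rpow_le_rpow (by positivity) (by linarith) (by positivity)) (by positivity)
    b6 b7 b5 b8
  have hK' := key.trans b12
  refine fin_arith (Xh := Xh) (Xu := Xu) (Yh := Yh) (Yu := Yu) (J := J) (es := esq v) hν hC00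
    hC120 hE hD Xh0 hy0 hesE hΘ1 hXuB hYuB hYhB hJ le_rfl hK' ?_
  linarith

end Pool.Agent.H4NC.KS
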