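import Pool.Agent.H4NC.StmB

/-!
# LB: the kernel concentrates (project NC of helper4)
-/

set_option autoImplicit false

open MeasureTheory Set Function Filter Topology
open scoped ENNReal ContDiff

namespace Pool.Agent.H4NC.LB

open H459R3.NS H4LA

theorem wk_cont (κ τ : ℝ) : Continuous (wk κ τ) := by
  unfold wk
  fun_prop

theorem wk_per (κ τ y : ℝ) : wk κ τ (y + 1) = wk κ τ y := by
  unfold wk
  rw [show Real.pi * (y + 1) = Real.pi * y + Real.pi by ring, Real.sin_add_pi, neg_sq]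

theorem wk_pos (κ τ y : ℝ) (hτ : 0 < τ) : 0 < wk κ τ y := by
  unfold wk
  positivity

theorem wk_lower (κ τ y : ℝ) (hκ : 0 < κ) (hτ : 0 < τ) (hy : |y| ≤ √τ) :
    (√τ)⁻¹ * Real.exp (-(Real.pi ^ 2 / κ)) ≤ wk κ τ y := by
  unfold wk
  have h1 : τ ^ (-(1 / 2) : ℝ) = (√τ)⁻¹ := by
    rw [Real.rpow_neg hτ.le, Real.sqrt_eq_rpow]
  rw [h1]
  apply mul_le_mul_of_nonneg_left _ (inv_nonneg.mpr (Real.sqrt_nonneg τ))
  apply Real.exp_le_exp.mpr
  apply neg_le_neg
  rw [div_le_div_iff₀ (by positivity) hκ]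
  have h2 : Real.sin (Real.pi * y) ^ 2 ≤ Real.pi ^ 2 * τ := by
    have h3 : |Real.sin (Real.pi * y)| ≤ Real.pi * √τ := by
      refine Real.abs_sin_le_abs.trans ?_
      rw [abs_mul, abs_of_pos Real.pi_pos]
      exact mul_le_mul_of_nonneg_left hy Real.pi_pos.le
    calc Real.sin (Real.pi * y) ^ 2 = |Real.sin (Real.pi * y)| ^ 2 := (sq_abs _).symm
      _ ≤ (Real.pi * √τ) ^ 2 := pow_le_pow_left₀ (abs_nonneg _) h3 2
      _ = Real.pi ^ 2 * τ := by rw [mul_pow, Real.sq_sqrt hτ.le]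
  calc Real.sin (Real.pi * y) ^ 2 * κ ≤ (Real.pi ^ 2 * τ) * κ := mul_le_mul_of_nonneg_right h2 hκ.le
    _ = Real.pi ^ 2 * (κ * τ) := by ring

/-- the kernel as a function on the space -/
theorem cp_wk (κ τ z : ℝ) : CP (fun x : V => wk κ τ (x 2 - z)) where
  cont := (wk_cont κ τ).comp ((continuous_apply 2).sub continuous_const)
  per := by
    intro i x
    by_cases hi : i = 2
    · subst hi
      have h1 : (x + Pi.single 2 1 : V) 2 - z = (x 2 - z) + 1 := by
        simp only [Pi.add_apply, Pi.single_eq_same]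
        ring
      simp only [h1, wk_per]
    · have h1 : (x + Pi.single i 1 : V) 2 = x 2 := by
        simp only [Pi.add_apply, Pi.single_eq_of_ne (Ne.symm hi), add_zero]
      simp only [h1]

theorem i01_wk (κ τ z : ℝ) : I01 (fun x : V => wk κ τ (x 2 - z)) := by
  constructor
  · intro x s
    have h1 : update x 0 s 2 = x 2 := update_of_ne (by decide) _ _
    simp only [h1]
  · intro x s
    have h1 : update x 1 s 2 = x 2 := update_of_ne (by decide) _ _
    simp only [h1]

theorem int_eq (κ τ z : ℝ) {f : V → ℝ} (hf : CP f) (x0 : V) :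
    ∫ x in cube, wk κ τ (x 2 - z) * f x =
      ∫ s in (0 : ℝ)..1, wk κ τ (s - z) * Hz f (update x0 2 s) := by
  have cG := cp_wk κ τ z
  have iG := i01_wk κ τ z
  have h1 := int_mul_Hz hf cG iG
  rw [← h1]
  set H : V → ℝ := fun x => wk κ τ (x 2 - z) * Hz f x with hH
  have cH : CP H := cG.mul hf.hz
  have iH : I01 H := by
    constructor
    · intro x s
      have e1 := iG.1 x s
      have e2 := (i01_hz f).1 x s
      simp only at e1
      simp only [hH, e1, e2]
    · intro x s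
      have e1 := iG.2 x s
      have e2 := (i01_hz f).2 x s
      simp only at e1
      simp only [hH, e1, e2]
  have iA : I01 (Av 2 H) := ⟨iH.1.av (by decide), iH.2.av (by decide)⟩
  have h2 : ∫ x in cube, H x = Av 2 H x0 := by
    rw [← int_Av cH 2, ← Hz_ind2 (cH.av 2) (ind_Av 2 H) x0, Hz_of_ind iA]
  rw [h2, Av_eq]
  refine intervalIntegral.integral_congr fun s _ => ?_
  simp only [hH, update_self]

theorem t : LB := by
  intro κ hκ
  refine ⟨Real.exp (Real.pi ^ 2 / κ), (Real.exp_pos _).le, ?_⟩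
  intro f hf f0 δ0 B hδ0 hB x0
  set φ : ℝ → ℝ := fun s => Hz f (update x0 2 s) with hφ
  have hφc : Continuous φ := hf.hz.cont.comp (cont_update x0 2)
  have hφ0 : ∀ s, 0 ≤ φ s := fun s => Hz_nonneg f0 _
  have hφp : Function.Periodic φ 1 := by
    intro s
    have h1 : update x0 2 (s + 1) = update x0 2 s + Pi.single 2 1 := by
      funext k
      by_cases hk : k = 2
      · subst hk
        simp
      · simp [hk]
    simp only [hφ, h1]
    exact hf.hz.per 2 _
  set z : ℝ := x0 2 with hz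
  have hφz : φ z = Hz f x0 := by
    simp only [hφ, hz, update_eq_self]
  rw [← hφz]
  apply le_of_forall_pos_le_add
  intro ε hε
  -- continuity
  obtain ⟨η, hη, hη2⟩ := Metric.continuousAt_iff.mp (hφc.continuousAt (x := z)) ε hε
  set w : ℝ := min (min (1 / 2) (η / 2)) (√(δ0 / 2)) with hw
  have hw0 : 0 < w := by
    rw [hw]
    refine lt_min (lt_min (by norm_num) (by linarith)) (Real.sqrt_pos.mpr (by linarith))
  have hw1 : w ≤ 1 / 2 := (min_le_left _ _).trans (min_le_left _ _)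
  have hw2 : w < η := by
    have : w ≤ η / 2 := (min_le_left _ _).trans (min_le_right _ _)
    linarith
  have hw3 : w ^ 2 < δ0 := by
    have h1 : w ≤ √(δ0 / 2) := min_le_right _ _
    have h2 : w ^ 2 ≤ √(δ0 / 2) ^ 2 := pow_le_pow_left₀ hw0.le h1 2
    rw [Real.sq_sqrt (by linarith)] at h2
    linarith
  have hsq : √(w ^ 2) = w := Real.sqrt_sq hw0.le
  have h1 := hB z (w ^ 2) (by positivity) hw3
  rw [int_eq κ (w ^ 2) z hf x0] at h1
  -- the integral over a period around `z`
  set g : ℝ → ℝ := fun s => wk κ (w ^ 2) (s - z) * φ s with hg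
  have hgc : Continuous g := ((wk_cont κ (w ^ 2)).comp (continuous_id.sub continuous_const)).mul hφc
  have hgp : Function.Periodic g 1 := by
    intro s
    have e1 : s + 1 - z = (s - z) + 1 := by ring
    simp only [hg, e1, wk_per]
    rw [hφp s]
  have hg0 : ∀ s, 0 ≤ g s := fun s => mul_nonneg (wk_pos κ _ _ (by positivity)).le (hφ0 s)
  have h2 : ∫ s in (0 : ℝ)..1, g s = ∫ s in (z - 1 / 2)..(z - 1 / 2 + 1), g s := by
    have := hgp.intervalIntegral_add_eq 0 (z - 1 / 2)
    rw [zero_add] at this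
    exact this
  have h3 : ∫ s in (z - w)..(z + w), g s ≤ ∫ s in (z - 1 / 2)..(z - 1 / 2 + 1), g s := by
    apply intervalIntegral.integral_mono_interval (by linarith) (by linarith) (by linarith)
    · exact Filter.Eventually.of_forall hg0
    · exact hgc.intervalIntegrable _ _
  have h4 : ∫ s in (z - w)..(z + w), w⁻¹ * Real.exp (-(Real.pi ^ 2 / κ)) * (φ z - ε) ≤
      ∫ s in (z - w)..(z + w), g s := by
    apply intervalIntegral.integral_mono_on (by linarith) (by simp) (hgc.intervalIntegrable _ _)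
    intro s hs
    have h5 : |s - z| ≤ w := by
      rw [abs_le]
      constructor <;> linarith [hs.1, hs.2]
    have h6 := wk_lower κ (w ^ 2) (s - z) hκ (by positivity) (by rw [hsq]; exact h5)
    rw [hsq] at h6
    have h7 : φ z - ε ≤ φ s := by
      have h8 := hη2 (show dist s z < η by rw [Real.dist_eq]; linarith)
      rw [Real.dist_eq] at h8
      have := (abs_lt.mp h8).1
      linarith
    have h8 : 0 ≤ w⁻¹ * Real.exp (-(Real.pi ^ 2 / κ)) := by positivity
    calc w⁻¹ * Real.exp (-(Real.pi ^ 2 / κ)) * (φ z - ε)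
        ≤ w⁻¹ * Real.exp (-(Real.pi ^ 2 / κ)) * φ s := mul_le_mul_of_nonneg_left h7 h8
      _ ≤ wk κ (w ^ 2) (s - z) * φ s := mul_le_mul_of_nonneg_right h6 (hφ0 s)
  rw [intervalIntegral.integral_const, smul_eq_mul] at h4
  have h5 : (z + w - (z - w)) * (w⁻¹ * Real.exp (-(Real.pi ^ 2 / κ)) * (φ z - ε)) =
      2 * (Real.exp (-(Real.pi ^ 2 / κ)) * (φ z - ε)) := by
    field_simp
    ring
  rw [h5] at h4
  have h6 : 2 * (Real.exp (-(Real.pi ^ 2 / κ)) * (φ z - ε)) ≤ B := by
    have h7 : ∫ s in (0 : ℝ)..1, g s ≤ B := h1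
    linarith
  have hB0 : 0 ≤ B := by
    have h7 : ∫ s in (0 : ℝ)..1, g s ≤ B := h1
    have h8 : 0 ≤ ∫ s in (0 : ℝ)..1, g s :=
      intervalIntegral.integral_nonneg (by norm_num) fun s _ => hg0 s
    linarith
  have h7 : Real.exp (Real.pi ^ 2 / κ) * Real.exp (-(Real.pi ^ 2 / κ)) = 1 := by
    rw [← Real.exp_add, add_neg_cancel, Real.exp_zero]
  have h8 : 0 < Real.exp (Real.pi ^ 2 / κ) := Real.exp_pos _
  have h9 := mul_le_mul_of_nonneg_left h6 h8.le
  have h10 : Real.exp (Real.pi ^ 2 / κ) * (2 * (Real.exp (-(Real.pi ^ 2 / κ)) * (φ z - ε))) =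
      2 * (φ z - ε) := by
    calc _ = 2 * ((Real.exp (Real.pi ^ 2 / κ) * Real.exp (-(Real.pi ^ 2 / κ))) * (φ z - ε)) := by ring
      _ = 2 * (φ z - ε) := by rw [h7, one_mul]
  rw [h10] at h9
  by_cases hc : φ z - ε ≤ 0
  · have : 0 ≤ Real.exp (Real.pi ^ 2 / κ) * B := mul_nonneg h8.le hB0
    linarith
  · push Not at hc
    linarith

end Pool.Agent.H4NC.LB
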