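import Pool.Agent.H4NC.StmB

/-!
Project NC, stub MM1.
-/

set_option autoImplicit false
set_option linter.unusedVariables false

open MeasureTheory Set Function Filter Topology
open scoped ENNReal ContDiff

namespace Pool.Agent.H4NC.MM1

open H459R3.NS H4LA

theorem t : Pool.Agent.H4NC.MM1 := by
  intro ν T u p h q s hq hs
  have hm := js_mm h
  have hJ : JS T (fun t x => (1 + mm (fun i y => u t y i) x ^ 2) ^ (q / 2)) := by
    unfold JS
    refine ContDiffOn.rpow_const_of_ne (contDiffOn_const.add (hm.pow 2)) ?_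
    intro z _
    have : 0 < 1 + mm (fun i y => u z.1 y i) z.2 ^ 2 := by positivity
    exact this.ne'
  have key := hasDerivAt_int (F := fun t x => (1 + mm (fun i y => u t y i) x ^ 2) ^ (q / 2))
    (hJ.of_le (by norm_cast)) hs
  refine key.congr_deriv ?_
  congr 1
  funext x
  have h1 := hm.hasDerivAt hs x
  have h2 : dt (fun t => mm (fun i y => u t y i)) s x = Av 2 (dt (fun s y => u s y 2) s) x :=
    (js_av_aux (js_u h 2) 2).2 s hs x
  rw [h2] at h1
  have hpos : 1 + mm (fun i y => u s y i) x ^ 2 ≠ 0 := by
    have : 0 < 1 + mm (fun i y => u s y i) x ^ 2 := by positivity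
    exact this.ne'
  have h3 := ((h1.pow 2).const_add 1).rpow_const (p := q / 2) (Or.inl hpos)
  refine h3.deriv.trans ?_
  simp only [Pi.pow_apply]
  push_cast
  ring

end Pool.Agent.H4NC.MM1
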