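import Pool.Agent.H4NC.StmB

set_option autoImplicit false

open MeasureTheory Set Function Filter Topology
open scoped ENNReal ContDiff

namespace Pool.Agent.H4NC.MM2

open H459R3.NS H4LA

theorem sp_comp {φ : ℝ → ℝ} (hφ : ContDiff ℝ ∞ φ) {f : V → ℝ} (hf : SP f) : SP (fun x => φ (f x)) :=
  ⟨hφ.comp hf.smooth, fun i x => by simp only [hf.per i x]⟩

theorem pd_comp1 {φ φ' : ℝ → ℝ} (h : ∀ s, HasDerivAt φ (φ' s) s) {f : V → ℝ} (hf : SP f) (k : Fin 3) (x : V) :
    pd k (fun y => φ (f y)) x = φ' (f x) * pd k f x := by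
  unfold pd
  have h1 : HasFDerivAt (fun y => φ (f y)) _ x := (h (f x)).comp_hasFDerivAt x (hf.diff x).hasFDerivAt
  rw [h1.fderiv]
  simp

/-- `(1 + s²)^a` -/
noncomputable def pw (a s : ℝ) : ℝ := (1 + s ^ 2) ^ a

theorem pw_cd (a : ℝ) : ContDiff ℝ ∞ (pw a) := by
  unfold pw
  apply ContDiff.rpow_const_of_ne
  · fun_prop
  · intro s; positivity

theorem pw_pos (a s : ℝ) : 0 < pw a s := by unfold pw; positivity

theorem pw_deriv (a s : ℝ) : HasDerivAt (pw a) (2 * s * a * pw (a - 1) s) s := by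
  unfold pw
  have h1 : HasDerivAt (fun s : ℝ => 1 + s ^ 2) (2 * s) s := by
    have := ((hasDerivAt_id s).pow 2).const_add 1
    simpa using this
  have h2 := h1.rpow_const (p := a) (Or.inl (by positivity))
  exact h2

/-- the weight -/
noncomputable def th (q s : ℝ) : ℝ := q * (s * pw (q / 2 - 1) s)

/-- its derivative -/
noncomputable def thd (q s : ℝ) : ℝ :=
  q * (pw (q / 2 - 1) s + s * (2 * s * (q / 2 - 1) * pw (q / 2 - 1 - 1) s))

theorem th_cd (q : ℝ) : ContDiff ℝ ∞ (th q) := by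
  unfold th
  exact contDiff_const.mul (contDiff_id.mul (pw_cd _))

theorem th_deriv (q s : ℝ) : HasDerivAt (th q) (thd q s) s := by
  unfold th thd
  have h := ((hasDerivAt_id s).mul (pw_deriv (q / 2 - 1) s)).const_mul q
  simp only [id, one_mul] at h
  exact h

theorem thd_cd (q : ℝ) : ContDiff ℝ ∞ (thd q) := by
  unfold thd
  have h1 := pw_cd (q / 2 - 1)
  have h2 := pw_cd (q / 2 - 1 - 1)
  fun_prop

theorem pw_half_deriv (q s : ℝ) : HasDerivAt (pw (q / 2)) (th q s) s := by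
  have h := pw_deriv (q / 2) s
  unfold th
  convert h using 1
  ring

theorem thd_nonneg {q : ℝ} (hq : 2 < q) (s : ℝ) : 0 ≤ thd q s := by
  unfold thd
  have h1 := pw_pos (q / 2 - 1) s
  have h2 := pw_pos (q / 2 - 1 - 1) s
  have h3 : 0 ≤ q / 2 - 1 := by linarith
  have h4 : 0 ≤ s * (2 * s * (q / 2 - 1) * pw (q / 2 - 1 - 1) s) := by
    have : s * (2 * s * (q / 2 - 1) * pw (q / 2 - 1 - 1) s) = 2 * s ^ 2 * (q / 2 - 1) * pw (q / 2 - 1 - 1) s := by ring
    rw [this]
    positivity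
  have h5 : 0 ≤ q := by linarith
  positivity

theorem thd_le {q : ℝ} (hq : 2 < q) (s : ℝ) : thd q s ≤ q ^ 2 * pw (q / 2 - 1) s := by
  have h2 := pw_pos (q / 2 - 1 - 1) s
  have h1 := pw_pos (q / 2 - 1) s
  have h3 : s ^ 2 * pw (q / 2 - 1 - 1) s ≤ pw (q / 2 - 1) s := by
    have e : pw (q / 2 - 1) s = (1 + s ^ 2) * pw (q / 2 - 1 - 1) s := by
      unfold pw
      have : (1 + s ^ 2 : ℝ) * (1 + s ^ 2) ^ (q / 2 - 1 - 1) = (1 + s ^ 2) ^ (1 + (q / 2 - 1 - 1)) := by
        rw [Real.rpow_add (by positivity), Real.rpow_one]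
      rw [this]
      congr 1
      ring
    rw [e]
    nlinarith
  unfold thd
  have h4 : s * (2 * s * (q / 2 - 1) * pw (q / 2 - 1 - 1) s) = (q - 2) * (s ^ 2 * pw (q / 2 - 1 - 1) s) := by ring
  rw [h4]
  have h5 : (q - 2) * (s ^ 2 * pw (q / 2 - 1 - 1) s) ≤ (q - 2) * pw (q / 2 - 1) s :=
    mul_le_mul_of_nonneg_left h3 (by linarith)
  calc q * (pw (q / 2 - 1) s + (q - 2) * (s ^ 2 * pw (q / 2 - 1 - 1) s))
      ≤ q * (pw (q / 2 - 1) s + (q - 2) * pw (q / 2 - 1) s) := by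
        apply mul_le_mul_of_nonneg_left _ (by linarith)
        linarith
    _ = q ^ 2 * pw (q / 2 - 1) s - q * pw (q / 2 - 1) s := by ring
    _ ≤ q ^ 2 * pw (q / 2 - 1) s := by
        have : 0 ≤ q * pw (q / 2 - 1) s := mul_nonneg (by linarith) h1.le
        linarith

section
variable {v : Fin 3 → V → ℝ} (hv : ∀ i, SP (v i)) (hdiv : ∀ x, ∑ i, pd i (v i) x = 0)

include hv in
theorem av_prod (j : Fin 3) : Av 2 (fun y => v j y * v 2 y) =
    fun x => mm v x * Av 2 (v j) x + Av 2 (fun y => v j y * bb v y) x := by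
  funext x
  have e1 : (fun y => v j y * v 2 y) = fun y => mm v y * v j y + v j y * bb v y := by
    funext y
    unfold bb
    ring
  rw [e1, Av_add ((mm_sp hv).mul (hv j)).cont ((hv j).mul (bb_sp hv)).cont, Av_mul (ind2_mm v)]

include hv hdiv in
theorem div_V (x : V) : pd 0 (Av 2 (v 0)) x + pd 1 (Av 2 (v 1)) x = 0 := by
  rw [pd_Av (hv 0) (by decide), pd_Av (hv 1) (by decide), ← Av_add ((hv 0).pd 0).cont ((hv 1).pd 1).cont]
  have e : (fun y => pd 0 (v 0) y + pd 1 (v 1) y) = fun y => -1 * pd 2 (v 2) y := by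
    funext y
    have := hdiv y
    simp only [Fin.sum_univ_three] at this
    linarith
  rw [e, Av_cmul, Av_pd_self (hv 2), mul_zero]

include hv in
theorem pd_av_prod (j : Fin 3) (x : V) : pd j (Av 2 (fun y => v j y * v 2 y)) x =
    (mm v x * pd j (Av 2 (v j)) x + pd j (mm v) x * Av 2 (v j) x) + pd j (Av 2 (fun y => v j y * bb v y)) x := by
  rw [av_prod hv j]
  have s1 : SP (fun x => mm v x * Av 2 (v j) x) := (mm_sp hv).mul (av_sp (hv j) 2)
  have s2 : SP (Av 2 (fun y => v j y * bb v y)) := av_sp ((hv j).mul (bb_sp hv)) 2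
  have h1 : pd j (fun x => mm v x * Av 2 (v j) x + Av 2 (fun y => v j y * bb v y) x) x =
      pd j (fun x => mm v x * Av 2 (v j) x) x + pd j (Av 2 (fun y => v j y * bb v y)) x := by
    unfold pd
    have h : HasFDerivAt (fun x => mm v x * Av 2 (v j) x + Av 2 (fun y => v j y * bb v y) x) _ x :=
      (s1.diff x).hasFDerivAt.add (s2.diff x).hasFDerivAt
    rw [h.fderiv]
    rfl
  rw [h1, pd_mul (mm_sp hv) (av_sp (hv j) 2)]

include hv hdiv in
theorem av_conv (x : V) : Av 2 (conv v 2) x =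
    (pd 0 (mm v) x * Av 2 (v 0) x + pd 1 (mm v) x * Av 2 (v 1) x) +
      (pd 0 (Av 2 (fun y => v 0 y * bb v y)) x + pd 1 (Av 2 (fun y => v 1 y * bb v y)) x) := by
  have e1 : conv v 2 = fun y => pd 0 (fun y => v 0 y * v 2 y) y + pd 1 (fun y => v 1 y * v 2 y) y +
      pd 2 (fun y => v 2 y * v 2 y) y := by
    funext y
    have h := hdiv y
    simp only [Fin.sum_univ_three] at h
    unfold conv
    simp only [Fin.sum_univ_three]
    rw [pd_mul (hv 0) (hv 2), pd_mul (hv 1) (hv 2), pd_mul (hv 2) (hv 2)]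
    have h2 : (pd 0 (v 0) y + pd 1 (v 1) y + pd 2 (v 2) y) * v 2 y = 0 := by rw [h, zero_mul]
    linarith
  have s0 : SP (fun y => v 0 y * v 2 y) := (hv 0).mul (hv 2)
  have s1 : SP (fun y => v 1 y * v 2 y) := (hv 1).mul (hv 2)
  have s2 : SP (fun y => v 2 y * v 2 y) := (hv 2).mul (hv 2)
  rw [e1, Av_add (f := fun y => pd 0 (fun y => v 0 y * v 2 y) y + pd 1 (fun y => v 1 y * v 2 y) y)
    ((s0.pd 0).add (s1.pd 1)).cont (s2.pd 2).cont, Av_add (s0.pd 0).cont (s1.pd 1).cont, Av_pd_self s2,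
    add_zero]
  have h0 := congrFun (pd_Av s0 (j := 2) (k := 0) (by decide)) x
  have h1 := congrFun (pd_Av s1 (j := 2) (k := 1) (by decide)) x
  rw [← h0, ← h1, pd_av_prod hv 0, pd_av_prod hv 1]
  have hd := div_V hv hdiv x
  have hd2 : mm v x * (pd 0 (Av 2 (v 0)) x + pd 1 (Av 2 (v 1)) x) = 0 := by rw [hd, mul_zero]
  linarith

end

theorem t : Pool.Agent.H4NC.MM2 := by
  intro ν q hν hq v p F hv hdiv hp hF
  set m := mm v with hm
  have sm : SP m := mm_sp hv
  have sV : ∀ j, SP (Av 2 (v j)) := fun j => av_sp (hv j) 2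
  have sf : ∀ j, SP (Av 2 (fun y => v j y * bb v y)) := fun j => av_sp ((hv j).mul (bb_sp hv)) 2
  have sT : SP (fun x => th q (m x)) := sp_comp (th_cd q) sm
  have sG : SP (fun x => pw (q / 2) (m x)) := sp_comp (pw_cd _) sm
  have sTd : SP (fun x => thd q (m x)) := sp_comp (thd_cd q) sm
  have sW : SP (fun x => pw (q / 2 - 1) (m x)) := sp_comp (pw_cd _) sm
  -- the average of the right side
  have hAF : ∀ x, Av 2 F x = ν * lap m x - Av 2 (conv v 2) x := by
    intro x
    have sF : F = fun x => (ν * lap (v 2) x - conv v 2 x) - pd 2 p x := funext hF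
    have s1 : SP (fun x => ν * lap (v 2) x) := (hv 2).lap.cmulf ν
    have s2 : SP (conv v 2) := sp_conv hv 2
    rw [sF, Av_sub (f := fun x => ν * lap (v 2) x - conv v 2 x) (s1.sub s2).cont (hp.pd 2).cont,
      Av_sub s1.cont s2.cont, Av_cmul, Av_pd_self hp, Av_lap (hv 2)]
    rw [hm]
    unfold mm
    ring
  -- the three terms
  have t1 : ∫ x in cube, lap m x * th q (m x) =
      -(∫ x in cube, thd q (m x) * pd 0 m x ^ 2) - ∫ x in cube, thd q (m x) * pd 1 m x ^ 2 := by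
    rw [int_lap_mul sm sT, Fin.sum_univ_three]
    have h2 : ∀ x, pd 2 m x * pd 2 (fun x => th q (m x)) x = 0 := by
      intro x
      rw [hm, pd2_mm hv, zero_mul]
    have h0 : ∀ (j : Fin 3) (x : V), pd j m x * pd j (fun x => th q (m x)) x = thd q (m x) * pd j m x ^ 2 := by
      intro j x
      rw [pd_comp1 (th_deriv q) sm]
      ring
    simp only [h2]
    simp only [h0]
    rw [integral_zero]
    ring
  have t2 : ∫ x in cube, th q (m x) * (pd 0 m x * Av 2 (v 0) x + pd 1 m x * Av 2 (v 1) x) = 0 := by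
    have h0 : ∀ x, th q (m x) * (pd 0 m x * Av 2 (v 0) x + pd 1 m x * Av 2 (v 1) x) =
        pd 0 (fun x => pw (q / 2) (m x)) x * Av 2 (v 0) x + pd 1 (fun x => pw (q / 2) (m x)) x * Av 2 (v 1) x := by
      intro x
      rw [pd_comp1 (pw_half_deriv q) sm, pd_comp1 (pw_half_deriv q) sm]
      ring
    simp only [h0]
    rw [integral_add ((sG.pd 0).mul (sV 0)).int ((sG.pd 1).mul (sV 1)).int, ibp sG (sV 0), ibp sG (sV 1)]
    have h3 : (∫ x in cube, pw (q / 2) (m x) * pd 0 (Av 2 (v 0)) x) +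
        (∫ x in cube, pw (q / 2) (m x) * pd 1 (Av 2 (v 1)) x) = 0 := by
      rw [← integral_add (sG.mul ((sV 0).pd 0)).int (sG.mul ((sV 1).pd 1)).int]
      have h4 : ∀ x, pw (q / 2) (m x) * pd 0 (Av 2 (v 0)) x + pw (q / 2) (m x) * pd 1 (Av 2 (v 1)) x = 0 := by
        intro x
        rw [← mul_add, div_V hv hdiv, mul_zero]
      simp only [h4]
      simp
    linarith
  have t3 : ∀ j, ∫ x in cube, th q (m x) * pd j (Av 2 (fun y => v j y * bb v y)) x =
      -∫ x in cube, thd q (m x) * (pd j m x * Av 2 (fun y => v j y * bb v y) x) := by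
    intro j
    have h1 := ibp sT (sf j) j
    have h2 : ∀ x, pd j (fun x => th q (m x)) x * Av 2 (fun y => v j y * bb v y) x =
        thd q (m x) * (pd j m x * Av 2 (fun y => v j y * bb v y) x) := by
      intro x
      rw [pd_comp1 (th_deriv q) sm]
      ring
    simp only [h2] at h1
    linarith
  have key : ∫ x in cube, th q (m x) * Av 2 F x =
      (-ν * (∫ x in cube, thd q (m x) * pd 0 m x ^ 2) +
        ∫ x in cube, thd q (m x) * (pd 0 m x * Av 2 (fun y => v 0 y * bb v y) x)) +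
      (-ν * (∫ x in cube, thd q (m x) * pd 1 m x ^ 2) +
        ∫ x in cube, thd q (m x) * (pd 1 m x * Av 2 (fun y => v 1 y * bb v y) x)) := by
    have h0 : ∀ x, th q (m x) * Av 2 F x = ν * (lap m x * th q (m x)) -
        (th q (m x) * (pd 0 m x * Av 2 (v 0) x + pd 1 m x * Av 2 (v 1) x) +
        (th q (m x) * pd 0 (Av 2 (fun y => v 0 y * bb v y)) x +
          th q (m x) * pd 1 (Av 2 (fun y => v 1 y * bb v y)) x)) := by
      intro x
      rw [hAF, av_conv hv hdiv]
      ring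
    simp only [h0]
    have i1 : IntegrableOn (fun x => ν * (lap m x * th q (m x))) cube := ((sm.lap.mul sT).cmulf ν).int
    have i2 : IntegrableOn (fun x => th q (m x) * (pd 0 m x * Av 2 (v 0) x + pd 1 m x * Av 2 (v 1) x)) cube :=
      (sT.mul (((sm.pd 0).mul (sV 0)).add ((sm.pd 1).mul (sV 1)))).int
    have i3 : IntegrableOn (fun x => th q (m x) * pd 0 (Av 2 (fun y => v 0 y * bb v y)) x) cube :=
      (sT.mul ((sf 0).pd 0)).int
    have i4 : IntegrableOn (fun x => th q (m x) * pd 1 (Av 2 (fun y => v 1 y * bb v y)) x) cube :=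
      (sT.mul ((sf 1).pd 1)).int
    have i34 : IntegrableOn (fun x => th q (m x) * pd 0 (Av 2 (fun y => v 0 y * bb v y)) x +
      th q (m x) * pd 1 (Av 2 (fun y => v 1 y * bb v y)) x) cube := i3.add i4
    have i234 : IntegrableOn (fun x => th q (m x) * (pd 0 m x * Av 2 (v 0) x + pd 1 m x * Av 2 (v 1) x) +
      (th q (m x) * pd 0 (Av 2 (fun y => v 0 y * bb v y)) x +
      th q (m x) * pd 1 (Av 2 (fun y => v 1 y * bb v y)) x)) cube := i2.add i34
    rw [integral_sub i1 i234, integral_add i2 i34, integral_add i3 i4, integral_const_mul, t1, t2, t3 0, t3 1]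
    ring
  -- the bound for each direction
  have bd : ∀ j, -ν * (∫ x in cube, thd q (m x) * pd j m x ^ 2) +
      ∫ x in cube, thd q (m x) * (pd j m x * Av 2 (fun y => v j y * bb v y) x) ≤
      q ^ 2 / (4 * ν) * ∫ x in cube, pw (q / 2 - 1) (m x) * Av 2 (fun y => v j y * bb v y) x ^ 2 := by
    intro j
    have sq1 : SP (fun x => pd j m x ^ 2) := SP.sqr (sm.pd j)
    have sq2 : SP (fun x => Av 2 (fun y => v j y * bb v y) x ^ 2) := SP.sqr (sf j)
    have i1 : IntegrableOn (fun x => -ν * (thd q (m x) * pd j m x ^ 2)) cube := ((sTd.mul sq1).cmulf _).int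
    have i2 : IntegrableOn (fun x => thd q (m x) * (pd j m x * Av 2 (fun y => v j y * bb v y) x)) cube :=
      (sTd.mul ((sm.pd j).mul (sf j))).int
    have i3 : IntegrableOn (fun x => q ^ 2 / (4 * ν) * (pw (q / 2 - 1) (m x) *
      Av 2 (fun y => v j y * bb v y) x ^ 2)) cube := ((sW.mul sq2).cmulf _).int
    rw [← integral_const_mul, ← integral_const_mul, ← integral_add i1 i2]
    refine integral_mono (i1.add i2) i3 fun x => ?_
    have g1 := thd_nonneg hq (m x)
    have g2 := thd_le hq (m x)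
    set A := pd j m x
    set B := Av 2 (fun y => v j y * bb v y) x
    show -ν * (thd q (m x) * A ^ 2) + thd q (m x) * (A * B) ≤ q ^ 2 / (4 * ν) * (pw (q / 2 - 1) (m x) * B ^ 2)
    have g3 : -ν * A ^ 2 + A * B ≤ B ^ 2 / (4 * ν) := by
      rw [le_div_iff₀ (by positivity)]
      nlinarith [sq_nonneg (2 * ν * A - B)]
    have g4 : 0 ≤ B ^ 2 / (4 * ν) := by positivity
    calc -ν * (thd q (m x) * A ^ 2) + thd q (m x) * (A * B) = thd q (m x) * (-ν * A ^ 2 + A * B) := by ring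
      _ ≤ thd q (m x) * (B ^ 2 / (4 * ν)) := mul_le_mul_of_nonneg_left g3 g1
      _ ≤ (q ^ 2 * pw (q / 2 - 1) (m x)) * (B ^ 2 / (4 * ν)) := mul_le_mul_of_nonneg_right g2 g4
      _ = _ := by ring
  have hsum : ∑ j ∈ HH, ∫ x in cube, (1 + mm v x ^ 2) ^ (q / 2 - 1) * Av 2 (fun y => v j y * bb v y) x ^ 2 =
      (∫ x in cube, pw (q / 2 - 1) (m x) * Av 2 (fun y => v 0 y * bb v y) x ^ 2) +
      ∫ x in cube, pw (q / 2 - 1) (m x) * Av 2 (fun y => v 1 y * bb v y) x ^ 2 := by
    unfold HH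
    rw [Finset.sum_pair (by decide)]
    rfl
  have b0 := bd 0
  have b1 := bd 1
  rw [hsum]
  have e0 : ∫ x in cube, q * (mm v x * (1 + mm v x ^ 2) ^ (q / 2 - 1)) * Av 2 F x =
      ∫ x in cube, th q (m x) * Av 2 F x := rfl
  rw [e0, key, mul_add]
  exact add_le_add b0 b1

end Pool.Agent.H4NC.MM2
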