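import Pool.Agent.H4NC.StmB
import Pool.Agent.H4LA.HldL

/-!
Project NC, stub MM3: the source of the mean.
-/

set_option autoImplicit false
set_option linter.unusedVariables false

open MeasureTheory Set Function Filter Topology
open scoped ENNReal ContDiff

namespace Pool.Agent.H4NC.MM3

open H459R3.NS H4LA Pool.Agent.H4NC

/-- Hoelder's inequality on slices. -/
theorem holdHz {f g : V → ℝ} (cf : CP f) (cg : CP g) (f0 : ∀ x, 0 ≤ f x) (g0 : ∀ x, 0 ≤ g x)
    {p : ℝ} (p0 : 0 ≤ p) (p1 : p ≤ 1) (x : V) :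
    Hz (fun y => f y ^ p * g y ^ (1 - p)) x ≤ Hz f x ^ p * Hz g x ^ (1 - p) := by
  have cfg : CP (fun y => f y ^ p * g y ^ (1 - p)) := (cprp cf p0).mul (cprp cg (by linarith))
  rw [Hz_cube cfg, Hz_cube cf, Hz_cube cg]
  have h := hold4 (f1 := fun z => f (update z 2 (x 2))) (f2 := fun z => g (update z 2 (x 2)))
    (cf.frz (x 2)).cont (cg.frz (x 2)).cont (continuous_const (y := (1 : ℝ)))
    (continuous_const (y := (1 : ℝ))) (fun _ => f0 _) (fun _ => g0 _)
    (fun _ => zero_le_one) (fun _ => zero_le_one) (p1 := p) (p2 := 1 - p) (p3 := 0) (p4 := 0)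
    p0 (by linarith) le_rfl le_rfl (by ring)
  simp only [Real.rpow_zero, mul_one] at h
  exact h

theorem int_vsq {v : Fin 3 → V → ℝ} (hv : ∀ i, SP (v i)) : ∫ x in cube, vsq v x = esq v := by
  unfold vsq esq
  rw [integral_finsetSum _ fun i _ => (SP.sqr (hv i)).int]

theorem t (hB : B2v) : Pool.Agent.H4NC.MM3 := by
  intro a r q ha hr hq hqr
  have hr0 : 0 < r := by linarith
  have hq0 : 0 < q := by linarith
  have ha0 : 0 < a := by linarith
  set e1 : ℝ := 1 / r + 1 / 2 - 1 / q with he1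
  have hinv : 1 / r < 1 / q := one_div_lt_one_div_of_lt hq0 hqr
  have hq2 : 1 / q < 1 / 2 := one_div_lt_one_div_of_lt (by norm_num) hq
  have hrpos : 0 < 1 / r := by positivity
  have he0 : 0 < e1 := by rw [he1]; linarith
  have heh : e1 < 1 / 2 := by rw [he1]; linarith
  have her : 1 / r ≤ e1 := by rw [he1]; linarith
  set ϱ : ℝ := 1 / e1 with hϱ
  have hϱ0 : 0 < ϱ := by positivity
  have hϱ2 : 2 < ϱ := by
    rw [hϱ, lt_div_iff₀ he0]; linarith
  have hϱe : ϱ * e1 = 1 := by rw [hϱ]; field_simp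
  have h2ϱ : 2 / ϱ = 2 * e1 := by rw [hϱ]; field_simp
  obtain ⟨C1, hC1, HB⟩ := hB ϱ hϱ2
  refine ⟨2 * C1, by linarith, ?_⟩
  intro M hM v hv hN j hj
  set m : V → ℝ := mm v with hm
  set b : V → ℝ := bb v with hb
  have cm : CP m := cp_of (mm_sp hv)
  have cb : CP b := cp_of (bb_sp hv)
  have cvj : CP (v j) := cp_of (hv j)
  have im : Ind 2 m := ind2_mm v
  set s : V → ℝ := fun x => 1 + m x ^ 2 with hs
  have cs : CP s := (CP.const 1).add (cm.pow 2)
  have is : Ind 2 s := fun x z => by rw [hs]; simp only [im x z]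
  have s1 : ∀ x, 1 ≤ s x := fun x => by rw [hs]; simp only; nlinarith [sq_nonneg (m x)]
  have s0 : ∀ x, 0 ≤ s x := fun x => zero_le_one.trans (s1 x)
  set w : V → ℝ := fun x => s x ^ (q / 2 - 1) with hw
  have cw : CP w := cprp cs (by linarith)
  have iw : Ind 2 w := fun x z => by rw [hw]; simp only [is x z]
  have w0 : ∀ x, 0 ≤ w x := fun x => Real.rpow_nonneg (s0 x) _
  set f : V → ℝ := Av 2 (fun y => v j y * b y) with hf
  have cvb : CP (fun y => v j y * b y) := cvj.mul cb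
  have cf : CP f := cvb.av 2
  have if2 : Ind 2 f := ind_Av 2 _
  set W : V → ℝ := fun x => s x ^ (q / 2) with hWd
  have cW : CP W := cprp cs (by linarith)
  have W0 : ∀ x, 0 ≤ W x := fun x => Real.rpow_nonneg (s0 x) _
  set X : ℝ := ∫ x in cube, W x with hX
  have iW : Ind 2 W := fun x z => by rw [hWd]; simp only [is x z]
  have HW : ∀ x, Hz W x = X := fun x => Hz_ind2 cW iW x
  have X1 : 1 ≤ X := by
    rw [← HW 0]
    have h1 : Hz (fun _ => (1 : ℝ)) (0 : V) ≤ Hz W 0 :=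
      Hz_mono (CP.const 1) cW (fun x => Real.one_le_rpow (s1 x) (by linarith)) 0
    rwa [Hz_of_ind ⟨fun _ _ => rfl, fun _ _ => rfl⟩] at h1
  set S : ℝ := ∫ x in cube, w x * f x ^ 2 with hS
  have S0 : 0 ≤ S := integral_nonneg fun x => mul_nonneg (w0 x) (sq_nonneg _)
  -- the product of the weight and the square of `b`
  set G : V → ℝ := fun x => √(w x) * |b x| with hG
  have csw : CP (fun x => √(w x)) := cw.sqrt
  have cG : CP G := csw.mul cb.abs
  have G0 : ∀ x, 0 ≤ G x := fun x => mul_nonneg (Real.sqrt_nonneg _) (abs_nonneg _)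
  have G2 : ∀ x, G x ^ 2 = w x * b x ^ 2 := fun x => by
    rw [hG]; simp only; rw [mul_pow, Real.sq_sqrt (w0 x), sq_abs]
  have cv2 : CP (vsq v) := cp_of (vsq_sp hv)
  have cga : CP (ga v) := cp_of (ga_sp hv)
  have cGv : CP (fun y => G y ^ 2 * vsq v y) := (cG.pow 2).mul cv2
  set K : ℝ := ∫ x in cube, √(Hz (fun y => G y ^ 2 * vsq v y) x) with hK
  have K0 : 0 ≤ K := integral_nonneg fun x => Real.sqrt_nonneg _
  -- first step
  have step1 : S ≤ √S * K := by
    have e1 : S = ∫ x in cube, (w x * f x) * (v j x * b x) := by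
      rw [← int_mul_Av (f := fun x => v j x * b x) (g := fun x => w x * f x) cvb (cw.mul cf)
        (j := 2) (fun x z => by simp only [iw x z, if2 x z])]
      rw [hS]
      congr 1
      funext x
      rw [hf]
      ring
    have e2 : ∫ x in cube, (w x * f x) * (v j x * b x)
        = ∫ x in cube, Hz (fun x => (√(w x) * f x) * (√(w x) * (v j x * b x))) x := by
      rw [int_Hz ((csw.mul cf).mul (csw.mul cvb))]
      congr 1
      funext x
      have : √(w x) * √(w x) = w x := Real.mul_self_sqrt (w0 x)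
      calc (w x * f x) * (v j x * b x) = (√(w x) * √(w x)) * (f x * (v j x * b x)) := by
            rw [this]; ring
        _ = _ := by ring
    rw [e1, e2]
    have e3 : √(∫ x in cube, Hz (fun x => (√(w x) * f x) * (√(w x) * (v j x * b x))) x) = √S := by
      rw [← e2, ← e1]
    rw [e3, hK, ← integral_const_mul]
    refine integral_mono ((csw.mul cf).mul (csw.mul cvb)).hz.int (cGv.hz.sqrt.cmul _).int ?_
    intro x
    simp only
    have h1 := (le_abs_self _).trans (Hz_cs (csw.mul cf) (csw.mul cvb) x)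
    have h2 : Hz (fun y => (√(w y) * f y) ^ 2) x = S := by
      have e4 : (fun y => (√(w y) * f y) ^ 2) = fun y => w y * f y ^ 2 := by
        funext y
        rw [mul_pow, Real.sq_sqrt (w0 y)]
      rw [e4, Hz_ind2 (cw.mul (cf.pow 2)) (fun x z => by simp only [iw x z, if2 x z])]
    have h3 : Hz (fun y => (√(w y) * (v j y * b y)) ^ 2) x ≤ Hz (fun y => G y ^ 2 * vsq v y) x := by
      refine Hz_mono ((csw.mul cvb).pow 2) cGv (fun y => ?_) x
      rw [G2, mul_pow, Real.sq_sqrt (w0 y), mul_pow]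
      have h4 : v j y ^ 2 ≤ vsq v y :=
        Finset.single_le_sum (f := fun i => v i y ^ 2) (fun i _ => sq_nonneg _) (Finset.mem_univ j)
      have h5 := mul_le_mul_of_nonneg_left h4 (mul_nonneg (w0 y) (sq_nonneg (b y)))
      linarith
    rw [h2] at h1
    exact h1.trans (mul_le_mul_of_nonneg_left (Real.sqrt_le_sqrt h3) (Real.sqrt_nonneg _))
  have step1' : S ≤ K ^ 2 := by
    rcases S0.lt_or_eq with h | h
    · have h1 : √S ≤ K := by
        have h2 : √S * √S ≤ √S * K := by rw [Real.mul_self_sqrt S0]; exact step1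
        exact le_of_mul_le_mul_left h2 (Real.sqrt_pos.2 h)
      calc S = √S ^ 2 := (Real.sq_sqrt S0).symm
        _ ≤ K ^ 2 := pow_le_pow_left₀ (Real.sqrt_nonneg _) h1 2
    · rw [← h]; positivity
  -- second step
  set Nr : V → ℝ := NR r (Gb v) with hNr
  have Nr1 : ∀ x, 1 ≤ Nr x := fun x => NR_one (Gb_nonneg v) x
  have cNr : CP Nr := NR_cp hr0.le (Gb_cp hv)
  have stepN : ∀ x, NR ϱ G x ^ (2 / ϱ) ≤ 2 * (Nr x ^ (2 / r) * X ^ (1 - 2 / q)) := by
    intro x
    have p0 : 0 ≤ ϱ / r := by positivity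
    have p1 : ϱ / r ≤ 1 := by
      rw [div_le_one hr0, hϱ, div_le_iff₀ he0]
      have := mul_le_mul_of_nonneg_left her hr0.le
      rwa [mul_one_div_cancel hr0.ne'] at this
    have cb' : CP (fun y => Gb v y ^ r) := cprp (Gb_cp hv) hr0.le
    have h1 := holdHz cb' cW (fun y => Real.rpow_nonneg (Gb_nonneg v y) _) W0 p0 p1 x
    have e2 : (fun y => G y ^ ϱ) = fun y => (Gb v y ^ r) ^ (ϱ / r) * W y ^ (1 - ϱ / r) := by
      funext y
      rw [hG, hWd]
      simp only
      rw [Real.mul_rpow (Real.sqrt_nonneg _) (abs_nonneg _), ← Real.rpow_mul (Gb_nonneg v y),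
        Real.sqrt_eq_rpow, hw]
      simp only
      rw [← Real.rpow_mul (s0 y), ← Real.rpow_mul (s0 y), ← Real.rpow_mul (s0 y), mul_comm]
      have e3 : r * (ϱ / r) = ϱ := by field_simp
      have e4 : (q / 2 - 1) * (1 / 2) * ϱ = q / 2 * (1 - ϱ / r) := by
        have h5 : ϱ * (1 / r + 1 / 2 - 1 / q) = 1 := by rw [← he1]; exact hϱe
        have h6 : q / 2 * (1 - ϱ / r) = q / 2 * (ϱ * (1 / r + 1 / 2 - 1 / q) - ϱ / r) := by
          rw [h5]
        rw [h6]
        field_simp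
        ring
      rw [e3, e4]
      rfl
    have h2 : NR ϱ G x ≤ 2 * (Nr x ^ (ϱ / r) * X ^ (1 - ϱ / r)) := by
      have k1 : Hz (fun y => G y ^ ϱ) x ≤ Nr x ^ (ϱ / r) * X ^ (1 - ϱ / r) := by
        rw [e2]
        refine h1.trans ?_
        rw [HW]
        refine mul_le_mul_of_nonneg_right ?_ (Real.rpow_nonneg (zero_le_one.trans X1) _)
        refine Real.rpow_le_rpow (Hz_nonneg (fun y => Real.rpow_nonneg (Gb_nonneg v y) _) x) ?_ p0
        rw [hNr]
        unfold NR
        linarith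
      have k2 : 1 ≤ Nr x ^ (ϱ / r) * X ^ (1 - ϱ / r) :=
        one_le_mul_of_one_le_of_one_le (Real.one_le_rpow (Nr1 x) p0)
          (Real.one_le_rpow X1 (by linarith))
      unfold NR
      linarith
    have hNn : 0 ≤ NR ϱ G x := zero_le_one.trans (NR_one G0 x)
    have Nx0 : 0 ≤ Nr x := zero_le_one.trans (Nr1 x)
    have X0 : 0 ≤ X := zero_le_one.trans X1
    have h3 := Real.rpow_le_rpow hNn h2 (by positivity : 0 ≤ 2 / ϱ)
    refine h3.trans ?_
    rw [Real.mul_rpow (by norm_num) (by positivity), Real.mul_rpow (by positivity) (by positivity),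
      ← Real.rpow_mul Nx0, ← Real.rpow_mul X0]
    have e5 : ϱ / r * (2 / ϱ) = 2 / r := by field_simp
    have e6 : (1 - ϱ / r) * (2 / ϱ) = 1 - 2 / q := by
      have : (1 - ϱ / r) * (2 / ϱ) = 2 / ϱ - 2 / r := by field_simp
      rw [this, h2ϱ, he1]
      ring
    rw [e5, e6]
    have h4 : (2 : ℝ) ^ (2 / ϱ) ≤ 2 := by
      have h5 : (2 : ℝ) ^ (2 / ϱ) ≤ 2 ^ (1 : ℝ) :=
        Real.rpow_le_rpow_of_exponent_le (by norm_num) (by rw [h2ϱ]; linarith)
      rwa [Real.rpow_one] at h5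
    exact mul_le_mul_of_nonneg_right h4 (by positivity)
  -- the estimate of the integrand
  set U : V → ℝ := Hz (vsq v) with hU
  set D : V → ℝ := fun x => Hz (vsq v) x + Hz (ga v) x with hD
  have cU : CP U := cv2.hz
  have cD : CP D := cv2.hz.add cga.hz
  have U0 : ∀ x, 0 ≤ U x := fun x => Hz_nonneg (vsq_nonneg v) x
  have D0 : ∀ x, 0 ≤ D x := fun x =>
    add_nonneg (Hz_nonneg (vsq_nonneg v) x) (Hz_nonneg (fun y => ga_nonneg y) x)
  have X0 : 0 ≤ X := zero_le_one.trans X1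
  have step2 : ∀ x, √(Hz (fun y => G y ^ 2 * vsq v y) x)
      ≤ √(2 * C1 * X ^ (1 - 2 / q)) * (Nr x ^ (1 / r) * U x ^ (1 / 2 - e1) * D x ^ e1) := by
    intro x
    have Nx0 : 0 ≤ Nr x := zero_le_one.trans (Nr1 x)
    have h1 := (HB G cG G0 v hv x).2
    have h2 : Hz (fun y => G y ^ 2 * vsq v y) x
        ≤ 2 * C1 * X ^ (1 - 2 / q) * (Nr x ^ (1 / r) * U x ^ (1 / 2 - e1) * D x ^ e1) ^ 2 := by
      refine h1.trans ?_
      have k1 : (Nr x ^ (1 / r) * U x ^ (1 / 2 - e1) * D x ^ e1) ^ 2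
          = Nr x ^ (2 / r) * (U x ^ (1 - 2 / ϱ) * D x ^ (2 / ϱ)) := by
        rw [mul_pow, mul_pow, ← Real.rpow_natCast, ← Real.rpow_natCast, ← Real.rpow_natCast,
          ← Real.rpow_mul Nx0, ← Real.rpow_mul (U0 x), ← Real.rpow_mul (D0 x), h2ϱ]
        have e7 : 1 / r * ((2 : ℕ) : ℝ) = 2 / r := by push_cast; ring
        have e8 : (1 / 2 - e1) * ((2 : ℕ) : ℝ) = 1 - 2 * e1 := by push_cast; ring
        have e9 : e1 * ((2 : ℕ) : ℝ) = 2 * e1 := by push_cast; ring
        rw [e7, e8, e9, mul_assoc]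
      rw [k1]
      have P0 : 0 ≤ U x ^ (1 - 2 / ϱ) * D x ^ (2 / ϱ) :=
        mul_nonneg (Real.rpow_nonneg (U0 x) _) (Real.rpow_nonneg (D0 x) _)
      have k2 := mul_le_mul_of_nonneg_left
        (mul_le_mul_of_nonneg_right (stepN x) P0) (by linarith : 0 ≤ C1)
      refine k2.trans (le_of_eq ?_)
      ring
    have Z0 : 0 ≤ Nr x ^ (1 / r) * U x ^ (1 / 2 - e1) * D x ^ e1 :=
      mul_nonneg (mul_nonneg (Real.rpow_nonneg Nx0 _) (Real.rpow_nonneg (U0 x) _))
        (Real.rpow_nonneg (D0 x) _)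
    refine (Real.sqrt_le_sqrt h2).trans (le_of_eq ?_)
    rw [Real.sqrt_mul (by positivity), Real.sqrt_sq Z0]
  -- third step
  have step3 : K ≤ √(2 * C1 * X ^ (1 - 2 / q))
      * (M * (esq v ^ (1 / 2 - e1) * (esq v + ysq v) ^ e1)) := by
    have cP : CP (fun x => Nr x ^ (1 / r) * U x ^ (1 / 2 - e1) * D x ^ e1) :=
      ((cprp cNr hrpos.le).mul (cprp cU (by linarith))).mul (cprp cD he0.le)
    have h1 : K ≤ ∫ x in cube, √(2 * C1 * X ^ (1 - 2 / q))
        * (Nr x ^ (1 / r) * U x ^ (1 / 2 - e1) * D x ^ e1) := by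
      rw [hK]
      exact integral_mono cGv.hz.sqrt.int (cP.cmul _).int step2
    rw [integral_const_mul] at h1
    refine h1.trans (mul_le_mul_of_nonneg_left ?_ (Real.sqrt_nonneg _))
    have cNa : CP (fun x => Nr x ^ (a / r)) := cprp cNr (by positivity)
    have h2 := hold4 (f1 := fun x => Nr x ^ (a / r)) (f2 := U) (f3 := D) (f4 := fun _ => (1 : ℝ))
      cNa.cont cU.cont cD.cont continuous_const
      (fun x => Real.rpow_nonneg (zero_le_one.trans (Nr1 x)) _) U0 D0 (fun _ => zero_le_one)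
      (p1 := 1 / a) (p2 := 1 / 2 - e1) (p3 := e1) (p4 := 1 / 2 - 1 / a)
      (by positivity) (by linarith) he0.le
      (by
        have := one_div_lt_one_div_of_lt (by norm_num : (0 : ℝ) < 2) ha
        linarith) (by ring)
    have e1' : ∀ x, (Nr x ^ (a / r)) ^ (1 / a) = Nr x ^ (1 / r) := by
      intro x
      rw [← Real.rpow_mul (zero_le_one.trans (Nr1 x))]
      congr 1
      field_simp
    simp only [e1', Real.one_rpow, mul_one] at h2
    refine h2.trans ?_
    have i1 : (∫ x in cube, Nr x ^ (a / r)) ^ (1 / a) ≤ M := by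
      have k1 : (∫ x in cube, Nr x ^ (a / r)) ^ (1 / a) ≤ (M ^ a) ^ (1 / a) :=
        Real.rpow_le_rpow (integral_nonneg fun x =>
          Real.rpow_nonneg (zero_le_one.trans (Nr1 x)) _) hN (by positivity)
      rwa [← Real.rpow_mul (by linarith), mul_one_div_cancel ha0.ne', Real.rpow_one] at k1
    have i2 : ∫ x in cube, U x = esq v := by rw [hU, int_Hz cv2, int_vsq hv]
    have i3 : ∫ x in cube, D x = esq v + ysq v := by
      rw [hD]
      rw [integral_add cv2.hz.int cga.hz.int, int_Hz cv2, int_Hz cga, int_vsq hv, int_ga hv]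
    have i4 : ∫ x in (cube : Set V), (1 : ℝ) = 1 := by
      have := Hz_ind2 (CP.const 1) (fun _ _ => rfl) (0 : V)
      rw [← this, Hz_of_ind ⟨fun _ _ => rfl, fun _ _ => rfl⟩]
    rw [i2, i3, i4, Real.one_rpow, mul_one]
    have E0 : 0 ≤ esq v := esq_nonneg v
    have Y0 : 0 ≤ esq v + ysq v := by rw [← i3]; exact integral_nonneg D0
    rw [mul_assoc]
    exact mul_le_mul_of_nonneg_right i1
      (mul_nonneg (Real.rpow_nonneg E0 _) (Real.rpow_nonneg Y0 _))
  -- the end
  have E0 : 0 ≤ esq v := esq_nonneg v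
  have Y0 : 0 ≤ esq v + ysq v := by
    have : 0 ≤ ysq v := by rw [← int_ga hv]; exact integral_nonneg fun x => ga_nonneg x
    linarith
  refine step1'.trans ((pow_le_pow_left₀ K0 step3 2).trans (le_of_eq ?_))
  rw [mul_pow, mul_pow, mul_pow, Real.sq_sqrt (by positivity), ← Real.rpow_natCast (esq v ^ _),
    ← Real.rpow_natCast ((esq v + ysq v) ^ _), ← Real.rpow_mul E0, ← Real.rpow_mul Y0]
  have e8 : (1 / 2 - e1) * ((2 : ℕ) : ℝ) = 1 - 2 * e1 := by push_cast; ring
  have e9 : e1 * ((2 : ℕ) : ℝ) = 2 * e1 := by push_cast; ring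
  rw [e8, e9]
  ring

end Pool.Agent.H4NC.MM3
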