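import Pool.Agent.H4NC.StmB
import Pool.Agent.H4LA.Clo3
import Pool.Agent.H4LA.En3

/-!
Project NC, stub MM4: the bound for the `L^q` norm of the vertical average on `[T/2, T)`.
-/

set_option autoImplicit false
set_option linter.unusedVariables false

open MeasureTheory Set Function Filter Topology
open scoped ENNReal ContDiff

namespace Pool.Agent.H4NC.MM4

open H459R3.NS H4LA

theorem cp_rp {h : V → ℝ} (hh : CP h) {r : ℝ} (hr : 0 ≤ r) : CP fun y => h y ^ r :=
  ⟨hh.cont.rpow_const fun _ => Or.inr hr, fun i x => by simp only [hh.per i x]⟩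

/-- Young's inequality for the rate. -/
lemma young {M B α β : ℝ} {s : ℝ} (hM : 1 ≤ M) (hB : 1 ≤ B) (hs : 0 < s) (hα : 0 ≤ α) (hβ : 0 ≤ β)
    (hαβ : α / s + β ≤ 1) : M ^ α * B ^ β ≤ M ^ s + B := by
  have M0 : 0 < M := by linarith
  have B0 : 0 < B := by linarith
  set K : ℝ := max (M ^ s) B with hK
  have K1 : 1 ≤ K := hB.trans (le_max_right _ _)
  have K0 : 0 < K := by linarith
  have h1 : M ^ α ≤ K ^ (α / s) := by
    have e1 : M ^ α = (M ^ s) ^ (α / s) := by
      rw [← Real.rpow_mul M0.le]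
      congr 1
      field_simp
    rw [e1]
    exact Real.rpow_le_rpow (Real.rpow_nonneg M0.le _) (le_max_left _ _) (by positivity)
  have h2 : B ^ β ≤ K ^ β := Real.rpow_le_rpow B0.le (le_max_right _ _) hβ
  have h3 : K ^ (α / s) * K ^ β ≤ K := by
    rw [← Real.rpow_add K0]
    calc K ^ (α / s + β) ≤ K ^ (1 : ℝ) := Real.rpow_le_rpow_of_exponent_le K1 hαβ
      _ = K := Real.rpow_one K
  have h4 : K ≤ M ^ s + B := by
    have p1 : 0 ≤ M ^ s := Real.rpow_nonneg M0.le _
    rw [hK]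
    rcases le_total (M ^ s) B with h | h
    · rw [max_eq_right h]
      linarith
    · rw [max_eq_left h]
      linarith
  calc M ^ α * B ^ β ≤ K ^ (α / s) * K ^ β :=
        mul_le_mul h1 h2 (Real.rpow_nonneg B0.le _) (Real.rpow_nonneg K0.le _)
    _ ≤ K := h3
    _ ≤ _ := h4

theorem t (H1 : MM1) (H2 : MM2) (H3 : MM3) : MM4 := by
  intro ν T u p h hν hT a r q ha hr har hq hqr hqa N N1 hN hb
  obtain ⟨C, hC0, hC⟩ := H3 a r q ha hr hq hqr
  set s : ℝ := 2 / (1 - 1 / a - 2 / r) with hs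
  have hs0 : 0 < s := by
    rw [hs]
    apply div_pos (by norm_num)
    linarith
  set e1 : ℝ := 1 / r + 1 / 2 - 1 / q with he1
  have hr0 : 0 < r := by linarith
  have hq0 : 0 < q := by linarith
  have ha0 : 0 < a := by linarith
  have e10 : 0 ≤ e1 := by
    have h1 : 1 / q ≤ 1 / 2 := one_div_le_one_div_of_le (by norm_num) hq.le
    have h2 : 0 < 1 / r := by positivity
    rw [he1]
    linarith
  have e12 : 2 * e1 ≤ 1 := by
    have h1 : 1 / r ≤ 1 / q := one_div_le_one_div_of_le hq0 hqr.le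
    rw [he1]
    linarith
  have hY : (2 : ℝ) / s + 2 * e1 ≤ 1 := by
    have h1 : 2 / s = 1 - 1 / a - 2 / r := by
      rw [hs]
      have : 0 < 1 - 1 / a - 2 / r := by linarith
      field_simp
    have h2 : 2 * (1 / r) = 2 / r := by ring
    have h3 : 2 * (1 / 2 - 1 / (2 * a)) ≤ 2 * (1 / q) := by linarith
    have h4 : 2 * (1 / (2 * a)) = 1 / a := by
      field_simp
    rw [h1, he1]
    linarith
  have hq2 : 0 ≤ 1 - 2 / q := by
    rw [sub_nonneg, div_le_one hq0]
    exact hq.le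
  -- energy and enstrophy
  set y : ℝ → ℝ := fun t => ysq (fun i y => u t y i) with hy
  have y0 : ∀ t, 0 ≤ y t := fun t => ysq_nonneg _
  have cy : ContinuousOn y (Ico 0 T) := h.enstrophy_continuousOn
  set E0 : ℝ := energy (u 0) with hE0
  have hE00 : 0 ≤ E0 := energy_nonneg _
  have hyD : ∀ t ∈ Ico 0 T, ∫ s in (0 : ℝ)..t, y s ≤ E0 / (2 * ν) := fun t ht =>
    h.int_enstrophy hν ht
  have hyI := integrableOn_of_bdd cy y0 hyD hT
  have hEle : ∀ t ∈ Ico 0 T, esq (fun i y => u t y i) ≤ E0 := fun t ht => h.energy_le hν ht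
  have hsp : ∀ t ∈ Ico 0 T, ∀ i, SP (fun y => u t y i) := fun t ht => h.sp ht
  set X : ℝ → ℝ := fun t => ∫ x in cube, (1 + mm (fun i y => u t y i) x ^ 2) ^ (q / 2) with hX
  have hfin := cube_finite
  have X1 : ∀ t ∈ Ico 0 T, 1 ≤ X t := by
    intro t ht
    have cm : CP (mm (fun i y => u t y i)) := cp_of (mm_sp (hsp t ht))
    have c2 : CP (fun x => (1 + mm (fun i y => u t y i) x ^ 2) ^ (q / 2)) :=
      cp_rp ((CP.const 1).add (cm.pow 2)) (by positivity)
    have h1 : ∫ x in cube, (1 : ℝ) ≤ X t :=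
      integral_mono (integrable_const _) c2.int fun x =>
        Real.one_le_rpow (by nlinarith [sq_nonneg (mm (fun i y => u t y i) x)]) (by positivity)
    rwa [setIntegral_const, Measure.real, volume_cube, ENNReal.toReal_one, one_smul] at h1
  -- the rate
  have hyI' : IntegrableOn y (Ioo 0 T) := by
    rwa [← integrableOn_Ioc_iff_integrableOn_Ioo]
  set w : ℝ → ℝ := fun t => N t ^ s + (1 + E0 + y t) with hw
  have wI : IntegrableOn w (Ioo 0 T) := hN.add ((integrableOn_const (by simp)).add hyI')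
  have N0 : ∀ t ∈ Ioo 0 T, 0 ≤ N t := fun t ht => by linarith [N1 t ht]
  have w0 : ∀ t ∈ Ioo 0 T, 0 ≤ w t := fun t ht =>
    add_nonneg (Real.rpow_nonneg (N0 t ht) _) (by linarith [y0 t])
  set K : ℝ := q ^ 2 / (4 * ν) * (2 * (C * (1 + E0) ^ (1 - 2 * e1))) with hK
  have hK0 : 0 ≤ K := by
    have : 0 ≤ (1 + E0) ^ (1 - 2 * e1) := Real.rpow_nonneg (by linarith) _
    positivity
  have hrate : ∀ t ∈ Ioo 0 T, ∃ D, HasDerivAt X D t ∧ D ≤ K * (w t * X t) := by
    intro t ht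
    have hI : t ∈ Ico 0 T := ⟨ht.1.le, ht.2⟩
    refine ⟨_, H1 ν T u p h q t hq ht, ?_⟩
    refine (H2 ν q hν hq (fun i y => u t y i) (p t) (fun x => dt (fun s y => u s y 2) t x) (hsp t hI)
      (h.divfree t hI) (h.sp_p hI) (fun x => h.dt_eq ht 2 x)).trans ?_
    set v : Fin 3 → V → ℝ := fun i y => u t y i with hv
    have hE : esq v ≤ E0 := hEle t hI
    have hE' : 0 ≤ esq v := esq_nonneg _
    have hyv : 0 ≤ ysq v := y0 t
    have hXt : 1 ≤ X t := X1 t hI
    have hj : ∀ j ∈ HH, ∫ x in cube, (1 + mm v x ^ 2) ^ (q / 2 - 1) * Av 2 (fun y => v j y * bb v y) x ^ 2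
        ≤ C * (1 + E0) ^ (1 - 2 * e1) * (w t * X t) := by
      intro j hjH
      refine (hC (N t) (N1 t ht) v (hsp t hI) (hb t ht) j hjH).trans ?_
      have l1 : X t ^ (1 - 2 / q) ≤ X t := by
        calc X t ^ (1 - 2 / q) ≤ X t ^ (1 : ℝ) :=
              Real.rpow_le_rpow_of_exponent_le hXt (by
                have : 0 ≤ 2 / q := by positivity
                linarith)
          _ = X t := Real.rpow_one _
      have l2 : esq v ^ (1 - 2 * e1) ≤ (1 + E0) ^ (1 - 2 * e1) :=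
        Real.rpow_le_rpow hE' (by linarith) (by linarith)
      have l3 : (esq v + ysq v) ^ (2 * e1) ≤ (1 + E0 + y t) ^ (2 * e1) :=
        Real.rpow_le_rpow (by linarith) (by
          have : ysq v = y t := rfl
          linarith) (by linarith)
      have l4 : N t ^ (2 : ℕ) * (1 + E0 + y t) ^ (2 * e1) ≤ w t := by
        have h5 := young (α := 2) (N1 t ht) (by linarith [y0 t] : (1 : ℝ) ≤ 1 + E0 + y t) hs0
          (by norm_num) (by linarith : 0 ≤ 2 * e1) hY
        rwa [show ((2 : ℝ)) = ((2 : ℕ) : ℝ) by norm_num, Real.rpow_natCast] at h5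
      have n1 : 0 ≤ esq v ^ (1 - 2 * e1) := Real.rpow_nonneg hE' _
      have n2 : 0 ≤ (esq v + ysq v) ^ (2 * e1) := Real.rpow_nonneg (by linarith) _
      have n3 : 0 ≤ (1 + E0) ^ (1 - 2 * e1) := Real.rpow_nonneg (by linarith) _
      have n4 : 0 ≤ N t ^ (2 : ℕ) := by positivity
      have n5 : 0 ≤ X t := by linarith
      have n6 : 0 ≤ w t := w0 t ht
      have n7 : 0 ≤ (1 + E0 + y t) ^ (2 * e1) := Real.rpow_nonneg (by linarith [y0 t]) _
      have l5 : N t ^ (2 : ℕ) * (esq v ^ (1 - 2 * e1) * (esq v + ysq v) ^ (2 * e1))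
          ≤ (1 + E0) ^ (1 - 2 * e1) * w t := by
        calc N t ^ (2 : ℕ) * (esq v ^ (1 - 2 * e1) * (esq v + ysq v) ^ (2 * e1))
            ≤ N t ^ (2 : ℕ) * ((1 + E0) ^ (1 - 2 * e1) * (1 + E0 + y t) ^ (2 * e1)) :=
              mul_le_mul_of_nonneg_left (mul_le_mul l2 l3 n2 n3) n4
          _ = (1 + E0) ^ (1 - 2 * e1) * (N t ^ (2 : ℕ) * (1 + E0 + y t) ^ (2 * e1)) := by ring
          _ ≤ _ := mul_le_mul_of_nonneg_left l4 n3
      calc C * (X t ^ (1 - 2 / q)
            * (N t ^ 2 * (esq v ^ (1 - 2 * e1) * (esq v + ysq v) ^ (2 * e1))))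
          ≤ C * (X t * ((1 + E0) ^ (1 - 2 * e1) * w t)) := by
            apply mul_le_mul_of_nonneg_left _ hC0
            exact mul_le_mul l1 l5 (mul_nonneg n4 (mul_nonneg n1 n2)) n5
        _ = _ := by ring
    have hcard : (HH.card : ℝ) = 2 := by
      have : HH.card = 2 := by decide
      rw [this]
      norm_num
    have hsum : ∑ j ∈ HH, ∫ x in cube, (1 + mm v x ^ 2) ^ (q / 2 - 1)
        * Av 2 (fun y => v j y * bb v y) x ^ 2 ≤ 2 * (C * (1 + E0) ^ (1 - 2 * e1) * (w t * X t)) := by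
      refine (Finset.sum_le_card_nsmul HH _ _ hj).trans (le_of_eq ?_)
      rw [nsmul_eq_mul, hcard]
    have hqν : 0 ≤ q ^ 2 / (4 * ν) := by positivity
    refine (mul_le_mul_of_nonneg_left hsum hqν).trans (le_of_eq ?_)
    rw [hK]
    ring
  -- the logarithm
  set t1 : ℝ := T / 2 with ht1
  have ht1' : t1 ∈ Ioo 0 T := ⟨by positivity, by rw [ht1]; linarith⟩
  set W : ℝ := ∫ r in Ioo 0 T, w r with hW
  have hW0 : 0 ≤ W := setIntegral_nonneg measurableSet_Ioo w0
  have X1' : 1 ≤ X t1 := X1 t1 ⟨ht1'.1.le, ht1'.2⟩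
  refine ⟨X t1 * Real.exp (K * W), ?_, ?_⟩
  · have h1 : 1 ≤ Real.exp (K * W) := Real.one_le_exp (by positivity)
    nlinarith
  intro t ht
  have hsub : Icc t1 t ⊆ Ioo 0 T := fun r hr => ⟨ht1'.1.trans_le hr.1, hr.2.trans_lt ht.2⟩
  have hsub2 : ∀ r ∈ Ioo 0 T, 0 < X r := fun r hr => by linarith [X1 r ⟨hr.1.le, hr.2⟩]
  choose! D hD1 hD2 using hrate
  have hl : ∀ r ∈ Ioo 0 T, HasDerivAt (fun r => Real.log (X r)) (D r / X r) r := by
    intro r hr
    exact (hD1 r hr).log (hsub2 r hr).ne'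
  have h1 := intervalIntegral.sub_le_integral_of_hasDeriv_right_of_le
    (φ := fun r => K * w r) (g := fun r => Real.log (X r)) ht.1
    (fun r hr => (hl r (hsub hr)).continuousAt.continuousWithinAt)
    (fun r hr => (hl r (hsub ⟨hr.1.le, hr.2.le⟩)).hasDerivWithinAt)
    ((wI.mono_set hsub).const_mul K)
    (by
      intro r hr
      have hr' := hsub ⟨hr.1.le, hr.2.le⟩
      rw [div_le_iff₀ (hsub2 r hr')]
      refine (hD2 r hr').trans (le_of_eq ?_)
      ring)
  have h2 : ∫ r in t1..t, K * w r ≤ K * W := by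
    rw [intervalIntegral.integral_const_mul, intervalIntegral.integral_of_le ht.1]
    refine mul_le_mul_of_nonneg_left ?_ hK0
    refine setIntegral_mono_set wI ?_ ?_
    · exact (ae_restrict_iff' measurableSet_Ioo).2 (Filter.Eventually.of_forall w0)
    · exact Filter.Eventually.of_forall
        (fun r hr => ⟨ht1'.1.trans hr.1, hr.2.trans_lt ht.2⟩)
  have h3 : Real.log (X t) ≤ Real.log (X t1) + K * W := by linarith
  have p1 : 0 < X t := by linarith [X1 t ⟨ht1'.1.le.trans ht.1, ht.2⟩]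
  have p2 : 0 < X t1 := by linarith
  have h4 := Real.exp_le_exp.2 h3
  rwa [Real.exp_add, Real.exp_log p1, Real.exp_log p2] at h4

end Pool.Agent.H4NC.MM4
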