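import Pool.Agent.H4NC.StmB

/-!
Project NC: stub R4 (helper19), adapted from `Pool.Agent.H4LA.EtaL` (`y3`, `rate4`).
-/

set_option autoImplicit false
set_option linter.unusedVariables false

open MeasureTheory Set Function Filter Topology
open scoped ENNReal ContDiff

namespace Pool.Agent.H4NC.R4

open H459R3.NS H4LA

/-- the exponents -/
noncomputable def th (a r : ℝ) : ℝ := 1 / a + 2 / r
noncomputable def sL (a r : ℝ) : ℝ := 2 / (1 - th a r)
noncomputable def bL (a r : ℝ) : ℝ := 1 / (1 - th a r)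

/-- The inequality of Young for three factors. -/
theorem y3n {a r K y q p e1 e2 : ℝ} (ha : 2 < a) (hr : 2 < r) (har : 1 / a + 2 / r < 1) (hK : 0 ≤ K) (hy : 0 ≤ y) (hq : 0 ≤ q)
    (hp : 0 ≤ p) (h1 : 0 < e1) (h2 : 0 < e2) :
    K * (y ^ (1 - th a r) * q ^ (1 / a) * p ^ (2 / r))
      ≤ (K * (e1 ^ (-(1 / a)) * e2 ^ (-(2 / r)))) ^ bL a r * y + e1 * q + e2 * p := by
  have ha0 : 0 < a := by linarith
  have hr0 : 0 < r := by linarith
  have hth0 : 0 < th a r := by unfold th; positivity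
  have hth1 : th a r < 1 := har
  have h1θ : 0 < 1 - th a r := by linarith
  have hw : (1 - th a r) + 1 / a + 2 / r = 1 := by
    unfold th
    ring
  set L : ℝ := K * (e1 ^ (-(1 / a)) * e2 ^ (-(2 / r))) with hL
  have hL0 : 0 ≤ L := by positivity
  have k1 := Real.geom_mean_le_arith_mean3_weighted (w₁ := 1 - th a r) (w₂ := 1 / a)
    (w₃ := 2 / r) (p₁ := L ^ bL a r * y) (p₂ := e1 * q) (p₃ := e2 * p) h1θ.le (by positivity)
    (by positivity) (by positivity) (by positivity) (by positivity) hw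
  have e : (L ^ bL a r * y) ^ (1 - th a r) * (e1 * q) ^ (1 / a) * (e2 * p) ^ (2 / r)
      = K * (y ^ (1 - th a r) * q ^ (1 / a) * p ^ (2 / r)) := by
    rw [Real.mul_rpow (by positivity) hy, Real.mul_rpow h1.le hq, Real.mul_rpow h2.le hp,
      ← Real.rpow_mul hL0]
    have : bL a r * (1 - th a r) = 1 := by
      unfold bL
      field_simp
    rw [this, Real.rpow_one, hL, Real.rpow_neg h1.le, Real.rpow_neg h2.le]
    have n1 : e1 ^ (1 / a) ≠ 0 := (Real.rpow_pos_of_pos h1 _).ne'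
    have n2 : e2 ^ (2 / r) ≠ 0 := (Real.rpow_pos_of_pos h2 _).ne'
    field_simp
  rw [e] at k1
  refine k1.trans ?_
  have w1 : (1 - th a r) * (L ^ bL a r * y) ≤ 1 * (L ^ bL a r * y) :=
    mul_le_mul_of_nonneg_right (by linarith) (by positivity)
  have a1 : 0 < 1 / a := by positivity
  have a2 : 0 < 2 / r := by positivity
  have w2 : 1 / a * (e1 * q) ≤ 1 * (e1 * q) :=
    mul_le_mul_of_nonneg_right (by linarith) (by positivity)
  have w3 : 2 / r * (e2 * p) ≤ 1 * (e2 * p) :=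
    mul_le_mul_of_nonneg_right (by linarith) (by positivity)
  linarith

/-- The pointwise bound for the growth of `hsq`. -/
theorem rate4n {a r E E0 η π y cu W C N Q ε τ ν : ℝ} (ha : 2 < a) (hr : 2 < r) (har : 1 / a + 2 / r < 1) (hν : 0 < ν) (hE : 0 ≤ E)
    (hE0 : E ≤ E0) (hη : 0 ≤ η) (hπ : 0 ≤ π) (hy : 0 ≤ y) (hW0 : 0 ≤ W) (hC : 0 ≤ C)
    (hN : 0 < N) (hτ : 0 < τ) (hτ1 : τ ≤ 1) (hε : 0 < ε) (hQ : 0 ≤ Q)
    (hcu : |cu| ≤ 26 * (√W * √π))
    (hW : W ≤ 2 * (E + 2 * (√E * √η)) * (y + 2 * (√y * √(2 * π)))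
      + C * (N ^ 2 * (y ^ (1 - th a r) * (y + Q) ^ (1 / a) * (y + π) ^ (2 / r)))) :
    -(2 * ν * π) - 2 * cu ≤ -(ν * π) + (5408 / ν * (1 + (2 * E0 ^ 2 + 8 * E0))
      + 2 * 10816 ^ 2 / ν ^ 3 * (2 * E0 ^ 2 + 8 * E0) + ν / 4 + ε) * ((1 + η) * y)
      + (2704 / ν * C * (ε ^ (-(1 / a)) * (ν / 4) ^ (-(2 / r)))) ^ bL a r
        * (τ ^ (-(bL a r / a)) * (N ^ sL a r * y)) + ε * τ * Q := by
  set μ : ℝ := E + 2 * (√E * √η) with hμ
  have hE00 : 0 ≤ E0 := hE.trans hE0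
  have hμ0 : 0 ≤ μ := by positivity
  have sπ : √π ^ 2 = π := Real.sq_sqrt hπ
  have sW : √W ^ 2 = W := Real.sq_sqrt hW0
  have sy : √y ^ 2 = y := Real.sq_sqrt hy
  have s2 : √(2 * π) ^ 2 = 2 * π := Real.sq_sqrt (by positivity)
  have h1 : -2 * cu ≤ 52 * (√W * √π) := by
    have := (abs_le.1 hcu).1
    linarith
  have h2 : 52 * (√W * √π) ≤ ν / 4 * π + 2704 / ν * W := by
    have h := yng (ν := ν / 4) (by positivity) 52 (√W) (√π)
    rw [sπ, sW] at h
    refine h.trans (le_of_eq ?_)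
    field_simp
    ring
  have h3 := mul_le_mul_of_nonneg_left hW (by positivity : 0 ≤ 2704 / ν)
  -- the mixed term
  have h4 : 10816 * μ / ν * (√y * √(2 * π)) ≤ ν / 4 * π + 2 * 10816 ^ 2 / ν ^ 3 * μ ^ 2 * y := by
    have h := yng (ν := ν / 8) (by positivity) (10816 * μ / ν) (√y) (√(2 * π))
    rw [s2, sy] at h
    refine h.trans (le_of_eq ?_)
    field_simp
    ring
  -- the term with the second derivatives
  set Q0 : ℝ := 2704 / ν * C * (ε ^ (-(1 / a)) * (ν / 4) ^ (-(2 / r))) with hQ0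
  have hQ00 : 0 ≤ Q0 := by positivity
  set κL : ℝ := Q0 ^ bL a r with hκL
  have h5 : 2704 / ν * (C * (N ^ 2 * (y ^ (1 - th a r) * (y + Q) ^ (1 / a)
      * (y + π) ^ (2 / r)))) ≤ κL * (τ ^ (-(bL a r / a)) * (N ^ sL a r * y))
        + ε * τ * (y + Q) + ν / 4 * (y + π) := by
    have k1 := y3n ha hr har (K := 2704 / ν * C * N ^ 2) (y := y) (q := y + Q) (p := y + π)
      (e1 := ε * τ) (e2 := ν / 4) (by positivity) hy (by linarith) (by linarith)
      (by positivity) (by positivity)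
    have e1 : (2704 / ν * C * N ^ 2 * ((ε * τ) ^ (-(1 / a)) * (ν / 4) ^ (-(2 / r)))) ^ bL a r
        = κL * (τ ^ (-(bL a r / a)) * N ^ sL a r) := by
      have q1 : 2704 / ν * C * N ^ 2 * ((ε * τ) ^ (-(1 / a)) * (ν / 4) ^ (-(2 / r)))
          = Q0 * (τ ^ (-(1 / a)) * N ^ 2) := by
        rw [Real.mul_rpow hε.le hτ.le, hQ0]
        ring
      rw [q1, Real.mul_rpow hQ00 (by positivity),
        Real.mul_rpow (x := τ ^ (-(1 / a))) (y := N ^ 2) (by positivity)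
        (by positivity), ← Real.rpow_mul hτ.le, ← Real.rpow_natCast N 2,
        ← Real.rpow_mul hN.le, ← hκL]
      have q2 : -(1 / a) * bL a r = -(bL a r / a) := by ring
      have q3 : ((2 : ℕ) : ℝ) * bL a r = sL a r := by
        unfold bL sL
        push_cast
        ring
      rw [q2, q3]
    rw [e1] at k1
    refine le_trans (le_of_eq ?_) (k1.trans (le_of_eq ?_))
    · ring
    · ring
  have hμ2 : μ ^ 2 ≤ (2 * E0 ^ 2 + 8 * E0) * (1 + η) := by
    have k1 : μ ^ 2 ≤ 2 * E ^ 2 + 2 * (2 * (√E * √η)) ^ 2 := by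
      rw [hμ]
      linarith only [sq_nonneg (E - 2 * (√E * √η))]
    have k2 : (2 * (√E * √η)) ^ 2 = 4 * (E * η) := by
      rw [mul_pow, mul_pow, Real.sq_sqrt hE, Real.sq_sqrt hη]
      norm_num
    have k3 : E ^ 2 ≤ E0 ^ 2 := pow_le_pow_left₀ hE hE0 2
    have k4 : E * η ≤ E0 * η := mul_le_mul_of_nonneg_right hE0 hη
    have k5 : 0 ≤ E0 ^ 2 * η := by positivity
    rw [k2] at k1
    linarith
  have hμ1 : μ ≤ 1 + μ ^ 2 := by linarith only [sq_nonneg (μ - 1), sq_nonneg μ]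
  set b : ℝ := 2 * E0 ^ 2 + 8 * E0 with hb
  have hb0 : 0 ≤ b := by positivity
  have e1 : 2704 / ν * (2 * μ * (y + 2 * (√y * √(2 * π)))
        + C * (N ^ 2 * (y ^ (1 - th a r) * (y + Q) ^ (1 / a) * (y + π) ^ (2 / r))))
      = 5408 / ν * (μ * y) + 10816 * μ / ν * (√y * √(2 * π))
        + 2704 / ν * (C * (N ^ 2 * (y ^ (1 - th a r) * (y + Q) ^ (1 / a)
          * (y + π) ^ (2 / r)))) := by
    field_simp
    ring
  rw [e1] at h3
  have h7 : μ * y ≤ (1 + b) * ((1 + η) * y) := by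
    have l1 : μ ≤ (1 + b) * (1 + η) := by linarith
    have := mul_le_mul_of_nonneg_right l1 hy
    linarith
  have h8 : μ ^ 2 * y ≤ b * ((1 + η) * y) := by
    have := mul_le_mul_of_nonneg_right hμ2 hy
    linarith
  have h9 := mul_le_mul_of_nonneg_left h7 (by positivity : 0 ≤ 5408 / ν)
  have h10 := mul_le_mul_of_nonneg_left h8 (by positivity : 0 ≤ 2 * 10816 ^ 2 / ν ^ 3)
  have h11 : 0 ≤ ν * π := by positivity
  have h12 : 0 ≤ η * y := by positivity
  have h13 : ε * τ * y ≤ ε * ((1 + η) * y) := by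
    have l1 : τ * y ≤ y := mul_le_of_le_one_left hy hτ1
    have l2 := mul_le_mul_of_nonneg_left l1 hε.le
    have l3 : 0 ≤ ε * (η * y) := by positivity
    linarith
  have h14 : ν / 4 * y ≤ ν / 4 * ((1 + η) * y) := by
    have l3 : 0 ≤ ν / 4 * (η * y) := by positivity
    linarith
  linarith

theorem t : Pool.Agent.H4NC.R4 := by
  intro a r E0 C ε ν ha hr har hν hε hC
  have ha0 : 0 < a := by linarith
  have hr0 : 0 < r := by linarith
  by_cases hE00 : 0 ≤ E0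
  · refine ⟨(5408 / ν * (1 + (2 * E0 ^ 2 + 8 * E0))
      + 2 * 10816 ^ 2 / ν ^ 3 * (2 * E0 ^ 2 + 8 * E0) + ν / 4 + ε)
      + (2704 / ν * C * (ε ^ (-(1 / a)) * (ν / 4) ^ (-(2 / r)))) ^ bL a r, by positivity, ?_⟩
    intro E η π y cu W N Q hE hE0 hη hπ hy hW0 hN hQ hcu hW
    have hN0 : 0 < N := by linarith
    have e1 : 1 - th a r = 1 - 1 / a - 2 / r := by unfold th; ring
    have e2 : sL a r = 2 / (1 - 1 / a - 2 / r) := by unfold sL; rw [e1]
    have h := rate4n (τ := 1) (cu := cu) ha hr har hν hE hE0 hη hπ hy hW0 hC hN0 one_pos le_rfl hε hQ hcu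
      (by rw [e1]; exact hW)
    rw [e2, Real.one_rpow, one_mul, mul_one] at h
    set K1 := 5408 / ν * (1 + (2 * E0 ^ 2 + 8 * E0))
      + 2 * 10816 ^ 2 / ν ^ 3 * (2 * E0 ^ 2 + 8 * E0) + ν / 4 + ε with hK1
    set K2 := (2704 / ν * C * (ε ^ (-(1 / a)) * (ν / 4) ^ (-(2 / r)))) ^ bL a r with hK2
    have hK10 : 0 ≤ K1 := by positivity
    have hK20 : 0 ≤ K2 := by positivity
    have h1 : 0 ≤ K1 * (N ^ (2 / (1 - 1 / a - 2 / r)) * y) := by positivity
    have h2 : 0 ≤ K2 * ((1 + η) * y) := by positivity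
    linarith
  · refine ⟨0, le_rfl, ?_⟩
    intro E η π y cu W N Q hE hE0
    exact absurd (hE.trans hE0) hE00

end Pool.Agent.H4NC.R4
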