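import Pool.Agent.H4LA.Clo
import Pool.Agent.H4LA.En3
import Pool.Agent.H4NC.StmB

/-!
Project NC: the bound for the slice energies near the time `T`.
-/

set_option autoImplicit false
set_option linter.unusedVariables false

open MeasureTheory Set Function Filter Topology
open scoped ENNReal ContDiff

namespace Pool.Agent.H4NC

open H459R3.NS H4LA

namespace SUP

theorem Lz_mono {s : ℝ} (hs : 0 < s) {N : ℝ → ℝ} {t0 t T : ℝ} (h : t ≤ T) :
    Lz s N t0 t ≤ Lz s N t0 T := by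
  unfold Lz
  refine lintegral_mono fun lam => ?_
  refine ENNReal.rpow_le_rpow (measure_mono ?_) (by positivity)
  rintro x ⟨h1, h2⟩
  exact ⟨⟨h1.1, h1.2.trans_le h⟩, h2⟩

/-- The time integrals as integrals of real functions. -/
theorem tint (hA7 : A7) {s p : ℝ} (hp : 1 ≤ p) (hps : p < s) :
    ∃ C : ℝ, 0 ≤ C ∧ ∀ (N : ℝ → ℝ) (t0 t T t1 L : ℝ), t ≤ t1 → t ≤ T →
      (∀ x ∈ Ioo t0 T, 0 ≤ N x) → AEMeasurable N (volume.restrict (Ioo t0 T)) → 0 ≤ L →
      Lz s N t0 T ≤ ENNReal.ofReal L →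
      IntegrableOn (fun x => (t1 - x) ^ (p / s - 1) * N x ^ p) (Ioo t0 t) ∧
      ∫ x in Ioo t0 t, (t1 - x) ^ (p / s - 1) * N x ^ p ≤ C * L ^ p := by
  obtain ⟨C, hC0, hC⟩ := hA7 s p hp hps
  refine ⟨C, hC0, ?_⟩
  intro N t0 t T t1 L ht1 htT hN mN hL hLz
  have hsub : Ioo t0 t ⊆ Ioo t0 T := Ioo_subset_Ioo le_rfl htT
  have mN' : AEMeasurable N (volume.restrict (Ioo t0 t)) := mN.mono_set hsub
  have hp0 : 0 ≤ p := by linarith
  have k1 := hC N t0 t t1 ht1 (fun x hx => hN x (hsub hx)) mN'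
  have k2 : Lz s N t0 t ^ p ≤ ENNReal.ofReal (L ^ p) := by
    rw [← ENNReal.ofReal_rpow_of_nonneg hL hp0]
    exact ENNReal.rpow_le_rpow ((Lz_mono (by linarith) htT).trans hLz) hp0
  have k3 : ∫⁻ x in Ioo t0 t, ENNReal.ofReal ((t1 - x) ^ (p / s - 1) * N x ^ p)
      ≤ ENNReal.ofReal (C * L ^ p) := by
    rw [ENNReal.ofReal_mul hC0]
    exact k1.trans (mul_le_mul_right k2 _)
  have n0 : 0 ≤ᵐ[volume.restrict (Ioo t0 t)] fun x => (t1 - x) ^ (p / s - 1) * N x ^ p := by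
    rw [EventuallyLE, ae_restrict_iff' measurableSet_Ioo]
    refine Eventually.of_forall fun x hx => ?_
    have h1 := hN x (hsub hx)
    have h2 : 0 ≤ t1 - x := by linarith [hx.2]
    exact mul_nonneg (Real.rpow_nonneg h2 _) (Real.rpow_nonneg h1 _)
  have m0 : AEStronglyMeasurable (fun x => (t1 - x) ^ (p / s - 1) * N x ^ p)
      (volume.restrict (Ioo t0 t)) := by
    have e1 : AEMeasurable (fun x : ℝ => (t1 - x) ^ (p / s - 1)) (volume.restrict (Ioo t0 t)) :=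
      ((measurable_const.sub measurable_id).pow_const _).aemeasurable
    exact (e1.mul (mN'.pow_const p)).aestronglyMeasurable
  have hi : Integrable (fun x => (t1 - x) ^ (p / s - 1) * N x ^ p)
      (volume.restrict (Ioo t0 t)) := by
    refine ⟨m0, ?_⟩
    rw [hasFiniteIntegral_iff_ofReal n0]
    exact k3.trans_lt ENNReal.ofReal_lt_top
  refine ⟨hi, ?_⟩
  have k4 := ofReal_integral_eq_lintegral_ofReal hi n0
  rw [← k4] at k3
  exact (ENNReal.ofReal_le_ofReal_iff (by positivity)).1 k3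

/-- The integral of the power of the time. -/
theorem tpow {β t0 t t1 : ℝ} (hβ0 : 0 < β) (hβ : β < 1) (h0 : t0 ≤ t) (h1 : t < t1) :
    ∫ x in t0..t, (t1 - x) ^ (-β) ≤ (t - t0) ^ (1 - β) / (1 - β) := by
  have h1β : 0 < 1 - β := by linarith
  have e1 : ∫ x in t0..t, (t1 - x) ^ (-β) = ∫ x in (t1 - t)..(t1 - t0), x ^ (-β) :=
    intervalIntegral.integral_comp_sub_left (fun x => x ^ (-β)) t1
  have e2 : ∫ x in (t1 - t)..(t1 - t0), x ^ (-β)
      = ((t1 - t0) ^ (-β + 1) - (t1 - t) ^ (-β + 1)) / (-β + 1) :=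
    integral_rpow (Or.inl (by linarith))
  have e3 : -β + 1 = 1 - β := by ring
  rw [e1, e2, e3]
  refine div_le_div_of_nonneg_right ?_ h1β.le
  have k := Real.rpow_add_le_add_rpow (p := 1 - β) (by linarith : 0 ≤ t - t0)
    (by linarith : 0 ≤ t1 - t) h1β.le (by linarith)
  have e4 : t - t0 + (t1 - t) = t1 - t0 := by ring
  rw [e4] at k
  linarith

/-- Nonnegative functions which are small, near the end of the interval. -/
theorem budget {c1 β s T : ℝ} (hc : 0 < c1) (hβ0 : 0 < β) (hβ : β < 1) (hs : 0 < s) (hT : 0 < T)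
    (hA8 : A8) {N : ℝ → ℝ} (mN : AEMeasurable N (volume.restrict (Ioo 0 T)))
    (hL : Lz s N 0 T ≠ ⊤) {L : ℝ} (hL0 : 0 < L) :
    ∃ t0 : ℝ, T / 2 ≤ t0 ∧ t0 < T ∧ T - t0 ≤ 1 / 2 ∧ T - t0 ≤ c1 ∧
      (T - t0) ^ (1 - β) / (1 - β) ≤ c1 ∧ Lz s N t0 T ≤ ENNReal.ofReal L := by
  have h1β : 0 < 1 - β := by linarith
  set m : ℝ := min (T / 2) (min (1 / 2) (min c1 ((c1 * (1 - β)) ^ (1 / (1 - β))))) with hm
  have hm0 : 0 < m := by
    rw [hm]
    refine lt_min (by positivity) (lt_min (by norm_num) (lt_min hc ?_))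
    exact Real.rpow_pos_of_pos (mul_pos hc h1β) _
  obtain ⟨t0, h1, h2, h3, h4⟩ := hA8 s N T hs hT mN hL (ENNReal.ofReal L)
    (ENNReal.ofReal_pos.2 hL0) (T - m) (by linarith)
  have l1 : m ≤ T / 2 := min_le_left _ _
  have l2 : m ≤ 1 / 2 := (min_le_right _ _).trans (min_le_left _ _)
  have l3 : m ≤ c1 := (min_le_right _ _).trans ((min_le_right _ _).trans (min_le_left _ _))
  have l4 : m ≤ (c1 * (1 - β)) ^ (1 / (1 - β)) :=
    (min_le_right _ _).trans ((min_le_right _ _).trans (min_le_right _ _))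
  refine ⟨t0, by linarith, h3, by linarith, by linarith, ?_, h4⟩
  rw [div_le_iff₀ h1β]
  have k1 : T - t0 ≤ (c1 * (1 - β)) ^ (1 / (1 - β)) := by linarith
  have k2 := Real.rpow_le_rpow (by linarith) k1 h1β.le
  rwa [← Real.rpow_mul (by positivity), one_div_mul_cancel h1β.ne', Real.rpow_one] at k2

variable {ν T : ℝ} {u : ℝ → V → V} {p : ℝ → V → ℝ}

/-- The integral in time. -/
theorem step (h : IsSol ν T u p) (hν : 0 < ν) {a r C β C1 C2 κ : ℝ}
    (hκ : 0 < κ) (hE1 : E1) (hC0 : 0 ≤ C) (hβ0 : 0 < β) (hβ : β < 1) {N : ℝ → ℝ}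
    {t0 L : ℝ} (ht0 : 0 < t0) (hT0 : T - t0 ≤ 1 / 2)
    (hrate : ∀ τ z D : ℝ, 0 < τ → τ ≤ 1 → 1 ≤ D → ∀ t ∈ Ico t0 T,
      (∀ x, Hz (vsq (fun i y => u t y i)) x ≤ D) →
      -(∫ x in cube, wt κ τ (x 2 - z) * vsq (ww (fun i y => u t y i)) x)
        + 2 * ∫ x in cube, wk κ τ (x 2 - z) * ∑ i, ww (fun i y => u t y i) i x
          * sb (fun i => dt (fun s y => u s y i) t) i x
      ≤ C * (1 + ysq (fun i y => u t y i))
        + C * (D * (1 + τ ^ (-β) + N t * τ ^ ((1 - 1 / a - 2 / r) / 2 - 1)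
        + N t ^ (2 * r / (r - 2)) * τ ^ (2 * r / (r - 2) * ((1 - 1 / a - 2 / r) / 2) - 1))))
    (hi1 : ∀ t t1 : ℝ, t ≤ t1 → t ≤ T →
      IntegrableOn (fun x => (t1 - x) ^ ((1 - 1 / a - 2 / r) / 2 - 1) * N x) (Ioo t0 t) ∧
      ∫ x in Ioo t0 t, (t1 - x) ^ ((1 - 1 / a - 2 / r) / 2 - 1) * N x ≤ C1)
    (hi2 : ∀ t t1 : ℝ, t ≤ t1 → t ≤ T →
      IntegrableOn (fun x => (t1 - x) ^ (2 * r / (r - 2) * ((1 - 1 / a - 2 / r) / 2) - 1)
        * N x ^ (2 * r / (r - 2))) (Ioo t0 t) ∧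
      ∫ x in Ioo t0 t, (t1 - x) ^ (2 * r / (r - 2) * ((1 - 1 / a - 2 / r) / 2) - 1)
        * N x ^ (2 * r / (r - 2)) ≤ C2)
    {t : ℝ} (ht : t ∈ Ico t0 T) {D : ℝ} (hD1 : 1 ≤ D)
    (hD : ∀ s ∈ Icc t0 t, ∀ x, Hz (vsq (fun i y => u s y i)) x ≤ D) (z : ℝ) {δ : ℝ} (hδ : 0 < δ)
    (hδ1 : δ < 1 / 2) :
    ∫ x in cube, wk κ δ (x 2 - z) * vsq (ww (fun i y => u t y i)) x
      ≤ (∫ x in cube, wk κ (t + δ - t0) (x 2 - z) * vsq (ww (fun i y => u t0 y i)) x)
        + C * (T + energy (u 0) / (2 * ν))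
        + C * (D * (T - t0 + (T - t0) ^ (1 - β) / (1 - β) + C1 + C2)) := by
  have hT : 0 < T := ht0.trans_le (ht.1.trans ht.2.le)
  set y : ℝ → ℝ := fun t => ysq (fun i y => u t y i) with hy
  have y0 : ∀ t, 0 ≤ y t := fun t => ysq_nonneg _
  have cy : ContinuousOn y (Ico 0 T) := h.enstrophy_continuousOn
  have hyD : ∀ t ∈ Ico 0 T, ∫ s in (0 : ℝ)..t, y s ≤ energy (u 0) / (2 * ν) := fun t ht =>
    h.int_enstrophy hν ht
  set θ1 : ℝ := (1 - 1 / a - 2 / r) / 2 - 1 with hθ1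
  set P : ℝ := 2 * r / (r - 2) with hP
  set θ2 : ℝ := P * ((1 - 1 / a - 2 / r) / 2) - 1 with hθ2
  set t1 : ℝ := t + δ with ht1
  set φ : ℝ → ℝ := fun s => C * (1 + y s) + C * (D * (1 + (t1 - s) ^ (-β)
    + (t1 - s) ^ θ1 * N s + (t1 - s) ^ θ2 * N s ^ P)) with hφ
  have hsub : Icc t0 t ⊆ Ioo 0 T := fun s hs => ⟨ht0.trans_le hs.1, hs.2.trans_lt ht.2⟩
  set D' : ℝ → ℝ := fun s => -(∫ x in cube, wt κ (t1 - s) (x 2 - z) * vsq (ww (fun i y => u s y i)) x)
      + 2 * ∫ x in cube, wk κ (t1 - s) (x 2 - z) * ∑ i, ww (fun i y => u s y i) i x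
        * sb (fun i => dt (fun s y => u s y i) s) i x with hD'
  set F : ℝ → ℝ := fun s => ∫ x in cube, wk κ (t1 - s) (x 2 - z) * vsq (ww (fun i y => u s y i)) x
    with hF
  have hder : ∀ s ∈ Icc t0 t, HasDerivAt F (D' s) s := fun s hs =>
    hE1 ν T u p h κ t1 z s hκ (hsub hs) (by rw [ht1]; linarith [hs.2])
  have hle : ∀ s ∈ Icc t0 t, D' s ≤ φ s := by
    intro s hs
    have hτ0 : 0 < t1 - s := by rw [ht1]; linarith [hs.2]
    have hτ1 : t1 - s ≤ 1 := by rw [ht1]; linarith [hs.1, ht.2]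
    have k := hrate (t1 - s) z D hτ0 hτ1 hD1 s ⟨hs.1, hs.2.trans_lt ht.2⟩ (hD s hs)
    simp only [hD', hφ]
    refine k.trans (le_of_eq ?_)
    ring
  -- integrability
  have hIoo : ∀ f : ℝ → ℝ, IntegrableOn f (Ioo t0 t) → IntegrableOn f (Icc t0 t) := fun f hf => by
    rwa [integrableOn_Icc_iff_integrableOn_Ioo]
  obtain ⟨j1, j1'⟩ := hi1 t t1 (by rw [ht1]; linarith) ht.2.le
  obtain ⟨j2, j2'⟩ := hi2 t t1 (by rw [ht1]; linarith) ht.2.le
  have i0 : IntegrableOn (fun s => C * (1 + y s)) (Icc t0 t) := by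
    apply ContinuousOn.integrableOn_Icc
    exact continuousOn_const.mul (continuousOn_const.add (cy.mono fun s hs =>
      ⟨(hsub hs).1.le, (hsub hs).2⟩))
  have cβ : ContinuousOn (fun s => (t1 - s) ^ (-β)) (Icc t0 t) := by
    refine (continuousOn_const.sub continuousOn_id).rpow_const fun s hs => Or.inl ?_
    have : 0 < t1 - s := by rw [ht1]; linarith [hs.2]
    exact this.ne'
  have i1 : IntegrableOn (fun s => (t1 - s) ^ (-β)) (Icc t0 t) := cβ.integrableOn_Icc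
  have ic : IntegrableOn (fun _ : ℝ => (1 : ℝ)) (Icc t0 t) := integrableOn_const (by simp)
  have iA : IntegrableOn (fun s => 1 + (t1 - s) ^ (-β)) (Icc t0 t) := ic.add i1
  have iB : IntegrableOn (fun s => 1 + (t1 - s) ^ (-β) + (t1 - s) ^ θ1 * N s) (Icc t0 t) :=
    iA.add (hIoo _ j1)
  have iC : IntegrableOn (fun s => 1 + (t1 - s) ^ (-β) + (t1 - s) ^ θ1 * N s
      + (t1 - s) ^ θ2 * N s ^ P) (Icc t0 t) := iB.add (hIoo _ j2)
  have iφ : IntegrableOn φ (Icc t0 t) := i0.add ((iC.const_mul D).const_mul C)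
  have key := intervalIntegral.sub_le_integral_of_hasDeriv_right_of_le (g := F) (φ := φ) ht.1
    (fun s hs => (hder s hs).continuousAt.continuousWithinAt)
    (fun s hs => (hder s ⟨hs.1.le, hs.2.le⟩).hasDerivWithinAt) iφ
    (fun s hs => hle s ⟨hs.1.le, hs.2.le⟩)
  -- the value of the integral
  have toI : ∀ f : ℝ → ℝ, IntegrableOn f (Icc t0 t) → IntervalIntegrable f volume t0 t :=
    fun f hf => by
      rw [intervalIntegrable_iff_integrableOn_Icc_of_le ht.1]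
      exact hf
  have v0 : ∫ s in t0..t, C * (1 + y s) ≤ C * (T + energy (u 0) / (2 * ν)) := by
    rw [intervalIntegral.integral_const_mul]
    refine mul_le_mul_of_nonneg_left ?_ hC0
    have iy : IntervalIntegrable y volume t0 t := toI _ (ContinuousOn.integrableOn_Icc
      (cy.mono fun s hs => ⟨(hsub hs).1.le, (hsub hs).2⟩))
    rw [intervalIntegral.integral_add intervalIntegrable_const iy, intervalIntegral.integral_const,
      smul_eq_mul, mul_one]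
    have iy0 : IntervalIntegrable y volume 0 t0 := by
      apply ContinuousOn.intervalIntegrable
      rw [uIcc_of_le ht0.le]
      exact cy.mono fun s hs => ⟨hs.1, hs.2.trans_lt (ht.1.trans_lt ht.2)⟩
    have k1 := intervalIntegral.integral_add_adjacent_intervals iy0 iy
    have k2 : 0 ≤ ∫ s in (0 : ℝ)..t0, y s :=
      intervalIntegral.integral_nonneg ht0.le fun s _ => y0 s
    have k3 := hyD t ⟨ht0.le.trans ht.1, ht.2⟩
    have := ht.2
    linarith
  have v1 : ∫ s in t0..t, (t1 - s) ^ (-β) ≤ (T - t0) ^ (1 - β) / (1 - β) := by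
    refine (tpow hβ0 hβ ht.1 (by rw [ht1]; linarith)).trans ?_
    refine div_le_div_of_nonneg_right ?_ (by linarith)
    exact Real.rpow_le_rpow (by linarith [ht.1]) (by linarith [ht.2]) (by linarith)
  have v2 : ∫ s in t0..t, (t1 - s) ^ θ1 * N s ≤ C1 := by
    rwa [intervalIntegral.integral_of_le ht.1, integral_Ioc_eq_integral_Ioo]
  have v3 : ∫ s in t0..t, (t1 - s) ^ θ2 * N s ^ P ≤ C2 := by
    rwa [intervalIntegral.integral_of_le ht.1, integral_Ioc_eq_integral_Ioo]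
  have e1 : ∫ s in t0..t, φ s = (∫ s in t0..t, C * (1 + y s)) + C * (D * ((t - t0)
      + (∫ s in t0..t, (t1 - s) ^ (-β)) + (∫ s in t0..t, (t1 - s) ^ θ1 * N s)
      + ∫ s in t0..t, (t1 - s) ^ θ2 * N s ^ P)) := by
    simp only [hφ]
    rw [intervalIntegral.integral_add (toI _ i0) (toI _ ((iC.const_mul D).const_mul C)),
      intervalIntegral.integral_const_mul, intervalIntegral.integral_const_mul (r := C),
      intervalIntegral.integral_const_mul (r := D),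
      intervalIntegral.integral_add (toI _ iB) (toI _ (hIoo _ j2)),
      intervalIntegral.integral_add (toI _ iA) (toI _ (hIoo _ j1)),
      intervalIntegral.integral_add (toI _ ic) (toI _ i1), intervalIntegral.integral_const,
      smul_eq_mul, mul_one]
  have eF : F t = ∫ x in cube, wk κ δ (x 2 - z) * vsq (ww (fun i y => u t y i)) x := by
    simp only [hF]
    have : t1 - t = δ := by rw [ht1]; ring
    rw [this]
  rw [e1, eF] at key
  have hD0 : 0 ≤ D := by linarith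
  have k4 : C * (D * ((t - t0) + (∫ s in t0..t, (t1 - s) ^ (-β))
      + (∫ s in t0..t, (t1 - s) ^ θ1 * N s) + ∫ s in t0..t, (t1 - s) ^ θ2 * N s ^ P))
      ≤ C * (D * (T - t0 + (T - t0) ^ (1 - β) / (1 - β) + C1 + C2)) := by
    refine mul_le_mul_of_nonneg_left (mul_le_mul_of_nonneg_left ?_ hD0) hC0
    have := ht.2
    linarith
  have eF0 : F t0 = ∫ x in cube, wk κ (t + δ - t0) (x 2 - z)
      * vsq (ww (fun i y => u t0 y i)) x := rfl
  rw [eF0] at key
  linarith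

end SUP

/-- The bound for the slice energies near the time `T`. -/
theorem SUP.t (hKS : KS) (hA7 : A7) (hA8 : A8) (hA9 : A9) (hE1 : E1) (hLB : LB) (hMM4 : MM4)
    (hB0 : B0) : SUP := by
  intro ν T u p h hν hT a r ha hr har N N1 mN hL hM
  have ha0 : 0 < a := by linarith
  have hr0 : 0 < r := by linarith
  have hr2 : 0 < r - 2 := by linarith
  have hx0 : 0 < 1 - 1 / a - 2 / r := by linarith
  set σ : ℝ := (1 - 1 / a - 2 / r) / 2 with hσ
  have hσ0 : 0 < σ := by positivity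
  set s : ℝ := 2 / (1 - 1 / a - 2 / r) with hs
  have hs0 : 0 < s := by positivity
  have hsσ : s = 1 / σ := by
    rw [hs, hσ]
    field_simp
  have i1a : 0 < 1 / a := by positivity
  have i1r : 0 < 1 / r := by positivity
  have e2r : 2 / r = 2 * (1 / r) := by ring
  have hσ2 : σ < 1 / 2 := by
    rw [hσ, e2r]
    linarith
  have hs2 : 2 < s := by
    rw [hsσ, lt_div_iff₀ hσ0]
    linarith
  set P : ℝ := 2 * r / (r - 2) with hP
  have hPi : 1 / P = 1 / 2 - 1 / r := by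
    rw [hP]
    field_simp
  have hP0 : 0 < P := by positivity
  have hP1 : 1 ≤ P := by
    rw [hP, le_div_iff₀ hr2]
    linarith
  have hPs : P < s := by
    have k1 : σ < 1 / P := by
      rw [hPi, hσ, e2r]
      linarith
    rw [hsσ, lt_div_iff₀ hσ0]
    rwa [lt_div_iff₀ hP0, mul_comm] at k1
  have N0 : ∀ t ∈ Ioo 0 T, 0 ≤ N t := fun t ht => by linarith [N1 t ht]
  have hNs : IntegrableOn (fun t => N t ^ s) (Ioo 0 T) := hA9 s N T (by linarith) N0 mN hL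
  -- the exponent for the mean
  set ϖ : ℝ := min (1 / (2 * a)) ((1 / 2 - 1 / r) / 2) with hϖ
  have hr12 : 1 / r < 1 / 2 := one_div_lt_one_div_of_lt (by norm_num) hr
  have ha12 : 1 / a < 1 / 2 := one_div_lt_one_div_of_lt (by norm_num) ha
  have hϖ0 : 0 < ϖ := lt_min (by positivity) (by linarith)
  have hϖ1 : ϖ ≤ 1 / (2 * a) := min_le_left _ _
  have hϖ2 : ϖ ≤ (1 / 2 - 1 / r) / 2 := min_le_right _ _
  have hϖ3 : 0 < 1 / 2 - ϖ := by linarith
  set q : ℝ := 1 / (1 / 2 - ϖ) with hq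
  have hqi : 1 / q = 1 / 2 - ϖ := by
    rw [hq, one_div_one_div]
  have hq2 : 2 < q := by
    rw [hq, lt_div_iff₀ hϖ3]
    linarith
  have hqr : q < r := by
    rw [hq, div_lt_iff₀ hϖ3]
    have k1 : r * (1 / r) = 1 := by field_simp
    have k2 : (1 / 2 + 1 / r) / 2 ≤ 1 / 2 - ϖ := by linarith
    have k3 := mul_le_mul_of_nonneg_left k2 hr0.le
    linarith
  have hqa : 1 / 2 - 1 / (2 * a) ≤ 1 / q := by
    rw [hqi]
    linarith
  obtain ⟨Q, hQ1, hQ⟩ := hMM4 ν T u p h hν hT a r q ha hr har hq2 hqr hqa N N1 hNs hM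
  set E0 : ℝ := energy (u 0) with hE0
  have hE00 : 0 ≤ E0 := energy_nonneg _
  obtain ⟨C, β, hC0, hβ0, hβ1, hC⟩ := hKS ν a r q E0 Q hν ha hr har hq2 hE00 hQ1
  set κ : ℝ := 4 * Real.pi ^ 2 * ν with hκ
  have hκ0 : 0 < κ := by positivity
  obtain ⟨CL, hCL0, hCL⟩ := hLB κ hκ0
  obtain ⟨CW, hCW0, hCW⟩ := hB0 κ hκ0
  obtain ⟨C1, hC10, hC1⟩ := SUP.tint hA7 (s := s) (p := 1) le_rfl (by linarith)
  obtain ⟨C2, hC20, hC2⟩ := SUP.tint hA7 (s := s) (p := P) hP1 hPs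
  -- the constants
  set c1 : ℝ := 1 / (16 * (CL * C + 1)) with hc1
  have hc10 : 0 < c1 := by positivity
  set L : ℝ := min 1 (c1 / (C1 + C2 + 1)) with hL'
  have hLpos : 0 < L := lt_min one_pos (by positivity)
  have hL1 : L ≤ 1 := min_le_left _ _
  have hL2 : L ≤ c1 / (C1 + C2 + 1) := min_le_right _ _
  obtain ⟨t0, g1, g2, g3, g4, g5, g6⟩ := SUP.budget hc10 hβ0 hβ1 hs0 hT hA8 mN hL hLpos
  have ht0 : 0 < t0 := by linarith [half_pos hT]
  have ht0' : t0 ∈ Ioo 0 T := ⟨ht0, g2⟩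
  have hsubI : Ioo t0 T ⊆ Ioo 0 T := Ioo_subset_Ioo ht0.le le_rfl
  have mN' : AEMeasurable N (volume.restrict (Ioo t0 T)) := mN.mono_set hsubI
  have b1 : C1 * L ^ (1 : ℝ) ≤ c1 := by
    rw [Real.rpow_one]
    rw [le_div_iff₀ (by positivity)] at hL2
    have : 0 ≤ L * (C2 + 1) := by positivity
    linarith
  have b2 : C2 * L ^ P ≤ c1 := by
    have k1 : L ^ P ≤ L := by
      have := Real.rpow_le_rpow_of_exponent_ge hLpos hL1 hP1
      rwa [Real.rpow_one] at this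
    have k2 := mul_le_mul_of_nonneg_left k1 hC20
    rw [le_div_iff₀ (by positivity)] at hL2
    have : 0 ≤ L * (C1 + 1) := by positivity
    linarith
  have ps1 : (1 : ℝ) / s - 1 = σ - 1 := by
    rw [hsσ, one_div_one_div]
  have ps2 : P / s - 1 = P * σ - 1 := by
    rw [hsσ]
    field_simp
  have hi1 : ∀ t t1 : ℝ, t ≤ t1 → t ≤ T →
      IntegrableOn (fun x => (t1 - x) ^ (σ - 1) * N x) (Ioo t0 t) ∧
      ∫ x in Ioo t0 t, (t1 - x) ^ (σ - 1) * N x ≤ c1 := by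
    intro t t1 h1 h2
    have k := hC1 N t0 t T t1 L h1 h2 (fun x hx => N0 x (hsubI hx)) mN' hLpos.le g6
    rw [ps1] at k
    simp only [Real.rpow_one] at k
    rw [Real.rpow_one] at b1
    exact ⟨k.1, k.2.trans b1⟩
  have hi2 : ∀ t t1 : ℝ, t ≤ t1 → t ≤ T →
      IntegrableOn (fun x => (t1 - x) ^ (P * σ - 1) * N x ^ P) (Ioo t0 t) ∧
      ∫ x in Ioo t0 t, (t1 - x) ^ (P * σ - 1) * N x ^ P ≤ c1 := by
    intro t t1 h1 h2
    have k := hC2 N t0 t T t1 L h1 h2 (fun x hx => N0 x (hsubI hx)) mN' hLpos.le g6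
    rw [ps2] at k
    exact ⟨k.1, k.2.trans b2⟩
  have hrate : ∀ τ z D : ℝ, 0 < τ → τ ≤ 1 → 1 ≤ D → ∀ t ∈ Ico t0 T,
      (∀ x, Hz (vsq (fun i y => u t y i)) x ≤ D) →
      -(∫ x in cube, wt κ τ (x 2 - z) * vsq (ww (fun i y => u t y i)) x)
        + 2 * ∫ x in cube, wk κ τ (x 2 - z) * ∑ i, ww (fun i y => u t y i) i x
          * sb (fun i => dt (fun s y => u s y i) t) i x
      ≤ C * (1 + ysq (fun i y => u t y i))
        + C * (D * (1 + τ ^ (-β) + N t * τ ^ (σ - 1) + N t ^ P * τ ^ (P * σ - 1))) := by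
    intro τ z D hτ hτ1 hD1 t ht hD
    have hI : t ∈ Ioo 0 T := ⟨ht0.trans_le ht.1, ht.2⟩
    have hI' : t ∈ Ico 0 T := ⟨hI.1.le, hI.2⟩
    exact hC κ hκ τ z (N t) D hτ hτ1 (N1 t hI) hD1 (fun i y => u t y i) (p t)
      (fun i => dt (fun s y => u s y i) t) (h.sp hI') (h.divfree t hI') (h.sp_p hI')
      (press_eq h hI) (fun i x => h.dt_eq hI i x) (h.energy_le hν hI') (hM t hI) hD
      (hQ t ⟨g1.trans ht.1, ht.2⟩)
  -- the energy at the time `t0`
  set y : ℝ → ℝ := fun t => ysq (fun i y => u t y i) with hy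
  have y0 : ∀ t, 0 ≤ y t := fun t => ysq_nonneg _
  have cy : ContinuousOn y (Ico 0 T) := h.enstrophy_continuousOn
  set S0 : ℝ := 10 * E0 + 6 * y t0 with hS0
  have hS00 : 0 ≤ S0 := by
    have := y0 t0
    positivity
  have start : ∀ τ z : ℝ, 0 < τ → τ ≤ 1 →
      ∫ x in cube, wk κ τ (x 2 - z) * vsq (ww (fun i y => u t0 y i)) x ≤ CW * S0 := by
    intro τ z hτ hτ1
    obtain ⟨q1, q2, q3, q4, q5, q6⟩ := hCW τ z hτ hτ1
    have hI' : t0 ∈ Ico 0 T := ⟨ht0.le, g2⟩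
    have hv := h.sp hI'
    have cV : CP (vsq (ww (fun i y => u t0 y i))) := cp_of (vsq_sp (ww_sp hv))
    have k1 : ∫ x in cube, Wt κ τ z x * vsq (ww (fun i y => u t0 y i)) x
        = ∫ x in cube, Wt κ τ z x * Hz (vsq (ww (fun i y => u t0 y i))) x :=
      (int_mul_Hz cV (cp_of q1) q2).symm
    have k2 : ∀ x, Hz (vsq (ww (fun i y => u t0 y i))) x ≤ S0 := by
      intro x
      have l1 := Hz_ww_le hv x
      have l2 := Hz_vsq_le hv x
      have l3 : esq (fun i y => u t0 y i) ≤ E0 := h.energy_le hν hI'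
      have l4 : ysq (fun i y => u t0 y i) = y t0 := rfl
      linarith
    have k3 : ∫ x in cube, Wt κ τ z x * Hz (vsq (ww (fun i y => u t0 y i))) x
        ≤ ∫ x in cube, Wt κ τ z x * S0 :=
      integral_mono ((cp_of q1).mul cV.hz).int ((cp_of q1).mul (CP.const S0)).int fun x =>
        mul_le_mul_of_nonneg_left (k2 x) (q3 x).le
    rw [integral_mul_const] at k3
    have k4 := mul_le_mul_of_nonneg_right q6 hS00
    have k5 : ∫ x in cube, wk κ τ (x 2 - z) * vsq (ww (fun i y => u t0 y i)) x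
      = ∫ x in cube, Wt κ τ z x * vsq (ww (fun i y => u t0 y i)) x := rfl
    rw [k5, k1]
    linarith
  -- the improvement of the bound
  set K0 : ℝ := CW * S0 + C * (T + E0 / (2 * ν)) with hK0
  have hK00 : 0 ≤ K0 := by positivity
  have imp : ∀ t ∈ Ico t0 T, ∀ D, 1 ≤ D →
      (∀ s ∈ Icc t0 t, ∀ x, Hz (vsq (fun i y => u s y i)) x ≤ D) →
      ∀ x, Hz (vsq (fun i y => u t y i)) x ≤ 2 * (CL * K0) + 2 * E0 + D / 2 := by
    intro t ht D hD1 hD x
    have hI' : t ∈ Ico 0 T := ⟨ht0.le.trans ht.1, ht.2⟩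
    have hv := h.sp hI'
    have k1 := hCL (vsq (ww (fun i y => u t y i))) (cp_of (vsq_sp (ww_sp hv))) (vsq_nonneg _)
      (1 / 2) (K0 + C * (D * (4 * c1))) (by norm_num) (fun z δ hδ hδ1 => by
        have k2 := SUP.step h hν hκ0 hE1 hC0 hβ0 hβ1 (a := a) (r := r) (N := N) (C1 := c1)
          (C2 := c1) (L := L) ht0 g3 hrate hi1 hi2 ht hD1 hD z hδ hδ1
        have k3 := start (t + δ - t0) z (by linarith [ht.1]) (by linarith [ht.2])
        have k4 : C * (D * (T - t0 + (T - t0) ^ (1 - β) / (1 - β) + c1 + c1))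
            ≤ C * (D * (4 * c1)) := by
          refine mul_le_mul_of_nonneg_left (mul_le_mul_of_nonneg_left ?_ (by linarith)) hC0
          linarith
        rw [hK0]
        linarith) x
    have k5 := Hz_vsq_le_ww hv x
    have k6 : esq (fun i y => u t y i) ≤ E0 := h.energy_le hν hI'
    have k7 : CL * (C * (D * (4 * c1))) ≤ D / 4 := by
      have e : CL * (C * (D * (4 * c1))) = D / 4 * (CL * C / (CL * C + 1)) := by
        rw [hc1]
        field_simp
        ring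
      rw [e]
      refine mul_le_of_le_one_right (by linarith) ?_
      rw [div_le_one (by positivity)]
      linarith
    have k8 : CL * (K0 + C * (D * (4 * c1))) = CL * K0 + CL * (C * (D * (4 * c1))) := by ring
    rw [k8] at k1
    linarith
  -- the bound
  set K1 : ℝ := 2 * (CL * K0) + 2 * E0 with hK1
  refine ⟨t0, 2 * K1 + 1, ht0', ?_⟩
  intro tm htm
  obtain ⟨B1, hB1⟩ := (isCompact_Icc.image_of_continuousOn (cy.mono
    (fun s hs => ⟨ht0.le.trans hs.1, hs.2.trans_lt htm.2⟩ : Icc t0 tm ⊆ Ico 0 T))).bddAbove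
  set S : Set ℝ := {c | ∃ s ∈ Icc t0 tm, ∃ x, c = Hz (vsq (fun i y => u s y i)) x} with hS
  have hbdd : ∀ c ∈ S, c ≤ 4 * E0 + 3 * B1 := by
    rintro c ⟨s, hs', x, rfl⟩
    have hI' : s ∈ Ico 0 T := ⟨ht0.le.trans hs'.1, hs'.2.trans_lt htm.2⟩
    have l1 := Hz_vsq_le (h.sp hI') x
    have l2 : esq (fun i y => u s y i) ≤ E0 := h.energy_le hν hI'
    have l3 : ysq (fun i y => u s y i) ≤ B1 := hB1 (mem_image_of_mem _ hs')
    linarith
  have hbA : BddAbove S := ⟨_, hbdd⟩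
  have hne : S.Nonempty := ⟨_, tm, ⟨htm.1, le_rfl⟩, 0, rfl⟩
  set Ds : ℝ := sSup S with hDs
  have hDs0 : 0 ≤ Ds := by
    refine (Hz_nonneg (vsq_nonneg _) (0 : V)).trans (le_csSup hbA
      (⟨tm, ⟨htm.1, le_rfl⟩, 0, rfl⟩ : Hz (vsq (fun i y => u tm y i)) 0 ∈ S))
  have hle : ∀ s ∈ Icc t0 tm, ∀ x, Hz (vsq (fun i y => u s y i)) x ≤ max 1 Ds :=
    fun s hs' x => (le_csSup hbA ⟨s, hs', x, rfl⟩).trans (le_max_right _ _)
  have hfin : Ds ≤ K1 + max 1 Ds / 2 := by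
    refine csSup_le hne ?_
    rintro c ⟨s, hs', x, rfl⟩
    exact imp s ⟨hs'.1, hs'.2.trans_lt htm.2⟩ (max 1 Ds) (le_max_left _ _)
      (fun s1 hs1 => hle s1 ⟨hs1.1, hs1.2.trans hs'.2⟩) x
  have hmax : max 1 Ds ≤ 1 + Ds := max_le (by linarith) (by linarith)
  intro x
  have k1 : Hz (vsq (fun i y => u tm y i)) x ≤ Ds := le_csSup hbA ⟨tm, ⟨htm.1, le_rfl⟩, x, rfl⟩
  linarith

end Pool.Agent.H4NC
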