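import Pool.Agent.H4NC.StmB
import Pool.Agent.H4LA.EtaL

/-!
Project NC, stub V2: the bound for `∫ (v₂ ∂ⱼvᵢ)²` in the case `2/a + 2/r ≤ 1`.
-/

set_option autoImplicit false
set_option linter.unusedVariables false

open MeasureTheory Set Function Filter Topology
open scoped ENNReal ContDiff

namespace Pool.Agent.H4NC

open H459R3.NS H4LA

/-- The exponents. -/
theorem V2.ex {a r y Q p : ℝ} (ha : 2 < a) (hr : 2 < r) (har : 2 / a + 2 / r ≤ 1) (hy : 0 ≤ y)
    (hQ : 0 ≤ Q) (hp : 0 ≤ p) :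
    (3 * (√y * √(y + Q))) ^ (2 / a) * (y ^ (1 - 2 / a - 2 / r) * (2 * (y + p)) ^ (2 / r))
      ≤ 6 * (y ^ (1 - 1 / a - 2 / r) * (y + Q) ^ (1 / a) * (y + p) ^ (2 / r)) := by
  have ha0 : 0 < a := by linarith
  have hr0 : 0 < r := by linarith
  have hyQ : 0 ≤ y + Q := by linarith
  have hyp : 0 ≤ y + p := by linarith
  have h1a : 0 < 1 / a := by positivity
  have e1 : (3 * (√y * √(y + Q))) ^ (2 / a)
      = 3 ^ (2 / a) * (y ^ (1 / a) * (y + Q) ^ (1 / a)) := by
    rw [Real.mul_rpow (by norm_num) (by positivity), Real.mul_rpow (Real.sqrt_nonneg _)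
      (Real.sqrt_nonneg _), Real.sqrt_eq_rpow, Real.sqrt_eq_rpow, ← Real.rpow_mul hy,
      ← Real.rpow_mul hyQ]
    have q1 : 1 / 2 * (2 / a) = 1 / a := by ring
    rw [q1]
  have e2 : (2 * (y + p)) ^ (2 / r) = 2 ^ (2 / r) * (y + p) ^ (2 / r) :=
    Real.mul_rpow (by norm_num) hyp
  have e3 : y ^ (1 / a) * y ^ (1 - 2 / a - 2 / r) = y ^ (1 - 1 / a - 2 / r) := by
    rw [← Real.rpow_add_of_nonneg hy h1a.le (by linarith)]
    congr 1
    ring
  have c1 : (3 : ℝ) ^ (2 / a) ≤ 3 := rpow_le_self' (by norm_num) (by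
    rw [div_le_one ha0]; linarith)
  have c2 : (2 : ℝ) ^ (2 / r) ≤ 2 := rpow_le_self' (by norm_num) (by
    rw [div_le_one hr0]; linarith)
  have c3 : (3 : ℝ) ^ (2 / a) * 2 ^ (2 / r) ≤ 6 := by
    have k1 := mul_le_mul c1 c2 (by positivity) (by norm_num)
    linarith
  have e4 : (3 * (√y * √(y + Q))) ^ (2 / a) * (y ^ (1 - 2 / a - 2 / r) * (2 * (y + p)) ^ (2 / r))
      = (3 ^ (2 / a) * 2 ^ (2 / r))
        * (y ^ (1 - 1 / a - 2 / r) * (y + Q) ^ (1 / a) * (y + p) ^ (2 / r)) := by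
    rw [e1, e2, ← e3]
    ring
  rw [e4]
  exact mul_le_mul_of_nonneg_right c3 (by positivity)

theorem V2.t (hB2 : B2) : V2 := by
  intro a r ha hr har
  have hr0 : 0 < r := by linarith
  have ha0 : 0 < a := by linarith
  obtain ⟨C, hC1, hC⟩ := hB2 r hr
  refine ⟨2 * (C * 6), by positivity, ?_⟩
  intro M hM1 v hv hM i j
  set G : V → ℝ := fun x => |bb v x| with hG
  have cG : CP G := (cp_of (bb_sp hv)).abs
  have G0 : ∀ x, 0 ≤ G x := fun x => abs_nonneg _
  set f : V → ℝ := pd j (v i) with hf'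
  have hf : SP f := (hv i).pd j
  have cf := cp_of hf
  have sm := mm_sp hv
  have cm := cp_of sm
  set μ : ℝ := esq v + 2 * (√(esq v) * √(hsq v)) with hμ
  have hE0 := esq_nonneg v
  have hy0 := ysq_nonneg v
  have hπ0 := psq_nonneg v
  have hQ0 := qsq_nonneg v
  have hμ0 : 0 ≤ μ := by positivity
  have hM0 : 0 ≤ M := by linarith
  set A : V → ℝ := Hz (fun y => f y ^ 2) with hA
  have cA : CP A := (cf.pow 2).hz
  have A0 : ∀ x, 0 ≤ A x := Hz_nonneg fun y => sq_nonneg _
  set B : V → ℝ := fun x => Hz (fun y => pd 0 f y ^ 2) x + Hz (fun y => pd 1 f y ^ 2) x with hB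
  have c0 : CP (fun y => pd 0 f y ^ 2) := (cp_of (hf.pd 0)).pow 2
  have c1 : CP (fun y => pd 1 f y ^ 2) := (cp_of (hf.pd 1)).pow 2
  have cB : CP B := c0.hz.add c1.hz
  have b0 : ∀ x, 0 ≤ Hz (fun y => pd 0 f y ^ 2) x := Hz_nonneg fun y => sq_nonneg _
  have b1 : ∀ x, 0 ≤ Hz (fun y => pd 1 f y ^ 2) x := Hz_nonneg fun y => sq_nonneg _
  have B0 : ∀ x, 0 ≤ B x := fun x => add_nonneg (b0 x) (b1 x)
  have iA0 : ∫ x in cube, f x ^ 2 ≤ ysq v := le_ysq v i j
  have iA : ∫ x in cube, A x ≤ ysq v := by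
    rw [hA, int_Hz (cf.pow 2)]
    exact iA0
  have iB : ∫ x in cube, B x ≤ 2 * psq v := by
    rw [hB, integral_add c0.hz.int c1.hz.int, int_Hz c0, int_Hz c1]
    have h0 := le_psq v i j mem0
    have h1 := le_psq v i j mem1
    rw [pd_comm (hv i) j 0] at h0
    rw [pd_comm (hv i) j 1] at h1
    linarith
  have sA : ∀ x, A x ≤ 3 * (√(ysq v) * √(ysq v + qsq v)) := by
    intro x
    have h1 := sup_hz hf x
    have h2 : √(∫ x in cube, f x ^ 2) * √(∫ x in cube, pd 2 f x ^ 2)
        ≤ √(ysq v) * √(ysq v + qsq v) := by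
      have q1 : ∫ x in cube, pd 2 f x ^ 2 ≤ ysq v + qsq v := by
        have := int_pd2_le hv i j
        linarith
      exact mul_le_mul (Real.sqrt_le_sqrt iA0) (Real.sqrt_le_sqrt q1)
        (Real.sqrt_nonneg _) (Real.sqrt_nonneg _)
    have h3 : ysq v ≤ √(ysq v) * √(ysq v + qsq v) := by
      have q1 : √(ysq v) ≤ √(ysq v + qsq v) := Real.sqrt_le_sqrt (by linarith)
      have q2 := mul_le_mul_of_nonneg_left q1 (Real.sqrt_nonneg (ysq v))
      rwa [Real.mul_self_sqrt hy0] at q2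
    simp only [hA]
    linarith
  -- the average
  have h1 : ∫ x in cube, mm v x ^ 2 * f x ^ 2
      ≤ μ * (ysq v + 2 * (√(ysq v) * √(2 * psq v))) := by
    have cmf : CP (fun y => mm v y ^ 2 * f y ^ 2) := (cm.pow 2).mul (cf.pow 2)
    rw [← int_Hz cmf]
    have cS : CP (fun x => √(A x) * √(B x)) := cA.sqrt.mul cB.sqrt
    have k1 : ∫ x in cube, Hz (fun y => mm v y ^ 2 * f y ^ 2) x
        ≤ ∫ x in cube, μ * (A x + 2 * (√(A x) * √(B x))) := by
      refine integral_mono cmf.hz.int ((cA.add (cS.cmul 2)).cmul μ).int fun x => ?_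
      have l1 := lady hf (x := x) (A := A x) (B := B x) le_rfl
        (by simp only [hB]; linarith [b1 x]) (by simp only [hB]; linarith [b0 x])
      have l2 := lady sm (x := x) (Hz_mm_sq_le hv x) (Hz_pd_mm_le hv mem0 x) (Hz_pd_mm_le hv mem1 x)
      rw [← hμ] at l2
      have l3 := Hz_cs (cm.pow 2) (cf.pow 2) x
      have e2 : ∀ g : V → ℝ, Hz (fun y => (g y ^ 2) ^ 2) x = Hz (fun y => g y ^ 4) x := by
        intro g
        congr 1
        funext y
        ring
      rw [e2, e2] at l3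
      refine (le_abs_self _).trans (l3.trans ?_)
      have n1 : 0 ≤ A x + 2 * (√(A x) * √(B x)) := by
        have := A0 x
        positivity
      exact mul_le_mul (Real.sqrt_le_iff.2 ⟨hμ0, l2⟩) (Real.sqrt_le_iff.2 ⟨n1, l1⟩)
        (Real.sqrt_nonneg _) hμ0
    have k2 : ∫ x in cube, √(A x) * √(B x) ≤ √(ysq v) * √(2 * psq v) :=
      (cs_cube cA.cont cB.cont A0 B0).trans (mul_le_mul (Real.sqrt_le_sqrt iA)
        (Real.sqrt_le_sqrt iB) (Real.sqrt_nonneg _) (Real.sqrt_nonneg _))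
    rw [integral_const_mul, integral_add cA.int (cS.cmul 2).int, integral_const_mul] at k1
    refine k1.trans (mul_le_mul_of_nonneg_left ?_ hμ0)
    linarith
  -- the rest
  set S : ℝ := 3 * (√(ysq v) * √(ysq v + qsq v)) with hS
  have hS0 : 0 ≤ S := by positivity
  have NN1 := fun x => NR_one (r := r) G0 x
  have h2a : 0 < 2 / a := by positivity
  have h2r : 0 < 2 / r := by positivity
  have he : 0 ≤ 1 - 2 / a - 2 / r := by linarith
  have h2 : ∫ x in cube, G x ^ 2 * f x ^ 2
      ≤ C * 6 * (M ^ 2 * (ysq v ^ (1 - 1 / a - 2 / r) * (ysq v + qsq v) ^ (1 / a)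
          * (ysq v + psq v) ^ (2 / r))) := by
    have cGf : CP (fun y => G y ^ 2 * f y ^ 2) := (cG.pow 2).mul (cf.pow 2)
    rw [← int_Hz cGf]
    have cNa : CP fun x => NR r G x ^ (a / r) := cprp (NR_cp hr0.le cG) (by positivity)
    have N0 : ∀ x, 0 ≤ NR r G x ^ (a / r) := fun x => Real.rpow_nonneg (by linarith [NN1 x]) _
    have cAB : CP fun x => A x + B x := cA.add cB
    have AB0 : ∀ x, 0 ≤ A x + B x := fun x => add_nonneg (A0 x) (B0 x)
    have k1 : ∫ x in cube, Hz (fun y => G y ^ 2 * f y ^ 2) x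
        ≤ ∫ x in cube, (C * S ^ (2 / a)) * ((NR r G x ^ (a / r)) ^ (2 / a)
          * A x ^ (1 - 2 / a - 2 / r) * (A x + B x) ^ (2 / r) * (1 : ℝ) ^ (0 : ℝ)) := by
      refine integral_mono cGf.hz.int (integrableOn_cube ?_) fun x => ?_
      · exact continuous_const.mul ((((cNa.cont.rpow_const fun x => Or.inr h2a.le).mul
          (cA.cont.rpow_const fun x => Or.inr he)).mul
          (cAB.cont.rpow_const fun x => Or.inr h2r.le)).mul continuous_const)
      · have ef : Hz (fun y => G y ^ 2 * f y ^ 2) x = Hz (fun y => fz G x y ^ 2 * f y ^ 2) x :=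
          Hz_congr fun z hz => by rw [fz_eq hz]
        have q := hC (fz G x) (fz_cp cG x) (fz_ind G x) (fz_nonneg G0 x) f hf x (A x) (B x) le_rfl
          (by simp only [hB]; linarith [b1 x]) (by simp only [hB]; linarith [b0 x])
        rw [← ef] at q
        refine q.trans ?_
        have q1 : 1 + ∫ z in cube, fz G x z ^ r ≤ NR r G x := by
          have k := Hz_cube (cprp cG hr0.le) x
          have e : ∫ z in cube, fz G x z ^ r = Hz (fun y => G y ^ r) x := by
            rw [k]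
            rfl
          rw [e]
          exact le_rfl
        have q0 : 0 ≤ 1 + ∫ z in cube, fz G x z ^ r := by
          have : 0 ≤ ∫ z in cube, fz G x z ^ r :=
            integral_nonneg fun z => Real.rpow_nonneg (fz_nonneg G0 x z) _
          linarith
        have q2 : (1 + ∫ z in cube, fz G x z ^ r) ^ (2 / r) ≤ NR r G x ^ (2 / r) :=
          Real.rpow_le_rpow q0 q1 h2r.le
        have q5 : (NR r G x ^ (a / r)) ^ (2 / a) = NR r G x ^ (2 / r) := by
          rw [← Real.rpow_mul (by linarith [NN1 x])]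
          congr 1
          field_simp
        have l1 : A x ^ (1 - 2 / r) ≤ S ^ (2 / a) * A x ^ (1 - 2 / a - 2 / r) := by
          have e1 : A x ^ (1 - 2 / r) = A x ^ (2 / a) * A x ^ (1 - 2 / a - 2 / r) := by
            rw [← Real.rpow_add_of_nonneg (A0 x) h2a.le he]
            congr 1
            ring
          rw [e1]
          exact mul_le_mul_of_nonneg_right (Real.rpow_le_rpow (A0 x) (sA x) h2a.le)
            (Real.rpow_nonneg (A0 x) _)
        have l2 : 0 ≤ (A x + B x) ^ (2 / r) := Real.rpow_nonneg (AB0 x) _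
        have l3 : A x ^ (1 - 2 / r) * (A x + B x) ^ (2 / r)
            ≤ (S ^ (2 / a) * A x ^ (1 - 2 / a - 2 / r)) * (A x + B x) ^ (2 / r) :=
          mul_le_mul_of_nonneg_right l1 l2
        have l4 : 0 ≤ NR r G x ^ (2 / r) := Real.rpow_nonneg (by linarith [NN1 x]) _
        have l5 := mul_le_mul q2 l3 (mul_nonneg (Real.rpow_nonneg (A0 x) _) l2) l4
        have l6 := mul_le_mul_of_nonneg_left l5 (by linarith : 0 ≤ C)
        rw [q5]
        simp only [Real.one_rpow, mul_one]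
        refine l6.trans (le_of_eq ?_)
        ring
    rw [integral_const_mul] at k1
    have k2 := hold4 (f1 := fun x => NR r G x ^ (a / r)) (f2 := A) (f3 := fun x => A x + B x)
      (f4 := fun _ => (1 : ℝ)) cNa.cont cA.cont cAB.cont continuous_const N0 A0 AB0
      (fun _ => zero_le_one) h2a.le he h2r.le le_rfl (by ring)
    have hfin := cube_finite
    simp only [Real.rpow_zero, mul_one] at k1 k2
    have k3 : ∫ x in cube, (A x + B x) ≤ 2 * (ysq v + psq v) := by
      rw [integral_add cA.int cB.int]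
      linarith
    have j1 : (∫ x in cube, NR r G x ^ (a / r)) ^ (2 / a) ≤ M ^ 2 := by
      have := Real.rpow_le_rpow (integral_nonneg N0) hM h2a.le
      refine this.trans (le_of_eq ?_)
      rw [← Real.rpow_mul hM0, ← Real.rpow_natCast]
      congr 1
      push_cast
      field_simp
    have j2 : (∫ x in cube, A x) ^ (1 - 2 / a - 2 / r) ≤ ysq v ^ (1 - 2 / a - 2 / r) :=
      Real.rpow_le_rpow (integral_nonneg A0) iA he
    have j3 : (∫ x in cube, (A x + B x)) ^ (2 / r) ≤ (2 * (ysq v + psq v)) ^ (2 / r) :=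
      Real.rpow_le_rpow (integral_nonneg AB0) k3 h2r.le
    have j12 := mul_le_mul j1 j2 (Real.rpow_nonneg (integral_nonneg A0) _) (by positivity)
    have j123 := mul_le_mul j12 j3 (Real.rpow_nonneg (integral_nonneg AB0) _) (by positivity)
    have k4 := k2.trans j123
    have k5 := V2.ex ha hr har hy0 hQ0 hπ0
    rw [← hS] at k5
    have k6 := mul_le_mul_of_nonneg_left k5 (by positivity : 0 ≤ C * M ^ 2)
    have k7 := mul_le_mul_of_nonneg_left k4 (by positivity : 0 ≤ C * S ^ (2 / a))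
    refine k1.trans (k7.trans ?_)
    linarith
  have h3 : ∫ x in cube, (v 2 x * f x) ^ 2
      ≤ ∫ x in cube, (2 * (mm v x ^ 2 * f x ^ 2) + 2 * (G x ^ 2 * f x ^ 2)) := by
    have c2 := cp_of (hv 2)
    refine integral_mono ((c2.mul cf).pow 2).int ((((cm.pow 2).mul (cf.pow 2)).cmul 2).add
      (((cG.pow 2).mul (cf.pow 2)).cmul 2)).int fun x => ?_
    have l1 : v 2 x ^ 2 ≤ 2 * mm v x ^ 2 + 2 * G x ^ 2 := by
      have e : v 2 x = mm v x + bb v x := by
        unfold bb
        ring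
      have l2 : bb v x ^ 2 = G x ^ 2 := by
        simp only [hG]
        rw [sq_abs]
      rw [e, ← l2]
      linarith only [sq_nonneg (mm v x - bb v x)]
    have := mul_le_mul_of_nonneg_right l1 (sq_nonneg (f x))
    simp only
    rw [mul_pow]
    linarith
  rw [integral_add (((cm.pow 2).mul (cf.pow 2)).cmul 2).int (((cG.pow 2).mul (cf.pow 2)).cmul 2).int,
    integral_const_mul, integral_const_mul] at h3
  linarith

end Pool.Agent.H4NC
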