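import Pool.Agent.H4NC.A1
import Pool.Agent.H4NC.A10
import Pool.Agent.H4NC.A11
import Pool.Agent.H4NC.A12
import Pool.Agent.H4NC.A2
import Pool.Agent.H4NC.A4
import Pool.Agent.H4NC.A5
import Pool.Agent.H4NC.A7
import Pool.Agent.H4NC.A8
import Pool.Agent.H4NC.A9
import Pool.Agent.H4NC.B0
import Pool.Agent.H4NC.B1
import Pool.Agent.H4NC.B2
import Pool.Agent.H4NC.B2v
import Pool.Agent.H4NC.B3
import Pool.Agent.H4NC.B5
import Pool.Agent.H4NC.B6
import Pool.Agent.H4NC.B8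
import Pool.Agent.H4NC.B9
import Pool.Agent.H4NC.E1
import Pool.Agent.H4NC.F3
import Pool.Agent.H4NC.Fin
import Pool.Agent.H4NC.KS
import Pool.Agent.H4NC.LB
import Pool.Agent.H4NC.MM1
import Pool.Agent.H4NC.MM2
import Pool.Agent.H4NC.MM3
import Pool.Agent.H4NC.MM4
import Pool.Agent.H4NC.R4
import Pool.Agent.H4NC.SUP
import Pool.Agent.H4NC.V2

/-!
Project NC: the bound for the slice energies and the end of the proof.
-/

set_option autoImplicit false

namespace Pool.Agent.H4NC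

theorem b0 : B0 := B0.t A1.t A5.t

theorem b2v : B2v := B2v.t B2.t

theorem mm4 : MM4 := MM4.t MM1.t MM2.t (MM3.t b2v)

theorem b1 : B1 := B1.t A1.t A4.t A5.t

theorem ks : KS :=
  KS.t A12.t b0 (B5.t b1 B3.t) (B6.t b0 b1 b2v) (B8.t b0 b1 b2v) (B9.t A2.t b0)

theorem sup : SUP := SUP.t ks A7.t A8.t A9.t (E1.t A1.t) LB.t mm4 b0

theorem f3 : F3 := F3.t (V2.t B2.t) R4.t

end Pool.Agent.H4NC
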