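import Pool.Agent.H4NC.StmB
import Pool.Agent.H4LA.HldL

/-!
Project NC: the sources.
-/

set_option autoImplicit false
set_option linter.unusedVariables false

open MeasureTheory Set Function Filter Topology
open scoped ENNReal ContDiff

namespace Pool.Agent.H4NC.B8

open H459R3.NS H4LA

/-- The elementary inequality of the exponents. -/
theorem expo {C N D U H r : ℝ} (hr : 2 < r) (hC : 0 ≤ C) (hN : 0 ≤ N) (hU : 0 ≤ U) (hUD : U ≤ D)
    (hH : 0 ≤ H) :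
    √(C * (N ^ (2 / r) * (U ^ (1 - 2 / r) * (U + H) ^ (2 / r))))
      ≤ √C * (N ^ (1 / r) * (D ^ (1 / 2 - 1 / r) * (U + H) ^ (1 / r))) := by
  have hD : 0 ≤ D := hU.trans hUD
  have hr0 : 0 < r := by linarith
  have e0 : 0 ≤ 1 / 2 - 1 / r := by
    rw [sub_nonneg]
    exact one_div_le_one_div_of_le (by norm_num) hr.le
  have h1 : U ^ (1 - 2 / r) ≤ D ^ (1 - 2 / r) := by
    refine Real.rpow_le_rpow hU hUD ?_
    have : 1 - 2 / r = 2 * (1 / 2 - 1 / r) := by ring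
    rw [this]
    linarith
  have hUH : 0 ≤ U + H := by linarith
  have h2 : C * (N ^ (2 / r) * (U ^ (1 - 2 / r) * (U + H) ^ (2 / r)))
      ≤ C * (N ^ (2 / r) * (D ^ (1 - 2 / r) * (U + H) ^ (2 / r))) := by
    have a1 : 0 ≤ N ^ (2 / r) := Real.rpow_nonneg hN _
    have a2 : 0 ≤ (U + H) ^ (2 / r) := Real.rpow_nonneg hUH _
    gcongr
  refine (Real.sqrt_le_sqrt h2).trans ?_
  rw [Real.sqrt_mul hC]
  refine mul_le_mul_of_nonneg_left ?_ (Real.sqrt_nonneg _)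
  refine Real.sqrt_le_iff.2 ⟨by positivity, ?_⟩
  rw [mul_pow, mul_pow, ← Real.rpow_natCast, ← Real.rpow_natCast, ← Real.rpow_natCast,
    ← Real.rpow_mul hN, ← Real.rpow_mul hD, ← Real.rpow_mul hUH]
  refine le_of_eq ?_
  have q1 : 1 / r * ((2 : ℕ) : ℝ) = 2 / r := by push_cast; ring
  have q2 : (1 / 2 - 1 / r) * ((2 : ℕ) : ℝ) = 1 - 2 / r := by push_cast; ring
  rw [q1, q2]

/-- Jensen's inequality. -/
theorem jens {f : V → ℝ} (cf : CP f) (f0 : ∀ x, 0 ≤ f x) {e : ℝ} (h0 : 0 ≤ e) (h1 : e ≤ 1) :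
    ∫ x in cube, f x ^ e ≤ (∫ x in cube, f x) ^ e := by
  have h := hold4 (f1 := f) (f2 := fun _ => 1) (f3 := fun _ => 1) (f4 := fun _ => 1)
    cf.cont continuous_const continuous_const continuous_const f0 (fun _ => zero_le_one)
    (fun _ => zero_le_one) (fun _ => zero_le_one) (p1 := e) (p2 := 1 - e) (p3 := 0) (p4 := 0)
    h0 (by linarith) le_rfl le_rfl (by ring)
  simp only [Real.one_rpow, mul_one, Real.rpow_zero] at h
  have e1 : ∫ x in cube, (1 : ℝ) = 1 := by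
    rw [setIntegral_const, Measure.real, volume_cube]
    simp
  rw [e1, Real.one_rpow, mul_one] at h
  exact h

section field

variable {v : Fin 3 → V → ℝ} (hv : ∀ i, SP (v i))

include hv in
theorem int_Hz_vsq : ∫ x in cube, Hz (vsq v) x = esq v := by
  rw [int_Hz (cp_of (vsq_sp hv))]
  unfold vsq esq
  exact integral_finsetSum _ fun i _ => (SP.sqr (hv i)).int

theorem conv_le (v : Fin 3 → V → ℝ) (y : V) : |conv v 2 y| ≤ √(vsq v y) * √(ga v y) := by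
  rw [← Real.sqrt_mul (vsq_nonneg v y)]
  apply Real.abs_le_sqrt
  unfold conv
  refine (Finset.sum_mul_sq_le_sq_mul_sq _ _ _).trans ?_
  refine mul_le_mul_of_nonneg_left ?_ (vsq_nonneg v y)
  exact Finset.single_le_sum (f := fun i => ∑ k, pd k (v i) y ^ 2)
    (fun i _ => Finset.sum_nonneg fun k _ => sq_nonneg _) (Finset.mem_univ 2)

include hv in
/-- The first part of the sources. -/
theorem partA {G : V → ℝ} (cG : CP G) (G0 : ∀ x, 0 ≤ G x) {j : Fin 3} (hj : j ∈ HH) (x : V) :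
    Hz (fun y => G y * (|v j y| * |pd j (mm v) y|)) x
      ≤ √(Hz (fun y => G y ^ 2 * vsq v y) x) * √(hsq v) := by
  have cj : CP (v j) := cp_of (hv j)
  have cm : CP (pd j (mm v)) := cp_of ((mm_sp hv).pd j)
  have h := Hz_cs_abs (cG.mul cj) cm x
  have e1 : (fun y => |G y * v j y| * |pd j (mm v) y|)
      = fun y => G y * (|v j y| * |pd j (mm v) y|) := by
    funext y
    rw [abs_mul, abs_of_nonneg (G0 y), mul_assoc]
  rw [e1] at h
  refine h.trans ?_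
  refine mul_le_mul (Real.sqrt_le_sqrt ?_) (Real.sqrt_le_sqrt (Hz_pd_mm_le hv hj x))
    (Real.sqrt_nonneg _) (Real.sqrt_nonneg _)
  apply Hz_mono ((cG.mul cj).pow 2) ((cG.pow 2).mul (cp_of (vsq_sp hv)))
  intro y
  rw [mul_pow]
  refine mul_le_mul_of_nonneg_left ?_ (sq_nonneg _)
  exact Finset.single_le_sum (f := fun i => v i y ^ 2) (fun i _ => sq_nonneg _)
    (Finset.mem_univ j)

include hv in
/-- The second part of the sources. -/
theorem partB {r : ℝ} (hr : 2 < r) {C2 : ℝ} (hC2 : 1 ≤ C2)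
    (hB : ∀ G : V → ℝ, CP G → (∀ x, 0 ≤ G x) → ∀ x, Ind 2 G → Hz (fun y => G y ^ 2 * vsq v y) x
      ≤ C2 * ((1 + ∫ z in cube, G z ^ r) ^ (2 / r)
      * (Hz (vsq v) x ^ (1 - 2 / r) * (Hz (vsq v) x + Hz (ga v) x) ^ (2 / r))))
    {D : ℝ} (hD : ∀ x, Hz (vsq v) x ≤ D)
    {G : V → ℝ} (cG : CP G) (G0 : ∀ x, 0 ≤ G x) (x : V) :
    Hz (fun y => G y * |Av 2 (conv v 2) y|) x
      ≤ √C2 * (NR r G x ^ (1 / r) * (D ^ (1 / 2 - 1 / r) * (esq v + ysq v) ^ (1 / 2 + 1 / r))) := by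
  have hr0 : 0 < r := by linarith
  have e0 : 0 ≤ 1 / 2 - 1 / r := by
    rw [sub_nonneg]
    exact one_div_le_one_div_of_le (by norm_num) hr.le
  have sc : SP (conv v 2) := sp_conv hv 2
  have cc := cp_of sc
  have cA : CP (Av 2 (conv v 2)) := cc.av 2
  have cv : CP (vsq v) := cp_of (vsq_sp hv)
  have cg : CP (ga v) := cp_of (ga_sp hv)
  have hD0 : 0 ≤ D := (Hz_nonneg (vsq_nonneg v) x).trans (hD x)
  set g : V → ℝ := fz G x with hg
  have c1 : CP g := fz_cp cG x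
  have i1 : Ind 2 g := fz_ind G x
  have g0 : ∀ z, 0 ≤ g z := fun z => fz_nonneg G0 x z
  have k1 : Hz (fun y => G y * |Av 2 (conv v 2) y|) x = ∫ z in cube, g z * |Av 2 (conv v 2) z| := by
    have e1 : Hz (fun y => G y * |Av 2 (conv v 2) y|) x
        = Hz (fun y => g y * |Av 2 (conv v 2) y|) x :=
      Hz_congr fun z hz => by rw [hg, fz_eq hz]
    rw [e1, Hz_ind2 (c1.mul cA.abs) (fun z s => by simp only [ind_Av 2 _ z s, i1 z s])]
  have k2 : ∫ z in cube, g z * |Av 2 (conv v 2) z| ≤ ∫ z in cube, g z * |conv v 2 z| := by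
    rw [← int_mul_Av cc.abs c1 i1]
    refine integral_mono (c1.mul cA.abs).int (c1.mul (cc.abs.av 2)).int fun y => ?_
    exact mul_le_mul_of_nonneg_left (abs_Av_le 2 y) (g0 y)
  have k3 : ∫ z in cube, g z * |conv v 2 z| ≤ ∫ z in cube, Hz (fun y => g y * √(vsq v y) * √(ga v y)) z := by
    rw [int_Hz ((c1.mul cv.sqrt).mul cg.sqrt)]
    refine integral_mono (c1.mul cc.abs).int ((c1.mul cv.sqrt).mul cg.sqrt).int fun y => ?_
    simp only
    rw [mul_assoc]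
    exact mul_le_mul_of_nonneg_left (conv_le v y) (g0 y)
  set S : ℝ := NR r G x with hS
  have hS1 : 1 ≤ S := NR_one G0 x
  have hNR : 1 + ∫ z in cube, g z ^ r = S := by
    have h := Hz_cube (cprp cG hr0.le) x
    rw [hS]
    unfold NR
    rw [h]
    rfl
  have cf : CP (fun z => Hz (vsq v) z + Hz (ga v) z) := cv.hz.add cg.hz
  have f0 : ∀ z, 0 ≤ Hz (vsq v) z + Hz (ga v) z := fun z =>
    add_nonneg (Hz_nonneg (vsq_nonneg v) z) (Hz_nonneg ga_nonneg z)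
  have k4 : ∀ z, Hz (fun y => g y * √(vsq v y) * √(ga v y)) z
      ≤ √C2 * (S ^ (1 / r) * D ^ (1 / 2 - 1 / r)) * (Hz (vsq v) z + Hz (ga v) z) ^ (1 / 2 + 1 / r) := by
    intro z
    have h := Hz_cs_abs (c1.mul cv.sqrt) cg.sqrt z
    have e1 : (fun y => |g y * √(vsq v y)| * |√(ga v y)|)
        = fun y => g y * √(vsq v y) * √(ga v y) := by
      funext y
      rw [abs_of_nonneg (mul_nonneg (g0 y) (Real.sqrt_nonneg _)), abs_of_nonneg (Real.sqrt_nonneg _)]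
    have e2 : (fun y => (g y * √(vsq v y)) ^ 2) = fun y => g y ^ 2 * vsq v y := by
      funext y
      rw [mul_pow, Real.sq_sqrt (vsq_nonneg v y)]
    have e3 : (fun y => √(ga v y) ^ 2) = ga v := by
      funext y
      exact Real.sq_sqrt (ga_nonneg y)
    rw [e1, e2, e3] at h
    refine h.trans ?_
    have hU : 0 ≤ Hz (vsq v) z := Hz_nonneg (vsq_nonneg v) z
    have hH : 0 ≤ Hz (ga v) z := Hz_nonneg ga_nonneg z
    have h1 := Real.sqrt_le_sqrt (hB g c1 g0 z i1)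
    rw [hNR] at h1
    have h2 := expo hr (by linarith : 0 ≤ C2) (by linarith : 0 ≤ S) hU (hD z) hH
    have h3 : √(Hz (ga v) z) ≤ (Hz (vsq v) z + Hz (ga v) z) ^ (1 / 2 : ℝ) := by
      rw [← Real.sqrt_eq_rpow]
      exact Real.sqrt_le_sqrt (by linarith)
    have h4 := mul_le_mul (h1.trans h2) h3 (Real.sqrt_nonneg _) (by positivity)
    refine h4.trans (le_of_eq ?_)
    rw [Real.rpow_add_of_nonneg (f0 z) (by norm_num) (by positivity)]
    ring
  have he : 1 / 2 + 1 / r ≤ 1 := by linarith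
  have he0 : 0 ≤ 1 / 2 + 1 / r := by positivity
  have k5 : ∫ z in cube, Hz (fun y => g y * √(vsq v y) * √(ga v y)) z
      ≤ ∫ z in cube, √C2 * (S ^ (1 / r) * D ^ (1 / 2 - 1 / r))
        * (Hz (vsq v) z + Hz (ga v) z) ^ (1 / 2 + 1 / r) :=
    integral_mono ((c1.mul cv.sqrt).mul cg.sqrt).hz.int ((cprp cf he0).cmul _).int k4
  rw [integral_const_mul] at k5
  have k6 := jens cf f0 he0 he
  rw [integral_add cv.hz.int cg.hz.int, int_Hz_vsq hv, int_Hz cg, int_ga hv] at k6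
  have k7 := mul_le_mul_of_nonneg_left k6
    (by positivity : 0 ≤ √C2 * (S ^ (1 / r) * D ^ (1 / 2 - 1 / r)))
  rw [k1]
  refine (k2.trans (k3.trans (k5.trans k7))).trans (le_of_eq ?_)
  ring

end field

theorem t (hB0 : B0) (hB1 : B1) (hB2 : B2v) : B8 := by
  intro κ a r hκ ha hr
  obtain ⟨C0, hC0, h0⟩ := hB0 κ hκ
  have hr0 : 0 < r := by linarith
  have ha0 : 0 < a := by linarith
  have hlam : 1 / r ≤ 1 / 2 := one_div_le_one_div_of_le (by norm_num) hr.le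
  have e0 : 0 ≤ 1 / 2 - 1 / r := by linarith
  obtain ⟨C1, hC1, h1⟩ := hB1 κ a (1 / r) hκ ha (by positivity) hlam
  obtain ⟨C1', hC1', h1'⟩ := hB1 κ a 0 hκ ha le_rfl (by norm_num)
  obtain ⟨C2, hC2, h2⟩ := hB2 r hr
  refine ⟨2 * √C2 * C1 + √C2 * C1', by positivity, ?_⟩
  intro τ z M D hτ hτ1 hM hD G cG G0 hG v hv hU
  obtain ⟨sW, iW, W0, -, -, -⟩ := h0 τ z hτ hτ1
  have cW := cp_of sW
  have cv : CP (vsq v) := cp_of (vsq_sp hv)
  have cg : CP (ga v) := cp_of (ga_sp hv)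
  have cH : CP (fun x => Hz (vsq v) x + Hz (ga v) x) := cv.hz.add cg.hz
  have H0 : ∀ x, 0 ≤ Hz (vsq v) x + Hz (ga v) x := fun x =>
    add_nonneg (Hz_nonneg (vsq_nonneg v) x) (Hz_nonneg ga_nonneg x)
  set k : V → ℝ := fun x => NR r G x ^ (a / r) with hk
  have cNR : CP (NR r G) := NR_cp hr0.le cG
  have NR1 : ∀ x, 1 ≤ NR r G x := NR_one G0
  have ck : CP k := cprp cNR (by positivity)
  have k0 : ∀ x, 0 ≤ k x := fun x => Real.rpow_nonneg (by linarith [NR1 x]) _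
  have ek : ∀ x, k x ^ (1 / a) = NR r G x ^ (1 / r) := by
    intro x
    rw [hk]
    simp only
    rw [← Real.rpow_mul (by linarith [NR1 x])]
    congr 1
    field_simp
  have b1 := (h1 τ z hτ hτ1 k _ ck k0 cH H0 M (by linarith) hG).2
  have b1' := (h1' τ z hτ hτ1 k _ ck k0 cH H0 M (by linarith) hG).2
  simp only [ek] at b1 b1'
  simp only [Real.rpow_zero, mul_one] at b1'
  -- the pointwise bound on slices
  have sm := mm_sp hv
  have cA : CP (Av 2 (conv v 2)) := (cp_of (sp_conv hv 2)).av 2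
  have cGA : CP (fun y => G y * |Av 2 (conv v 2) y|) := cG.mul cA.abs
  have cq : ∀ j, CP (fun y => G y * (|v j y| * |pd j (mm v) y|)) := fun j =>
    cG.mul ((cp_of (hv j)).abs.mul (cp_of (sm.pd j)).abs)
  have p1 : ∀ x, Hz (fun y => G y * |rr v 2 y|) x
      ≤ (2 * √C2 * (D ^ (1 / 2 - 1 / r) * √(hsq v)))
          * (NR r G x ^ (1 / r) * (Hz (vsq v) x + Hz (ga v) x) ^ (1 / r))
        + (√C2 * (D ^ (1 / 2 - 1 / r) * (esq v + ysq v) ^ (1 / 2 + 1 / r)))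
          * NR r G x ^ (1 / r) := by
    intro x
    have h3 : Hz (fun y => G y * |rr v 2 y|) x ≤ Hz (fun y => G y * |Av 2 (conv v 2) y|
        + (G y * (|v 0 y| * |pd 0 (mm v) y|) + G y * (|v 1 y| * |pd 1 (mm v) y|))) x := by
      apply Hz_mono (cG.mul (cp_of (rr_sp hv 2)).abs) (cGA.add ((cq 0).add (cq 1)))
      intro y
      have l1 : |rr v 2 y| ≤ |Av 2 (conv v 2) y| + (|v 0 y| * |pd 0 (mm v) y|
          + |v 1 y| * |pd 1 (mm v) y|) := by
        show |Av 2 (conv v 2) y - ∑ j, v j y * pd j (mm v) y| ≤ _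
        rw [Fin.sum_univ_three, pd2_mm hv, mul_zero, add_zero, ← abs_mul, ← abs_mul]
        refine (abs_sub _ _).trans ?_
        exact add_le_add le_rfl (abs_add_le _ _)
      have l2 := mul_le_mul_of_nonneg_left l1 (G0 y)
      refine l2.trans (le_of_eq ?_)
      ring
    rw [Hz_add cGA ((cq 0).add (cq 1)), Hz_add (cq 0) (cq 1)] at h3
    have a0 := partA hv cG G0 mem0 x
    have a1 := partA hv cG G0 mem1 x
    have a2 := Real.sqrt_le_sqrt ((h2 G cG G0 v hv x).2)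
    have hUx : 0 ≤ Hz (vsq v) x := Hz_nonneg (vsq_nonneg v) x
    have hHx : 0 ≤ Hz (ga v) x := Hz_nonneg ga_nonneg x
    have a3 := a2.trans (expo hr (by linarith : 0 ≤ C2) (by linarith [NR1 x] : 0 ≤ NR r G x)
      hUx (hU x) hHx)
    have a4 := mul_le_mul_of_nonneg_right a3 (Real.sqrt_nonneg (hsq v))
    have a5 := partB hv hr hC2 (fun G cG G0 x => (h2 G cG G0 v hv x).1) hU cG G0 x
    have e1 : (2 * √C2 * (D ^ (1 / 2 - 1 / r) * √(hsq v)))
          * (NR r G x ^ (1 / r) * (Hz (vsq v) x + Hz (ga v) x) ^ (1 / r))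
        = 2 * (√C2 * (NR r G x ^ (1 / r) * (D ^ (1 / 2 - 1 / r)
          * (Hz (vsq v) x + Hz (ga v) x) ^ (1 / r))) * √(hsq v)) := by ring
    have e2 : (√C2 * (D ^ (1 / 2 - 1 / r) * (esq v + ysq v) ^ (1 / 2 + 1 / r)))
          * NR r G x ^ (1 / r)
        = √C2 * (NR r G x ^ (1 / r) * (D ^ (1 / 2 - 1 / r)
          * (esq v + ysq v) ^ (1 / 2 + 1 / r))) := by ring
    rw [e1, e2]
    linarith
  have cN : CP (fun x => NR r G x ^ (1 / r)) := cprp cNR (by positivity)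
  have cHr : CP (fun x => (Hz (vsq v) x + Hz (ga v) x) ^ (1 / r)) := cprp cH (by positivity)
  have cR : CP (Hz (fun y => G y * |rr v 2 y|)) := (cG.mul (cp_of (rr_sp hv 2)).abs).hz
  have p2 : ∫ x in cube, Wt κ τ z x * Hz (fun y => G y * |rr v 2 y|) x
      ≤ ∫ x in cube, ((2 * √C2 * (D ^ (1 / 2 - 1 / r) * √(hsq v)))
          * (Wt κ τ z x * (NR r G x ^ (1 / r) * (Hz (vsq v) x + Hz (ga v) x) ^ (1 / r)))
        + (√C2 * (D ^ (1 / 2 - 1 / r) * (esq v + ysq v) ^ (1 / 2 + 1 / r)))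
          * (Wt κ τ z x * NR r G x ^ (1 / r))) := by
    refine integral_mono (cW.mul cR).int
      (((cW.mul (cN.mul cHr)).cmul _).add ((cW.mul cN).cmul _)).int fun x => ?_
    refine (mul_le_mul_of_nonneg_left (p1 x) (W0 x).le).trans (le_of_eq ?_)
    ring
  rw [integral_add ((cW.mul (cN.mul cHr)).cmul _).int ((cW.mul cN).cmul _).int,
    integral_const_mul, integral_const_mul] at p2
  have hE : 0 ≤ esq v + ysq v := add_nonneg (esq_nonneg v) (ysq_nonneg v)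
  have q1 := mul_le_mul_of_nonneg_left b1
    (by positivity : 0 ≤ 2 * √C2 * (D ^ (1 / 2 - 1 / r) * √(hsq v)))
  have q2 := mul_le_mul_of_nonneg_left b1'
    (by positivity : 0 ≤ √C2 * (D ^ (1 / 2 - 1 / r) * (esq v + ysq v) ^ (1 / 2 + 1 / r)))
  refine (p2.trans (add_le_add q1 q2)).trans ?_
  set X : ℝ := ∫ x in cube, Wt κ τ z x * (Hz (vsq v) x + Hz (ga v) x) with hX
  have hX0 : 0 ≤ X := integral_nonneg fun x => mul_nonneg (W0 x).le (H0 x)
  have r1 : 0 ≤ M * τ ^ (-(1 / (2 * a))) * (D ^ (1 / 2 - 1 / r) * (X ^ (1 / r) * √(hsq v))) := by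
    positivity
  have r2 : 0 ≤ M * τ ^ (-(1 / (2 * a))) * (D ^ (1 / 2 - 1 / r)
      * (esq v + ysq v) ^ (1 / 2 + 1 / r)) := by positivity
  set Y1 : ℝ := M * τ ^ (-(1 / (2 * a))) * (D ^ (1 / 2 - 1 / r) * (X ^ (1 / r) * √(hsq v))) with hY1
  set Y2 : ℝ := M * τ ^ (-(1 / (2 * a))) * (D ^ (1 / 2 - 1 / r)
      * (esq v + ysq v) ^ (1 / 2 + 1 / r)) with hY2
  have f1 : 2 * √C2 * (D ^ (1 / 2 - 1 / r) * √(hsq v))
      * (C1 * (M * τ ^ (-(1 / (2 * a))) * X ^ (1 / r))) = 2 * √C2 * C1 * Y1 := by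
    rw [hY1]
    ring
  have f2 : √C2 * (D ^ (1 / 2 - 1 / r) * (esq v + ysq v) ^ (1 / 2 + 1 / r))
      * (C1' * (M * τ ^ (-(1 / (2 * a))))) = √C2 * C1' * Y2 := by
    rw [hY2]
    ring
  rw [f1, f2]
  have g1 : 0 ≤ √C2 * C1' * Y1 := by positivity
  have g2 : 0 ≤ 2 * √C2 * C1 * Y2 := by positivity
  have e1 : (2 * √C2 * C1 + √C2 * C1') * (Y1 + Y2)
      = 2 * √C2 * C1 * Y1 + √C2 * C1' * Y2 + (√C2 * C1' * Y1 + 2 * √C2 * C1 * Y2) := by ring
  rw [e1]
  linarith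

end Pool.Agent.H4NC.B8
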